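import Mathlib

set_option autoImplicit false
open MeasureTheory Set

namespace Pool.Agent.W786.MinMax

/-- Weighted interval packing duality: for finitely many nondegenerate open intervals with
weights `w i ≥ 0` there are a pairwise disjoint subfamily `S` and a finite measure `ν` with
`ν (I i) ≥ w i` for all `i` and `ν univ = ∑ i ∈ S, w i`. -/
theorem minmax {ι : Type*} [DecidableEq ι] (F : Finset ι) (l r : ι → ℝ)
    (hlr : ∀ i ∈ F, l i < r i) :
    ∀ (k : ℕ) (w : ι → ℝ), (∀ i ∈ F, 0 ≤ w i) → (F.filter (fun i => 0 < w i)).card = k →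
    ∃ S : Finset ι, S ⊆ F ∧ (∀ i ∈ S, 0 < w i) ∧
      (∀ i ∈ S, ∀ j ∈ S, i ≠ j → Disjoint (Ioo (l i) (r i)) (Ioo (l j) (r j))) ∧
      ∃ ν : Measure ℝ, IsFiniteMeasure ν ∧
        (∀ i ∈ F, ENNReal.ofReal (w i) ≤ ν (Ioo (l i) (r i))) ∧
        ν univ = ENNReal.ofReal (∑ i ∈ S, w i) := by
  intro k
  induction k using Nat.strong_induction_on with
  | _ k ih =>
  intro w hw hk
  by_cases hpos : (F.filter (fun i => 0 < w i)).Nonempty
  swap
  · refine ⟨∅, Finset.empty_subset _, by simp, by simp, 0, inferInstance, ?_, by simp⟩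
    intro i hi
    have : ¬ 0 < w i := by
      intro h
      exact hpos ⟨i, Finset.mem_filter.2 ⟨hi, h⟩⟩
    rw [ENNReal.ofReal_of_nonpos (not_lt.1 this)]
    exact bot_le
  obtain ⟨i0, hi0, hmin⟩ := Finset.exists_min_image (F.filter (fun i => 0 < w i)) r hpos
  rw [Finset.mem_filter] at hi0
  -- the point p
  set G : Finset ι := (F.filter (fun i => 0 < w i)).filter (fun j => l j < r i0) with hG
  have hi0G : i0 ∈ G := by
    rw [hG, Finset.mem_filter, Finset.mem_filter]
    exact ⟨hi0, hlr i0 hi0.1⟩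
  obtain ⟨j0, hj0, hmax⟩ := Finset.exists_max_image G l ⟨i0, hi0G⟩
  have hj0' : l j0 < r i0 := by
    rw [hG, Finset.mem_filter] at hj0
    exact hj0.2
  set p : ℝ := (l j0 + r i0) / 2 with hp
  have hp1 : l j0 < p := by rw [hp]; linarith
  have hp2 : p < r i0 := by rw [hp]; linarith
  have hpi0 : p ∈ Ioo (l i0) (r i0) := ⟨lt_of_le_of_lt (hmax i0 hi0G) hp1, hp2⟩
  -- an interval of positive weight which meets `I i0` contains `p`
  have hkey : ∀ j ∈ F, 0 < w j → p ∉ Ioo (l j) (r j) →
      Disjoint (Ioo (l i0) (r i0)) (Ioo (l j) (r j)) := by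
    intro j hj hwj hpj
    have hjF : j ∈ F.filter (fun i => 0 < w i) := Finset.mem_filter.2 ⟨hj, hwj⟩
    have h1 : r i0 ≤ r j := hmin j hjF
    have h2 : r i0 ≤ l j := by
      by_contra hc
      push Not at hc
      have hjG : j ∈ G := by
        rw [hG, Finset.mem_filter]
        exact ⟨hjF, hc⟩
      exact hpj ⟨lt_of_le_of_lt (hmax j hjG) hp1, lt_of_lt_of_le hp2 h1⟩
    rw [Set.disjoint_left]
    intro x hx hx'
    exact absurd (hx.2.trans_le h2) (not_lt.2 hx'.1.le)
  set w' : ι → ℝ := fun j => if p ∈ Ioo (l j) (r j) then max (w j - w i0) 0 else w j with hw'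
  have hw'0 : ∀ i ∈ F, 0 ≤ w' i := by
    intro i hi
    simp only [hw']
    split_ifs
    · exact le_max_right _ _
    · exact hw i hi
  have hw'le : ∀ i ∈ F, w' i ≤ w i := by
    intro i hi
    simp only [hw']
    split_ifs
    · exact max_le (by linarith [hi0.2]) (hw i hi)
    · exact le_refl _
  have hw'i0 : w' i0 = 0 := by
    simp only [hw', if_pos hpi0, sub_self, max_self]
  have hcard : (F.filter (fun i => 0 < w' i)).card < k := by
    rw [← hk]
    apply Finset.card_lt_card
    rw [Finset.ssubset_iff_of_subset]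
    · refine ⟨i0, Finset.mem_filter.2 hi0, ?_⟩
      rw [Finset.mem_filter, hw'i0]
      simp
    · intro i hi
      rw [Finset.mem_filter] at hi ⊢
      exact ⟨hi.1, hi.2.trans_le (hw'le i hi.1)⟩
  obtain ⟨S, hSF, hSpos, hSdis, ν, hν, hcov, htot⟩ := ih _ hcard w' hw'0 rfl
  have hposw : ∀ i ∈ S, 0 < w i := fun i hi => (hSpos i hi).trans_le (hw'le i (hSF hi))
  -- the new measure
  set ν2 : Measure ℝ := ν + ENNReal.ofReal (w i0) • Measure.dirac p with hν2
  have hfin : IsFiniteMeasure ν2 := by
    refine ⟨?_⟩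
    rw [hν2, Measure.add_apply, Measure.smul_apply, smul_eq_mul]
    refine ENNReal.add_lt_top.2 ⟨measure_lt_top _ _, ?_⟩
    exact ENNReal.mul_lt_top ENNReal.ofReal_lt_top (measure_lt_top _ _)
  have hcov2 : ∀ i ∈ F, ENNReal.ofReal (w i) ≤ ν2 (Ioo (l i) (r i)) := by
    intro i hi
    rw [hν2, Measure.add_apply, Measure.smul_apply, smul_eq_mul,
      Measure.dirac_apply' _ measurableSet_Ioo]
    by_cases hpi : p ∈ Ioo (l i) (r i)
    · rw [Set.indicator_of_mem hpi, Pi.one_apply, mul_one]
      have h1 : w i ≤ w' i + w i0 := by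
        simp only [hw', if_pos hpi]
        linarith [le_max_left (w i - w i0) 0]
      calc ENNReal.ofReal (w i) ≤ ENNReal.ofReal (w' i + w i0) := ENNReal.ofReal_le_ofReal h1
        _ = ENNReal.ofReal (w' i) + ENNReal.ofReal (w i0) :=
            ENNReal.ofReal_add (hw'0 i hi) hi0.2.le
        _ ≤ _ := by gcongr; exact hcov i hi
    · have h1 : w' i = w i := by simp only [hw', if_neg hpi]
      rw [← h1]
      exact (hcov i hi).trans le_self_add
  have htot2 : ν2 univ = ENNReal.ofReal (∑ i ∈ S, w' i + w i0) := by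
    rw [hν2, Measure.add_apply, Measure.smul_apply, smul_eq_mul, htot, measure_univ, mul_one,
      ENNReal.ofReal_add (Finset.sum_nonneg fun i hi => (hSpos i hi).le) hi0.2.le]
  by_cases hex : ∃ j ∈ S, p ∈ Ioo (l j) (r j)
  · obtain ⟨j, hjS, hpj⟩ := hex
    refine ⟨S, hSF, hposw, hSdis, ν2, hfin, hcov2, ?_⟩
    rw [htot2]
    congr 1
    have hother : ∀ i ∈ S, i ≠ j → w' i = w i := by
      intro i hi hij
      have : p ∉ Ioo (l i) (r i) := fun h =>
        (Set.disjoint_left.1 (hSdis i hi j hjS hij)) h hpj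
      simp only [hw', if_neg this]
    have hj : w' j = w j - w i0 := by
      have h1 := hSpos j hjS
      simp only [hw', if_pos hpj] at h1 ⊢
      rcases max_choice (w j - w i0) 0 with h | h
      · exact h
      · rw [h] at h1
        exact absurd h1 (lt_irrefl _)
    rw [← Finset.add_sum_erase S w' hjS, ← Finset.add_sum_erase S w hjS, hj]
    have : ∑ i ∈ S.erase j, w' i = ∑ i ∈ S.erase j, w i :=
      Finset.sum_congr rfl fun i hi =>
        hother i (Finset.mem_of_mem_erase hi) (Finset.ne_of_mem_erase hi)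
    rw [this]
    ring
  · push Not at hex
    have hi0S : i0 ∉ S := by
      intro h
      have := hSpos i0 h
      rw [hw'i0] at this
      exact lt_irrefl _ this
    have hsame : ∀ i ∈ S, w' i = w i := fun i hi => by simp only [hw', if_neg (hex i hi)]
    refine ⟨insert i0 S, ?_, ?_, ?_, ν2, hfin, hcov2, ?_⟩
    · intro i hi
      rcases Finset.mem_insert.1 hi with rfl | hi
      · exact hi0.1
      · exact hSF hi
    · intro i hi
      rcases Finset.mem_insert.1 hi with rfl | hi
      · exact hi0.2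
      · exact hposw i hi
    · intro i hi j hj hij
      rcases Finset.mem_insert.1 hi with h1 | h1
      · rcases Finset.mem_insert.1 hj with h2 | h2
        · exact absurd (h1.trans h2.symm) hij
        · rw [h1]
          exact hkey j (hSF h2) (hposw j h2) (hex j h2)
      · rcases Finset.mem_insert.1 hj with h2 | h2
        · rw [h2]
          exact (hkey i (hSF h1) (hposw i h1) (hex i h1)).symm
        · exact hSdis i h1 j h2 hij
    · rw [htot2, Finset.sum_insert hi0S, add_comm, Finset.sum_congr rfl hsame]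

end Pool.Agent.W786.MinMax
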