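import Pool.Agent.Helper841.FDAe
import Pool.Agent.Helper746.EpLL
import Pool.Agent.Helper746.SineSob

/-!
# A quasiregular map of `ℝ³` of order one with a continuum of asymptotic values

`f x = (S x + δ x₀ e₀) / ρ x` with a Zorich type sine `S` and `ρ = √(10⁶ + x₀² + x₁²)`.
-/

set_option autoImplicit false
open MeasureTheory Filter Topology

namespace Pool.Agent.W786.Asym

open Pool.Agent.Helper746.Ep (E Gr v3 linM ext3 abs_coord norm_v3_le linM_norm linM_det
  hasFDerivAt_v3 v3_0 v3_1 v3_2 IsS tw cw mu LLat tw_bd cw_bd)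

/-- signed `exp |y| - 1` -/
noncomputable def aa (y : ℝ) : ℝ := Real.exp (max y 0) - Real.exp (max (-y) 0)

/-- the weight -/
noncomputable def rho (x : E) : ℝ := Real.sqrt (1000000 + x 0 ^ 2 + x 1 ^ 2)

noncomputable def ee (x : E) : ℝ := Real.exp |x 2|
noncomputable def bb (x : E) : ℝ := ee x * cw (x 0)
noncomputable def cc (x : E) : ℝ := ee x * cw (x 1)
noncomputable def dd (x : E) : ℝ := mu (bb x) (cc x)
noncomputable def ax (x : E) : ℝ := aa (x 2)
noncomputable def m3 (x : E) : ℝ := mu (ax x) (dd x)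

/-- the map -/
noncomputable def f (x : E) : E :=
  v3 ((ee x * tw (x 0) + 1 / 1000 * x 0) / rho x) (ee x * tw (x 1) / rho x) (m3 x / rho x)

lemma rho_arg_pos (x : E) : 0 < 1000000 + x 0 ^ 2 + x 1 ^ 2 := by positivity

lemma rho_pos (x : E) : 0 < rho x := Real.sqrt_pos.2 (rho_arg_pos x)

lemma rho_sq (x : E) : rho x ^ 2 = 1000000 + x 0 ^ 2 + x 1 ^ 2 := Real.sq_sqrt (rho_arg_pos x).le

lemma rho_ge (x : E) : 1000 ≤ rho x := by
  have h := rho_sq x
  have h0 := rho_pos x
  nlinarith [sq_nonneg (x 0), sq_nonneg (x 1)]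

lemma x0_le (x : E) : |x 0| ≤ rho x := by
  apply Real.abs_le_sqrt; nlinarith [sq_nonneg (x 1)]

lemma x1_le (x : E) : |x 1| ≤ rho x := by
  apply Real.abs_le_sqrt; nlinarith [sq_nonneg (x 0)]

lemma ee_ge (x : E) : 1 ≤ ee x := Real.one_le_exp (abs_nonneg _)

lemma rho_ll (x : E) : LLat rho x := by
  apply LLat.of_contDiffAt
  unfold rho
  apply ContDiffAt.sqrt
  · fun_prop
  · exact (rho_arg_pos x).ne'

lemma ee_ll (x : E) : LLat ee x := (LLat.coord 2 x).abs.exp

lemma max0_ll {X : Type*} [PseudoEMetricSpace X] {g : X → ℝ} {x : X} (hg : LLat g x) :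
    LLat (fun y => max (g y) 0) x := by
  have e : (fun y => max (g y) 0) = fun y => (g y + |g y|) / 2 := by
    funext y
    rcases le_total 0 (g y) with h | h
    · rw [max_eq_left h, abs_of_nonneg h]; ring
    · rw [max_eq_right h, abs_of_nonpos h]; ring
  rw [e]
  exact (hg.add hg.abs).div (LLat.const 2 x) (by norm_num)

lemma ax_ll (x : E) : LLat ax x := by
  unfold ax aa
  exact (max0_ll (LLat.coord 2 x)).exp.sub (max0_ll (LLat.coord 2 x).neg).exp

lemma bb_ll (x : E) : LLat bb x := (ee_ll x).mul (LLat.coord 0 x).cw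
lemma cc_ll (x : E) : LLat cc x := (ee_ll x).mul (LLat.coord 1 x).cw
lemma dd_ll (x : E) : LLat dd x := (bb_ll x).mu (cc_ll x)
lemma m3_ll (x : E) : LLat m3 x := (ax_ll x).mu (dd_ll x)

lemma f_ll (x : E) : LLat f x := by
  unfold f
  apply LLat.v3
  · exact (((ee_ll x).mul (LLat.coord 0 x).tw).add ((LLat.coord 0 x).cmul _)).div (rho_ll x)
      (rho_pos x).ne'
  · exact ((ee_ll x).mul (LLat.coord 1 x).tw).div (rho_ll x) (rho_pos x).ne'
  · exact (m3_ll x).div (rho_ll x) (rho_pos x).ne'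

lemma f_locLip : LocallyLipschitz f := fun x => f_ll x

lemma f_lip_ball (r : ℝ) : ∃ C : NNReal, LipschitzOnWith C f (Metric.closedBall (0 : E) r) :=
  (f_locLip.locallyLipschitzOn (s := Metric.closedBall (0 : E) r)).exists_lipschitzOnWith_of_compact
    (isCompact_closedBall (0 : E) r)

/-! ### derivative of the pieces -/

/-- If `|h|` is differentiable at a zero of `h`, the gradient of `h` vanishes there. -/
lemma grad_zero {h : E → ℝ} {x : E} {a b c : ℝ} (hg : Gr h x a b c) (h0 : h x = 0)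
    (hd : DifferentiableAt ℝ (fun y => |h y|) x) : a = 0 ∧ b = 0 ∧ c = 0 := by
  have hmin : IsLocalMin (fun y => |h y|) x := by
    refine Eventually.of_forall fun y => ?_
    show |h x| ≤ |h y|
    rw [h0, abs_zero]; exact abs_nonneg _
  have h1 := hd.hasFDerivAt
  rw [hmin.fderiv_eq_zero] at h1
  have h2 : HasFDerivAt h (0 : E →L[ℝ] ℝ) x := by
    rw [hasFDerivAt_iff_isLittleO] at h1 ⊢
    have e1 : (fun x' => |h x'| - |h x| - (0 : E →L[ℝ] ℝ) (x' - x)) = fun x' => ‖h x'‖ := by
      funext y; rw [h0]; simp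
    have e2 : (fun x' => h x' - h x - (0 : E →L[ℝ] ℝ) (x' - x)) = fun x' => h x' := by
      funext y; rw [h0]; simp
    rw [e1] at h1
    rw [e2]
    exact h1.of_norm_left
  have h3 := HasFDerivAt.unique hg h2
  have k : ∀ v : E, a * v 0 + b * v 1 + c * v 2 = 0 := by
    intro v
    have := congrArg (fun L : E →L[ℝ] ℝ => L v) h3
    simpa using this
  exact ⟨by simpa using k (v3 1 0 0), by simpa using k (v3 0 1 0), by simpa using k (v3 0 0 1)⟩

lemma ee_gr {x : E} {ε : ℝ} (hε : IsS ε) (hx : 0 < ε * x 2) : Gr ee x 0 0 (ε * ee x) := by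
  have h1 : (fun y : E => |y 2|) =ᶠ[𝓝 x] fun y => ε * y 2 := by
    have hc : ContinuousAt (fun y : E => ε * y 2) x := by fun_prop
    filter_upwards [hc.eventually (lt_mem_nhds hx)] with y hy
    rcases hε with h | h <;> rw [h] at hy ⊢
    · rw [abs_of_pos (by linarith)]; ring
    · rw [abs_of_neg (by linarith)]; ring
  have h2 : Gr (fun y : E => |y 2|) x 0 0 ε :=
    (((Gr.c2 (x := x)).cmul ε).of_eq h1).congr (by ring) (by ring) (by ring)
  exact h2.exp.congr (by ring) (by ring) (by unfold ee; ring)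

lemma ax_gr {x : E} {ε : ℝ} (hε : IsS ε) (hx : 0 < ε * x 2) :
    Gr ax x 0 0 (ee x) ∧ ax x = ε * (ee x - 1) := by
  have hc : ContinuousAt (fun y : E => ε * y 2) x := by fun_prop
  have key : ∀ y : E, 0 < ε * y 2 → ax y = ε * (ee y - 1) := by
    intro y hy
    unfold ax aa ee
    rcases hε with h | h <;> rw [h] at hy ⊢
    · rw [max_eq_left (by linarith), max_eq_right (by linarith), abs_of_pos (by linarith),
        Real.exp_zero]; ring
    · rw [max_eq_right (by linarith), max_eq_left (by linarith), abs_of_neg (by linarith),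
        Real.exp_zero]; ring
  refine ⟨?_, key x hx⟩
  have h1 : ax =ᶠ[𝓝 x] fun y => ε * (ee y - 1) := by
    filter_upwards [hc.eventually (lt_mem_nhds hx)] with y hy
    exact key y hy
  have h2 := (((ee_gr hε hx).sub (Gr.const (x := x) 1)).cmul ε).of_eq h1
  refine h2.congr (by ring) (by ring) ?_
  have := hε.sq
  linear_combination (ee x) * this

/-- the triangle functions off the integers -/
lemma tri_deriv {x : ℝ} (hx : ∀ n : ℤ, x ≠ n) : ∃ s u τ : ℝ, IsS s ∧ IsS τ ∧ 0 < τ * u ∧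
    τ * u < 1 ∧ tw x = s * u ∧ cw x = s * (1 - τ * u) ∧ HasDerivAt tw s x ∧
    HasDerivAt cw (-(s * τ)) x := by
  obtain ⟨k, s, hs, hk, hcell⟩ := Pool.Agent.Helper746.Ep.tri x
  have h1 : |x - 2 * k| < 1 := by
    refine lt_of_le_of_ne hk fun h => ?_
    rcases eq_or_eq_neg_of_abs_eq h with h' | h'
    · apply hx (2 * k + 1); push_cast; linarith
    · apply hx (2 * k - 1); push_cast; linarith
  have h2 : x - 2 * k ≠ 0 := by
    intro h; apply hx (2 * k); push_cast; linarith
  obtain ⟨τ, hτ, hτu⟩ : ∃ τ : ℝ, IsS τ ∧ 0 < τ * (x - 2 * k) := by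
    rcases lt_or_gt_of_ne h2 with h | h
    · exact ⟨-1, Or.inr rfl, by linarith⟩
    · exact ⟨1, Or.inl rfl, by linarith⟩
  have habs : ∀ y : ℝ, 0 < τ * (y - 2 * k) → |y - 2 * k| = τ * (y - 2 * k) := by
    intro y hy
    rcases hτ with h | h <;> rw [h] at hy ⊢
    · rw [abs_of_pos (by linarith)]; ring
    · rw [abs_of_neg (by linarith)]; ring
  obtain ⟨ht, hc⟩ := hcell x hk
  have hev : ∀ᶠ y : ℝ in 𝓝 x, |y - 2 * k| ≤ 1 := by
    have : ContinuousAt (fun y : ℝ => |y - 2 * k|) x := by fun_prop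
    filter_upwards [this.eventually (gt_mem_nhds h1)] with y hy
    exact hy.le
  have hev2 : ∀ᶠ y : ℝ in 𝓝 x, 0 < τ * (y - 2 * k) := by
    have : ContinuousAt (fun y : ℝ => τ * (y - 2 * k)) x := by fun_prop
    exact this.eventually (lt_mem_nhds hτu)
  refine ⟨s, x - 2 * k, τ, hs, hτ, hτu, ?_, ht, ?_, ?_, ?_⟩
  · rw [← habs x hτu]; exact h1
  · rw [hc, habs x hτu]
  · have hd : HasDerivAt (fun y : ℝ => s * (y - 2 * k)) s x := by
      simpa using ((hasDerivAt_id x).sub_const (2 * (k : ℝ))).const_mul s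
    apply hd.congr_of_eventuallyEq
    filter_upwards [hev] with y hy
    exact (hcell y hy).1
  · have hd : HasDerivAt (fun y : ℝ => s * (1 - τ * (y - 2 * k))) (-(s * τ)) x := by
      have := (((((hasDerivAt_id x).sub_const (2 * (k : ℝ))).const_mul τ).const_sub 1).const_mul s)
      simpa using this
    apply hd.congr_of_eventuallyEq
    filter_upwards [hev, hev2] with y hy hy2
    rw [(hcell y hy).2, habs y hy2]

/-- the signed minimum where the second argument is larger -/
lemma mu_eq {σ u v : ℝ} (hσ : IsS σ) (hv : 0 < σ * v) (h : |u| < |v|) : mu u v = σ * u := by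
  have hv' : |v| = σ * v := by
    rcases hσ with h | h <;> rw [h] at hv ⊢
    · rw [abs_of_pos (by linarith)]; ring
    · rw [abs_of_neg (by linarith)]; ring
  rw [hv'] at h
  have h2 := abs_lt.1 h
  unfold mu
  rcases hσ with h | h <;> rw [h] at h2 ⊢
  · rw [abs_of_pos (by linarith), abs_of_neg (by linarith)]; ring
  · rw [abs_of_neg (by linarith), abs_of_pos (by linarith)]; ring

lemma mu_ev {u v : E → ℝ} {x : E} {σ : ℝ} (hσ : IsS σ) (hu : ContinuousAt u x)
    (hv : ContinuousAt v x) (h0 : 0 < σ * v x) (h : |u x| < |v x|) :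
    (fun y => mu (u y) (v y)) =ᶠ[𝓝 x] fun y => σ * u y := by
  have h1 : ContinuousAt (fun y => σ * v y) x := hv.const_mul σ
  have h2 : ContinuousAt (fun y => |v y| - |u y|) x := hv.abs.sub hu.abs
  filter_upwards [h1.eventually (lt_mem_nhds h0),
    h2.eventually (lt_mem_nhds (show (0:ℝ) < |v x| - |u x| by linarith))] with y hy hy2
  exact mu_eq hσ hy (by linarith)

end Pool.Agent.W786.Asym
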