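import Pool.Agent.W786.Asym1

set_option autoImplicit false
open MeasureTheory Filter Topology

namespace Pool.Agent.W786.Asym

open Pool.Agent.Helper746.Ep (E Gr v3 linM ext3 abs_coord norm_v3_le linM_norm linM_det
  hasFDerivAt_v3 v3_0 v3_1 v3_2 IsS tw cw mu LLat tw_bd cw_bd)

lemma prod3 {a b c e f g : ℝ} (ha : |a| ≤ 1) (hb : |b| ≤ 1) (hc : |c| ≤ 1) (he : |e| ≤ 1 / 100)
    (hf : |f| ≤ 1 / 100) (hg : |g| ≤ 1 / 100) :
    |(a + e) * (b + f) * (c + g) - a * b * c| ≤ 1 / 30 := by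
  have h1 : (a + e) * (b + f) * (c + g) - a * b * c =
      e * ((b + f) * (c + g)) + a * (f * (c + g)) + a * b * g := by ring
  have hbf : |b + f| ≤ 101 / 100 := (abs_add_le _ _).trans (by linarith)
  have hcg : |c + g| ≤ 101 / 100 := (abs_add_le _ _).trans (by linarith)
  rw [h1]
  have e1 : |e * ((b + f) * (c + g))| ≤ 1 / 100 * (101 / 100 * (101 / 100)) := by
    rw [abs_mul, abs_mul]; gcongr
  have e2 : |a * (f * (c + g))| ≤ 1 * (1 / 100 * (101 / 100)) := by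
    rw [abs_mul, abs_mul]; gcongr
  have e3 : |a * b * g| ≤ 1 * 1 * (1 / 100) := by
    rw [abs_mul, abs_mul]; gcongr
  have e4 := abs_add_le (e * ((b + f) * (c + g)) + a * (f * (c + g))) (a * b * g)
  have e5 := abs_add_le (e * ((b + f) * (c + g))) (a * (f * (c + g)))
  norm_num at *
  linarith

/-- the estimate for the perturbed matrix -/
lemma matrix_est {κ : ℝ} (hκ : 0 < κ)
    {n00 n01 n02 n10 n11 n12 n20 n21 n22 e00 e01 e02 e10 e11 e12 e20 e21 e22 : ℝ}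
    (h00 : |n00| ≤ 1) (h01 : |n01| ≤ 1) (h02 : |n02| ≤ 1) (h10 : |n10| ≤ 1) (h11 : |n11| ≤ 1)
    (h12 : |n12| ≤ 1) (h20 : |n20| ≤ 1) (h21 : |n21| ≤ 1) (h22 : |n22| ≤ 1)
    (k00 : |e00| ≤ 1 / 100) (k01 : |e01| ≤ 1 / 100) (k02 : |e02| ≤ 1 / 100)
    (k10 : |e10| ≤ 1 / 100) (k11 : |e11| ≤ 1 / 100) (k12 : |e12| ≤ 1 / 100)
    (k20 : |e20| ≤ 1 / 100) (k21 : |e21| ≤ 1 / 100) (k22 : |e22| ≤ 1 / 100)
    (hdet : (n10 * n21 - n20 * n11) * n02 + (n20 * n01 - n00 * n21) * n12 +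
      (n00 * n11 - n10 * n01) * n22 = 1) :
    ‖linM (v3 (κ * (n00 + e00)) (κ * (n10 + e10)) (κ * (n20 + e20)))
        (v3 (κ * (n01 + e01)) (κ * (n11 + e11)) (κ * (n21 + e21)))
        (v3 (κ * (n02 + e02)) (κ * (n12 + e12)) (κ * (n22 + e22)))‖ ^ 3 ≤
      2000 * ContinuousLinearMap.det
        (linM (v3 (κ * (n00 + e00)) (κ * (n10 + e10)) (κ * (n20 + e20)))
        (v3 (κ * (n01 + e01)) (κ * (n11 + e11)) (κ * (n21 + e21)))
        (v3 (κ * (n02 + e02)) (κ * (n12 + e12)) (κ * (n22 + e22)))) := by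
  have hent : ∀ {n e : ℝ}, |n| ≤ 1 → |e| ≤ 1 / 100 → |κ * (n + e)| ≤ κ * (101 / 100) := by
    intro n e hn he
    rw [abs_mul, abs_of_pos hκ]
    have := abs_add_le n e
    gcongr
    linarith
  have hnorm : ‖linM (v3 (κ * (n00 + e00)) (κ * (n10 + e10)) (κ * (n20 + e20)))
        (v3 (κ * (n01 + e01)) (κ * (n11 + e11)) (κ * (n21 + e21)))
        (v3 (κ * (n02 + e02)) (κ * (n12 + e12)) (κ * (n22 + e22)))‖ ≤ 10 * κ := by
    refine (linM_norm _ _ _).trans ?_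
    have a1 := norm_v3_le (κ * (n00 + e00)) (κ * (n10 + e10)) (κ * (n20 + e20))
    have a2 := norm_v3_le (κ * (n01 + e01)) (κ * (n11 + e11)) (κ * (n21 + e21))
    have a3 := norm_v3_le (κ * (n02 + e02)) (κ * (n12 + e12)) (κ * (n22 + e22))
    have := hent h00 k00; have := hent h01 k01; have := hent h02 k02
    have := hent h10 k10; have := hent h11 k11; have := hent h12 k12
    have := hent h20 k20; have := hent h21 k21; have := hent h22 k22
    linarith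
  rw [linM_det]
  have hT : Pool.Agent.Helper746.Ep.T
      (v3 (κ * (n00 + e00)) (κ * (n10 + e10)) (κ * (n20 + e20)))
        (v3 (κ * (n01 + e01)) (κ * (n11 + e11)) (κ * (n21 + e21)))
        (v3 (κ * (n02 + e02)) (κ * (n12 + e12)) (κ * (n22 + e22))) =
      κ ^ 3 * (1 + ((n10 + e10) * (n21 + e21) * (n02 + e02) - n10 * n21 * n02)
        - ((n20 + e20) * (n11 + e11) * (n02 + e02) - n20 * n11 * n02)
        + ((n20 + e20) * (n01 + e01) * (n12 + e12) - n20 * n01 * n12)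
        - ((n00 + e00) * (n21 + e21) * (n12 + e12) - n00 * n21 * n12)
        + ((n00 + e00) * (n11 + e11) * (n22 + e22) - n00 * n11 * n22)
        - ((n10 + e10) * (n01 + e01) * (n22 + e22) - n10 * n01 * n22)) := by
    unfold Pool.Agent.Helper746.Ep.T
    simp only [v3_0, v3_1, v3_2]
    linear_combination (κ ^ 3) * hdet
  rw [hT]
  have p1 := abs_le.1 (prod3 h10 h21 h02 k10 k21 k02)
  have p2 := abs_le.1 (prod3 h20 h11 h02 k20 k11 k02)
  have p3 := abs_le.1 (prod3 h20 h01 h12 k20 k01 k12)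
  have p4 := abs_le.1 (prod3 h00 h21 h12 k00 k21 k12)
  have p5 := abs_le.1 (prod3 h00 h11 h22 k00 k11 k22)
  have p6 := abs_le.1 (prod3 h10 h01 h22 k10 k01 k22)
  set D : ℝ := (1 + ((n10 + e10) * (n21 + e21) * (n02 + e02) - n10 * n21 * n02)
        - ((n20 + e20) * (n11 + e11) * (n02 + e02) - n20 * n11 * n02)
        + ((n20 + e20) * (n01 + e01) * (n12 + e12) - n20 * n01 * n12)
        - ((n00 + e00) * (n21 + e21) * (n12 + e12) - n00 * n21 * n12)
        + ((n00 + e00) * (n11 + e11) * (n22 + e22) - n00 * n11 * n22)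
        - ((n10 + e10) * (n01 + e01) * (n22 + e22) - n10 * n01 * n22)) with hD
  have hD1 : 1 / 2 ≤ D := by rw [hD]; linarith [p1.1, p2.2, p3.1, p4.2, p5.1, p6.2]
  have hk3 : 0 < κ ^ 3 := by positivity
  calc _ ≤ (10 * κ) ^ 3 := by gcongr
    _ = 2000 * (κ ^ 3 * (1 / 2)) := by ring
    _ ≤ 2000 * (κ ^ 3 * D) := by gcongr

lemma rho_gr (x : E) : Gr rho x (x 0 / rho x) (x 1 / rho x) 0 := by
  have h1 : Gr (fun y : E => 1000000 + y 0 ^ 2 + y 1 ^ 2) x (2 * x 0) (2 * x 1) 0 := by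
    have h := ((Gr.const (x := x) 1000000).add ((Gr.c0 (x := x)).mul (Gr.c0 (x := x)))).add
      ((Gr.c1 (x := x)).mul (Gr.c1 (x := x)))
    have h' := h.congr (a' := 2 * x 0) (b' := 2 * x 1) (c' := 0) (by ring) (by ring) (by ring)
    apply h'.of_eq
    apply Eventually.of_forall
    intro y
    show 1000000 + y 0 ^ 2 + y 1 ^ 2 = 1000000 + y 0 * y 0 + y 1 * y 1
    ring
  have h2 := h1.comp (Real.hasDerivAt_sqrt (rho_arg_pos x).ne')
  have hr := (rho_pos x).ne'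
  have hr' : Real.sqrt (1000000 + x 0 ^ 2 + x 1 ^ 2) = rho x := rfl
  rw [hr'] at h2
  exact h2.congr (by field_simp) (by field_simp) (by ring)

lemma IsS.le {n : ℝ} (h : IsS n) : |n| ≤ 1 := h.abs.le

lemma abs_le_one_of {τ u : ℝ} (hτ : IsS τ) (h0 : 0 < τ * u) (h1 : τ * u < 1) : |u| ≤ 1 := by
  have : |u| = τ * u := by
    rcases hτ with h | h <;> rw [h] at h0 ⊢
    · rw [abs_of_pos (by linarith)]; ring
    · rw [abs_of_neg (by linarith)]; ring
  linarith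

/-- assembling the derivative of `f` -/
lemma assemble {x : E} {ε s0 u0 s1 u1 n0 n1 n2 w : ℝ} (hε : IsS ε) (hx2 : 0 < ε * x 2)
    (hs0 : IsS s0) (hs1 : IsS s1) (hu0 : |u0| ≤ 1) (hu1 : |u1| ≤ 1)
    (ht0 : tw (x 0) = s0 * u0) (ht1 : tw (x 1) = s1 * u1)
    (hd0 : HasDerivAt tw s0 (x 0)) (hd1 : HasDerivAt tw s1 (x 1))
    (hm : Gr m3 x (ee x * n0) (ee x * n1) (ee x * n2)) (hmv : m3 x = ee x * w)
    (hn0 : |n0| ≤ 1) (hn1 : |n1| ≤ 1) (hn2 : |n2| ≤ 1) (hw : |w| ≤ 1)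
    (hdet : s0 * s1 * n2 - s0 * (ε * s1 * u1) * n1 - ε * s0 * u0 * s1 * n0 = 1) :
    ∃ A : E →L[ℝ] E, HasFDerivAt f A x ∧ ‖A‖ ^ 3 ≤ 2000 * ContinuousLinearMap.det A := by
  have hr := rho_pos x
  have hr1 := rho_ge x
  have he := ee_ge x
  have he0 : 0 < ee x := by linarith
  set e := ee x with hedef
  set r := rho x with hrdef
  have g1 : Gr (fun y : E => ee y * tw (y 0) + 1 / 1000 * y 0) x (e * s0 + 1 / 1000) 0
      (ε * e * (s0 * u0)) := by
    refine (((ee_gr hε hx2).mul ((Gr.c0 (x := x)).comp hd0)).add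
      ((Gr.c0 (x := x)).cmul (1 / 1000))).congr ?_ ?_ ?_
    · rw [← hedef]; ring
    · ring
    · rw [ht0, ← hedef]; ring
  have g2 : Gr (fun y : E => ee y * tw (y 1)) x 0 (e * s1) (ε * e * (s1 * u1)) := by
    refine ((ee_gr hε hx2).mul ((Gr.c1 (x := x)).comp hd1)).congr ?_ ?_ ?_
    · ring
    · rw [← hedef]; ring
    · rw [ht1, ← hedef]; ring
  have hρ := rho_gr x
  have hA := hasFDerivAt_v3 (g1.div hρ hr.ne') (g2.div hρ hr.ne') (hm.div hρ hr.ne')
  -- small quantities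
  set α := x 0 / r ^ 2 with hα
  set β := x 1 / r ^ 2 with hβ
  have hα1 : |α| ≤ 1 / 1000 := by
    rw [hα, abs_div, abs_of_pos (by positivity : 0 < r ^ 2), div_le_div_iff₀ (by positivity)
      (by norm_num)]
    nlinarith [x0_le x, abs_nonneg (x 0)]
  have hβ1 : |β| ≤ 1 / 1000 := by
    rw [hβ, abs_div, abs_of_pos (by positivity : 0 < r ^ 2), div_le_div_iff₀ (by positivity)
      (by norm_num)]
    nlinarith [x1_le x, abs_nonneg (x 1)]
  have hxα : |x 0 * α| ≤ 1 := by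
    rw [hα, ← mul_div_assoc, abs_div, abs_mul, abs_of_pos (by positivity : 0 < r ^ 2),
      div_le_one (by positivity)]
    nlinarith [x0_le x, abs_nonneg (x 0)]
  have hxβ : |x 0 * β| ≤ 1 := by
    rw [hβ, ← mul_div_assoc, abs_div, abs_mul, abs_of_pos (by positivity : 0 < r ^ 2),
      div_le_one (by positivity)]
    nlinarith [x0_le x, x1_le x, abs_nonneg (x 0), abs_nonneg (x 1)]
  have hei : |e⁻¹| ≤ 1 := by
    rw [abs_of_pos (by positivity)]; exact inv_le_one_of_one_le₀ he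
  have hsu0 : |s0 * u0| ≤ 1 := by
    rw [abs_mul]; have := IsS.le hs0
    calc |s0| * |u0| ≤ 1 * 1 := by gcongr
      _ = 1 := by norm_num
  have hsu1 : |s1 * u1| ≤ 1 := by
    rw [abs_mul]; have := IsS.le hs1
    calc |s1| * |u1| ≤ 1 * 1 := by gcongr
      _ = 1 := by norm_num
  have small : ∀ {p q : ℝ}, |p| ≤ 1 → |q| ≤ 1 / 1000 → |p * q| ≤ 1 / 1000 := by
    intro p q hp hq
    rw [abs_mul]
    calc |p| * |q| ≤ 1 * (1 / 1000) := by gcongr
      _ = 1 / 1000 := by norm_num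
  have E00 : |1 / 1000 * e⁻¹ - (s0 * u0 * α + 1 / 1000 * (e⁻¹ * (x 0 * α)))| ≤ 1 / 100 := by
    have h1 : |1 / 1000 * e⁻¹| ≤ 1 / 1000 := by
      rw [mul_comm]; exact small hei (by rw [abs_of_pos] <;> norm_num)
    have h2 := small hsu0 hα1
    have h3 : |1 / 1000 * (e⁻¹ * (x 0 * α))| ≤ 1 / 1000 := by
      rw [mul_comm]
      refine small ?_ (by rw [abs_of_pos] <;> norm_num)
      rw [abs_mul]
      calc |e⁻¹| * |x 0 * α| ≤ 1 * 1 := by gcongr
        _ = 1 := by norm_num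
    rw [abs_le] at *
    constructor <;> linarith [h1.1, h1.2, h2.1, h2.2, h3.1, h3.2]
  have E01 : |-(s0 * u0 * β + 1 / 1000 * (e⁻¹ * (x 0 * β)))| ≤ 1 / 100 := by
    have h2 := small hsu0 hβ1
    have h3 : |1 / 1000 * (e⁻¹ * (x 0 * β))| ≤ 1 / 1000 := by
      rw [mul_comm]
      refine small ?_ (by rw [abs_of_pos] <;> norm_num)
      rw [abs_mul]
      calc |e⁻¹| * |x 0 * β| ≤ 1 * 1 := by gcongr
        _ = 1 := by norm_num
    rw [abs_le] at *
    constructor <;> linarith [h2.1, h2.2, h3.1, h3.2]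
  have hz : |(0 : ℝ)| ≤ 1 / 100 := by rw [abs_zero]; norm_num
  have hz1 : |(0 : ℝ)| ≤ 1 := by rw [abs_zero]; norm_num
  have E10 : |-(s1 * u1 * α)| ≤ 1 / 100 := by
    rw [abs_neg]; exact (small hsu1 hα1).trans (by norm_num)
  have E11 : |-(s1 * u1 * β)| ≤ 1 / 100 := by
    rw [abs_neg]; exact (small hsu1 hβ1).trans (by norm_num)
  have E20 : |-(w * α)| ≤ 1 / 100 := by
    rw [abs_neg]; exact (small hw hα1).trans (by norm_num)
  have E21 : |-(w * β)| ≤ 1 / 100 := by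
    rw [abs_neg]; exact (small hw hβ1).trans (by norm_num)
  have N02 : |ε * (s0 * u0)| ≤ 1 := by
    rw [abs_mul]; have := IsS.le hε
    calc |ε| * |s0 * u0| ≤ 1 * 1 := by gcongr
      _ = 1 := by norm_num
  have N12 : |ε * (s1 * u1)| ≤ 1 := by
    rw [abs_mul]; have := IsS.le hε
    calc |ε| * |s1 * u1| ≤ 1 * 1 := by gcongr
      _ = 1 := by norm_num
  have key := matrix_est (κ := e / r) (by positivity)
    (IsS.le hs0) hz1 N02 hz1 (IsS.le hs1) N12 hn0 hn1 hn2 E00 E01 hz E10 E11 hz E20 E21 hz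
    (by linear_combination hdet)
  refine ⟨_, ?_, key⟩
  have hp : (fun y : E => ee y * tw (y 0) + 1 / 1000 * y 0) x = e * (s0 * u0) + 1 / 1000 * x 0 := by
    show ee x * tw (x 0) + 1 / 1000 * x 0 = _
    rw [ht0]
  have hq : (fun y : E => ee y * tw (y 1)) x = e * (s1 * u1) := by
    show ee x * tw (x 1) = _
    rw [ht1]
  have hr' : r ≠ 0 := hr.ne'
  have he' : e ≠ 0 := he0.ne'
  have hrr : rho x = r := rfl
  have c1 : (v3 (e / r * (s0 + (1 / 1000 * e⁻¹ - (s0 * u0 * α + 1 / 1000 * (e⁻¹ * (x 0 * α))))))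
      (e / r * (0 + -(s1 * u1 * α))) (e / r * (n0 + -(w * α)))) =
      v3 (((e * s0 + 1 / 1000) * rho x - (ee x * tw (x 0) + 1 / 1000 * x 0) * (x 0 / rho x)) / rho x ^ 2)
        ((0 * rho x - ee x * tw (x 1) * (x 0 / rho x)) / rho x ^ 2)
        ((ee x * n0 * rho x - m3 x * (x 0 / rho x)) / rho x ^ 2) := by
    rw [hmv, ht0, ht1, hrr, ← hedef]
    congr 1
    · rw [hα]; field_simp; ring
    · rw [hα]; field_simp; ring
    · rw [hα]; field_simp; ring
  have c2 : (v3 (e / r * (0 + -(s0 * u0 * β + 1 / 1000 * (e⁻¹ * (x 0 * β)))))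
      (e / r * (s1 + -(s1 * u1 * β))) (e / r * (n1 + -(w * β)))) =
      v3 ((0 * rho x - (ee x * tw (x 0) + 1 / 1000 * x 0) * (x 1 / rho x)) / rho x ^ 2)
        ((e * s1 * rho x - ee x * tw (x 1) * (x 1 / rho x)) / rho x ^ 2)
        ((ee x * n1 * rho x - m3 x * (x 1 / rho x)) / rho x ^ 2) := by
    rw [hmv, ht0, ht1, hrr, ← hedef]
    congr 1
    · rw [hβ]; field_simp; ring
    · rw [hβ]; field_simp; ring
    · rw [hβ]; field_simp; ring
  have c3 : (v3 (e / r * (ε * (s0 * u0) + 0)) (e / r * (ε * (s1 * u1) + 0)) (e / r * (n2 + 0))) =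
      v3 ((ε * e * (s0 * u0) * rho x - (ee x * tw (x 0) + 1 / 1000 * x 0) * 0) / rho x ^ 2)
        ((ε * e * (s1 * u1) * rho x - ee x * tw (x 1) * 0) / rho x ^ 2)
        ((ee x * n2 * rho x - m3 x * 0) / rho x ^ 2) := by
    rw [hmv, ht0, ht1, hrr, ← hedef]
    congr 1
    · field_simp; ring
    · field_simp; ring
    · field_simp; ring
  rw [c1, c2, c3]
  exact hA

end Pool.Agent.W786.Asym
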