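import Pool.Agent.W786.Asym2

set_option autoImplicit false
open MeasureTheory Filter Topology

namespace Pool.Agent.W786.Asym

open Pool.Agent.Helper746.Ep (E Gr v3 linM ext3 abs_coord norm_v3_le linM_norm linM_det
  hasFDerivAt_v3 v3_0 v3_1 v3_2 IsS tw cw mu LLat tw_bd cw_bd)

lemma isS_ne {n : ℝ} (h : IsS n) : n ≠ 0 := by rcases h with h | h <;> rw [h] <;> norm_num

lemma isS_mm {n : ℝ} (h : IsS n) : n * n = 1 := by
  rcases h with h | h <;> rw [h] <;> norm_num

theorem good {x : E} (h0 : ∀ n : ℤ, (x 0 : ℝ) ≠ (n : ℝ)) (h1 : ∀ n : ℤ, (x 1 : ℝ) ≠ (n : ℝ)) (h2 : x 2 ≠ 0)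
    (d1 : DifferentiableAt ℝ (fun y => |bb y - cc y|) x)
    (d2 : DifferentiableAt ℝ (fun y => |bb y + cc y|) x)
    (d3 : DifferentiableAt ℝ (fun y => |ax y - dd y|) x)
    (d4 : DifferentiableAt ℝ (fun y => |ax y + dd y|) x) :
    ∃ A : E →L[ℝ] E, HasFDerivAt f A x ∧ ‖A‖ ^ 3 ≤ 2000 * ContinuousLinearMap.det A := by
  obtain ⟨s0, u0, τ0, hs0, hτ0, hp0, hl0, ht0, hc0, hdt0, hdc0⟩ := tri_deriv h0
  obtain ⟨s1, u1, τ1, hs1, hτ1, hp1, hl1, ht1, hc1, hdt1, hdc1⟩ := tri_deriv h1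
  obtain ⟨ε, hε, hx2⟩ : ∃ ε : ℝ, IsS ε ∧ 0 < ε * x 2 := by
    rcases lt_or_gt_of_ne h2 with h | h
    · exact ⟨-1, Or.inr rfl, by linarith⟩
    · exact ⟨1, Or.inl rfl, by linarith⟩
  have hu0 := abs_le_one_of hτ0 hp0 hl0
  have hu1 := abs_le_one_of hτ1 hp1 hl1
  have he := ee_ge x
  have he0 : 0 < ee x := by linarith
  have he1 : 1 < ee x := by
    unfold ee
    rw [Real.one_lt_exp_iff]; exact abs_pos.2 h2
  obtain ⟨hag, hav⟩ := ax_gr hε hx2
  set e := ee x with hedef
  have hbg : Gr bb x (-(e * (s0 * τ0))) 0 (ε * e * (s0 * (1 - τ0 * u0))) := by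
    refine ((ee_gr hε hx2).mul ((Gr.c0 (x := x)).comp hdc0)).congr ?_ ?_ ?_
    · rw [← hedef]; ring
    · ring
    · rw [hc0, ← hedef]; ring
  have hbv : bb x = e * (s0 * (1 - τ0 * u0)) := by unfold bb; rw [hc0]
  have hcg : Gr cc x 0 (-(e * (s1 * τ1))) (ε * e * (s1 * (1 - τ1 * u1))) := by
    refine ((ee_gr hε hx2).mul ((Gr.c1 (x := x)).comp hdc1)).congr ?_ ?_ ?_
    · ring
    · rw [← hedef]; ring
    · rw [hc1, ← hedef]; ring
  have hcv : cc x = e * (s1 * (1 - τ1 * u1)) := by unfold cc; rw [hc1]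
  have hst0 : e * (s0 * τ0) ≠ 0 := mul_ne_zero he0.ne' (mul_ne_zero (isS_ne hs0) (isS_ne hτ0))
  have hst1 : e * (s1 * τ1) ≠ 0 := mul_ne_zero he0.ne' (mul_ne_zero (isS_ne hs1) (isS_ne hτ1))
  have hbc1 : bb x - cc x ≠ 0 := by
    intro h
    have := (grad_zero (hbg.sub hcg) h d1).1
    apply hst0; linarith
  have hbc2 : bb x + cc x ≠ 0 := by
    intro h
    have := (grad_zero (hbg.add hcg) h d2).1
    apply hst0; linarith
  have hbc : |bb x| ≠ |cc x| := by
    intro h
    rcases abs_eq_abs.1 h with h | h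
    · apply hbc1; linarith
    · apply hbc2; linarith
  have hsb : 0 < s0 * bb x := by
    rw [hbv]
    have : s0 * (e * (s0 * (1 - τ0 * u0))) = (s0 * s0) * (e * (1 - τ0 * u0)) := by ring
    rw [this, (isS_mm hs0), one_mul]
    apply mul_pos he0; linarith
  have hsc : 0 < s1 * cc x := by
    rw [hcv]
    have : s1 * (e * (s1 * (1 - τ1 * u1))) = (s1 * s1) * (e * (1 - τ1 * u1)) := by ring
    rw [this, (isS_mm hs1), one_mul]
    apply mul_pos he0; linarith
  have hea : 0 < ε * ax x := by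
    rw [hav]
    have : ε * (ε * (e - 1)) = (ε * ε) * (e - 1) := by ring
    rw [this, (isS_mm hε), one_mul]; linarith
  have hss : IsS (s0 * s1) := hs0.mul hs1
  have hss1 : IsS (s1 * s0) := hs1.mul hs0
  have hcA : ContinuousAt ax x := (ax_ll x).continuousAt
  have hcB : ContinuousAt bb x := (bb_ll x).continuousAt
  have hcC : ContinuousAt cc x := (cc_ll x).continuousAt
  have hcD : ContinuousAt dd x := (dd_ll x).continuousAt
  have b01 : |1 - τ0 * u0| ≤ 1 := by rw [abs_of_pos (by linarith)]; linarith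
  have b11 : |1 - τ1 * u1| ≤ 1 := by rw [abs_of_pos (by linarith)]; linarith
  have absmul : ∀ {p q : ℝ}, |p| ≤ 1 → |q| ≤ 1 → |p * q| ≤ 1 := by
    intro p q hp hq
    rw [abs_mul]
    calc |p| * |q| ≤ 1 * 1 := by gcongr
      _ = 1 := by norm_num
  have hz1 : |(0 : ℝ)| ≤ 1 := by rw [abs_zero]; norm_num
  have sq0 := (isS_mm hs0)
  have sq1 := (isS_mm hs1)
  have sqe := (isS_mm hε)
  have sqt0 := (isS_mm hτ0)
  have sqt1 := (isS_mm hτ1)
  -- the case where `a` is the smallest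
  have caseA : ∀ σ : ℝ, σ = s0 * s1 → 0 < σ * dd x → |ax x| < |dd x| →
      ∃ A : E →L[ℝ] E, HasFDerivAt f A x ∧ ‖A‖ ^ 3 ≤ 2000 * ContinuousLinearMap.det A := by
    intro σ hσ hσd hlt
    have hσS : IsS σ := hσ ▸ hss
    have hev := mu_ev hσS hcA hcD hσd hlt
    have hmg : Gr m3 x (e * 0) (e * 0) (e * (s0 * s1)) :=
      ((hag.cmul σ).of_eq hev).congr (by ring) (by ring) (by rw [hσ]; ring)
    have hmv : m3 x = e * (s0 * s1 * (ε * (1 - e⁻¹))) := by
      have h3 : m3 x = σ * ax x := hev.self_of_nhds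
      rw [h3, hav, hσ]
      field_simp
    refine assemble hε hx2 hs0 hs1 hu0 hu1 ht0 ht1 hdt0 hdt1 hmg hmv hz1 hz1 (IsS.le hss) ?_ ?_
    · apply absmul (IsS.le hss) (absmul (IsS.le hε) _)
      have h4 : e⁻¹ ≤ 1 := inv_le_one_of_one_le₀ he
      have h5 : 0 < e⁻¹ := by positivity
      rw [abs_of_nonneg (by linarith)]; linarith
    · linear_combination s1 * s1 * sq0 + sq1
  rcases lt_or_gt_of_ne hbc with hlt | hlt
  · -- `|b| < |c|`
    have hevd := mu_ev hs1 hcB hcC hsc hlt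
    have hdg : Gr dd x (s1 * -(e * (s0 * τ0))) (s1 * 0) (s1 * (ε * e * (s0 * (1 - τ0 * u0)))) :=
      (hbg.cmul s1).of_eq hevd
    have hdv : dd x = s1 * bb x := hevd.self_of_nhds
    have had1 : ax x - dd x ≠ 0 := by
      intro h
      have := (grad_zero (hag.sub hdg) h d3).1
      apply mul_ne_zero (isS_ne hs1) hst0; linarith
    have had2 : ax x + dd x ≠ 0 := by
      intro h
      have := (grad_zero (hag.add hdg) h d4).1
      apply mul_ne_zero (isS_ne hs1) hst0; linarith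
    have had : |ax x| ≠ |dd x| := by
      intro h
      rcases abs_eq_abs.1 h with h | h
      · apply had1; linarith
      · apply had2; linarith
    rcases lt_or_gt_of_ne had with hlt2 | hlt2
    · refine caseA (s0 * s1) rfl ?_ hlt2
      rw [hdv]
      have : s0 * s1 * (s1 * bb x) = (s1 * s1) * (s0 * bb x) := by ring
      rw [this, sq1, one_mul]; exact hsb
    · have hev := mu_ev hε hcD hcA hea hlt2
      have hev' : m3 =ᶠ[𝓝 x] fun y => ε * dd y := by
        filter_upwards [hev] with y hy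
        unfold m3
        rw [Pool.Agent.Helper746.Ep.mu_comm]; exact hy
      have hmg : Gr m3 x (e * (-(ε * (s0 * s1) * τ0))) (e * 0) (e * (s0 * s1 * (1 - τ0 * u0))) := by
        refine ((hdg.cmul ε).of_eq hev').congr (by ring) (by ring) ?_
        linear_combination (s1 * (e * (s0 * (1 - τ0 * u0)))) * sqe
      have hmv : m3 x = e * (ε * (s0 * s1) * (1 - τ0 * u0)) := by
        have h3 : m3 x = ε * dd x := hev'.self_of_nhds
        rw [h3, hdv, hbv]; ring
      refine assemble hε hx2 hs0 hs1 hu0 hu1 ht0 ht1 hdt0 hdt1 hmg hmv ?_ hz1 ?_ ?_ ?_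
      · rw [abs_neg]
        exact absmul (absmul (IsS.le hε) (IsS.le hss)) (IsS.le hτ0)
      · exact absmul (IsS.le hss) b01
      · exact absmul (absmul (IsS.le hε) (IsS.le hss)) b01
      · linear_combination (s1 * s1 * (1 - τ0 * u0) + ε * ε * u0 * s1 * s1 * τ0) * sq0
          + ((1 - τ0 * u0) + ε * ε * u0 * τ0) * sq1 + u0 * τ0 * sqe
  · -- `|c| < |b|`
    have hevd := mu_ev hs0 hcC hcB hsb hlt
    have hevd' : dd =ᶠ[𝓝 x] fun y => s0 * cc y := by
      filter_upwards [hevd] with y hy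
      unfold dd
      rw [Pool.Agent.Helper746.Ep.mu_comm]; exact hy
    have hdg : Gr dd x (s0 * 0) (s0 * -(e * (s1 * τ1))) (s0 * (ε * e * (s1 * (1 - τ1 * u1)))) :=
      (hcg.cmul s0).of_eq hevd'
    have hdv : dd x = s0 * cc x := hevd'.self_of_nhds
    have had1 : ax x - dd x ≠ 0 := by
      intro h
      have := (grad_zero (hag.sub hdg) h d3).2.1
      apply mul_ne_zero (isS_ne hs0) hst1; linarith
    have had2 : ax x + dd x ≠ 0 := by
      intro h
      have := (grad_zero (hag.add hdg) h d4).2.1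
      apply mul_ne_zero (isS_ne hs0) hst1; linarith
    have had : |ax x| ≠ |dd x| := by
      intro h
      rcases abs_eq_abs.1 h with h | h
      · apply had1; linarith
      · apply had2; linarith
    rcases lt_or_gt_of_ne had with hlt2 | hlt2
    · refine caseA (s0 * s1) rfl ?_ hlt2
      rw [hdv]
      have : s0 * s1 * (s0 * cc x) = (s0 * s0) * (s1 * cc x) := by ring
      rw [this, sq0, one_mul]; exact hsc
    · have hev := mu_ev hε hcD hcA hea hlt2
      have hev' : m3 =ᶠ[𝓝 x] fun y => ε * dd y := by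
        filter_upwards [hev] with y hy
        unfold m3
        rw [Pool.Agent.Helper746.Ep.mu_comm]; exact hy
      have hmg : Gr m3 x (e * 0) (e * (-(ε * (s0 * s1) * τ1))) (e * (s0 * s1 * (1 - τ1 * u1))) := by
        refine ((hdg.cmul ε).of_eq hev').congr (by ring) (by ring) ?_
        linear_combination (s0 * (e * (s1 * (1 - τ1 * u1)))) * sqe
      have hmv : m3 x = e * (ε * (s0 * s1) * (1 - τ1 * u1)) := by
        have h3 : m3 x = ε * dd x := hev'.self_of_nhds
        rw [h3, hdv, hcv]; ring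
      refine assemble hε hx2 hs0 hs1 hu0 hu1 ht0 ht1 hdt0 hdt1 hmg hmv hz1 ?_ ?_ ?_ ?_
      · rw [abs_neg]
        exact absmul (absmul (IsS.le hε) (IsS.le hss)) (IsS.le hτ1)
      · exact absmul (IsS.le hss) b11
      · exact absmul (absmul (IsS.le hε) (IsS.le hss)) b11
      · linear_combination (s1 * s1 * (1 - τ1 * u1) + ε * ε * u1 * s1 * s1 * τ1) * sq0
          + ((1 - τ1 * u1) + ε * ε * u1 * τ1) * sq1 + u1 * τ1 * sqe

theorem good_ae : ∀ᵐ x ∂(volume : Measure E),
    ∃ A : E →L[ℝ] E, HasFDerivAt f A x ∧ ‖A‖ ^ 3 ≤ 2000 * ContinuousLinearMap.det A := by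
  have hint : ∀ i : Fin 3, ∀ᵐ x ∂(volume : Measure E), ∀ n : ℤ, (x i : ℝ) ≠ (n : ℝ) := by
    intro i
    rw [ae_all_iff]
    intro n
    rw [ae_iff]
    have := Pool.Agent.Helper841.FD.level_null i (n : ℝ)
    convert this using 2
    ext q; simp
  have l1 : LocallyLipschitz (fun y => |bb y - cc y|) := fun x => ((bb_ll x).sub (cc_ll x)).abs
  have l2 : LocallyLipschitz (fun y => |bb y + cc y|) := fun x => ((bb_ll x).add (cc_ll x)).abs
  have l3 : LocallyLipschitz (fun y => |ax y - dd y|) := fun x => ((ax_ll x).sub (dd_ll x)).abs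
  have l4 : LocallyLipschitz (fun y => |ax y + dd y|) := fun x => ((ax_ll x).add (dd_ll x)).abs
  filter_upwards [hint 0, hint 1, hint 2, Pool.Agent.Helper841.FD.ll_ae l1,
    Pool.Agent.Helper841.FD.ll_ae l2, Pool.Agent.Helper841.FD.ll_ae l3,
    Pool.Agent.Helper841.FD.ll_ae l4] with x h0 h1 h2 d1 d2 d3 d4
  exact good h0 h1 (by simpa using h2 0) d1 d2 d3 d4

lemma norm_f_le (x : E) : ‖f x‖ ≤ 4 * Real.exp ‖x‖ := by
  have hr := rho_ge x
  have hr0 := rho_pos x
  have he : ee x ≤ Real.exp ‖x‖ := Real.exp_le_exp.2 (abs_coord x 2)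
  have he1 := ee_ge x
  have hE : ‖x‖ ≤ Real.exp ‖x‖ := by linarith [Real.add_one_le_exp ‖x‖]
  have h0 := abs_coord x 0
  unfold f
  refine (norm_v3_le _ _ _).trans ?_
  rw [abs_div, abs_div, abs_div, abs_of_pos hr0]
  have t0 := tw_bd (x 0)
  have t1 := tw_bd (x 1)
  have c1 := cw_bd (x 1)
  have a1 : |ee x * tw (x 0) + 1 / 1000 * x 0| ≤ ee x * 1 + 1 / 1000 * ‖x‖ := by
    refine (abs_add_le _ _).trans ?_
    rw [abs_mul, abs_mul, abs_of_pos (by linarith : 0 < ee x),
      abs_of_pos (by norm_num : (0:ℝ) < 1 / 1000)]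
    gcongr
  have a2 : |ee x * tw (x 1)| ≤ ee x * 1 := by
    rw [abs_mul, abs_of_pos (by linarith : 0 < ee x)]; gcongr
  have a3 : |m3 x| ≤ ee x * 1 := by
    refine (Pool.Agent.Helper746.Ep.mu_abs_right _ _).trans
      ((Pool.Agent.Helper746.Ep.mu_abs_right _ _).trans ?_)
    unfold cc
    rw [abs_mul, abs_of_pos (by linarith : 0 < ee x)]; gcongr
  have key : ∀ {p q : ℝ}, p ≤ q → 0 ≤ p → p / rho x ≤ q := by
    intro p q hpq hp
    rw [div_le_iff₀ hr0]
    nlinarith
  have k1 := key a1 (abs_nonneg _)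
  have k2 := key a2 (abs_nonneg _)
  have k3 := key a3 (abs_nonneg _)
  linarith

/-- the path in the direction `θ` -/
noncomputable def path (θ t : ℝ) : E := v3 (t * Real.cos θ) (t * Real.sin θ) 0

lemma f_path (θ t : ℝ) : f (path θ t) = v3
    ((tw (t * Real.cos θ) + 1 / 1000 * (t * Real.cos θ)) / Real.sqrt (1000000 + t ^ 2))
    (tw (t * Real.sin θ) / Real.sqrt (1000000 + t ^ 2)) 0 := by
  have hr : rho (path θ t) = Real.sqrt (1000000 + t ^ 2) := by
    unfold rho path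
    simp only [v3_0, v3_1]
    congr 1
    have := Real.sin_sq_add_cos_sq θ
    linear_combination t ^ 2 * this
  have he : ee (path θ t) = 1 := by unfold ee path; simp
  have hm : m3 (path θ t) = 0 := by
    have : ax (path θ t) = 0 := by unfold ax aa path; simp
    unfold m3
    rw [this, Pool.Agent.Helper746.Ep.mu_zero_left]
  unfold f
  rw [hr, he, hm]
  unfold path
  simp

lemma sqrt_tendsto : Tendsto (fun t : ℝ => Real.sqrt (1000000 + t ^ 2)) atTop atTop := by
  apply Real.tendsto_sqrt_atTop.comp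
  apply tendsto_atTop_add_const_left
  exact tendsto_pow_atTop (by norm_num)

lemma bdd_div_tendsto {g : ℝ → ℝ} (hg : ∀ t, |g t| ≤ 1) :
    Tendsto (fun t : ℝ => g t / Real.sqrt (1000000 + t ^ 2)) atTop (𝓝 0) := by
  have h1 : Tendsto (fun t : ℝ => (Real.sqrt (1000000 + t ^ 2))⁻¹) atTop (𝓝 0) :=
    tendsto_inv_atTop_zero.comp sqrt_tendsto
  apply squeeze_zero_norm _ h1
  intro t
  rw [Real.norm_eq_abs, abs_div, abs_of_nonneg (Real.sqrt_nonneg _), div_eq_mul_inv]
  have : 0 ≤ (Real.sqrt (1000000 + t ^ 2))⁻¹ := by positivity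
  calc |g t| * (Real.sqrt (1000000 + t ^ 2))⁻¹ ≤ 1 * (Real.sqrt (1000000 + t ^ 2))⁻¹ := by
        gcongr; exact hg t
    _ = _ := one_mul _

lemma ratio_tendsto : Tendsto (fun t : ℝ => t / Real.sqrt (1000000 + t ^ 2)) atTop (𝓝 1) := by
  have h1 : Tendsto (fun t : ℝ => (Real.sqrt (1000000 / t ^ 2 + 1))⁻¹) atTop (𝓝 1) := by
    have h2 : Tendsto (fun t : ℝ => 1000000 / t ^ 2 + 1) atTop (𝓝 (0 + 1)) := by
      apply Tendsto.add_const
      exact Tendsto.const_div_atTop (tendsto_pow_atTop (by norm_num)) _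
    have h3 := (Real.continuous_sqrt.tendsto (0 + 1)).comp h2
    rw [zero_add, Real.sqrt_one] at h3
    have h4 := h3.inv₀ one_ne_zero
    simpa using h4
  refine h1.congr' ?_
  filter_upwards [eventually_gt_atTop 0] with t ht
  have e : 1000000 + t ^ 2 = t ^ 2 * (1000000 / t ^ 2 + 1) := by
    field_simp
  rw [e, Real.sqrt_mul (by positivity), Real.sqrt_sq ht.le]
  have : 0 < Real.sqrt (1000000 / t ^ 2 + 1) := Real.sqrt_pos.2 (by positivity)
  field_simp

theorem asym (θ : ℝ) : Tendsto (fun t => f (path θ t)) atTop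
    (𝓝 (v3 (1 / 1000 * Real.cos θ) 0 0)) := by
  have h1 : Tendsto (fun t : ℝ => (tw (t * Real.cos θ) + 1 / 1000 * (t * Real.cos θ)) /
      Real.sqrt (1000000 + t ^ 2)) atTop (𝓝 (1 / 1000 * Real.cos θ)) := by
    have e : (fun t : ℝ => (tw (t * Real.cos θ) + 1 / 1000 * (t * Real.cos θ)) /
      Real.sqrt (1000000 + t ^ 2)) = fun t => tw (t * Real.cos θ) / Real.sqrt (1000000 + t ^ 2)
        + 1 / 1000 * Real.cos θ * (t / Real.sqrt (1000000 + t ^ 2)) := by
      funext t; ring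
    rw [e]
    have := (bdd_div_tendsto (g := fun t => tw (t * Real.cos θ)) fun t => tw_bd _).add
      (ratio_tendsto.const_mul (1 / 1000 * Real.cos θ))
    simpa using this
  have h2 : Tendsto (fun t : ℝ => tw (t * Real.sin θ) / Real.sqrt (1000000 + t ^ 2)) atTop
      (𝓝 0) := bdd_div_tendsto (g := fun t => tw (t * Real.sin θ)) fun t => tw_bd _
  have h3 : Continuous fun p : ℝ × ℝ => v3 p.1 p.2 0 := by
    unfold Pool.Agent.Helper746.Ep.v3
    fun_prop
  have h4 := (h3.tendsto (1 / 1000 * Real.cos θ, 0)).comp (h1.prodMk_nhds h2)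
  refine h4.congr fun t => ?_
  rw [f_path]; rfl

lemma path_continuous (θ : ℝ) : Continuous (path θ) := by
  unfold path Pool.Agent.Helper746.Ep.v3
  fun_prop

lemma norm_path (θ t : ℝ) : ‖path θ t‖ = |t| := by
  rw [EuclideanSpace.norm_eq]
  unfold path
  simp only [Fin.sum_univ_three, v3_0, v3_1, v3_2, Real.norm_eq_abs, sq_abs]
  rw [← Real.sqrt_sq_eq_abs]
  congr 1
  have := Real.sin_sq_add_cos_sq θ
  linear_combination t ^ 2 * this

end Pool.Agent.W786.Asym
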