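import Pool.Agent.W786.Sv1

/-!
# Compactly supported radial kernels on `ℝ³` and integration by parts
-/

open MeasureTheory Set Filter
open scoped ENNReal NNReal Topology

namespace Pool.Agent.W786.Dir

open Pool.Agent.H708R2.EulerSign Pool.Agent.H708R2.EulerTypeI

/-- Integration by parts with a compactly supported function. -/
lemma ibp {f g : V → ℝ} (hf : ContDiff ℝ 1 f) (hfc : HasCompactSupport f) (hg : ContDiff ℝ 1 g)
    (e : V) : ∫ x, f x * fderiv ℝ g x e = - ∫ x, fderiv ℝ f x e * g x := by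
  have hf' : Continuous fun x => fderiv ℝ f x e :=
    (hf.continuous_fderiv one_ne_zero).clm_apply continuous_const
  have hg' : Continuous fun x => fderiv ℝ g x e :=
    (hg.continuous_fderiv one_ne_zero).clm_apply continuous_const
  have hfc' : HasCompactSupport fun x => fderiv ℝ f x e := hfc.fderiv_apply (𝕜 := ℝ) e
  refine integral_mul_fderiv_eq_neg_fderiv_mul_of_integrable ?_ ?_ ?_ ?_ ?_
  · exact (hf'.mul hg.continuous).integrable_of_hasCompactSupport hfc'.mul_right
  · exact (hf.continuous.mul hg').integrable_of_hasCompactSupport hfc.mul_right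
  · exact (hf.continuous.mul hg.continuous).integrable_of_hasCompactSupport hfc.mul_right
  · exact fun x _ => (hf.differentiable one_ne_zero).differentiableAt
  · exact fun x _ => (hg.differentiable one_ne_zero).differentiableAt

/-! ## The function `max(s, 0) ^ n` -/

lemma hasDerivAt_maxpow (n : ℕ) (s : ℝ) :
    HasDerivAt (fun s : ℝ => (max s 0) ^ (n + 2)) ((n + 2) * (max s 0) ^ (n + 1)) s := by
  rcases lt_trichotomy s 0 with h | h | h
  · rw [max_eq_right h.le, zero_pow (by omega), mul_zero]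
    refine (hasDerivAt_const s (0 : ℝ)).congr_of_eventuallyEq ?_
    filter_upwards [Iio_mem_nhds h] with y hy
    rw [max_eq_right (le_of_lt hy), zero_pow (by omega)]
  · subst h
    rw [max_self, zero_pow (by omega), mul_zero]
    rw [hasDerivAt_iff_isLittleO]
    simp only [sub_zero, smul_zero, max_self]
    rw [zero_pow (by omega)]
    have h1 : (fun x' : ℝ => (max x' 0) ^ (n + 2) - 0) =O[𝓝 0] fun x' => x' ^ (n + 2) := by
      refine Asymptotics.IsBigO.of_bound 1 (Eventually.of_forall fun x => ?_)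
      rw [sub_zero, norm_pow, norm_pow, one_mul]
      refine pow_le_pow_left₀ (norm_nonneg _) ?_ _
      rw [Real.norm_eq_abs, Real.norm_eq_abs, abs_of_nonneg (le_max_right _ _)]
      exact max_le (le_abs_self _) (abs_nonneg _)
    have h2 : (fun x' : ℝ => x' ^ (n + 2)) =o[𝓝 0] fun x' => x' := by
      have := Asymptotics.isLittleO_pow_pow (𝕜 := ℝ) (m := 1) (n := n + 2) (by omega)
      simpa using this
    exact h1.trans_isLittleO h2
  · have h1 : HasDerivAt (fun s : ℝ => s ^ (n + 2)) (((n + 2 : ℕ) : ℝ) * s ^ (n + 2 - 1)) s :=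
      hasDerivAt_pow (n + 2) s
    rw [max_eq_left h.le]
    have e : n + 2 - 1 = n + 1 := by omega
    rw [e] at h1
    push_cast at h1
    refine h1.congr_of_eventuallyEq ?_
    filter_upwards [Ioi_mem_nhds h] with y hy
    rw [max_eq_left (le_of_lt hy)]

/-- The radial kernel `(1 - |z|²)₊ⁿ`. -/
noncomputable def P (n : ℕ) (z : V) : ℝ := (max (1 - z ⬝ᵥ z) 0) ^ n

lemma P_nonneg (n : ℕ) (z : V) : 0 ≤ P n z := pow_nonneg (le_max_right _ _) n

lemma P_zero_of {n : ℕ} {z : V} (h : 1 ≤ z ⬝ᵥ z) : P (n + 1) z = 0 := by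
  unfold P
  rw [max_eq_right (by linarith), zero_pow (by omega)]

lemma P_le {n : ℕ} (z : V) : P (n + 1) z ≤ P n z := by
  unfold P
  rw [pow_succ]
  have h1 : max (1 - z ⬝ᵥ z) 0 ≤ 1 := max_le (by have := dot_self_nonneg z; linarith) zero_le_one
  exact mul_le_of_le_one_right (pow_nonneg (le_max_right _ _) n) h1

lemma P_cont (n : ℕ) : Continuous (P n) := by
  unfold P
  simp only [dotProduct]
  fun_prop

lemma P_supp (n : ℕ) : HasCompactSupport (P (n + 1)) := by
  refine HasCompactSupport.intro (K := Metric.closedBall (0 : V) 1) (isCompact_closedBall _ _) ?_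
  intro z hz
  refine P_zero_of ?_
  rw [mem_closedBall_zero_iff, not_le] at hz
  have h1 : ∃ i, 1 < ‖z i‖ := by
    by_contra hcon
    push Not at hcon
    exact absurd ((pi_norm_le_iff_of_nonneg zero_le_one).2 hcon) (not_le.2 hz)
  obtain ⟨i, hi⟩ := h1
  have h2 : z i * z i ≤ z ⬝ᵥ z :=
    Finset.single_le_sum (f := fun i => z i * z i) (fun j _ => mul_self_nonneg (z j))
      (Finset.mem_univ i)
  have h3 : 1 < z i * z i := by
    rw [← sq, ← sq_abs, ← Real.norm_eq_abs]
    exact one_lt_pow₀ hi (by norm_num)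
  linarith

/-- Scalar product with `z` as a continuous linear form. -/
noncomputable def dotL (z : V) : V →L[ℝ] ℝ :=
  ∑ i, z i • (ContinuousLinearMap.proj i : V →L[ℝ] ℝ)

@[simp] lemma dotL_apply (z w : V) : dotL z w = z ⬝ᵥ w := by
  simp [dotL, dotProduct]

lemma dotSelf_hasFDerivAt (z : V) : HasFDerivAt (fun z : V => z ⬝ᵥ z) ((2 : ℝ) • dotL z) z := by
  have h : ∀ i : Fin 3, HasFDerivAt (fun x : V => x i * x i)
      (z i • (ContinuousLinearMap.proj i : V →L[ℝ] ℝ)
        + z i • (ContinuousLinearMap.proj i : V →L[ℝ] ℝ)) z := fun i =>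
    ((ContinuousLinearMap.proj i : V →L[ℝ] ℝ).hasFDerivAt (x := z)).mul
      ((ContinuousLinearMap.proj i : V →L[ℝ] ℝ).hasFDerivAt (x := z))
  have h2 : HasFDerivAt (fun z : V => ∑ i, z i * z i) _ z := HasFDerivAt.fun_sum fun i _ => h i
  refine h2.congr_fderiv ?_
  ext w
  simp [dotProduct, Fin.sum_univ_three]
  ring

lemma P_hasFDerivAt (n : ℕ) (z : V) :
    HasFDerivAt (P (n + 2)) ((-2 * (n + 2) * P (n + 1) z) • dotL z) z := by
  have h1 := (dotSelf_hasFDerivAt z).const_sub 1
  have h2 := (hasDerivAt_maxpow n (1 - z ⬝ᵥ z)).comp_hasFDerivAt z h1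
  refine (h2.congr_fderiv ?_)
  ext w
  simp [P]
  ring

lemma P_fderiv (n : ℕ) (z w : V) :
    fderiv ℝ (P (n + 2)) z w = -2 * (n + 2) * P (n + 1) z * (z ⬝ᵥ w) := by
  rw [(P_hasFDerivAt n z).fderiv]
  simp

lemma P_contDiff (n : ℕ) : ContDiff ℝ 1 (P (n + 2)) := by
  rw [contDiff_one_iff_hasFDerivAt]
  refine ⟨fun z => (-2 * (n + 2) * P (n + 1) z) • dotL z, ?_, P_hasFDerivAt n⟩
  refine ((continuous_const.mul (P_cont _))).smul ?_
  unfold dotL
  fun_prop

lemma P_integrable (n : ℕ) : Integrable (P (n + 1)) :=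
  (P_cont _).integrable_of_hasCompactSupport (P_supp n)

lemma P_int_pos (n : ℕ) : 0 < ∫ z, P (n + 1) z := by
  refine (P_cont _).integral_pos_of_hasCompactSupport_nonneg_nonzero (P_supp n)
    (fun z => P_nonneg _ z) (x := 0) ?_
  simp [P]

end Pool.Agent.W786.Dir
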