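import Pool.Agent.W786.Dir1

/-!
# The pointwise bound of the stretching rate for a regularly directed vorticity
-/

open MeasureTheory Set Filter
open scoped ENNReal NNReal Topology

namespace Pool.Agent.W786.Dir

open Pool.Agent.H708R2.EulerSign Pool.Agent.H708R2.EulerTypeI

/-- Near `x` the vorticity of `v` is regularly directed, at the length scale `1 / G` and with
velocity variation `U`: on the ball of radius `1 / G` about `x` the vorticity is `|ω| ξ` with a
`C¹` field `ξ`, `|ξ| ≤ 1`, whose derivative has norm at most `G`, and there `v` differs from `v(x)`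
by at most `U`. -/
def Directed (v : V → V) (x : V) (G U : ℝ) : Prop :=
  ∃ ξ : V → V, ContDiff ℝ 1 ξ ∧ ∀ y : V, nrm (y - x) < 1 / G →
    vort v y = nrm (vort v y) • ξ y ∧ nrm (ξ y) ≤ 1 ∧
    (∀ z, nrm (fderiv ℝ ξ y z) ≤ G * nrm z) ∧ nrm (v y - v x) ≤ U

/-! ## Generalities -/

lemma dot_le (a b : V) : |a ⬝ᵥ b| ≤ nrm a * nrm b := by
  have h := abs_real_inner_le_norm (WithLp.toLp 2 a : EuclideanSpace ℝ (Fin 3))
    (WithLp.toLp 2 b : EuclideanSpace ℝ (Fin 3))
  rw [← nrm_eq, ← nrm_eq] at h
  have e : inner ℝ (WithLp.toLp 2 a : EuclideanSpace ℝ (Fin 3))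
      (WithLp.toLp 2 b : EuclideanSpace ℝ (Fin 3)) = a ⬝ᵥ b := by
    simp only [PiLp.inner_apply, dotProduct, Fin.sum_univ_three]
    simp [mul_comm]
  rwa [e] at h

lemma nrm_single (k : Fin 3) : nrm (Pi.single k 1 : V) = 1 := by
  unfold nrm
  simp

lemma abs_le_nrm (a : V) (i : Fin 3) : |a i| ≤ nrm a := by
  have h := dot_le a (Pi.single i 1)
  rw [nrm_single, mul_one] at h
  simpa using h

/-- Differentiation of `r ↦ ∫ k(z) S(x₀ + r z) dz`. -/
lemma param_deriv {k : V → ℝ} (hk : Continuous k) (hkc : HasCompactSupport k) {S : V → ℝ}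
    (hS : ContDiff ℝ 1 S) (x₀ : V) (r : ℝ) :
    HasDerivAt (fun r : ℝ => ∫ z, k z * S (x₀ + r • z))
      (∫ z, k z * fderiv ℝ S (x₀ + r • z) z) r := by
  have hc : Continuous fun q : ℝ × V => fderiv ℝ S (x₀ + q.1 • q.2) q.2 := by
    have h1 : Continuous fun q : ℝ × V => fderiv ℝ S (x₀ + q.1 • q.2) :=
      (hS.continuous_fderiv one_ne_zero).comp (by fun_prop)
    exact h1.clm_apply continuous_snd
  obtain ⟨M, hM⟩ := ((isCompact_closedBall r 1).prod hkc.isCompact).exists_bound_of_continuousOn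
    hc.continuousOn
  refine (hasDerivAt_integral_of_dominated_loc_of_deriv_le (Metric.ball_mem_nhds r one_pos)
    (F := fun r z => k z * S (x₀ + r • z))
    (F' := fun r z => k z * fderiv ℝ S (x₀ + r • z) z)
    (bound := fun z => ‖k z‖ * M) ?_ ?_ ?_ ?_ ?_ ?_).2
  · refine Eventually.of_forall fun r' => ?_
    have : Continuous fun z => k z * S (x₀ + r' • z) := hk.mul (hS.continuous.comp (by fun_prop))
    exact this.aestronglyMeasurable
  · have : Continuous fun z => k z * S (x₀ + r • z) := hk.mul (hS.continuous.comp (by fun_prop))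
    exact this.integrable_of_hasCompactSupport hkc.mul_right
  · have h2 : Continuous fun z => fderiv ℝ S (x₀ + r • z) z := by
      have h1 : Continuous fun z : V => fderiv ℝ S (x₀ + r • z) :=
        (hS.continuous_fderiv one_ne_zero).comp (by fun_prop)
      exact h1.clm_apply continuous_id
    exact (hk.mul h2).aestronglyMeasurable
  · refine Eventually.of_forall fun z r' hr' => ?_
    rw [norm_mul]
    by_cases hz : z ∈ tsupport k
    · gcongr
      exact hM (r', z) ⟨Metric.ball_subset_closedBall hr', hz⟩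
    · rw [image_eq_zero_of_notMem_tsupport hz, norm_zero, zero_mul, zero_mul]
  · exact (hk.norm.integrable_of_hasCompactSupport hkc.norm).mul_const M
  · refine Eventually.of_forall fun z r' _ => ?_
    have h1 : HasDerivAt (fun r : ℝ => x₀ + r • z) z r' := by
      simpa using ((hasDerivAt_id r').smul_const z).const_add x₀
    have h2 : HasFDerivAt S (fderiv ℝ S (x₀ + r' • z)) (x₀ + r' • z) :=
      ((hS.differentiable one_ne_zero) _).hasFDerivAt
    exact (h2.comp_hasDerivAt r' h1).const_mul (k z)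

/-- The affine map `z ↦ x₀ + r z` and composition. -/
lemma comp_aff {S : V → ℝ} (hS : ContDiff ℝ 1 S) (x₀ : V) (r : ℝ) :
    ContDiff ℝ 1 (fun z : V => S (x₀ + r • z)) := hS.comp (by fun_prop)

lemma fderiv_comp_aff {F : Type*} [NormedAddCommGroup F] [NormedSpace ℝ F] {S : V → F}
    (hS : ContDiff ℝ 1 S) (x₀ : V) (r : ℝ) (z e : V) :
    fderiv ℝ (fun z : V => S (x₀ + r • z)) z e = r • fderiv ℝ S (x₀ + r • z) e := by
  have h1 : HasFDerivAt (fun z : V => x₀ + r • z) (r • ContinuousLinearMap.id ℝ V) z :=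
    ((hasFDerivAt_id (𝕜 := ℝ) z).const_smul r).const_add x₀
  have h2 : HasFDerivAt S (fderiv ℝ S (x₀ + r • z)) (x₀ + r • z) :=
    ((hS.differentiable one_ne_zero) _).hasFDerivAt
  have h3 : HasFDerivAt (fun z : V => S (x₀ + r • z)) _ z := h2.comp z h1
  rw [h3.fderiv]
  simp

variable {v : V → V}

lemma grad_contDiff (hv : ContDiff ℝ 2 v) (i j : Fin 3) : ContDiff ℝ 1 fun x => grad v x i j := by
  have h1 : ContDiff ℝ 1 fun x => fderiv ℝ v x (Pi.single j 1) :=
    (hv.fderiv_right (m := 1) (by norm_num)).clm_apply contDiff_const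
  exact contDiff_pi.1 h1 i

/-- The second derivatives are symmetric. -/
lemma grad_symm (hv : ContDiff ℝ 2 v) (x : V) (i j k : Fin 3) :
    fderiv ℝ (fun x => grad v x i j) x (Pi.single k 1)
      = fderiv ℝ (fun x => grad v x i k) x (Pi.single j 1) := by
  have hd : DifferentiableAt ℝ (fderiv ℝ v) x :=
    ((hv.fderiv_right (m := 1) (by norm_num)).differentiable one_ne_zero) x
  have key : ∀ j k : Fin 3, fderiv ℝ (fun x => grad v x i j) x (Pi.single k 1)
      = fderiv ℝ (fderiv ℝ v) x (Pi.single k 1) (Pi.single j 1) i := by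
    intro j k
    have h1 : HasFDerivAt (fun x => fderiv ℝ v x (Pi.single j 1))
        ((fderiv ℝ (fderiv ℝ v) x).flip (Pi.single j 1)) x := by
      have h2 := hd.hasFDerivAt.clm_apply (hasFDerivAt_const (Pi.single j 1 : V) x)
      refine h2.congr_fderiv ?_
      ext w
      simp
    have h3 := (hasFDerivAt_pi'.1 h1 i).fderiv
    have h4 : fderiv ℝ (fun x => grad v x i j) x
        = (ContinuousLinearMap.proj i : V →L[ℝ] ℝ) ∘L
          ((fderiv ℝ (fderiv ℝ v) x).flip (Pi.single j 1)) := h3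
    rw [h4]
    rfl
  rw [key, key]
  exact congrFun ((hv.contDiffAt.isSymmSndFDerivAt (by simp)) (Pi.single k 1) (Pi.single j 1)) i

lemma fderiv_sum_single {S : V → ℝ} (x z : V) :
    fderiv ℝ S x z = ∑ k, z k * fderiv ℝ S x (Pi.single k 1) := by
  conv_lhs => rw [show z = ∑ k, z k • (Pi.single k 1 : V) by
    ext i; simp [Finset.sum_apply, Pi.single_apply]]
  rw [map_sum]
  simp

end Pool.Agent.W786.Dir
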