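import Pool.Agent.W786.Dir2

/-!
# The formula for the derivative of the averages of the stretching rate
-/

open MeasureTheory Set Filter
open scoped ENNReal NNReal Topology

namespace Pool.Agent.W786.Dir

open Pool.Agent.H708R2.EulerSign Pool.Agent.H708R2.EulerTypeI

variable {v : V → V}

/-- The vector product. -/
def cross (z e : V) : V := ![z 1 * e 2 - z 2 * e 1, z 2 * e 0 - z 0 * e 2, z 0 * e 1 - z 1 * e 0]

/-- The rate of change of `e · v` in the direction `e`. -/
noncomputable def rate (v : V → V) (e x : V) : ℝ := e ⬝ᵥ (grad v x).mulVec e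

lemma rate_contDiff (hv : ContDiff ℝ 2 v) (e : V) : ContDiff ℝ 1 (rate v e) := by
  unfold rate
  simp only [dotProduct, Matrix.mulVec]
  exact ContDiff.sum fun i _ => contDiff_const.mul (ContDiff.sum fun j _ =>
    (grad_contDiff hv i j).mul contDiff_const)

lemma gd (hv : ContDiff ℝ 2 v) (x : V) (i j : Fin 3) :
    HasFDerivAt (fun x => grad v x i j) (fderiv ℝ (fun x => grad v x i j) x) x :=
  (((grad_contDiff hv i j).differentiable one_ne_zero) x).hasFDerivAt

lemma rate_fderiv (hv : ContDiff ℝ 2 v) (e x w : V) :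
    fderiv ℝ (rate v e) x w
      = ∑ i, e i * ∑ j, fderiv ℝ (fun x => grad v x i j) x w * e j := by
  have h1 : HasFDerivAt (fun x => ∑ i, e i * ∑ j, grad v x i j * e j)
      (∑ i, e i • ∑ j, e j • fderiv ℝ (fun x => grad v x i j) x) x :=
    HasFDerivAt.fun_sum fun i _ => (HasFDerivAt.fun_sum fun j _ =>
      (gd hv x i j).mul_const (e j)).const_mul (e i)
  have h2 : fderiv ℝ (rate v e) x = _ := h1.fderiv
  rw [h2]
  simp [Fin.sum_univ_three]
  ring

/-- The main formula. -/
lemma rate_formula (hv : ContDiff ℝ 2 v) (hdiv : ∀ x, divergence v x = 0) (e x₀ : V) (r : ℝ) :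
    r * ∫ z, P 3 z * fderiv ℝ (rate v e) (x₀ + r • z) z
      = 6 * ∫ z, (z ⬝ᵥ e) * P 2 z * (vort v (x₀ + r • z) ⬝ᵥ cross z e) := by
  set D : Fin 3 → Fin 3 → Fin 3 → V → ℝ := fun i j k x =>
    fderiv ℝ (fun x => grad v x i j) x (Pi.single k 1) with hD
  have hsym : ∀ i j k x, D i j k x = D i k j x := fun i j k x => grad_symm hv x i j k
  have hDw : ∀ i j x w, fderiv ℝ (fun x => grad v x i j) x w = ∑ k, w k * D i j k x :=
    fun i j x w => fderiv_sum_single x w
  -- the kernels
  set κ : Fin 3 → V → ℝ := fun k z => -6 * P 2 z * (z ⬝ᵥ e) * z k + P 3 z * e k with hκ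
  set a : Fin 3 → V → ℝ := fun k z => P 3 z * z k with ha
  set E : V → ℝ := fun z => P 3 z * (z ⬝ᵥ e) with hE
  have cproj : ∀ k : Fin 3, ContDiff ℝ 1 (fun z : V => z k) := fun k =>
    (ContinuousLinearMap.proj (R := ℝ) (φ := fun _ : Fin 3 => ℝ) k).contDiff
  have cdot : ContDiff ℝ 1 (fun z : V => z ⬝ᵥ e) := by
    simp only [dotProduct]
    exact ContDiff.sum fun i _ => (cproj i).mul contDiff_const
  have c3 : ContDiff ℝ 1 (P 3) := P_contDiff 1
  have ca : ∀ k, ContDiff ℝ 1 (a k) := fun k => c3.mul (cproj k)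
  have cE : ContDiff ℝ 1 E := c3.mul cdot
  have sa : ∀ k, HasCompactSupport (a k) := fun k => (P_supp 2).mul_right
  have sE : HasCompactSupport E := (P_supp 2).mul_right
  have p3 : ∀ z w : V, fderiv ℝ (P 3) z w = -6 * P 2 z * (z ⬝ᵥ w) := by
    intro z w
    rw [P_fderiv 1 z w]
    norm_num
  have fproj : ∀ (k : Fin 3) (z w : V), fderiv ℝ (fun z : V => z k) z w = w k := by
    intro k z w
    have : HasFDerivAt (fun z : V => z k) (ContinuousLinearMap.proj k : V →L[ℝ] ℝ) z :=
      (ContinuousLinearMap.proj k : V →L[ℝ] ℝ).hasFDerivAt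
    rw [this.fderiv]
    rfl
  have fdot : ∀ z w : V, fderiv ℝ (fun z : V => z ⬝ᵥ e) z w = w ⬝ᵥ e := by
    intro z w
    have : HasFDerivAt (fun z : V => z ⬝ᵥ e) (dotL e) z := by
      have h1 := (dotL e).hasFDerivAt (x := z)
      refine h1.congr_of_eventuallyEq (Eventually.of_forall fun y => ?_)
      simp [dotProduct_comm]
    rw [this.fderiv, dotL_apply, dotProduct_comm]
  have da : ∀ k z, fderiv ℝ (a k) z e = κ k z := by
    intro k z
    have h1 : fderiv ℝ (a k) z = P 3 z • fderiv ℝ (fun z : V => z k) z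
        + z k • fderiv ℝ (P 3) z :=
      fderiv_fun_mul ((c3.differentiable one_ne_zero) z) (((cproj k).differentiable one_ne_zero) z)
    rw [h1]
    simp only [add_apply, FunLike.coe_smul, Pi.smul_apply, smul_eq_mul, p3, fproj, hκ]
    ring
  have dE : ∀ k z, fderiv ℝ E z (Pi.single k 1) = κ k z := by
    intro k z
    have h1 : fderiv ℝ E z = P 3 z • fderiv ℝ (fun z : V => z ⬝ᵥ e) z
        + (z ⬝ᵥ e) • fderiv ℝ (P 3) z :=
      fderiv_fun_mul ((c3.differentiable one_ne_zero) z) ((cdot.differentiable one_ne_zero) z)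
    rw [h1]
    simp only [add_apply, FunLike.coe_smul, Pi.smul_apply, smul_eq_mul, p3, fdot, hκ]
    simp
    ring
  -- the fields
  set g : Fin 3 → V → ℝ := fun k z => ∑ i, e i * grad v (x₀ + r • z) i k with hg
  set h : Fin 3 → V → ℝ := fun k z => ∑ j, e j * grad v (x₀ + r • z) k j with hh
  have cg : ∀ k, ContDiff ℝ 1 (g k) := fun k =>
    ContDiff.sum fun i _ => contDiff_const.mul (comp_aff (grad_contDiff hv i k) x₀ r)
  have ch : ∀ k, ContDiff ℝ 1 (h k) := fun k =>
    ContDiff.sum fun j _ => contDiff_const.mul (comp_aff (grad_contDiff hv k j) x₀ r)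
  have dcomp : ∀ i j z w, HasFDerivAt (fun z => grad v (x₀ + r • z) i j)
      (fderiv ℝ (fun z => grad v (x₀ + r • z) i j) z) z ∧
      fderiv ℝ (fun z => grad v (x₀ + r • z) i j) z w = r * ∑ k, w k * D i j k (x₀ + r • z) := by
    intro i j z w
    refine ⟨(((comp_aff (grad_contDiff hv i j) x₀ r).differentiable one_ne_zero) z).hasFDerivAt, ?_⟩
    rw [fderiv_comp_aff (S := fun x => grad v x i j) (grad_contDiff hv i j), hDw, smul_eq_mul]
  have dg : ∀ k z, fderiv ℝ (g k) z e
      = r * ∑ i, e i * ∑ j, e j * D i k j (x₀ + r • z) := by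
    intro k z
    have h1 : HasFDerivAt (g k) (∑ i, e i • fderiv ℝ (fun z => grad v (x₀ + r • z) i k) z) z :=
      HasFDerivAt.fun_sum fun i _ => ((dcomp i k z 0).1).const_mul (e i)
    rw [h1.fderiv]
    simp only [FunLike.coe_sum, Finset.sum_apply, FunLike.coe_smul, Pi.smul_apply, smul_eq_mul,
      (dcomp _ _ z e).2, Finset.mul_sum]
    refine Finset.sum_congr rfl fun i _ => Finset.sum_congr rfl fun j _ => ?_
    ring
  have dh : ∀ k z, fderiv ℝ (h k) z (Pi.single k 1)
      = r * ∑ j, e j * D k j k (x₀ + r • z) := by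
    intro k z
    have h1 : HasFDerivAt (h k) (∑ j, e j • fderiv ℝ (fun z => grad v (x₀ + r • z) k j) z) z :=
      HasFDerivAt.fun_sum fun j _ => ((dcomp k j z 0).1).const_mul (e j)
    rw [h1.fderiv]
    simp only [FunLike.coe_sum, Finset.sum_apply, FunLike.coe_smul, Pi.smul_apply, smul_eq_mul,
      (dcomp _ _ z _).2, Finset.mul_sum]
    refine Finset.sum_congr rfl fun j _ => ?_
    rw [Finset.sum_eq_single k]
    · simp; ring
    · intro b _ hb
      simp [Pi.single_eq_of_ne hb]
    · intro hk
      exact absurd (Finset.mem_univ k) hk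
  have hdivD : ∀ x j, ∑ k, D k k j x = 0 := by
    intro x j
    have h1 : HasFDerivAt (fun x => ∑ k, grad v x k k)
        (∑ k, fderiv ℝ (fun x => grad v x k k) x) x := HasFDerivAt.fun_sum fun k _ => gd hv x k k
    have h2 : (fun x => ∑ k, grad v x k k) = fun _ => (0 : ℝ) := by
      funext y
      have := hdiv y
      simpa [divergence, Matrix.trace] using this
    rw [h2] at h1
    have h3 := h1.unique (hasFDerivAt_const (0 : ℝ) x)
    have h4 := congrArg (fun L : V →L[ℝ] ℝ => L (Pi.single j 1)) h3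
    simpa [hD] using h4
  -- integrability
  have iκ : ∀ (k : Fin 3) {f : V → ℝ}, Continuous f → Integrable fun z => κ k z * f z := by
    intro k f hf
    have h1 : Continuous (κ k) := by
      have := (ca k).continuous_fderiv one_ne_zero
      have h2 : Continuous fun z => fderiv ℝ (a k) z e := this.clm_apply continuous_const
      simpa only [da] using h2
    have h2 : HasCompactSupport (κ k) := by
      have := (sa k).fderiv_apply (𝕜 := ℝ) e
      simpa only [da] using this
    exact (h1.mul hf).integrable_of_hasCompactSupport h2.mul_right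
  have I1 : ∀ k, ∫ z, a k z * fderiv ℝ (g k) z e = -∫ z, κ k z * g k z := by
    intro k
    rw [ibp (ca k) (sa k) (cg k) e]
    simp only [da]
  have I2 : ∀ k, ∫ z, E z * fderiv ℝ (h k) z (Pi.single k 1) = -∫ z, κ k z * h k z := by
    intro k
    rw [ibp cE sE (ch k) _]
    simp only [dE]
  have cfd : ∀ {f : V → ℝ} (_ : ContDiff ℝ 1 f) (w : V), Continuous fun z => fderiv ℝ f z w :=
    fun hf w => (hf.continuous_fderiv one_ne_zero).clm_apply continuous_const
  have L : r * ∫ z, P 3 z * fderiv ℝ (rate v e) (x₀ + r • z) z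
      = ∑ k, ∫ z, a k z * fderiv ℝ (g k) z e := by
    rw [← integral_finsetSum, ← integral_const_mul]
    · refine integral_congr_ae (Eventually.of_forall fun z => ?_)
      simp only [rate_fderiv hv, hDw, dg, ha]
      simp only [hsym _ 1 0, hsym _ 2 0, hsym _ 2 1, Fin.sum_univ_three]
      ring
    · intro k _
      exact ((ca k).continuous.mul (cfd (cg k) e)).integrable_of_hasCompactSupport (sa k).mul_right
  have Z : (0 : ℝ) = ∑ k, ∫ z, E z * fderiv ℝ (h k) z (Pi.single k 1) := by
    rw [← integral_finsetSum]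
    · symm
      refine integral_eq_zero_of_ae (Eventually.of_forall fun z => ?_)
      simp only [dh, Pi.zero_apply]
      have h0 := hdivD (x₀ + r • z) 0
      have h1 := hdivD (x₀ + r • z) 1
      have h2 := hdivD (x₀ + r • z) 2
      simp only [Fin.sum_univ_three] at h0 h1 h2 ⊢
      rw [hsym 0 1 0, hsym 0 2 0, hsym 1 0 1, hsym 1 2 1, hsym 2 0 2, hsym 2 1 2]
      linear_combination (E z * r * e 0) * h0 + (E z * r * e 1) * h1 + (E z * r * e 2) * h2
    · intro k _
      exact (cE.continuous.mul (cfd (ch k) _)).integrable_of_hasCompactSupport sE.mul_right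
  have L2 : r * ∫ z, P 3 z * fderiv ℝ (rate v e) (x₀ + r • z) z
      = ∑ k, ∫ z, κ k z * (h k z - g k z) := by
    have h1 : ∀ k, ∫ z, κ k z * (h k z - g k z)
        = (∫ z, κ k z * h k z) - ∫ z, κ k z * g k z := by
      intro k
      rw [← integral_sub (iκ k (ch k).continuous) (iκ k (cg k).continuous)]
      refine integral_congr_ae (Eventually.of_forall fun z => ?_)
      simp only
      ring
    simp only [h1, Finset.sum_sub_distrib]
    simp only [I1, I2, Finset.sum_neg_distrib] at L Z
    rw [L]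
    linarith
  rw [L2, ← integral_const_mul, ← integral_finsetSum]
  · refine integral_congr_ae (Eventually.of_forall fun z => ?_)
    simp only [hκ, hg, hh, cross, vort, dotProduct, Fin.sum_univ_three, Matrix.cons_val_zero,
      Matrix.cons_val_one, Matrix.cons_val]
    ring
  · intro k _
    exact iκ k ((ch k).continuous.sub (cg k).continuous)

end Pool.Agent.W786.Dir
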