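import Pool.Agent.W786.Dir3

/-!
# The pointwise bound of the stretching rate for a regularly directed vorticity
-/

open MeasureTheory Set Filter
open scoped ENNReal NNReal Topology

namespace Pool.Agent.W786.Dir

open Pool.Agent.H708R2.EulerSign Pool.Agent.H708R2.EulerTypeI

variable {v : V → V}

lemma nrm_lt_one {z : V} (hz : z ⬝ᵥ z < 1) : nrm z < 1 := by
  unfold nrm
  rw [Real.sqrt_lt' one_pos]
  simpa using hz

lemma cross_orth (z e : V) : e ⬝ᵥ cross z e = 0 := by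
  simp only [cross, dotProduct, Fin.sum_univ_three, Matrix.cons_val_zero,
    Matrix.cons_val_one, Matrix.cons_val]
  ring

lemma nrm_cross_le (z e : V) : nrm (cross z e) ≤ nrm z * nrm e := by
  have h1 : nrm (cross z e) ^ 2 ≤ (nrm z * nrm e) ^ 2 := by
    rw [mul_pow, nrm_sq, nrm_sq, nrm_sq]
    have : (z ⬝ᵥ z) * (e ⬝ᵥ e) - cross z e ⬝ᵥ cross z e = (z ⬝ᵥ e) ^ 2 := by
      simp only [cross, dotProduct, Fin.sum_univ_three, Matrix.cons_val_zero,
        Matrix.cons_val_one, Matrix.cons_val]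
      ring
    nlinarith [sq_nonneg (z ⬝ᵥ e)]
  exact (le_abs_self _).trans
    (abs_le_of_sq_le_sq h1 (mul_nonneg (nrm_nonneg _) (nrm_nonneg _)))

/-- Mean value inequality for a field with bounded derivative. -/
lemma dir_lip {ξ : V → V} (hξ : ContDiff ℝ 1 ξ) {x₀ : V} {G ρ : ℝ}
    (hb : ∀ y, nrm (y - x₀) < ρ → ∀ z, nrm (fderiv ℝ ξ y z) ≤ G * nrm z) {y : V}
    (hy : nrm (y - x₀) < ρ) (c : V) : |ξ y ⬝ᵥ c - ξ x₀ ⬝ᵥ c| ≤ nrm c * (G * nrm (y - x₀)) := by
  set f : ℝ → ℝ := fun s => dotL c (ξ (x₀ + s • (y - x₀))) with hf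
  have hd : ∀ s : ℝ, HasDerivAt f (dotL c (fderiv ℝ ξ (x₀ + s • (y - x₀)) (y - x₀))) s := by
    intro s
    have h1 : HasDerivAt (fun s : ℝ => x₀ + s • (y - x₀)) (y - x₀) s := by
      simpa using ((hasDerivAt_id s).smul_const (y - x₀)).const_add x₀
    have h2 : HasFDerivAt ξ (fderiv ℝ ξ (x₀ + s • (y - x₀))) (x₀ + s • (y - x₀)) :=
      ((hξ.differentiable one_ne_zero) _).hasFDerivAt
    exact (dotL c).hasFDerivAt.comp_hasDerivAt s (h2.comp_hasDerivAt s h1)
  obtain ⟨s, hs, hs2⟩ := exists_hasDerivAt_eq_slope f _ (zero_lt_one' ℝ)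
    (fun s _ => (hd s).continuousAt.continuousWithinAt) (fun s _ => hd s)
  have e1 : f 1 - f 0 = ξ y ⬝ᵥ c - ξ x₀ ⬝ᵥ c := by
    simp [hf, dotProduct_comm c]
  rw [sub_zero, div_one, e1] at hs2
  rw [← hs2, dotL_apply]
  refine (dot_le _ _).trans (mul_le_mul_of_nonneg_left (hb _ ?_ _) (nrm_nonneg _))
  rw [add_sub_cancel_left, nrm_smul, abs_of_pos hs.1]
  exact lt_of_le_of_lt (mul_le_of_le_one_left (nrm_nonneg _) hs.2.le) hy

section

variable {x₀ : V} {G U : ℝ} {ξ : V → V}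

/-- The conditions of `Directed` for a given field `ξ`. -/
def Dd (v : V → V) (x₀ : V) (G U : ℝ) (ξ : V → V) : Prop :=
  ∀ y : V, nrm (y - x₀) < 1 / G →
    vort v y = nrm (vort v y) • ξ y ∧ nrm (ξ y) ≤ 1 ∧
    (∀ z, nrm (fderiv ℝ ξ y z) ≤ G * nrm z) ∧ nrm (v y - v x₀) ≤ U

lemma in_ball {r : ℝ} (hr : 0 < r) (hrG : r ≤ 1 / G) {z : V} (hz : z ⬝ᵥ z < 1) :
    nrm (x₀ + r • z - x₀) < 1 / G ∧ nrm (x₀ + r • z - x₀) ≤ r := by
  rw [add_sub_cancel_left, nrm_smul, abs_of_pos hr]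
  have h1 := nrm_lt_one hz
  constructor
  · exact lt_of_lt_of_le (mul_lt_of_lt_one_right hr h1) hrG
  · exact mul_le_of_le_one_right hr.le h1.le

lemma vort_cont (hv : ContDiff ℝ 2 v) : Continuous (vort v) := by
  have h : ∀ i j, Continuous fun x => grad v x i j := fun i j => (grad_contDiff hv i j).continuous
  refine continuous_pi fun i => ?_
  fin_cases i
  · exact (h 2 1).sub (h 1 2)
  · exact (h 0 2).sub (h 2 0)
  · exact (h 1 0).sub (h 0 1)

lemma nrm_cont : Continuous (nrm : V → ℝ) := by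
  unfold nrm
  simp only [dotProduct]
  fun_prop

/-- The integrand of `J`. -/
lemma J_cont (hv : ContDiff ℝ 2 v) (n : ℕ) (r : ℝ) :
    Integrable fun z => P (n + 1) z * nrm (vort v (x₀ + r • z)) := by
  have h1 : Continuous fun z => nrm (vort v (x₀ + r • z)) :=
    nrm_cont.comp ((vort_cont hv).comp (by fun_prop))
  exact ((P_cont (n + 1)).mul h1).integrable_of_hasCompactSupport (P_supp n).mul_right

lemma J_bound (hv : ContDiff ℝ 2 v) (hξ : ContDiff ℝ 1 ξ) (hG : 0 < G) (hb : Dd v x₀ G U ξ)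
    {r : ℝ} (hr : 0 < r) (hrG : r ≤ 1 / G) :
    ∫ z, P 2 z * nrm (vort v (x₀ + r • z)) ≤ 30 * U * (∫ z, P 1 z) / r := by
  have hrG' : r * G ≤ 1 := by rwa [le_div_iff₀ hG] at hrG
  set a : Fin 3 → V → ℝ := fun l z => P 2 z * ξ (x₀ + r • z) l with ha
  set δ : Fin 3 → V → ℝ := fun j z => v (x₀ + r • z) j - v x₀ j with hδ
  have hξl : ∀ l, ContDiff ℝ 1 fun y => ξ y l := fun l => contDiff_pi.1 hξ l
  have ca : ∀ l, ContDiff ℝ 1 (a l) := fun l => (P_contDiff 0).mul (comp_aff (hξl l) x₀ r)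
  have sa : ∀ l, HasCompactSupport (a l) := fun l => (P_supp 1).mul_right
  have hvj : ∀ j, ContDiff ℝ 1 fun y => v y j := fun j =>
    (contDiff_pi.1 hv j).of_le (by norm_num)
  have cδ : ∀ j, ContDiff ℝ 1 (δ j) := fun j => (comp_aff (hvj j) x₀ r).sub contDiff_const
  have dδ : ∀ j k z, fderiv ℝ (δ j) z (Pi.single k 1) = r * grad v (x₀ + r • z) j k := by
    intro j k z
    have h1 : fderiv ℝ (δ j) z = fderiv ℝ (fun z => v (x₀ + r • z) j) z := fderiv_sub_const _
    rw [h1, fderiv_comp_aff (S := fun y => v y j) (hvj j), smul_eq_mul]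
    congr 1
    have h2 : HasFDerivAt v (fderiv ℝ v (x₀ + r • z)) (x₀ + r • z) :=
      ((hv.differentiable two_ne_zero) _).hasFDerivAt
    have h3 := (hasFDerivAt_pi'.1 h2 j).fderiv
    rw [h3]
    rfl
  have da : ∀ l k z, |fderiv ℝ (a l) z (Pi.single k 1)| ≤ 5 * P 1 z := by
    intro l k z
    have h1 : fderiv ℝ (a l) z = P 2 z • fderiv ℝ (fun z : V => ξ (x₀ + r • z) l) z
        + ξ (x₀ + r • z) l • fderiv ℝ (P 2) z :=
      fderiv_fun_mul (((P_contDiff 0).differentiable one_ne_zero) z)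
        (((comp_aff (hξl l) x₀ r).differentiable one_ne_zero) z)
    have h2 : fderiv ℝ (fun y => ξ y l) (x₀ + r • z) (Pi.single k 1)
        = fderiv ℝ ξ (x₀ + r • z) (Pi.single k 1) l := by
      have h2 : HasFDerivAt ξ (fderiv ℝ ξ (x₀ + r • z)) (x₀ + r • z) :=
        ((hξ.differentiable one_ne_zero) _).hasFDerivAt
      rw [(hasFDerivAt_pi'.1 h2 l).fderiv]
      rfl
    rw [h1]
    simp only [add_apply, FunLike.coe_smul, Pi.smul_apply, smul_eq_mul,
      fderiv_comp_aff (S := fun y => ξ y l) (hξl l), h2]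
    rw [show P 2 = P (0 + 2) from rfl, P_fderiv 0 z]
    have hp1 := P_nonneg 1 z
    have hp2 := P_nonneg 2 z
    have hp21 : P 2 z ≤ P 1 z := P_le z
    rcases lt_or_ge (z ⬝ᵥ z) 1 with hz | hz
    · obtain ⟨hy, -⟩ := in_ball (x₀ := x₀) hr hrG hz
      obtain ⟨-, hb2, hb3, -⟩ := hb _ hy
      have b1 : |ξ (x₀ + r • z) l| ≤ 1 := (abs_le_nrm _ l).trans hb2
      have b2 : |fderiv ℝ ξ (x₀ + r • z) (Pi.single k 1) l| ≤ G := by
        refine (abs_le_nrm _ l).trans ((hb3 _).trans ?_)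
        rw [nrm_single, mul_one]
      have b3 : |z ⬝ᵥ Pi.single k 1| ≤ 1 := by
        refine (dot_le _ _).trans ?_
        rw [nrm_single, mul_one]
        exact (nrm_lt_one hz).le
      have t1 : |P (0 + 2) z * (r * fderiv ℝ ξ (x₀ + r • z) (Pi.single k 1) l)| ≤ P 1 z := by
        rw [abs_mul, abs_mul, abs_of_pos hr, abs_of_nonneg (P_nonneg _ z)]
        calc P (0 + 2) z * (r * |fderiv ℝ ξ (x₀ + r • z) (Pi.single k 1) l|)
            ≤ P 1 z * (r * G) := by gcongr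
          _ ≤ P 1 z * 1 := by gcongr
          _ = P 1 z := mul_one _
      have t2 : |ξ (x₀ + r • z) l * (-2 * (((0 : ℕ) : ℝ) + 2) * P (0 + 1) z
          * (z ⬝ᵥ Pi.single k 1))| ≤ 4 * P 1 z := by
        rw [abs_mul, abs_mul]
        have e : |-2 * (((0 : ℕ) : ℝ) + 2) * P (0 + 1) z| = 4 * P 1 z := by
          rw [abs_mul, abs_of_nonneg (P_nonneg _ z)]
          norm_num
        rw [e]
        calc |ξ (x₀ + r • z) l| * (4 * P 1 z * |z ⬝ᵥ Pi.single k 1|)
            ≤ 1 * (4 * P 1 z * 1) := by gcongr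
          _ = 4 * P 1 z := by ring
      refine (abs_add_le _ _).trans ?_
      linarith
    · have e1 : P (0 + 1) z = 0 := P_zero_of hz
      have e2 : P (0 + 2) z = 0 := P_zero_of hz
      rw [e1, e2]
      simp only [zero_mul, mul_zero, add_zero, abs_zero]
      positivity
  have hU0 : 0 ≤ U := by
    have h0 : nrm (x₀ - x₀) < 1 / G := by
      rw [sub_self]
      have : nrm (0 : V) = 0 := by simp [nrm]
      rw [this]
      positivity
    exact (nrm_nonneg _).trans (hb _ h0).2.2.2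
  have T : ∀ l k j, |∫ z, a l z * fderiv ℝ (δ j) z (Pi.single k 1)| ≤ 5 * U * ∫ z, P 1 z := by
    intro l k j
    rw [ibp (ca l) (sa l) (cδ j), abs_neg, ← integral_const_mul]
    rw [← Real.norm_eq_abs]
    refine norm_integral_le_of_norm_le ((P_integrable 0).const_mul _)
      (Eventually.of_forall fun z => ?_)
    rw [Real.norm_eq_abs, abs_mul]
    have hp1 := P_nonneg 1 z
    rcases lt_or_ge (z ⬝ᵥ z) 1 with hz | hz
    · obtain ⟨hy, -⟩ := in_ball (x₀ := x₀) hr hrG hz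
      obtain ⟨-, -, -, hb4⟩ := hb _ hy
      have b1 : |δ j z| ≤ U := (abs_le_nrm (v (x₀ + r • z) - v x₀) j).trans hb4
      calc |fderiv ℝ (a l) z (Pi.single k 1)| * |δ j z| ≤ (5 * P 1 z) * U := by
            gcongr
            exact da l k z
        _ = 5 * U * P (0 + 1) z := by ring
    · have h1 := da l k z
      have e1 : P 1 z = 0 := P_zero_of hz
      rw [e1, mul_zero] at h1
      have h2 : |fderiv ℝ (a l) z (Pi.single k 1)| = 0 := le_antisymm h1 (abs_nonneg _)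
      rw [h2, zero_mul]
      have := P_nonneg (0 + 1) z
      positivity
  have cfd : ∀ l k j, Integrable fun z => a l z * fderiv ℝ (δ j) z (Pi.single k 1) := by
    intro l k j
    exact ((ca l).continuous.mul (((cδ j).continuous_fderiv one_ne_zero).clm_apply
      continuous_const)).integrable_of_hasCompactSupport (sa l).mul_right
  have key : r * ∫ z, P 2 z * nrm (vort v (x₀ + r • z))
      = (∫ z, a 0 z * fderiv ℝ (δ 2) z (Pi.single 1 1))
        - (∫ z, a 0 z * fderiv ℝ (δ 1) z (Pi.single 2 1))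
        + ((∫ z, a 1 z * fderiv ℝ (δ 0) z (Pi.single 2 1))
        - (∫ z, a 1 z * fderiv ℝ (δ 2) z (Pi.single 0 1)))
        + ((∫ z, a 2 z * fderiv ℝ (δ 1) z (Pi.single 0 1))
        - (∫ z, a 2 z * fderiv ℝ (δ 0) z (Pi.single 1 1))) := by
    have s0 : Integrable fun z => a 0 z * fderiv ℝ (δ 2) z (Pi.single 1 1)
        - a 0 z * fderiv ℝ (δ 1) z (Pi.single 2 1) := (cfd 0 1 2).sub (cfd 0 2 1)
    have s1 : Integrable fun z => a 1 z * fderiv ℝ (δ 0) z (Pi.single 2 1)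
        - a 1 z * fderiv ℝ (δ 2) z (Pi.single 0 1) := (cfd 1 2 0).sub (cfd 1 0 2)
    have s2 : Integrable fun z => a 2 z * fderiv ℝ (δ 1) z (Pi.single 0 1)
        - a 2 z * fderiv ℝ (δ 0) z (Pi.single 1 1) := (cfd 2 0 1).sub (cfd 2 1 0)
    have s01 : Integrable fun z => (a 0 z * fderiv ℝ (δ 2) z (Pi.single 1 1)
        - a 0 z * fderiv ℝ (δ 1) z (Pi.single 2 1)) + (a 1 z * fderiv ℝ (δ 0) z (Pi.single 2 1)
        - a 1 z * fderiv ℝ (δ 2) z (Pi.single 0 1)) := s0.add s1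
    rw [← integral_sub (cfd 0 1 2) (cfd 0 2 1), ← integral_sub (cfd 1 2 0) (cfd 1 0 2),
      ← integral_sub (cfd 2 0 1) (cfd 2 1 0), ← integral_add s0 s1, ← integral_add s01 s2,
      ← integral_const_mul]
    refine integral_congr_ae (Eventually.of_forall fun z => ?_)
    simp only [dδ]
    rcases lt_or_ge (z ⬝ᵥ z) 1 with hz | hz
    · obtain ⟨hy, -⟩ := in_ball (x₀ := x₀) hr hrG hz
      obtain ⟨hb1, hb2, -, -⟩ := hb _ hy
      set y := x₀ + r • z with hy'
      have hω : nrm (vort v y) = vort v y ⬝ᵥ ξ y := by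
        by_cases h0 : nrm (vort v y) = 0
        · rw [nrm_eq_zero h0]
          simp [nrm]
        · have h1 : nrm (ξ y) = 1 := by
            have := congrArg nrm hb1
            rw [nrm_smul, abs_of_nonneg (nrm_nonneg _)] at this
            have h2 : nrm (vort v y) * 1 = nrm (vort v y) * nrm (ξ y) := by rw [mul_one]; exact this
            exact (mul_left_cancel₀ h0 h2).symm
          have h2 : ξ y ⬝ᵥ ξ y = 1 := by rw [← nrm_sq, h1, one_pow]
          conv_rhs => rw [hb1, smul_dotProduct, h2, smul_eq_mul, mul_one]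
      rw [hω]
      simp only [ha, vort, dotProduct, Fin.sum_univ_three, Matrix.cons_val_zero,
        Matrix.cons_val_one, Matrix.cons_val]
      ring
    · have e2 : P 2 z = 0 := P_zero_of hz
      simp only [ha, e2]
      ring
  have t1 := abs_le.1 (T 0 1 2)
  have t2 := abs_le.1 (T 0 2 1)
  have t3 := abs_le.1 (T 1 2 0)
  have t4 := abs_le.1 (T 1 0 2)
  have t5 := abs_le.1 (T 2 0 1)
  have t6 := abs_le.1 (T 2 1 0)
  rw [le_div_iff₀ hr, mul_comm, key]
  linarith [t1.2, t2.1, t3.2, t4.1, t5.2, t6.1]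

/-- The bound of the derivative of the averages by `J`. -/
lemma dA_bound (hv : ContDiff ℝ 2 v) (hdiv : ∀ x, divergence v x = 0) (hξ : ContDiff ℝ 1 ξ)
    (hG : 0 < G) (hb : Dd v x₀ G U ξ) {r : ℝ} (hr : 0 < r) (hrG : r ≤ 1 / G) :
    |∫ z, P 3 z * fderiv ℝ (rate v (ξ x₀)) (x₀ + r • z) z|
      ≤ 6 * G * ∫ z, P 2 z * nrm (vort v (x₀ + r • z)) := by
  have h0 : nrm (x₀ - x₀) < 1 / G := by
    rw [sub_self]
    have : nrm (0 : V) = 0 := by simp [nrm]
    rw [this]
    positivity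
  have he : nrm (ξ x₀) ≤ 1 := (hb _ h0).2.1
  have h1 := rate_formula hv hdiv (ξ x₀) x₀ r
  have h2 : |∫ z, (z ⬝ᵥ ξ x₀) * P 2 z * (vort v (x₀ + r • z) ⬝ᵥ cross z (ξ x₀))|
      ≤ (G * r) * ∫ z, P 2 z * nrm (vort v (x₀ + r • z)) := by
    rw [← integral_const_mul, ← Real.norm_eq_abs]
    refine norm_integral_le_of_norm_le ((J_cont hv 1 r).const_mul _)
      (Eventually.of_forall fun z => ?_)
    rw [Real.norm_eq_abs]
    rcases lt_or_ge (z ⬝ᵥ z) 1 with hz | hz
    · obtain ⟨hy, hyr⟩ := in_ball (x₀ := x₀) hr hrG hz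
      obtain ⟨hb1, hb2, -, -⟩ := hb _ hy
      have hz1 := (nrm_lt_one hz).le
      have b1 : |z ⬝ᵥ ξ x₀| ≤ 1 := (dot_le _ _).trans (mul_le_one₀ hz1 (nrm_nonneg _) he)
      have b2 : nrm (cross z (ξ x₀)) ≤ 1 :=
        (nrm_cross_le _ _).trans (mul_le_one₀ hz1 (nrm_nonneg _) he)
      have b3 : |ξ (x₀ + r • z) ⬝ᵥ cross z (ξ x₀)| ≤ G * r := by
        have h3 := dir_lip hξ (fun y hy => (hb y hy).2.2.1) hy (cross z (ξ x₀))
        rw [cross_orth, sub_zero] at h3
        refine h3.trans ?_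
        calc nrm (cross z (ξ x₀)) * (G * nrm (x₀ + r • z - x₀)) ≤ 1 * (G * r) := by
              have := nrm_nonneg (x₀ + r • z - x₀)
              gcongr
          _ = G * r := one_mul _
      have b4 : |vort v (x₀ + r • z) ⬝ᵥ cross z (ξ x₀)|
          ≤ nrm (vort v (x₀ + r • z)) * (G * r) := by
        rw [hb1, smul_dotProduct, smul_eq_mul, abs_mul]
        have e : |nrm (vort v (x₀ + r • z))| = nrm (vort v (x₀ + r • z)) :=
          abs_of_nonneg (nrm_nonneg _)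
        rw [e]
        have e2 : nrm (nrm (vort v (x₀ + r • z)) • ξ (x₀ + r • z)) = nrm (vort v (x₀ + r • z)) := by
          rw [← hb1]
        rw [e2]
        exact mul_le_mul_of_nonneg_left b3 (nrm_nonneg _)
      rw [abs_mul, abs_mul, abs_of_nonneg (P_nonneg 2 z)]
      have hp := P_nonneg 2 z
      have hn := nrm_nonneg (vort v (x₀ + r • z))
      calc |z ⬝ᵥ ξ x₀| * P 2 z * |vort v (x₀ + r • z) ⬝ᵥ cross z (ξ x₀)|
          ≤ 1 * P 2 z * (nrm (vort v (x₀ + r • z)) * (G * r)) := by gcongr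
        _ = G * r * (P (1 + 1) z * nrm (vort v (x₀ + r • z))) := by ring
    · have e2 : P 2 z = 0 := P_zero_of hz
      rw [e2]
      simp
  have h3 : |r * ∫ z, P 3 z * fderiv ℝ (rate v (ξ x₀)) (x₀ + r • z) z|
      ≤ r * (6 * G * ∫ z, P 2 z * nrm (vort v (x₀ + r • z))) := by
    rw [h1, abs_mul, abs_of_pos (by norm_num : (0 : ℝ) < 6)]
    calc 6 * |∫ z, (z ⬝ᵥ ξ x₀) * P 2 z * (vort v (x₀ + r • z) ⬝ᵥ cross z (ξ x₀))|
        ≤ 6 * ((G * r) * ∫ z, P 2 z * nrm (vort v (x₀ + r • z))) := by gcongr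
      _ = _ := by ring
  rw [abs_mul, abs_of_pos hr] at h3
  exact le_of_mul_le_mul_left h3 hr

/-- The average at the largest radius. -/
lemma A_bound (hv : ContDiff ℝ 2 v) (hG : 0 < G) (hb : Dd v x₀ G U ξ) :
    |∫ z, P 3 z * rate v (ξ x₀) (x₀ + (1 / G) • z)| ≤ 6 * U * G * ∫ z, P 2 z := by
  set e := ξ x₀ with he'
  set r := 1 / G with hr'
  have hr : 0 < r := by positivity
  have h0 : nrm (x₀ - x₀) < 1 / G := by
    rw [sub_self]
    have : nrm (0 : V) = 0 := by simp [nrm]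
    rw [this]
    positivity
  have he : nrm e ≤ 1 := (hb _ h0).2.1
  have hvj : ∀ j, ContDiff ℝ 1 fun y => v y j := fun j =>
    (contDiff_pi.1 hv j).of_le (by norm_num)
  set w : V → ℝ := fun y => ∑ j, e j * v y j with hw
  have cw : ContDiff ℝ 1 w := ContDiff.sum fun j _ => contDiff_const.mul (hvj j)
  set δ : V → ℝ := fun z => w (x₀ + r • z) - w x₀ with hδ
  have cδ : ContDiff ℝ 1 δ := (comp_aff cw x₀ r).sub contDiff_const
  have dδ : ∀ z, fderiv ℝ δ z e = r * rate v e (x₀ + r • z) := by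
    intro z
    have h1 : fderiv ℝ δ z = fderiv ℝ (fun z => w (x₀ + r • z)) z := fderiv_sub_const _
    rw [h1, fderiv_comp_aff cw, smul_eq_mul]
    congr 1
    have h2 : HasFDerivAt v (fderiv ℝ v (x₀ + r • z)) (x₀ + r • z) :=
      ((hv.differentiable two_ne_zero) _).hasFDerivAt
    have h3 : HasFDerivAt w (∑ j, e j • ((ContinuousLinearMap.proj j : V →L[ℝ] ℝ) ∘L
        fderiv ℝ v (x₀ + r • z))) (x₀ + r • z) :=
      HasFDerivAt.fun_sum fun j _ => (hasFDerivAt_pi'.1 h2 j).const_mul (e j)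
    rw [h3.fderiv]
    have h4 : fderiv ℝ v (x₀ + r • z) e = ∑ k, e k • fderiv ℝ v (x₀ + r • z) (Pi.single k 1) := by
      conv_lhs => rw [show e = ∑ k, e k • (Pi.single k 1 : V) by
        ext i; simp [Finset.sum_apply, Pi.single_apply]]
      rw [map_sum]
      simp
    simp only [FunLike.coe_sum, Finset.sum_apply, FunLike.coe_smul, Pi.smul_apply,
      ContinuousLinearMap.comp_apply, smul_eq_mul, h4, rate, dotProduct, Matrix.mulVec, grad,
      Matrix.of_apply]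
    refine Finset.sum_congr rfl fun j _ => ?_
    simp [mul_comm]
  have h1 : r * ∫ z, P 3 z * rate v e (x₀ + r • z) = -∫ z, fderiv ℝ (P 3) z e * δ z := by
    rw [← ibp (P_contDiff 1) (P_supp 2) cδ e, ← integral_const_mul]
    refine integral_congr_ae (Eventually.of_forall fun z => ?_)
    simp only [dδ]
    ring
  have h2 : |∫ z, fderiv ℝ (P 3) z e * δ z| ≤ 6 * U * ∫ z, P 2 z := by
    rw [← integral_const_mul, ← Real.norm_eq_abs]
    refine norm_integral_le_of_norm_le ((P_integrable 1).const_mul _)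
      (Eventually.of_forall fun z => ?_)
    rw [Real.norm_eq_abs, abs_mul, show P 3 = P (1 + 2) from rfl, P_fderiv 1 z e]
    rcases lt_or_ge (z ⬝ᵥ z) 1 with hz | hz
    · obtain ⟨hy, hyr⟩ := in_ball (x₀ := x₀) hr (le_of_eq hr') hz
      obtain ⟨-, -, -, hb4⟩ := hb _ hy
      have hz1 := (nrm_lt_one hz).le
      have b1 : |z ⬝ᵥ e| ≤ 1 := (dot_le _ _).trans (mul_le_one₀ hz1 (nrm_nonneg _) he)
      have b2 : |δ z| ≤ U := by
        have e1 : δ z = e ⬝ᵥ (v (x₀ + r • z) - v x₀) := by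
          simp only [hδ, hw, dotProduct, Pi.sub_apply, Fin.sum_univ_three]
          ring
        rw [e1]
        refine (dot_le _ _).trans ?_
        calc nrm e * nrm (v (x₀ + r • z) - v x₀) ≤ 1 * U := by
              have := nrm_nonneg (v (x₀ + r • z) - v x₀)
              gcongr
          _ = U := one_mul U
      have e3 : |-2 * (((1 : ℕ) : ℝ) + 2) * P (1 + 1) z * (z ⬝ᵥ e)| = 6 * P 2 z * |z ⬝ᵥ e| := by
        rw [abs_mul, abs_mul, abs_of_nonneg (P_nonneg (1 + 1) z)]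
        norm_num
      rw [e3]
      have hp := P_nonneg 2 z
      calc 6 * P 2 z * |z ⬝ᵥ e| * |δ z| ≤ 6 * P 2 z * 1 * U := by gcongr
        _ = 6 * U * P (1 + 1) z := by ring
    · have e3 : P (1 + 1) z = 0 := P_zero_of hz
      rw [e3]
      simp
  have h3 : |∫ z, P 3 z * rate v e (x₀ + r • z)| * r ≤ 6 * U * ∫ z, P 2 z := by
    rw [← abs_of_pos hr, ← abs_mul, mul_comm, abs_of_pos hr, h1, abs_neg]
    exact h2
  rw [← le_div_iff₀ hr] at h3
  refine h3.trans (le_of_eq ?_)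
  rw [hr']
  field_simp

end

end Pool.Agent.W786.Dir
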