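import Pool.Agent.W786.Dir4

/-!
# The pointwise bound of the stretching rate: assembly
-/

open MeasureTheory Set Filter
open scoped ENNReal NNReal Topology

namespace Pool.Agent.W786.Dir

open Pool.Agent.H708R2.EulerSign Pool.Agent.H708R2.EulerTypeI

variable {v : V → V}

/-- The constant of the estimate. -/
noncomputable def Cst : ℝ := (6 * (∫ z, P 2 z) + 180 * ∫ z, P 1 z) / ∫ z, P 3 z

lemma Cst_pos : 0 < Cst := by
  have h1 : 0 < ∫ z, P 1 z := P_int_pos 0
  have h2 : 0 < ∫ z, P 2 z := P_int_pos 1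
  have h3 : 0 < ∫ z, P 3 z := P_int_pos 2
  unfold Cst
  positivity

/-- **The stretching rate of a regularly directed vorticity.** -/
theorem rate_bound (hv : ContDiff ℝ 2 v) (hdiv : ∀ x, divergence v x = 0) {x₀ : V} {G U : ℝ}
    {ξ : V → V} (hξ : ContDiff ℝ 1 ξ) (hG : 0 < G) (hb : Dd v x₀ G U ξ) {Ω : ℝ}
    (hΩ : ∀ y, nrm (y - x₀) < 1 / G → nrm (vort v y) ≤ Ω) {δ : ℝ} (hδ : 0 < δ) (hδ1 : δ ≤ 1) :
    |rate v (ξ x₀) x₀| ≤ Cst * (U * G * (1 + Real.log (1 / δ)) + δ * Ω) := by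
  have c1 : 0 < ∫ z, P 1 z := P_int_pos 0
  have c2 : 0 < ∫ z, P 2 z := P_int_pos 1
  have c3 : 0 < ∫ z, P 3 z := P_int_pos 2
  set I1 := ∫ z, P 1 z with hI1
  set I2 := ∫ z, P 2 z with hI2
  set I3 := ∫ z, P 3 z with hI3
  set e := ξ x₀ with he'
  set ρ := 1 / G with hρ'
  have hρ : 0 < ρ := by positivity
  have h0 : nrm (x₀ - x₀) < 1 / G := by
    rw [sub_self]
    have : nrm (0 : V) = 0 := by simp [nrm]
    rw [this]
    positivity
  have hU0 : 0 ≤ U := (nrm_nonneg _).trans (hb _ h0).2.2.2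
  have hΩ0 : 0 ≤ Ω := (nrm_nonneg _).trans (hΩ _ h0)
  set A : ℝ → ℝ := fun r => ∫ z, P 3 z * rate v e (x₀ + r • z) with hA
  set A' : ℝ → ℝ := fun r => ∫ z, P 3 z * fderiv ℝ (rate v e) (x₀ + r • z) z with hA'
  have hAd : ∀ r, HasDerivAt A (A' r) r := fun r =>
    param_deriv (P_cont 3) (P_supp 2) (rate_contDiff hv e) x₀ r
  have hA0 : A 0 = I3 * rate v e x₀ := by
    simp only [hA, zero_smul, add_zero]
    rw [integral_mul_const]
  have near : ∀ r, 0 < r → r ≤ ρ → |A' r| ≤ 6 * G * (Ω * I2) := by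
    intro r hr hrρ
    refine (dA_bound hv hdiv hξ hG hb hr hrρ).trans ?_
    refine mul_le_mul_of_nonneg_left ?_ (by positivity)
    rw [hI2, ← integral_const_mul]
    refine integral_mono (J_cont hv 1 r) ((P_integrable 1).const_mul Ω) fun z => ?_
    show P 2 z * nrm (vort v (x₀ + r • z)) ≤ Ω * P 2 z
    rcases lt_or_ge (z ⬝ᵥ z) 1 with hz | hz
    · rw [mul_comm]
      exact mul_le_mul_of_nonneg_right (hΩ _ (in_ball (x₀ := x₀) hr hrρ hz).1) (P_nonneg 2 z)
    · have e2 : P 2 z = 0 := P_zero_of hz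
      rw [e2]
      simp
  have far : ∀ r, 0 < r → r ≤ ρ → r * |A' r| ≤ 180 * G * U * I1 := by
    intro r hr hrρ
    have h1 := dA_bound hv hdiv hξ hG hb hr hrρ
    have h2 := J_bound hv hξ hG hb hr hrρ
    have h3 : |A' r| ≤ 6 * G * (30 * U * I1 / r) :=
      h1.trans (mul_le_mul_of_nonneg_left h2 (by positivity))
    calc r * |A' r| ≤ r * (6 * G * (30 * U * I1 / r)) := by gcongr
      _ = 180 * G * U * I1 := by field_simp; ring
  set r₀ := δ * ρ with hr₀'
  have hr₀ : 0 < r₀ := by positivity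
  have hr₀ρ : r₀ ≤ ρ := mul_le_of_le_one_left hρ.le hδ1
  -- from `0` to `r₀`
  have s1 : |A r₀ - A 0| ≤ 6 * I2 * (δ * Ω) := by
    obtain ⟨c, hc, hc2⟩ := exists_hasDerivAt_eq_slope A A' hr₀
      (fun r _ => (hAd r).continuousAt.continuousWithinAt) (fun r _ => hAd r)
    have h1 := near c hc.1 (hc.2.le.trans hr₀ρ)
    rw [hc2, sub_zero, abs_div, abs_of_pos hr₀, div_le_iff₀ hr₀] at h1
    refine h1.trans (le_of_eq ?_)
    rw [hr₀', hρ']
    field_simp
  -- from `r₀` to `ρ`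
  have s2 : |A ρ - A r₀| ≤ 180 * I1 * (U * G * Real.log (1 / δ)) := by
    rcases hr₀ρ.lt_or_eq with hlt | heq
    · obtain ⟨c, hc, hc2⟩ := exists_ratio_hasDerivAt_eq_ratio_slope A A' hlt
        (fun r _ => (hAd r).continuousAt.continuousWithinAt) (fun r _ => hAd r)
        Real.log (fun r => r⁻¹)
        (fun r hr => (Real.hasDerivAt_log (hr₀.trans_le hr.1).ne').continuousAt.continuousWithinAt)
        (fun r hr => Real.hasDerivAt_log (hr₀.trans hr.1).ne')
      have hcpos : 0 < c := hr₀.trans hc.1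
      have hlog : Real.log ρ - Real.log r₀ = Real.log (1 / δ) := by
        rw [hr₀', Real.log_mul hδ.ne' hρ.ne', one_div, Real.log_inv]
        ring
      have hlog0 : 0 ≤ Real.log (1 / δ) := Real.log_nonneg (by rw [le_div_iff₀ hδ]; linarith)
      rw [hlog] at hc2
      have h1 : A ρ - A r₀ = Real.log (1 / δ) * (c * A' c) := by
        field_simp at hc2 ⊢
        linarith
      rw [h1, abs_mul, abs_of_nonneg hlog0, abs_mul, abs_of_pos hcpos]
      have h2 := far c hcpos hc.2.le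
      calc Real.log (1 / δ) * (c * |A' c|) ≤ Real.log (1 / δ) * (180 * G * U * I1) := by gcongr
        _ = _ := by ring
    · have hd1 : δ = 1 := by
        have h1 : δ * ρ = 1 * ρ := by rw [one_mul]; exact heq
        exact mul_right_cancel₀ hρ.ne' h1
      rw [heq, sub_self, abs_zero, hd1]
      simp
  have s3 : |A ρ| ≤ 6 * U * G * I2 := A_bound hv hG hb
  have hlog0 : 0 ≤ Real.log (1 / δ) := Real.log_nonneg (by rw [le_div_iff₀ hδ]; linarith)
  have tot : I3 * |rate v e x₀| ≤ (6 * I2 + 180 * I1) * (U * G * (1 + Real.log (1 / δ)) + δ * Ω) := by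
    rw [← abs_of_pos c3, ← abs_mul, ← hA0]
    have h1 : |A 0| ≤ |A ρ| + |A ρ - A r₀| + |A r₀ - A 0| := by
      have := abs_sub_abs_le_abs_sub (A 0) (A ρ)
      have h2 : |A 0 - A ρ| ≤ |A ρ - A r₀| + |A r₀ - A 0| := by
        have e : A 0 - A ρ = -((A ρ - A r₀) + (A r₀ - A 0)) := by ring
        rw [e, abs_neg]
        exact abs_add_le _ _
      linarith
    have hUG : 0 ≤ U * G := by positivity
    have hUGl : 0 ≤ U * G * Real.log (1 / δ) := by positivity
    have hδΩ : 0 ≤ δ * Ω := by positivity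
    nlinarith [mul_nonneg c1.le hUG, mul_nonneg c1.le hδΩ, mul_nonneg c2.le hUGl]
  unfold Cst
  rw [div_mul_eq_mul_div, le_div_iff₀ c3, mul_comm]
  exact tot

/-- The bound in terms of the vorticity itself. -/
theorem stretch_dir (hv : ContDiff ℝ 2 v) (hdiv : ∀ x, divergence v x = 0) {x₀ : V} {G U : ℝ}
    (hG : 0 < G) (hd : Directed v x₀ G U) {Ω : ℝ}
    (hΩ : ∀ y, nrm (y - x₀) < 1 / G → nrm (vort v y) ≤ Ω) {δ : ℝ} (hδ : 0 < δ) (hδ1 : δ ≤ 1) :
    |vort v x₀ ⬝ᵥ (grad v x₀).mulVec (vort v x₀)|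
      ≤ Cst * (U * G * (1 + Real.log (1 / δ)) + δ * Ω) * (vort v x₀ ⬝ᵥ vort v x₀) := by
  obtain ⟨ξ, hξ, hb⟩ := hd
  have h0 : nrm (x₀ - x₀) < 1 / G := by
    rw [sub_self]
    have : nrm (0 : V) = 0 := by simp [nrm]
    rw [this]
    positivity
  have h1 := rate_bound hv hdiv hξ hG hb hΩ hδ hδ1
  have h2 := (hb _ h0).1
  have h3 : vort v x₀ ⬝ᵥ (grad v x₀).mulVec (vort v x₀)
      = (vort v x₀ ⬝ᵥ vort v x₀) * rate v (ξ x₀) x₀ := by
    rw [← nrm_sq]
    set n := nrm (vort v x₀) with hn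
    rw [h2, Matrix.mulVec_smul, smul_dotProduct, dotProduct_smul, smul_eq_mul, smul_eq_mul, rate]
    ring
  rw [h3, abs_mul, abs_of_nonneg (dot_self_nonneg _), mul_comm]
  exact mul_le_mul_of_nonneg_right h1 (dot_self_nonneg _)

end Pool.Agent.W786.Dir
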