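import Pool.Agent.W786.Sv1
import Pool.Agent.H708R2.EulerTypeI.Main

/-!
# Growth of the vorticity and the second singular value of the velocity gradient
-/

open MeasureTheory Set Filter
open scoped ENNReal NNReal Topology

namespace Pool.Agent.W786.Sv

open Pool.Agent.H708R2.EulerSign Pool.Agent.H708R2.EulerTypeI

variable {T : ℝ} {u : ℝ → V → V} {p : ℝ → V → ℝ}

lemma IsTraj.mono {X : ℝ → V} {a b a' b' : ℝ} (hX : IsTraj u X a b) (h : Icc a' b' ⊆ Icc a b) :
    IsTraj u X a' b' := fun t ht => (hX t (h ht)).mono h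

lemma vort_traj_cont (h : IsClassicalSolution (Ico 0 T) u p) {X : ℝ → V} {a b : ℝ} (ha : 0 ≤ a)
    (hb : b < T) (hX : IsTraj u X a b) (i j : Fin 3) :
    ContinuousOn (fun t => grad (u t) (X t) i j) (Icc a b) := by
  have hXc : ContinuousOn X (Icc a b) := fun t ht => (hX t ht).continuousWithinAt
  have h1 : ContinuousOn (fun t : ℝ => ((t, X t) : ℝ × V)) (Icc a b) :=
    continuousOn_id.prodMk hXc
  exact (grad_continuousOn h i j).comp h1
    (fun t ht => ⟨⟨ha.trans ht.1, ht.2.trans_lt hb⟩, mem_univ _⟩)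

lemma cv_cont {s : Set ℝ} {A : ℝ → Matrix (Fin 3) (Fin 3) ℝ}
    (hA : ∀ i j, ContinuousOn (fun t => A t i j) s) (i : Fin 3) :
    ContinuousOn (fun t => cv (A t) i) s := by
  fin_cases i
  · exact (hA 2 1).sub (hA 1 2)
  · exact (hA 0 2).sub (hA 2 0)
  · exact (hA 1 0).sub (hA 0 1)

/-- Growth of the vorticity along a trajectory. -/
lemma growth (h : IsC2Solution T u p) {X : ℝ → V} {a b : ℝ} (ha : 0 ≤ a) (hab : a ≤ b)
    (hb : b < T) (hX : IsTraj u X a b) {β : ℝ → ℝ} (hβi : IntegrableOn β (Icc a b))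
    (hrate : ∀ t ∈ Ioo a b, MidLE (grad (u t) (X t)) (β t)) :
    nrm (vort (u b) (X b)) ≤ nrm (vort (u a) (X a)) * Real.exp (2 * ∫ s in a..b, β s) := by
  set A : ℝ → Matrix (Fin 3) (Fin 3) ℝ := fun t => grad (u t) (X t) with hA
  have hAc : ∀ i j, ContinuousOn (fun t => A t i j) (Icc a b) := fun i j =>
    vort_traj_cont h.sol ha hb hX i j
  have hvc : ∀ i, ContinuousOn (fun t => cv (A t) i) (Icc a b) := fun i => cv_cont hAc i
  set W : ℝ → ℝ := fun t => cv (A t) ⬝ᵥ cv (A t) with hW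
  set P : ℝ → ℝ := fun t => cv (A t) ⬝ᵥ (A t).mulVec (cv (A t)) with hP
  have hWc : ContinuousOn W (Icc a b) := by
    simp only [hW, dotProduct]
    exact continuousOn_finsetSum _ fun i _ => (hvc i).mul (hvc i)
  have hPc : ContinuousOn P (Icc a b) := by
    simp only [hP, dotProduct, Matrix.mulVec]
    exact continuousOn_finsetSum _ fun i _ => (hvc i).mul
      (continuousOn_finsetSum _ fun j _ => (hAc i j).mul (hvc j))
  have hW0 : ∀ t, 0 ≤ W t := fun t => dot_self_nonneg _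
  have hWd : ∀ t ∈ Ioo a b, HasDerivAt W (2 * P t) t := by
    intro t ht
    obtain ⟨a', ha1, ha2⟩ := exists_between ht.1
    have hsub : Icc a' b ⊆ Icc a b := Icc_subset_Icc_left ha1.le
    have hsub2 : Icc a' b ⊆ Ioo 0 T := fun s hs =>
      ⟨(ha.trans_lt ha1).trans_le hs.1, hs.2.trans_lt hb⟩
    have h1 := vort_deriv h (IsTraj.mono hX hsub) hsub2 (t := t) ⟨ha2.le, ht.2.le⟩
    have h2 : HasDerivAt (fun t => vort (u t) (X t))
        ((grad (u t) (X t)).mulVec (vort (u t) (X t))) t :=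
      h1.hasDerivAt (Icc_mem_nhds ha2 ht.2)
    have h3 : HasDerivAt (fun t => ∑ i, vort (u t) (X t) i * vort (u t) (X t) i)
        (∑ i, ((grad (u t) (X t)).mulVec (vort (u t) (X t)) i * vort (u t) (X t) i
          + vort (u t) (X t) i * (grad (u t) (X t)).mulVec (vort (u t) (X t)) i)) t :=
      HasDerivAt.fun_sum fun i _ => (hasDerivAt_pi.1 h2 i).mul (hasDerivAt_pi.1 h2 i)
    refine h3.congr_deriv ?_
    simp only [hP, hA, vort_eq, dotProduct, Finset.mul_sum]
    refine Finset.sum_congr rfl fun i _ => ?_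
    ring
  set I := ∫ s in a..b, β s with hI
  have hβi' : IntervalIntegrable β volume a b :=
    (intervalIntegrable_iff_integrableOn_Icc_of_le hab).2 hβi
  have key : ∀ ε : ℝ, 0 < ε → W b + ε ≤ (W a + ε) * Real.exp (4 * I) := by
    intro ε hε
    have hpos : ∀ t, 0 < W t + ε := fun t => by have := hW0 t; linarith
    have hc : ContinuousOn (fun t => Real.log (W t + ε)) (Icc a b) :=
      (hWc.add continuousOn_const).log fun t _ => (hpos t).ne'
    have hd : ∀ t ∈ Ioo a b, HasDerivAt (fun t => Real.log (W t + ε)) (2 * P t / (W t + ε)) t :=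
      fun t ht => ((hWd t ht).add_const ε).log (hpos t).ne'
    have hi : IntervalIntegrable (fun t => 2 * P t / (W t + ε)) volume a b := by
      refine ContinuousOn.intervalIntegrable ?_
      rw [uIcc_of_le hab]
      exact (continuousOn_const.mul hPc).div (hWc.add continuousOn_const) fun t _ => (hpos t).ne'
    have h1 := intervalIntegral.integral_eq_sub_of_hasDerivAt_of_le hab hc hd hi
    have h2 : ∫ t in a..b, 2 * P t / (W t + ε) ≤ ∫ t in a..b, 4 * β t := by
      refine intervalIntegral.integral_mono_on_of_le_Ioo hab hi (hβi'.const_mul 4) fun t ht => ?_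
      have hm := hrate t ht
      have htI : t ∈ Ico 0 T := ⟨ha.trans ht.1.le, ht.2.trans hb⟩
      have h3 := stretch_le (M := A t) (h.sol.div_free t htI (X t)) hm
      have h4 := (abs_le.1 h3).2
      have h5 : P t ≤ 2 * β t * W t := h4
      have h6 := hm.nonneg
      rw [div_le_iff₀ (hpos t)]
      have := hW0 t
      nlinarith [mul_nonneg h6 hε.le]
    rw [intervalIntegral.integral_const_mul, h1] at h2
    have h3 : Real.log (W b + ε) ≤ Real.log (W a + ε) + 4 * I := by linarith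
    have h4 := Real.exp_le_exp.2 h3
    rwa [Real.exp_log (hpos b), Real.exp_add, Real.exp_log (hpos a)] at h4
  have hlim : W b ≤ W a * Real.exp (4 * I) := by
    have hE := Real.exp_pos (4 * I)
    refine le_of_forall_pos_le_add fun δ hδ => ?_
    have h1 := key (δ / Real.exp (4 * I)) (by positivity)
    have h2 : (W a + δ / Real.exp (4 * I)) * Real.exp (4 * I) = W a * Real.exp (4 * I) + δ := by
      field_simp
    rw [h2] at h1
    have : 0 < δ / Real.exp (4 * I) := by positivity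
    linarith
  have e1 : W b = nrm (vort (u b) (X b)) ^ 2 := by rw [nrm_sq]; rfl
  have e2 : W a = nrm (vort (u a) (X a)) ^ 2 := by rw [nrm_sq]; rfl
  have e3 : Real.exp (4 * I) = Real.exp (2 * I) ^ 2 := by
    rw [← Real.exp_nat_mul]
    congr 1
    push_cast
    ring
  rw [e1, e2, e3, ← mul_pow] at hlim
  exact (abs_le_of_sq_le_sq hlim
    (mul_nonneg (nrm_nonneg _) (Real.exp_pos _).le) |> fun h => (le_abs_self _).trans h)

/-- Comparison of the vorticity with a function `G`. -/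
lemma comp (h : IsC2Solution T u p) {a b : ℝ} (ha : 0 ≤ a) (hab : a ≤ b) (hb : b < T)
    {β G : ℝ → ℝ} (hGc : ContinuousOn G (Icc a b)) (hβi : IntegrableOn β (Icc a b))
    (hG : ∀ s ∈ Icc a b, G s * Real.exp (2 * ∫ r in s..b, β r) ≤ G b)
    (h0 : ∀ y, nrm (vort (u a) y) ≤ G a)
    (hrate : ∀ t ∈ Ioo a b, ∀ y, G t < nrm (vort (u t) y) → MidLE (grad (u t) y) (β t)) (x : V) :
    nrm (vort (u b) x) ≤ G b := by
  obtain ⟨X, hX, hXx⟩ := exists_traj h.sol ha hab hb x
  by_contra hcon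
  push Not at hcon
  have hAc : ∀ i j, ContinuousOn (fun t => grad (u t) (X t) i j) (Icc a b) := fun i j =>
    vort_traj_cont h.sol ha hb hX i j
  have hvc : ∀ i, ContinuousOn (fun t => cv (grad (u t) (X t)) i) (Icc a b) :=
    fun i => cv_cont hAc i
  have hnc : ContinuousOn (fun t => nrm (vort (u t) (X t))) (Icc a b) := by
    simp only [nrm, vort_eq, dotProduct]
    exact (continuousOn_finsetSum _ fun i _ => (hvc i).mul (hvc i)).sqrt
  set S : Set ℝ := {t ∈ Icc a b | nrm (vort (u t) (X t)) ≤ G t} with hS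
  have hSc : IsCompact S := by
    have : IsClosed S := by
      have h1 := (hnc.sub hGc).preimage_isClosed_of_isClosed isClosed_Icc (isClosed_Iic (a := 0))
      convert h1 using 1
      ext t
      simp [hS]
    exact isCompact_Icc.of_isClosed_subset this fun t ht => ht.1
  have hSne : S.Nonempty := ⟨a, ⟨le_rfl, hab⟩, h0 _⟩
  obtain ⟨hsI, hsG⟩ := hSc.sSup_mem hSne
  set s := sSup S with hs
  have hsub : Icc s b ⊆ Icc a b := Icc_subset_Icc_left hsI.1
  have hlt : ∀ t ∈ Ioc s b, G t < nrm (vort (u t) (X t)) := by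
    intro t ht
    by_contra h1
    push Not at h1
    have : t ∈ S := ⟨hsub ⟨ht.1.le, ht.2⟩, h1⟩
    exact absurd (le_csSup hSc.bddAbove this) (not_le.2 ht.1)
  have h1 := growth h (ha.trans hsI.1) hsI.2 hb (IsTraj.mono hX hsub) (hβi.mono_set hsub)
    (fun t ht => hrate t ⟨hsI.1.trans_lt ht.1, ht.2⟩ (X t) (hlt t ⟨ht.1, ht.2.le⟩))
  have h2 : nrm (vort (u b) (X b)) ≤ G b := by
    refine h1.trans (le_trans ?_ (hG s hsI))
    gcongr
  rw [hXx] at h2
  exact absurd h2 (not_le.2 hcon)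

/-- The criterion with an integrable bound for the second singular value. -/
theorem integrable_bound (h : IsC2Solution T u p) {β Λ : ℝ → ℝ} (hβ0 : ∀ t ∈ Ioo 0 T, 0 ≤ β t)
    (hβi : IntegrableOn β (Ioo 0 T)) (hΛ : MonotoneOn Λ (Ioo 0 T))
    (hyp : ∀ t ∈ Ioo 0 T, ∀ x, Λ t < nrm (vort (u t) x) → MidLE (grad (u t) x) (β t))
    {W : ℝ} (hW : ∀ x, nrm (vort (u 0) x) ≤ W) :
    ∀ t ∈ Ioo 0 T, ∀ x,
      nrm (vort (u t) x) ≤ max W (Λ t) * Real.exp (2 * ∫ s in Ioo 0 t, β s) := by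
  intro b hb x
  have hW0 : 0 ≤ W := (nrm_nonneg _).trans (hW 0)
  have hm0 : 0 ≤ max W (Λ b) := hW0.trans (le_max_left _ _)
  have hβb : IntegrableOn β (Icc 0 b) := by
    have : IntegrableOn β (Ioo 0 b) := hβi.mono_set (Ioo_subset_Ioo_right hb.2.le)
    rwa [integrableOn_Icc_iff_integrableOn_Ioo]
  have hii : ∀ s ∈ Icc 0 b, IntervalIntegrable β volume 0 s := fun s hs =>
    (intervalIntegrable_iff_integrableOn_Icc_of_le hs.1).2
      (hβb.mono_set (Icc_subset_Icc_right hs.2))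
  have hint0 : ∀ s ∈ Icc 0 b, 0 ≤ ∫ r in (0 : ℝ)..s, β r := by
    intro s hs
    rw [intervalIntegral.integral_of_le hs.1, integral_Ioc_eq_integral_Ioo]
    exact setIntegral_nonneg measurableSet_Ioo fun r hr =>
      hβ0 r ⟨hr.1, hr.2.trans (hs.2.trans_lt hb.2)⟩
  have hconv : ∫ s in Ioo 0 b, β s = ∫ s in (0 : ℝ)..b, β s := by
    rw [intervalIntegral.integral_of_le hb.1.le, integral_Ioc_eq_integral_Ioo]
  rw [hconv]
  refine comp h le_rfl hb.1.le hb.2
    (G := fun t => max W (Λ b) * Real.exp (2 * ∫ s in (0 : ℝ)..t, β s)) ?_ hβb ?_ ?_ ?_ x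
  · have h1 : ContinuousOn (fun t => ∫ s in (0 : ℝ)..t, β s) (Icc 0 b) := by
      have := intervalIntegral.continuousOn_primitive_interval (f := β) (a := 0) (b := b)
        (by rwa [uIcc_of_le hb.1.le])
      rwa [uIcc_of_le hb.1.le] at this
    exact continuousOn_const.mul (Real.continuous_exp.comp_continuousOn (continuousOn_const.mul h1))
  · intro s hs
    have h1 : (∫ r in (0 : ℝ)..s, β r) + ∫ r in s..b, β r = ∫ r in (0 : ℝ)..b, β r :=
      intervalIntegral.integral_add_adjacent_intervals (hii s hs)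
        ((hii s hs).symm.trans (hii b ⟨hb.1.le, le_rfl⟩))
    rw [mul_assoc, ← Real.exp_add, ← mul_add, h1]
  · intro y
    simp only [intervalIntegral.integral_same, mul_zero, Real.exp_zero, mul_one]
    exact (hW y).trans (le_max_left _ _)
  · intro t ht y hy
    refine hyp t ⟨ht.1, ht.2.trans hb.2⟩ y (lt_of_le_of_lt ?_ hy)
    have h1 : Λ t ≤ Λ b := hΛ ⟨ht.1, ht.2.trans hb.2⟩ hb ht.2.le
    have h2 := hint0 t ⟨ht.1.le, ht.2.le⟩
    have h3 : 1 ≤ Real.exp (2 * ∫ s in (0 : ℝ)..t, β s) := Real.one_le_exp (by positivity)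
    calc Λ t ≤ max W (Λ b) := h1.trans (le_max_right _ _)
      _ ≤ max W (Λ b) * Real.exp (2 * ∫ s in (0 : ℝ)..t, β s) := le_mul_of_one_le_right hm0 h3

/-- Finiteness of the Beale-Kato-Majda integral. -/
theorem integrable_bkm (h : IsC2Solution T u p) {β Λ : ℝ → ℝ} (hβ0 : ∀ t ∈ Ioo 0 T, 0 ≤ β t)
    (hβi : IntegrableOn β (Ioo 0 T)) (hΛ : MonotoneOn Λ (Ioo 0 T))
    (hΛi : IntegrableOn Λ (Ioo 0 T))
    (hyp : ∀ t ∈ Ioo 0 T, ∀ x, Λ t < nrm (vort (u t) x) → MidLE (grad (u t) x) (β t)) :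
    BKMFinite T u := by
  unfold BKMFinite
  rcases le_or_gt T 0 with hT | hT
  · rw [Ioo_eq_empty (not_lt.2 hT)]
    simp
  obtain ⟨W, hW0, hW⟩ := vort_bound h.sol (b := 0) hT
  have hb := integrable_bound h hβ0 hβi hΛ hyp (fun x => (hW 0 ⟨le_rfl, le_rfl⟩ x).1)
  set E := Real.exp (2 * ∫ s in Ioo 0 T, β s) with hE
  have hEt : ∀ t ∈ Ioo 0 T, Real.exp (2 * ∫ s in Ioo 0 t, β s) ≤ E := by
    intro t ht
    refine Real.exp_le_exp.2 (mul_le_mul_of_nonneg_left ?_ (by norm_num))
    refine setIntegral_mono_set hβi ?_ (Ioo_subset_Ioo_right ht.2.le).eventuallyLE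
    exact (ae_restrict_iff' measurableSet_Ioo).2 (Eventually.of_forall fun s hs => hβ0 s hs)
  have h1 : ∫⁻ t in Ioo 0 T, ⨆ x, ENNReal.ofReal (nrm (vort (u t) x))
      ≤ ∫⁻ t in Ioo 0 T, ENNReal.ofReal ((W + |Λ t|) * E) := by
    refine setLIntegral_mono' measurableSet_Ioo fun t ht => ?_
    refine iSup_le fun x => ENNReal.ofReal_le_ofReal ((hb t ht x).trans ?_)
    have h2 : max W (Λ t) ≤ W + |Λ t| :=
      max_le (by have := abs_nonneg (Λ t); linarith) (by have := le_abs_self (Λ t); linarith)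
    have h3 := hEt t ht
    have h4 := abs_nonneg (Λ t)
    gcongr
  refine h1.trans_lt ?_
  have h2 : IntegrableOn (fun t => (W + |Λ t|) * E) (Ioo 0 T) := by
    refine Integrable.mul_const ?_ E
    refine Integrable.add ?_ hΛi.abs
    exact integrableOn_const (by simp)
  exact h2.lintegral_lt_top

end Pool.Agent.W786.Sv
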