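import Pool.Agent.W786.Dir5
import Pool.Agent.W786.Sv2

/-!
# The continuation criterion for regularly directed vorticities
-/

open MeasureTheory Set Filter
open scoped ENNReal NNReal Topology

namespace Pool.Agent.W786.Dir

open Pool.Agent.H708R2.EulerSign Pool.Agent.H708R2.EulerTypeI Pool.Agent.W786.Sv

variable {T : ℝ} {u : ℝ → V → V} {p : ℝ → V → ℝ}

/-- Growth of the vorticity along a trajectory, with a bound `ρ` of the stretching rate. -/
lemma growth' (h : IsC2Solution T u p) {X : ℝ → V} {a b : ℝ} (ha : 0 ≤ a) (hab : a ≤ b)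
    (hb : b < T) (hX : IsTraj u X a b) {ρ : ℝ → ℝ} (hρi : IntegrableOn ρ (Icc a b))
    (hρ0 : ∀ t ∈ Ioo a b, 0 ≤ ρ t)
    (hrate : ∀ t ∈ Ioo a b, vort (u t) (X t) ⬝ᵥ (grad (u t) (X t)).mulVec (vort (u t) (X t))
      ≤ ρ t * (vort (u t) (X t) ⬝ᵥ vort (u t) (X t))) :
    nrm (vort (u b) (X b)) ≤ nrm (vort (u a) (X a)) * Real.exp (∫ s in a..b, ρ s) := by
  set A : ℝ → Matrix (Fin 3) (Fin 3) ℝ := fun t => grad (u t) (X t) with hA
  have hAc : ∀ i j, ContinuousOn (fun t => A t i j) (Icc a b) := fun i j =>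
    vort_traj_cont h.sol ha hb hX i j
  have hvc : ∀ i, ContinuousOn (fun t => cv (A t) i) (Icc a b) := fun i => cv_cont hAc i
  set W : ℝ → ℝ := fun t => cv (A t) ⬝ᵥ cv (A t) with hW
  set Q : ℝ → ℝ := fun t => cv (A t) ⬝ᵥ (A t).mulVec (cv (A t)) with hQ
  have hWc : ContinuousOn W (Icc a b) := by
    simp only [hW, dotProduct]
    exact continuousOn_finsetSum _ fun i _ => (hvc i).mul (hvc i)
  have hQc : ContinuousOn Q (Icc a b) := by
    simp only [hQ, dotProduct, Matrix.mulVec]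
    exact continuousOn_finsetSum _ fun i _ => (hvc i).mul
      (continuousOn_finsetSum _ fun j _ => (hAc i j).mul (hvc j))
  have hW0 : ∀ t, 0 ≤ W t := fun t => dot_self_nonneg _
  have hWd : ∀ t ∈ Ioo a b, HasDerivAt W (2 * Q t) t := by
    intro t ht
    obtain ⟨a', ha1, ha2⟩ := exists_between ht.1
    have hsub : Icc a' b ⊆ Icc a b := Icc_subset_Icc_left ha1.le
    have hsub2 : Icc a' b ⊆ Ioo 0 T := fun s hs =>
      ⟨(ha.trans_lt ha1).trans_le hs.1, hs.2.trans_lt hb⟩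
    have h1 := vort_deriv h (Sv.IsTraj.mono hX hsub) hsub2 (t := t) ⟨ha2.le, ht.2.le⟩
    have h2 : HasDerivAt (fun t => vort (u t) (X t))
        ((grad (u t) (X t)).mulVec (vort (u t) (X t))) t :=
      h1.hasDerivAt (Icc_mem_nhds ha2 ht.2)
    have h3 : HasDerivAt (fun t => ∑ i, vort (u t) (X t) i * vort (u t) (X t) i)
        (∑ i, ((grad (u t) (X t)).mulVec (vort (u t) (X t)) i * vort (u t) (X t) i
          + vort (u t) (X t) i * (grad (u t) (X t)).mulVec (vort (u t) (X t)) i)) t :=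
      HasDerivAt.fun_sum fun i _ => (hasDerivAt_pi.1 h2 i).mul (hasDerivAt_pi.1 h2 i)
    refine h3.congr_deriv ?_
    simp only [hQ, hA, vort_eq, dotProduct, Finset.mul_sum]
    refine Finset.sum_congr rfl fun i _ => ?_
    ring
  set I := ∫ s in a..b, ρ s with hI
  have hρi' : IntervalIntegrable ρ volume a b :=
    (intervalIntegrable_iff_integrableOn_Icc_of_le hab).2 hρi
  have key : ∀ ε : ℝ, 0 < ε → W b + ε ≤ (W a + ε) * Real.exp (2 * I) := by
    intro ε hε
    have hpos : ∀ t, 0 < W t + ε := fun t => by have := hW0 t; linarith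
    have hc : ContinuousOn (fun t => Real.log (W t + ε)) (Icc a b) :=
      (hWc.add continuousOn_const).log fun t _ => (hpos t).ne'
    have hd : ∀ t ∈ Ioo a b, HasDerivAt (fun t => Real.log (W t + ε)) (2 * Q t / (W t + ε)) t :=
      fun t ht => ((hWd t ht).add_const ε).log (hpos t).ne'
    have hi : IntervalIntegrable (fun t => 2 * Q t / (W t + ε)) volume a b := by
      refine ContinuousOn.intervalIntegrable ?_
      rw [uIcc_of_le hab]
      exact (continuousOn_const.mul hQc).div (hWc.add continuousOn_const) fun t _ => (hpos t).ne'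
    have h1 := intervalIntegral.integral_eq_sub_of_hasDerivAt_of_le hab hc hd hi
    have h2 : ∫ t in a..b, 2 * Q t / (W t + ε) ≤ ∫ t in a..b, 2 * ρ t := by
      refine intervalIntegral.integral_mono_on_of_le_Ioo hab hi (hρi'.const_mul 2) fun t ht => ?_
      have h5 : Q t ≤ ρ t * W t := hrate t ht
      have h6 := hρ0 t ht
      rw [div_le_iff₀ (hpos t)]
      have := hW0 t
      nlinarith [mul_nonneg h6 hε.le]
    rw [intervalIntegral.integral_const_mul, h1] at h2
    have h3 : Real.log (W b + ε) ≤ Real.log (W a + ε) + 2 * I := by linarith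
    have h4 := Real.exp_le_exp.2 h3
    rwa [Real.exp_log (hpos b), Real.exp_add, Real.exp_log (hpos a)] at h4
  have hlim : W b ≤ W a * Real.exp (2 * I) := by
    have hE := Real.exp_pos (2 * I)
    refine le_of_forall_pos_le_add fun δ hδ => ?_
    have h1 := key (δ / Real.exp (2 * I)) (by positivity)
    have h2 : (W a + δ / Real.exp (2 * I)) * Real.exp (2 * I) = W a * Real.exp (2 * I) + δ := by
      field_simp
    rw [h2] at h1
    have : 0 < δ / Real.exp (2 * I) := by positivity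
    linarith
  have e1 : W b = nrm (vort (u b) (X b)) ^ 2 := by rw [nrm_sq]; rfl
  have e2 : W a = nrm (vort (u a) (X a)) ^ 2 := by rw [nrm_sq]; rfl
  have e3 : Real.exp (2 * I) = Real.exp I ^ 2 := by
    rw [← Real.exp_nat_mul]
    norm_num
  rw [e1, e2, e3, ← mul_pow] at hlim
  exact (abs_le_of_sq_le_sq hlim
    (mul_nonneg (nrm_nonneg _) (Real.exp_pos _).le) |> fun h => (le_abs_self _).trans h)

lemma nrm_vort_cont (h : IsClassicalSolution (Ico 0 T) u p) {b : ℝ} (hb : b < T) :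
    ContinuousOn (fun z : ℝ × V => nrm (vort (u z.1) z.2)) (Icc 0 b ×ˢ univ) := by
  have hsub : Icc 0 b ×ˢ (univ : Set V) ⊆ Ico 0 T ×ˢ univ :=
    prod_mono (Icc_subset_Ico_right hb) subset_rfl
  have hg : ∀ i j, ContinuousOn (fun z : ℝ × V => grad (u z.1) z.2 i j) (Icc 0 b ×ˢ univ) :=
    fun i j => (grad_continuousOn h i j).mono hsub
  have hv : ∀ i, ContinuousOn (fun z : ℝ × V => vort (u z.1) z.2 i) (Icc 0 b ×ˢ univ) := by
    intro i
    fin_cases i
    · exact (hg 2 1).sub (hg 1 2)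
    · exact (hg 0 2).sub (hg 2 0)
    · exact (hg 1 0).sub (hg 0 1)
  simp only [nrm, dotProduct]
  exact (continuousOn_finsetSum _ fun i _ => (hv i).mul (hv i)).sqrt

lemma vort_periodic (h : IsClassicalSolution (Ico 0 T) u p) {t : ℝ} (ht : t ∈ Ico 0 T) :
    Periodic3 (fun x => nrm (vort (u t) x)) := by
  intro k x
  simp only [vort]
  have := fun i j => grad_periodic h ht i j k x
  simp only at this
  simp only [this]

/-- The first time at which a periodic function reaches a barrier. -/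
lemma first_time {f : ℝ → V → ℝ} {F : ℝ → ℝ} {b : ℝ} (hb0 : 0 ≤ b)
    (hf : ContinuousOn (fun z : ℝ × V => f z.1 z.2) (Icc 0 b ×ˢ univ))
    (hF : ContinuousOn F (Icc 0 b)) (hper : ∀ t ∈ Icc 0 b, Periodic3 (f t)) {x₂ : V}
    (h2 : F b ≤ f b x₂) :
    ∃ t₁ ∈ Icc 0 b, (∃ x, F t₁ ≤ f t₁ x) ∧ ∀ t ∈ Ico 0 t₁, ∀ x, f t x < F t := by
  have hcell : ∀ t ∈ Icc 0 b, ∀ x, ∃ y ∈ closure Dom, f t y = f t x := by
    intro t ht x
    obtain ⟨g, hg, -⟩ := dom_exists_unique x
    have h2 : (g +ᵥ x : V) = x + g := by rw [add_comm]; rfl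
    refine ⟨x + g, ?_, (hper t ht).lat g.2 x⟩
    rw [← h2]
    exact subset_closure hg
  set K : Set (ℝ × V) := Icc 0 b ×ˢ closure Dom with hK
  have hKc : IsCompact K := isCompact_Icc.prod dom_bdd.isCompact_closure
  have hKsub : K ⊆ Icc 0 b ×ˢ univ := prod_mono subset_rfl (subset_univ _)
  set S : Set (ℝ × V) := {z ∈ K | F z.1 ≤ f z.1 z.2} with hS
  have hSc : IsCompact S := by
    have hc : ContinuousOn (fun z : ℝ × V => f z.1 z.2 - F z.1) K :=
      (hf.mono hKsub).sub (hF.comp continuousOn_fst fun z hz => hz.1)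
    have h1 := hc.preimage_isClosed_of_isClosed hKc.isClosed (isClosed_Ici (a := 0))
    refine hKc.of_isClosed_subset ?_ fun z hz => hz.1
    convert h1 using 1
    ext z
    simp [hS]
  have hne : S.Nonempty := by
    obtain ⟨y, hy, hy2⟩ := hcell b ⟨hb0, le_rfl⟩ x₂
    exact ⟨(b, y), ⟨⟨hb0, le_rfl⟩, hy⟩, by simp only [hy2]; exact h2⟩
  obtain ⟨z, hz, hmin⟩ := hSc.exists_isMinOn hne continuousOn_fst
  refine ⟨z.1, hz.1.1, ⟨z.2, hz.2⟩, fun t ht x => ?_⟩
  by_contra hcon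
  push Not at hcon
  have htI : t ∈ Icc 0 b := ⟨ht.1, ht.2.le.trans hz.1.1.2⟩
  obtain ⟨y, hy, hy2⟩ := hcell t htI x
  have : (t, y) ∈ S := ⟨⟨htI, hy⟩, by simp only [hy2]; exact hcon⟩
  exact absurd (hmin this) (not_le.2 ht.2)

/-- `∫ b e^B ≤ e^{B(t)} - e^{B(s)}` for the primitive `B` of an integrable function `b ≥ 0`. -/
lemma int_exp_le {b : ℝ → ℝ} {c : ℝ} (hbi : IntegrableOn b (Icc 0 c))
    (hb0 : ∀ t ∈ Icc 0 c, 0 ≤ b t) {s t : ℝ} (hs : 0 ≤ s) (hst : s ≤ t) (htc : t ≤ c) :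
    ∫ r in s..t, b r * Real.exp (∫ q in (0 : ℝ)..r, b q)
      ≤ Real.exp (∫ q in (0 : ℝ)..t, b q) - Real.exp (∫ q in (0 : ℝ)..s, b q) := by
  set B : ℝ → ℝ := fun r => ∫ q in (0 : ℝ)..r, b q with hB
  have hc0 : 0 ≤ c := hs.trans (hst.trans htc)
  have hI : IntervalIntegrable b volume 0 c :=
    (intervalIntegrable_iff_integrableOn_Icc_of_le hc0).2 hbi
  have hii : ∀ x ∈ Icc 0 c, ∀ y ∈ Icc 0 c, IntervalIntegrable b volume x y := fun x hx y hy =>
    hI.mono_set (by rw [uIcc_of_le hc0]; exact uIcc_subset_Icc hx hy)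
  have hmonoB : MonotoneOn B (Icc 0 c) := by
    intro x hx y hy hxy
    have h1 : B y - B x = ∫ q in x..y, b q :=
      intervalIntegral.integral_interval_sub_left (hii 0 ⟨le_rfl, hc0⟩ y hy)
        (hii 0 ⟨le_rfl, hc0⟩ x hx)
    have h2 : 0 ≤ ∫ q in x..y, b q :=
      intervalIntegral.integral_nonneg hxy fun q hq => hb0 q ⟨hx.1.trans hq.1, hq.2.trans hy.2⟩
    linarith
  have hmono : MonotoneOn (fun r => Real.exp (B r)) (uIcc s t) := by
    rw [uIcc_of_le hst]
    intro x hx y hy hxy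
    exact Real.exp_le_exp.2 (hmonoB ⟨hs.trans hx.1, hx.2.trans htc⟩
      ⟨hs.trans hy.1, hy.2.trans htc⟩ hxy)
  have h1 := hmono.intervalIntegral_deriv_mem_uIcc
  have h2 : 0 ≤ Real.exp (B t) - Real.exp (B s) := by
    have := hmono (by rw [uIcc_of_le hst]; exact ⟨le_rfl, hst⟩)
      (by rw [uIcc_of_le hst]; exact ⟨hst, le_rfl⟩) hst
    simp only at this
    linarith
  rw [uIcc_of_le h2] at h1
  refine le_trans (le_of_eq ?_) h1.2
  refine intervalIntegral.integral_congr_ae ?_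
  filter_upwards [hI.ae_hasDerivAt_integral] with r hr hr2
  have hrc : r ∈ uIcc 0 c := by
    rw [uIcc_of_le hc0]
    rw [uIoc_of_le hst] at hr2
    exact ⟨hs.trans hr2.1.le, hr2.2.trans htc⟩
  have h3 := (hr hrc 0 (by simp)).exp
  rw [h3.deriv]
  ring

end Pool.Agent.W786.Dir
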