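import Pool.Agent.W786.Dir6

/-!
# The continuation criterion for regularly directed vorticities: main theorem
-/

open MeasureTheory Set Filter
open scoped ENNReal NNReal Topology

namespace Pool.Agent.W786.Dir

open Pool.Agent.H708R2.EulerSign Pool.Agent.H708R2.EulerTypeI Pool.Agent.W786.Sv

variable {T : ℝ} {u : ℝ → V → V} {p : ℝ → V → ℝ}

lemma slice_two (h : IsC2Solution T u p) {t : ℝ} (ht : t ∈ Ioo 0 T) : ContDiff ℝ 2 (u t) := by
  have h1 : ContDiffOn ℝ 2 (fun x : V => ((t, x) : ℝ × V)) univ :=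
    (contDiff_const.prodMk contDiff_id).contDiffOn
  exact contDiffOn_univ.1 (h.u2.comp h1 fun x _ => ⟨ht, mem_univ _⟩)

/-- The bound of the vorticity. -/
theorem directed_bound (h : IsC2Solution T u p) {G U : ℝ → ℝ} {Λ K : ℝ}
    (hG : ∀ t ∈ Ioo 0 T, 0 < G t) (hint : IntegrableOn (fun t => U t * G t) (Ioo 0 T))
    (hdir : ∀ t ∈ Ioo 0 T, ∀ x, Λ < nrm (vort (u t) x) → Directed (u t) x (G t) (U t))
    (hK1 : 1 ≤ K) (hKΛ : Λ ≤ K) (hK0 : ∀ x, nrm (vort (u 0) x) ≤ K) :
    ∀ t ∈ Ioo 0 T, ∀ x, nrm (vort (u t) x)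
      ≤ Real.exp ((2 + Real.log K) * Real.exp (Cst * ∫ s in Ioo 0 t, (1 + |U s * G s|))) := by
  intro c hc x₂
  have hC := Cst_pos
  set b : ℝ → ℝ := fun t => Cst * (1 + |U t * G t|) with hb
  have hb0 : ∀ t, 0 ≤ b t := fun t => by
    have := abs_nonneg (U t * G t)
    positivity
  have hbi : IntegrableOn b (Icc 0 c) := by
    rw [integrableOn_Icc_iff_integrableOn_Ioo]
    have h1 : IntegrableOn (fun t => U t * G t) (Ioo 0 c) :=
      hint.mono_set (Ioo_subset_Ioo_right hc.2.le)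
    have h2 : IntegrableOn (fun _ : ℝ => (1 : ℝ)) (Ioo 0 c) := integrableOn_const (by simp)
    exact (h2.add h1.abs).const_mul Cst
  set B : ℝ → ℝ := fun t => ∫ s in (0 : ℝ)..t, b s with hB
  set z₀ := 2 + Real.log K with hz₀
  have hlogK : 0 ≤ Real.log K := Real.log_nonneg hK1
  have hz₀2 : 2 ≤ z₀ := by linarith
  set z : ℝ → ℝ := fun t => z₀ * Real.exp (B t) with hz
  set F : ℝ → ℝ := fun t => Real.exp (z t - 1) with hF
  have hBc : ContinuousOn B (Icc 0 c) := by
    have := intervalIntegral.continuousOn_primitive_interval (f := b) (a := 0) (b := c)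
      (by rwa [uIcc_of_le hc.1.le])
    rwa [uIcc_of_le hc.1.le] at this
  have hzc : ContinuousOn z (Icc 0 c) :=
    continuousOn_const.mul (Real.continuous_exp.comp_continuousOn hBc)
  have hFc : ContinuousOn F (Icc 0 c) :=
    Real.continuous_exp.comp_continuousOn (hzc.sub continuousOn_const)
  have hB0 : ∀ t ∈ Icc 0 c, 0 ≤ B t := fun t ht =>
    intervalIntegral.integral_nonneg ht.1 fun s _ => hb0 s
  have hz1 : ∀ t ∈ Icc 0 c, z₀ ≤ z t := fun t ht =>
    le_mul_of_one_le_right (by linarith) (Real.one_le_exp (hB0 t ht))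
  have hfinal : F c ≤ Real.exp ((2 + Real.log K)
      * Real.exp (Cst * ∫ s in Ioo 0 c, (1 + |U s * G s|))) := by
    refine Real.exp_le_exp.2 ?_
    have h1 : B c = Cst * ∫ s in Ioo 0 c, (1 + |U s * G s|) := by
      simp only [hB, hb]
      rw [intervalIntegral.integral_of_le hc.1.le, integral_Ioc_eq_integral_Ioo,
        integral_const_mul]
    rw [← h1]
    show z c - 1 ≤ z c
    linarith
  refine le_trans ?_ hfinal
  by_contra hcon
  push Not at hcon
  obtain ⟨t₁, ht₁, ⟨x₁, hx₁⟩, hlt⟩ := first_time (f := fun t x => nrm (vort (u t) x)) (F := F)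
    hc.1.le (nrm_vort_cont h.sol hc.2) hFc
    (fun t ht => vort_periodic h.sol ⟨ht.1, ht.2.trans_lt hc.2⟩) hcon.le
  have hF0 : K < F 0 := by
    have e : F 0 = K * Real.exp 1 := by
      simp only [hF, hz, hB, intervalIntegral.integral_same, Real.exp_zero, mul_one, hz₀]
      rw [show 2 + Real.log K - 1 = Real.log K + 1 by ring, Real.exp_add,
        Real.exp_log (by linarith)]
    rw [e]
    have := Real.add_one_lt_exp (one_ne_zero : (1 : ℝ) ≠ 0)
    nlinarith
  have ht₁0 : 0 < t₁ := by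
    rcases ht₁.1.lt_or_eq with h1 | h1
    · exact h1
    · rw [← h1] at hx₁
      exact absurd (hx₁.trans (hK0 x₁)) (not_le.2 hF0)
  have ht₁T : t₁ < T := ht₁.2.trans_lt hc.2
  obtain ⟨X, hX, hXx⟩ := exists_traj h.sol le_rfl ht₁0.le ht₁T x₁
  have hAc : ∀ i j, ContinuousOn (fun t => grad (u t) (X t) i j) (Icc 0 t₁) := fun i j =>
    vort_traj_cont h.sol le_rfl ht₁T hX i j
  have hvc : ∀ i, ContinuousOn (fun t => cv (grad (u t) (X t)) i) (Icc 0 t₁) :=
    fun i => cv_cont hAc i
  have hnc : ContinuousOn (fun t => nrm (vort (u t) (X t))) (Icc 0 t₁) := by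
    simp only [nrm, vort_eq, dotProduct]
    exact (continuousOn_finsetSum _ fun i _ => (hvc i).mul (hvc i)).sqrt
  set S : Set ℝ := {t ∈ Icc 0 t₁ | nrm (vort (u t) (X t)) ≤ K} with hS
  have hSc : IsCompact S := by
    have : IsClosed S := by
      have h1 := (hnc.sub (continuousOn_const (c := K))).preimage_isClosed_of_isClosed
        isClosed_Icc (isClosed_Iic (a := 0))
      convert h1 using 1
      ext t
      simp [hS]
    exact isCompact_Icc.of_isClosed_subset this fun t ht => ht.1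
  have hSne : S.Nonempty := ⟨0, ⟨le_rfl, ht₁0.le⟩, hK0 _⟩
  obtain ⟨hsI, hsK⟩ := hSc.sSup_mem hSne
  set s := sSup S with hs
  have hltK : ∀ t ∈ Ioc s t₁, K < nrm (vort (u t) (X t)) := by
    intro t ht
    by_contra h1
    push Not at h1
    have : t ∈ S := ⟨⟨hsI.1.trans ht.1.le, ht.2⟩, h1⟩
    exact absurd (le_csSup hSc.bddAbove this) (not_le.2 ht.1)
  have hcsub : Icc s t₁ ⊆ Icc 0 c := fun t ht => ⟨hsI.1.trans ht.1, ht.2.trans ht₁.2⟩
  have hgr := growth' h hsI.1 hsI.2 ht₁T (Sv.IsTraj.mono hX (Icc_subset_Icc_left hsI.1))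
    (ρ := fun t => b t * z t)
    ((hbi.mono_set hcsub).mul_continuousOn (hzc.mono hcsub) isCompact_Icc)
    (fun t ht => mul_nonneg (hb0 t) (by
      have := hz1 t (hcsub ⟨ht.1.le, ht.2.le⟩)
      linarith)) (fun t ht => ?_)
  · rw [hXx] at hgr
    have h1 : ∫ r in s..t₁, b r * z r ≤ z t₁ - z₀ := by
      have h2 := int_exp_le hbi (fun t _ => hb0 t) hsI.1 hsI.2 ht₁.2
      have h3 : ∫ r in s..t₁, b r * z r
          = z₀ * ∫ r in s..t₁, b r * Real.exp (∫ q in (0 : ℝ)..r, b q) := by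
        rw [← intervalIntegral.integral_const_mul]
        congr 1
        funext r
        simp only [hz, hB]
        ring
      have h4 := hz1 s ⟨hsI.1, hsI.2.trans ht₁.2⟩
      rw [h3]
      calc z₀ * ∫ r in s..t₁, b r * Real.exp (∫ q in (0 : ℝ)..r, b q)
          ≤ z₀ * (Real.exp (B t₁) - Real.exp (B s)) :=
            mul_le_mul_of_nonneg_left h2 (by linarith)
        _ = z t₁ - z s := by simp only [hz]; ring
        _ ≤ z t₁ - z₀ := by linarith
    have h2 : nrm (vort (u t₁) x₁) ≤ Real.exp (z t₁ - 2) := by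
      refine hgr.trans ?_
      calc nrm (vort (u s) (X s)) * Real.exp (∫ r in s..t₁, b r * z r)
          ≤ K * Real.exp (z t₁ - z₀) := by gcongr
        _ = Real.exp (z t₁ - 2) := by
          have : K = Real.exp (Real.log K) := (Real.exp_log (by linarith)).symm
          conv_lhs => rw [this]
          rw [← Real.exp_add]
          congr 1
          rw [hz₀]
          ring
    have h3 : Real.exp (z t₁ - 2) < F t₁ := Real.exp_lt_exp.2 (by linarith)
    exact absurd (hx₁.trans h2) (not_le.2 h3)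
  · have htI : t ∈ Ioo 0 T := ⟨hsI.1.trans_lt ht.1, ht.2.trans ht₁T⟩
    have htc : t ∈ Icc 0 c := hcsub ⟨ht.1.le, ht.2.le⟩
    have hd := hdir t htI (X t) (hKΛ.trans_lt (hltK t ⟨ht.1, ht.2.le⟩))
    have hF1 : 1 ≤ F t := Real.one_le_exp (by have := hz1 t htc; linarith)
    have hF0' : 0 < F t := by linarith
    have h1 := stretch_dir (slice_two h htI) (fun x => h.sol.div_free t ⟨htI.1.le, htI.2⟩ x)
      (hG t htI) hd (Ω := F t) (fun y _ => (hlt t ⟨htI.1.le, ht.2⟩ y).le) (δ := 1 / F t)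
      (by positivity) (by rw [div_le_one hF0']; exact hF1)
    have h2 : Real.log (1 / (1 / F t)) = z t - 1 := by
      rw [one_div_one_div, Real.log_exp]
    have h3 : 1 / F t * F t = 1 := by field_simp
    rw [h2, h3] at h1
    refine (le_abs_self _).trans (h1.trans ?_)
    refine mul_le_mul_of_nonneg_right ?_ (dot_self_nonneg _)
    show Cst * (U t * G t * (1 + (z t - 1)) + 1) ≤ Cst * (1 + |U t * G t|) * z t
    have h4 := hz1 t htc
    have h5 : U t * G t * z t ≤ |U t * G t| * z t :=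
      mul_le_mul_of_nonneg_right (le_abs_self _) (by linarith)
    have h6 : U t * G t * (1 + (z t - 1)) + 1 ≤ (1 + |U t * G t|) * z t := by
      have : U t * G t * (1 + (z t - 1)) = U t * G t * z t := by ring
      rw [this]
      nlinarith
    calc Cst * (U t * G t * (1 + (z t - 1)) + 1) ≤ Cst * ((1 + |U t * G t|) * z t) := by gcongr
      _ = _ := by ring

/-- Finiteness of the Beale-Kato-Majda integral. -/
theorem directed_bkm (h : IsC2Solution T u p) {G U : ℝ → ℝ} {Λ : ℝ}
    (hG : ∀ t ∈ Ioo 0 T, 0 < G t) (hint : IntegrableOn (fun t => U t * G t) (Ioo 0 T))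
    (hdir : ∀ t ∈ Ioo 0 T, ∀ x, Λ < nrm (vort (u t) x) → Directed (u t) x (G t) (U t)) :
    BKMFinite T u := by
  unfold BKMFinite
  rcases le_or_gt T 0 with hT | hT
  · rw [Ioo_eq_empty (not_lt.2 hT)]
    simp
  obtain ⟨W, hW0, hW⟩ := vort_bound h.sol (b := 0) hT
  set K := max 1 (max Λ W) with hK
  have hK1 : 1 ≤ K := le_max_left _ _
  have hKΛ : Λ ≤ K := (le_max_left _ _).trans (le_max_right _ _)
  have hK0 : ∀ x, nrm (vort (u 0) x) ≤ K := fun x =>
    ((hW 0 ⟨le_rfl, le_rfl⟩ x).1).trans ((le_max_right _ _).trans (le_max_right _ _))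
  have hb := directed_bound h hG hint hdir hK1 hKΛ hK0
  have hint1 : IntegrableOn (fun s => 1 + |U s * G s|) (Ioo 0 T) := by
    have h2 : IntegrableOn (fun _ : ℝ => (1 : ℝ)) (Ioo 0 T) := integrableOn_const (by simp)
    exact h2.add hint.abs
  set M := Real.exp ((2 + Real.log K)
    * Real.exp (Cst * ∫ s in Ioo 0 T, (1 + |U s * G s|))) with hM
  have hle : ∀ t ∈ Ioo 0 T, ∀ x, nrm (vort (u t) x) ≤ M := by
    intro t ht x
    refine (hb t ht x).trans (Real.exp_le_exp.2 ?_)
    have h0 : 0 ≤ Real.log K := Real.log_nonneg hK1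
    refine mul_le_mul_of_nonneg_left (Real.exp_le_exp.2 ?_) (by linarith)
    refine mul_le_mul_of_nonneg_left ?_ Cst_pos.le
    refine setIntegral_mono_set hint1 ?_ (Ioo_subset_Ioo_right ht.2.le).eventuallyLE
    exact (ae_restrict_iff' measurableSet_Ioo).2 (Eventually.of_forall fun s _ => by
      have := abs_nonneg (U s * G s)
      show (0 : ℝ) ≤ 1 + |U s * G s|
      linarith)
  have h1 : ∫⁻ t in Ioo 0 T, ⨆ x, ENNReal.ofReal (nrm (vort (u t) x))
      ≤ ∫⁻ _t in Ioo 0 T, ENNReal.ofReal M := by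
    refine setLIntegral_mono' measurableSet_Ioo fun t ht => ?_
    exact iSup_le fun x => ENNReal.ofReal_le_ofReal (hle t ht x)
  refine h1.trans_lt ?_
  rw [setLIntegral_const, Real.volume_Ioo]
  exact ENNReal.mul_lt_top ENNReal.ofReal_lt_top ENNReal.ofReal_lt_top

end Pool.Agent.W786.Dir
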