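import Pool.Agent.W786.Dir7

/-!
# Type I singularities and the direction of the vorticity
-/

open MeasureTheory Set Filter
open scoped ENNReal NNReal Topology

namespace Pool.Agent.W786.Dir

open Pool.Agent.H708R2.EulerSign Pool.Agent.H708R2.EulerTypeI Pool.Agent.W786.Sv

variable {T : ℝ} {u : ℝ → V → V} {p : ℝ → V → ℝ}

/-- Comparison of the vorticity with a function `G`, for a bound `ρ` of the stretching rate. -/
lemma comp' (h : IsC2Solution T u p) {a b : ℝ} (ha : 0 ≤ a) (hab : a ≤ b) (hb : b < T)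
    {ρ G : ℝ → ℝ} (hGc : ContinuousOn G (Icc a b)) (hρi : IntegrableOn ρ (Icc a b))
    (hρ0 : ∀ t ∈ Icc a b, 0 ≤ ρ t)
    (hG : ∀ s ∈ Icc a b, G s * Real.exp (∫ r in s..b, ρ r) ≤ G b)
    (h0 : ∀ y, nrm (vort (u a) y) ≤ G a)
    (hrate : ∀ t ∈ Ioo a b, ∀ y, G t < nrm (vort (u t) y) →
      vort (u t) y ⬝ᵥ (grad (u t) y).mulVec (vort (u t) y)
        ≤ ρ t * (vort (u t) y ⬝ᵥ vort (u t) y)) (x : V) :
    nrm (vort (u b) x) ≤ G b := by
  obtain ⟨X, hX, hXx⟩ := exists_traj h.sol ha hab hb x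
  by_contra hcon
  push Not at hcon
  have hAc : ∀ i j, ContinuousOn (fun t => grad (u t) (X t) i j) (Icc a b) := fun i j =>
    vort_traj_cont h.sol ha hb hX i j
  have hvc : ∀ i, ContinuousOn (fun t => cv (grad (u t) (X t)) i) (Icc a b) :=
    fun i => cv_cont hAc i
  have hnc : ContinuousOn (fun t => nrm (vort (u t) (X t))) (Icc a b) := by
    simp only [nrm, vort_eq, dotProduct]
    exact (continuousOn_finsetSum _ fun i _ => (hvc i).mul (hvc i)).sqrt
  set S : Set ℝ := {t ∈ Icc a b | nrm (vort (u t) (X t)) ≤ G t} with hS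
  have hSc : IsCompact S := by
    have : IsClosed S := by
      have h1 := (hnc.sub hGc).preimage_isClosed_of_isClosed isClosed_Icc (isClosed_Iic (a := 0))
      convert h1 using 1
      ext t
      simp [hS]
    exact isCompact_Icc.of_isClosed_subset this fun t ht => ht.1
  have hSne : S.Nonempty := ⟨a, ⟨le_rfl, hab⟩, h0 _⟩
  obtain ⟨hsI, hsG⟩ := hSc.sSup_mem hSne
  set s := sSup S with hs
  have hsub : Icc s b ⊆ Icc a b := Icc_subset_Icc_left hsI.1
  have hlt : ∀ t ∈ Ioc s b, G t < nrm (vort (u t) (X t)) := by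
    intro t ht
    by_contra h1
    push Not at h1
    have : t ∈ S := ⟨hsub ⟨ht.1.le, ht.2⟩, h1⟩
    exact absurd (le_csSup hSc.bddAbove this) (not_le.2 ht.1)
  have h1 := growth' h (ha.trans hsI.1) hsI.2 hb (Sv.IsTraj.mono hX hsub) (hρi.mono_set hsub)
    (fun t ht => hρ0 t (hsub ⟨ht.1.le, ht.2.le⟩))
    (fun t ht => hrate t ⟨hsI.1.trans_lt ht.1, ht.2⟩ (X t) (hlt t ⟨ht.1, ht.2.le⟩))
  have h2 : nrm (vort (u b) (X b)) ≤ G b := by
    refine h1.trans (le_trans ?_ (hG s hsI))
    gcongr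
  rw [hXx] at h2
  exact absurd h2 (not_le.2 hcon)

/-- The comparison function `C / √(T - t)` and its rate. -/
lemma int_half {s b : ℝ} (hsb : s ≤ b) (hb : b < T) :
    (1 / Real.sqrt (T - s)) * Real.exp (∫ r in s..b, 1 / (2 * (T - r)))
      = 1 / Real.sqrt (T - b) := by
  have hTs : 0 < T - s := by linarith
  have hTb : 0 < T - b := by linarith
  have h1 : ∫ r in s..b, 1 / (2 * (T - r))
      = -(Real.log (T - b) / 2) - -(Real.log (T - s) / 2) := by
    refine intervalIntegral.integral_eq_sub_of_hasDerivAt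
      (f := fun r => -(Real.log (T - r) / 2)) ?_ ?_
    · intro r hr
      rw [uIcc_of_le hsb] at hr
      have hTr : 0 < T - r := by linarith [hr.2]
      have h2 : HasDerivAt (fun r => T - r) (-1) r := by
        simpa using (hasDerivAt_id r).const_sub T
      refine ((h2.log hTr.ne').div_const 2).fun_neg.congr_deriv ?_
      field_simp
    · refine ContinuousOn.intervalIntegrable ?_
      rw [uIcc_of_le hsb]
      refine continuousOn_const.div (by fun_prop) fun r hr => ?_
      have : 0 < T - r := by linarith [hr.2]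
      positivity
  have e : ∀ y : ℝ, 0 < y → Real.sqrt y = Real.exp (Real.log y / 2) := by
    intro y hy
    rw [Real.sqrt_eq_rpow, Real.rpow_def_of_pos hy]
    ring_nf
  rw [h1, e _ hTs, e _ hTb, one_div, one_div, ← Real.exp_neg, ← Real.exp_neg, ← Real.exp_add]
  congr 1
  ring

/-- The constant in the Type I criterion. -/
noncomputable def cst1 : ℝ := 1 / (4 * max 1 Cst * (1 + Real.log (4 * max 1 Cst)))

lemma cst1_pos : 0 < cst1 := by
  have h1 : 1 ≤ max 1 Cst := le_max_left _ _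
  have h2 : 0 ≤ Real.log (4 * max 1 Cst) := Real.log_nonneg (by linarith)
  unfold cst1
  positivity

theorem type_one_dir (hT : 0 < T) (h : IsC2Solution T u p) {G U : ℝ → ℝ} {C₁ : ℝ} (hC₁ : 1 ≤ C₁)
    (hI : ∀ᶠ t in 𝓝[<] T, ∀ x, (T - t) * nrm (vort (u t) x) ≤ C₁)
    (hd : ∀ᶠ t in 𝓝[<] T, 0 < G t ∧ (T - t) * (U t * G t) ≤ cst1 / (1 + Real.log C₁) ∧
      ∀ x, 1 / Real.sqrt (T - t) < nrm (vort (u t) x) → Directed (u t) x (G t) (U t)) :
    (∃ C : ℝ, ∀ᶠ t in 𝓝[<] T, ∀ x, nrm (vort (u t) x) ≤ C / Real.sqrt (T - t)) ∧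
    BKMFinite T u := by
  obtain ⟨t₀, ht₀, hP⟩ := exists_start hT (hI.and hd) 0
  have hM1 : 1 ≤ max 1 Cst := le_max_left _ _
  have hCle : Cst ≤ max 1 Cst := le_max_right _ _
  set M := max 1 Cst with hM
  have hC := Cst_pos
  have hlogC : 0 ≤ Real.log C₁ := Real.log_nonneg hC₁
  have hlogM : 0 ≤ Real.log (4 * M) := Real.log_nonneg (by linarith)
  set δ := 1 / (4 * M * C₁) with hδ
  have hδ0 : 0 < δ := by positivity
  have hδ1 : δ ≤ 1 := by
    rw [hδ, div_le_one (by positivity)]
    nlinarith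
  have hlogδ : Real.log (1 / δ) = Real.log (4 * M) + Real.log C₁ := by
    rw [hδ, one_div_one_div, Real.log_mul (by positivity) (by positivity)]
  -- the rate
  have hrate : ∀ t ∈ Ico t₀ T, ∀ y, 1 / Real.sqrt (T - t) < nrm (vort (u t) y) →
      vort (u t) y ⬝ᵥ (grad (u t) y).mulVec (vort (u t) y)
        ≤ 1 / (2 * (T - t)) * (vort (u t) y ⬝ᵥ vort (u t) y) := by
    intro t ht y hy
    obtain ⟨⟨hIt, hG, hUG, hdir⟩, -⟩ := hP t ht
    have htI : t ∈ Ioo 0 T := ⟨ht₀.1.trans_le ht.1, ht.2⟩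
    have hTt : 0 < T - t := sub_pos.2 ht.2
    have h1 := stretch_dir (slice_two h htI) (fun x => h.sol.div_free t ⟨htI.1.le, htI.2⟩ x)
      hG (hdir y hy) (Ω := C₁ / (T - t))
      (fun y _ => by rw [le_div_iff₀ hTt, mul_comm]; exact hIt y) hδ0 hδ1
    refine (le_abs_self _).trans (h1.trans ?_)
    refine mul_le_mul_of_nonneg_right ?_ (dot_self_nonneg _)
    rw [hlogδ]
    have h2 : U t * G t ≤ cst1 / (1 + Real.log C₁) / (T - t) := by
      rw [le_div_iff₀ hTt, mul_comm]
      exact hUG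
    have h3 : Cst * (U t * G t * (1 + (Real.log (4 * M) + Real.log C₁))) ≤ 1 / (4 * (T - t)) := by
      have h4 : 1 + (Real.log (4 * M) + Real.log C₁)
          ≤ (1 + Real.log (4 * M)) * (1 + Real.log C₁) := by nlinarith
      calc Cst * (U t * G t * (1 + (Real.log (4 * M) + Real.log C₁)))
          ≤ Cst * (cst1 / (1 + Real.log C₁) / (T - t)
            * (1 + (Real.log (4 * M) + Real.log C₁))) := by gcongr
        _ ≤ M * (cst1 / (1 + Real.log C₁) / (T - t)
            * ((1 + Real.log (4 * M)) * (1 + Real.log C₁))) := by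
            have := cst1_pos
            gcongr
        _ = 1 / (4 * (T - t)) := by
            unfold cst1
            rw [← hM]
            have hq : 0 < 1 + Real.log (4 * M) := by linarith
            have hq2 : 0 < 1 + Real.log C₁ := by linarith
            generalize 1 + Real.log (4 * M) = q at hq ⊢
            generalize 1 + Real.log C₁ = q2 at hq2 ⊢
            field_simp
    have h5 : Cst * (δ * (C₁ / (T - t))) ≤ 1 / (4 * (T - t)) := by
      calc Cst * (δ * (C₁ / (T - t))) ≤ M * (δ * (C₁ / (T - t))) := by gcongr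
        _ = 1 / (4 * (T - t)) := by
          rw [hδ]
          field_simp
    have h6 : 1 / (4 * (T - t)) + 1 / (4 * (T - t)) = 1 / (2 * (T - t)) := by
      field_simp
      norm_num
    calc Cst * (U t * G t * (1 + (Real.log (4 * M) + Real.log C₁)) + δ * (C₁ / (T - t)))
        = Cst * (U t * G t * (1 + (Real.log (4 * M) + Real.log C₁)))
          + Cst * (δ * (C₁ / (T - t))) := by ring
      _ ≤ _ := by linarith
  obtain ⟨W, hW0, hW⟩ := vort_bound h.sol ht₀.2
  set C := max 1 (W * Real.sqrt (T - t₀)) with hCdef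
  have hC1 : 1 ≤ C := le_max_left _ _
  have hmain : ∀ b ∈ Ico t₀ T, ∀ x, nrm (vort (u b) x) ≤ C * (1 / Real.sqrt (T - b)) := by
    intro b hb x
    have hsub : ∀ t ∈ Icc t₀ b, 0 < T - t := fun t ht => by linarith [ht.2, hb.2]
    refine comp' h ht₀.1.le hb.1 hb.2 (G := fun t => C * (1 / Real.sqrt (T - t)))
      (ρ := fun t => 1 / (2 * (T - t))) ?_ ?_ ?_ ?_ ?_ ?_ x
    · refine continuousOn_const.mul (continuousOn_const.div (by fun_prop) fun t ht => ?_)
      exact (Real.sqrt_pos.2 (hsub t ht)).ne'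
    · refine (continuousOn_const.div (by fun_prop) fun t ht => ?_).integrableOn_Icc
      have := hsub t ht
      positivity
    · intro t ht
      have := hsub t ht
      positivity
    · intro s hs
      rw [mul_assoc, int_half hs.2 hb.2]
    · intro y
      have h1 := (hW t₀ ⟨ht₀.1.le, le_rfl⟩ y).1
      have h2 : 0 < Real.sqrt (T - t₀) := Real.sqrt_pos.2 (sub_pos.2 ht₀.2)
      have h3 : W * Real.sqrt (T - t₀) ≤ C := le_max_right _ _
      rw [mul_one_div, le_div_iff₀ h2]
      exact (mul_le_mul_of_nonneg_right h1 h2.le).trans h3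
    · intro t ht y hy
      refine hrate t ⟨ht.1.le, ht.2.trans hb.2⟩ y (lt_of_le_of_lt ?_ hy)
      have := hsub t ⟨ht.1.le, ht.2.le⟩
      exact le_mul_of_one_le_left (by positivity) hC1
  refine ⟨⟨C, ?_⟩, ?_⟩
  · filter_upwards [Ico_mem_nhdsLT ht₀.2] with t ht x
    have := hmain t ht x
    rwa [mul_one_div] at this
  -- finiteness of the integral
  obtain ⟨M', hM0', hM'⟩ := vort_bound h.sol ht₀.2
  have hint : IntegrableOn (fun t => C * (1 / Real.sqrt (T - t))) (Ioc t₀ T) := by
    have h1 : IntegrableOn (fun t => 1 / Real.sqrt (T - t)) (Ioc t₀ T) := by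
      refine intervalIntegral.integrableOn_deriv_of_nonneg
        (g := fun t => -2 * Real.sqrt (T - t)) ?_ ?_ ?_
      · exact (continuous_const.mul (Real.continuous_sqrt.comp
          (continuous_const.sub continuous_id))).continuousOn
      · intro t ht
        have hTt : 0 < T - t := sub_pos.2 ht.2
        have h2 : HasDerivAt (fun r => T - r) (-1) t := by
          simpa using (hasDerivAt_id t).const_sub T
        have h3 := (h2.sqrt hTt.ne').const_mul (-2)
        refine h3.congr_deriv ?_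
        have := (Real.sqrt_pos.2 hTt).ne'
        field_simp
      · intro t ht
        have hTt : 0 < T - t := sub_pos.2 ht.2
        positivity
    exact h1.const_mul C
  have hfin2 : ∫⁻ t in Ico t₀ T, ⨆ x, ENNReal.ofReal (nrm (vort (u t) x)) < ∞ := by
    have h1 : ∫⁻ t in Ico t₀ T, ⨆ x, ENNReal.ofReal (nrm (vort (u t) x))
        ≤ ∫⁻ t in Ico t₀ T, ENNReal.ofReal (C * (1 / Real.sqrt (T - t))) := by
      refine setLIntegral_mono' measurableSet_Ico fun t ht => ?_
      exact iSup_le fun x => ENNReal.ofReal_le_ofReal (hmain t ht x)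
    refine h1.trans_lt ?_
    have h2 : IntegrableOn (fun t => C * (1 / Real.sqrt (T - t))) (Ico t₀ T) := by
      rw [integrableOn_Ico_iff_integrableOn_Ioo, ← integrableOn_Ioc_iff_integrableOn_Ioo]
      exact hint
    exact h2.lintegral_lt_top
  have hfin1 : ∫⁻ t in Ioo 0 t₀, ⨆ x, ENNReal.ofReal (nrm (vort (u t) x)) < ∞ := by
    have h1 : ∫⁻ t in Ioo 0 t₀, ⨆ x, ENNReal.ofReal (nrm (vort (u t) x))
        ≤ ∫⁻ _t in Ioo 0 t₀, ENNReal.ofReal M' := by
      refine setLIntegral_mono' measurableSet_Ioo fun t ht => ?_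
      exact iSup_le fun x => ENNReal.ofReal_le_ofReal (hM' t ⟨ht.1.le, ht.2.le⟩ x).1
    refine h1.trans_lt ?_
    rw [setLIntegral_const, Real.volume_Ioo]
    exact ENNReal.mul_lt_top ENNReal.ofReal_lt_top ENNReal.ofReal_lt_top
  unfold BKMFinite
  have hsplit : Ioo 0 T ⊆ Ioo 0 t₀ ∪ Ico t₀ T := by
    intro t ht
    by_cases h1 : t < t₀
    · exact Or.inl ⟨ht.1, h1⟩
    · exact Or.inr ⟨not_lt.1 h1, ht.2⟩
  refine (lintegral_mono_set hsplit).trans_lt ?_
  refine (lintegral_union_le _ _ _).trans_lt ?_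
  exact ENNReal.add_lt_top.2 ⟨hfin1, hfin2⟩

end Pool.Agent.W786.Dir
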