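import Pool.Agent.W786.Dir8

/-!
# The maximum of the vorticity

The maximum `m(t)` of the vorticity grows at most at the stretching rate at any of the points where
it is attained; hence it suffices to bound the stretching rate at one such point, for almost every
time.
-/

open MeasureTheory Set Filter
open scoped ENNReal NNReal Topology

namespace Pool.Agent.W786.Max

open Pool.Agent.H708R2.EulerSign Pool.Agent.H708R2.EulerTypeI Pool.Agent.W786.Sv
  Pool.Agent.W786.Dir

/-- A function with bounded upward increments grows at most by the integral of any a.e. bound of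
its derivative. -/
lemma growth_of_ae {L r : ℝ → ℝ} {a b C : ℝ} (hab : a ≤ b)
    (hL : ∀ s ∈ Icc a b, ∀ t ∈ Icc a b, s ≤ t → L t - L s ≤ C * (t - s))
    (hr : IntervalIntegrable r volume a b)
    (hd : ∀ᵐ t, t ∈ Ioo a b → ∀ d, HasDerivAt L d t → d ≤ r t) :
    L b - L a ≤ ∫ t in a..b, r t := by
  set g : ℝ → ℝ := fun t => C * t - L t with hg
  have hmono : MonotoneOn g (uIcc a b) := by
    rw [uIcc_of_le hab]
    intro s hs t ht hst
    have := hL s hs t ht hst
    simp only [hg]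
    linarith
  have h1 := hmono.intervalIntegral_deriv_mem_uIcc
  have hgab : 0 ≤ g b - g a := by
    have := hmono (by rw [uIcc_of_le hab]; exact ⟨le_rfl, hab⟩)
      (by rw [uIcc_of_le hab]; exact ⟨hab, le_rfl⟩) hab
    linarith
  rw [uIcc_of_le hgab] at h1
  have h2 : ∫ t in a..b, (C - r t) ≤ ∫ t in a..b, deriv g t := by
    refine intervalIntegral.integral_mono_ae_restrict hab (intervalIntegrable_const.sub hr)
      hmono.intervalIntegrable_deriv ?_
    rw [Filter.EventuallyLE, ← restrict_Ioo_eq_restrict_Icc, ae_restrict_iff' measurableSet_Ioo]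
    filter_upwards [hd, hmono.ae_differentiableWithinAt_of_mem] with t ht ht2 htI
    have htI' : t ∈ uIcc a b := by rw [uIcc_of_le hab]; exact Ioo_subset_Icc_self htI
    have h3 : DifferentiableAt ℝ g t :=
      (ht2 htI').differentiableAt (by rw [uIcc_of_le hab]; exact Icc_mem_nhds htI.1 htI.2)
    have h4 : HasDerivAt L (C - deriv g t) t := by
      have h5 : HasDerivAt (fun t => C * t - g t) (C * 1 - deriv g t) t :=
        ((hasDerivAt_id t).const_mul C).sub h3.hasDerivAt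
      rw [mul_one] at h5
      refine h5.congr_of_eventuallyEq (Eventually.of_forall fun s => ?_)
      simp [hg]
    have := ht htI _ h4
    linarith
  have h5 : ∫ t in a..b, (C - r t) = C * (b - a) - ∫ t in a..b, r t := by
    rw [intervalIntegral.integral_sub intervalIntegrable_const hr, intervalIntegral.integral_const,
      smul_eq_mul, mul_comm]
  have h6 : g b - g a = C * (b - a) - (L b - L a) := by simp only [hg]; ring
  rw [h5] at h2
  rw [h6] at h1
  linarith [h1.2]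

variable {T : ℝ} {u : ℝ → V → V} {p : ℝ → V → ℝ}

/-- The square of the vorticity. -/
noncomputable def Wq (u : ℝ → V → V) (t : ℝ) (x : V) : ℝ := vort (u t) x ⬝ᵥ vort (u t) x

/-- The maximum over space of the square of the vorticity. -/
noncomputable def Mx (u : ℝ → V → V) (t : ℝ) : ℝ := ⨆ x, Wq u t x

lemma Wq_nonneg (t : ℝ) (x : V) : 0 ≤ Wq u t x := dot_self_nonneg _

lemma Wq_eq (t : ℝ) (x : V) : Wq u t x = nrm (vort (u t) x) ^ 2 := (nrm_sq _).symm

lemma bdd (h : IsClassicalSolution (Ico 0 T) u p) {t : ℝ} (ht : t ∈ Ico 0 T) :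
    BddAbove (range (Wq u t)) := by
  obtain ⟨C, hC0, hC⟩ := vort_bound h ht.2
  refine ⟨C ^ 2, ?_⟩
  rintro _ ⟨x, rfl⟩
  rw [Wq_eq]
  have := (hC t ⟨ht.1, le_rfl⟩ x).1
  have h0 := nrm_nonneg (vort (u t) x)
  gcongr

lemma Wq_le (h : IsClassicalSolution (Ico 0 T) u p) {t : ℝ} (ht : t ∈ Ico 0 T) (x : V) :
    Wq u t x ≤ Mx u t := le_ciSup (bdd h ht) x

lemma Mx_nonneg (t : ℝ) : 0 ≤ Mx u t := Real.iSup_nonneg fun x => Wq_nonneg t x

/-- A point where the vorticity has its maximum. -/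
def IsMaxPt (u : ℝ → V → V) (t : ℝ) (x : V) : Prop :=
  ∀ y, nrm (vort (u t) y) ≤ nrm (vort (u t) x)

lemma Mx_eq (h : IsClassicalSolution (Ico 0 T) u p) {t : ℝ} (ht : t ∈ Ico 0 T) {x : V}
    (hx : IsMaxPt u t x) : Mx u t = Wq u t x := by
  refine le_antisymm (ciSup_le fun y => ?_) (Wq_le h ht x)
  rw [Wq_eq, Wq_eq]
  have h0 := nrm_nonneg (vort (u t) y)
  have := hx y
  gcongr

lemma Mx_le {t K : ℝ} (hK : ∀ y, nrm (vort (u t) y) ≤ K) : Mx u t ≤ K ^ 2 := by
  refine ciSup_le fun y => ?_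
  rw [Wq_eq]
  have h0 := nrm_nonneg (vort (u t) y)
  have := hK y
  gcongr

/-- A priori bound of the growth. -/
lemma Mx_growth (h : IsC2Solution T u p) {b : ℝ} (hb : b < T) :
    ∃ C : ℝ, 0 ≤ C ∧ ∀ s ∈ Icc 0 b, ∀ t ∈ Icc 0 b, s ≤ t →
      Mx u t ≤ Mx u s * Real.exp (2 * C * (t - s)) := by
  obtain ⟨C, hC0, hC⟩ := vort_bound h.sol hb
  refine ⟨C, hC0, fun s hs t ht hst => ciSup_le fun x => ?_⟩
  have htT : t < T := ht.2.trans_lt hb
  obtain ⟨X, hX, hXx⟩ := exists_traj h.sol hs.1 hst htT x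
  have h1 := growth' h hs.1 hst htT hX (ρ := fun _ => C) (by simp) (fun _ _ => hC0)
    (fun r hr => (le_abs_self _).trans
      (hC r ⟨hs.1.trans hr.1.le, hr.2.le.trans ht.2⟩ (X r)).2.2)
  rw [hXx] at h1
  have h2 : ∫ _r in s..t, C = C * (t - s) := by
    rw [intervalIntegral.integral_const, smul_eq_mul, mul_comm]
  rw [h2] at h1
  have hsI : s ∈ Ico 0 T := ⟨hs.1, hst.trans_lt htT⟩
  calc Wq u t x = nrm (vort (u t) x) ^ 2 := Wq_eq t x
    _ ≤ (nrm (vort (u s) (X s)) * Real.exp (C * (t - s))) ^ 2 := by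
        have := nrm_nonneg (vort (u t) x)
        gcongr
    _ = Wq u s (X s) * Real.exp (2 * C * (t - s)) := by
        rw [mul_pow, Wq_eq, ← Real.exp_nat_mul]
        congr 2
        push_cast
        ring
    _ ≤ Mx u s * Real.exp (2 * C * (t - s)) := by
        gcongr
        exact Wq_le h.sol hsI _

/-- The derivative of a monotone function of the maximum, at a time where it exists, is at most the
one given by the stretching rate at a maximum point. -/
lemma deriv_le (h : IsC2Solution T u p) {t : ℝ} (ht : t ∈ Ioo 0 T) {x : V} (hx : IsMaxPt u t x)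
    {Φ : ℝ → ℝ} (hΦ : MonotoneOn Φ (Ici 0)) {Φ' : ℝ} (hΦd : HasDerivAt Φ Φ' (Wq u t x)) {d : ℝ}
    (hd : HasDerivAt (fun s => Φ (Mx u s)) d t) :
    d ≤ Φ' * (2 * (vort (u t) x ⬝ᵥ (grad (u t) x).mulVec (vort (u t) x))) := by
  obtain ⟨a', ha1, ha2⟩ := exists_between ht.1
  obtain ⟨X, hX, hXx⟩ := exists_traj h.sol ha1.le ha2.le ht.2 x
  have hsub2 : Icc a' t ⊆ Ioo 0 T := fun s hs => ⟨ha1.trans_le hs.1, hs.2.trans_lt ht.2⟩
  have htI : t ∈ Icc a' t := ⟨ha2.le, le_rfl⟩
  have h1 := vort_deriv h hX hsub2 htI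
  have h3 : HasDerivWithinAt (fun s => ∑ i, vort (u s) (X s) i * vort (u s) (X s) i)
      (∑ i, ((grad (u t) (X t)).mulVec (vort (u t) (X t)) i * vort (u t) (X t) i
        + vort (u t) (X t) i * (grad (u t) (X t)).mulVec (vort (u t) (X t)) i)) (Icc a' t) t :=
    HasDerivWithinAt.fun_sum fun i _ =>
      (hasDerivWithinAt_pi.1 h1 i).mul (hasDerivWithinAt_pi.1 h1 i)
  have h4 : HasDerivWithinAt (fun s => Wq u s (X s))
      (2 * (vort (u t) x ⬝ᵥ (grad (u t) x).mulVec (vort (u t) x))) (Icc a' t) t := by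
    refine h3.congr_deriv ?_
    rw [hXx]
    simp only [dotProduct, Finset.mul_sum]
    refine Finset.sum_congr rfl fun i _ => ?_
    ring
  have h5 : HasDerivWithinAt (fun s => Φ (Wq u s (X s)))
      (Φ' * (2 * (vort (u t) x ⬝ᵥ (grad (u t) x).mulVec (vort (u t) x)))) (Icc a' t) t := by
    have hΦd' : HasDerivAt Φ Φ' (Wq u t (X t)) := by rw [hXx]; exact hΦd
    exact hΦd'.comp_hasDerivWithinAt t h4
  have h6 : HasDerivWithinAt (fun s => Φ (Mx u s)) d (Icc a' t) t := hd.hasDerivWithinAt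
  have htIco : t ∈ Ico 0 T := ⟨ht.1.le, ht.2⟩
  rw [hasDerivWithinAt_iff_tendsto_slope] at h5 h6
  have hne : (𝓝[Icc a' t \ {t}] t).NeBot := by
    have : Icc a' t \ {t} = Ico a' t := by
      ext s
      simp only [Set.mem_sdiff, mem_Icc, mem_singleton_iff, mem_Ico]
      constructor
      · rintro ⟨⟨h1, h2⟩, h3⟩
        exact ⟨h1, lt_of_le_of_ne h2 h3⟩
      · rintro ⟨h1, h2⟩
        exact ⟨⟨h1, h2.le⟩, h2.ne⟩
    rw [this]
    exact right_nhdsWithin_Ico_neBot ha2
  refine le_of_tendsto_of_tendsto h6 h5 ?_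
  filter_upwards [self_mem_nhdsWithin] with s hs
  have hst : s < t := lt_of_le_of_ne hs.1.2 hs.2
  have hsI : s ∈ Ico 0 T := ⟨ha1.le.trans hs.1.1, hst.trans ht.2⟩
  have e1 : Φ (Mx u t) = Φ (Wq u t (X t)) := by rw [hXx, Mx_eq h.sol htIco hx]
  have e2 : Φ (Wq u s (X s)) ≤ Φ (Mx u s) :=
    hΦ (Wq_nonneg _ _) (Mx_nonneg _) (Wq_le h.sol hsI _)
  rw [slope_def_field, slope_def_field, e1]
  have hneg : s - t < 0 := by linarith
  rw [div_le_div_right_of_neg hneg]
  linarith

end Pool.Agent.W786.Max
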