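import Pool.Agent.W786.Sv2
import Pool.Agent.H708R2.EulerTypeI.Sharp

/-!
# The Type I threshold for the second singular value, and its sharpness
-/

open MeasureTheory Set Filter
open scoped ENNReal NNReal Topology

namespace Pool.Agent.W786.Sv

open Pool.Agent.H708R2.EulerSign Pool.Agent.H708R2.EulerTypeI

variable {T : ℝ} {u : ℝ → V → V} {p : ℝ → V → ℝ}

theorem type_one (hT : 0 < T) (h : IsC2Solution T u p) {κ : ℝ} (hκ : 1 < κ)
    (hyp : ∀ᶠ t in 𝓝[<] T, ∀ x, 1 / ((T - t) * Real.log (1 / (T - t)) ^ κ) < nrm (vort (u t) x) →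
      MidLE (grad (u t) x) ((1 - κ / Real.log (1 / (T - t))) / (2 * (T - t)))) :
    (∃ C : ℝ, ∀ᶠ t in 𝓝[<] T, ∀ x,
      nrm (vort (u t) x) ≤ C / ((T - t) * Real.log (1 / (T - t)) ^ κ)) ∧ BKMFinite T u := by
  obtain ⟨t₀, ht₀, hP⟩ := exists_start hT hyp (max 1 κ)
  have hL : ∀ t ∈ Ico t₀ T, 1 ≤ Lf T t ∧ κ ≤ Lf T t := fun t ht =>
    ⟨(le_max_left _ _).trans (hP t ht).2, (le_max_right _ _).trans (hP t ht).2⟩
  have hLpos : ∀ t ∈ Ico t₀ T, 0 < Lf T t := fun t ht => lt_of_lt_of_le one_pos (hL t ht).1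
  obtain ⟨M, hM0, hM⟩ := vort_bound h.sol ht₀.2
  set C := max 1 (M / Rf T 1 κ t₀) with hC
  have hC1 : 1 ≤ C := le_max_left _ _
  have hform : ∀ t ∈ Ico t₀ T, Rf T 1 κ t = 1 / (T - t) * (Lf T t) ^ (-κ) := by
    intro t ht
    have h1 := hLpos t ht
    have h4 : 0 < T - t := sub_pos.2 ht.2
    unfold Rf
    rw [one_mul, Real.exp_sub, mul_comm κ, ← Real.rpow_def_of_pos h1, Real.rpow_neg h1.le,
      div_eq_mul_inv]
    congr 1
    rw [Lf, Real.exp_neg, Real.exp_log h4, one_div]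
  have hform2 : ∀ t ∈ Ico t₀ T, Rf T 1 κ t = 1 / ((T - t) * Real.log (1 / (T - t)) ^ κ) := by
    intro t ht
    rw [hform t ht, ← Lf_eq, Real.rpow_neg (hLpos t ht).le]
    have h4 : 0 < T - t := sub_pos.2 ht.2
    have h5 : 0 < (Lf T t) ^ κ := Real.rpow_pos_of_pos (hLpos t ht) _
    field_simp
  have hmain : ∀ b ∈ Ico t₀ T, ∀ x, nrm (vort (u b) x) ≤ C * Rf T 1 κ b := by
    intro b hb x
    have hsub : Icc t₀ b ⊆ Ico t₀ T := Icc_subset_Ico_right hb.2
    have hd : ∀ t ∈ Icc t₀ b, HasDerivAt (fun t => 1 * Lf T t - κ * Real.log (Lf T t))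
        ((1 - κ / Lf T t) / (T - t)) t := by
      intro t ht
      have h1 := Lf_hasDerivAt (hsub ht).2
      have h2 := hLpos t (hsub ht)
      refine ((h1.const_mul 1).fun_sub ((h1.log h2.ne').const_mul κ)).congr_deriv ?_
      have := (sub_pos.2 (hsub ht).2).ne'
      field_simp
    have hcont : ContinuousOn (fun t => (1 - κ / Lf T t) / (T - t)) (Icc t₀ b) := by
      have h1 : ContinuousOn (Lf T) (Icc t₀ b) := fun t ht =>
        (Lf_hasDerivAt (hsub ht).2).continuousAt.continuousWithinAt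
      refine (continuousOn_const.sub (continuousOn_const.div h1 fun t ht => ?_)).div
        (continuousOn_const.sub continuousOn_id) fun t ht => ?_
      · exact (hLpos t (hsub ht)).ne'
      · exact (sub_pos.2 (hsub ht).2).ne'
    refine comp h ht₀.1.le hb.1 hb.2 (G := fun t => C * Rf T 1 κ t)
      (β := fun t => (1 - κ / Lf T t) / (2 * (T - t))) ?_ ?_ ?_ ?_ ?_ x
    · exact continuousOn_const.mul fun t ht =>
        (Rf_hasDerivAt (hsub ht).2 (hLpos t (hsub ht))).continuousAt.continuousWithinAt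
    · have e : (fun t => (1 - κ / Lf T t) / (2 * (T - t)))
          = fun t => ((1 - κ / Lf T t) / (T - t)) / 2 := by
        funext t
        rw [mul_comm, ← div_div]
      rw [e]
      exact (hcont.div_const 2).integrableOn_Icc
    · intro s hs
      have h1 : ∫ t in s..b, (1 - κ / Lf T t) / (T - t)
          = (1 * Lf T b - κ * Real.log (Lf T b)) - (1 * Lf T s - κ * Real.log (Lf T s)) := by
        refine intervalIntegral.integral_eq_sub_of_hasDerivAt
          (f := fun t => 1 * Lf T t - κ * Real.log (Lf T t)) ?_ ?_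
        · intro t ht
          rw [uIcc_of_le hs.2] at ht
          exact hd t ⟨hs.1.trans ht.1, ht.2⟩
        · refine ContinuousOn.intervalIntegrable ?_
          rw [uIcc_of_le hs.2]
          exact hcont.mono (Icc_subset_Icc_left hs.1)
      have h2 : 2 * ∫ t in s..b, (1 - κ / Lf T t) / (2 * (T - t))
          = ∫ t in s..b, (1 - κ / Lf T t) / (T - t) := by
        rw [← intervalIntegral.integral_const_mul]
        congr 1
        funext t
        rw [div_mul_eq_div_div_swap]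
        ring
      rw [h2, h1, mul_assoc]
      refine le_of_eq ?_
      congr 1
      unfold Rf
      rw [← Real.exp_add]
      congr 1
      ring
    · intro y
      have h1 := Rf_pos T 1 κ t₀
      have h2 : M / Rf T 1 κ t₀ ≤ C := le_max_right _ _
      rw [div_le_iff₀ h1] at h2
      exact ((hM t₀ ⟨ht₀.1.le, le_rfl⟩ y).1).trans h2
    · intro t ht y hy
      have htI : t ∈ Ico t₀ T := ⟨ht.1.le, ht.2.trans hb.2⟩
      rw [Lf_eq]
      refine (hP t htI).1 y (lt_of_le_of_lt ?_ hy)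
      rw [← hform2 t htI]
      exact le_mul_of_one_le_left (Rf_pos _ _ _ _).le hC1
  refine ⟨⟨C, ?_⟩, bkm_of_rate h.sol ht₀ hκ hLpos (C := C) fun t ht x => ?_⟩
  · have hmem : Ico t₀ T ∈ 𝓝[<] T := Ico_mem_nhdsLT ht₀.2
    filter_upwards [hmem] with t ht x
    refine (hmain t ht x).trans (le_of_eq ?_)
    rw [hform2 t ht]
    ring
  · rw [← hform t ht]
    exact hmain t ht x

/-- The second singular value of the gradient of the linear flow. -/
lemma uf_mid {t β : ℝ} (hβ : 0 ≤ β) (h : af T t ^ 2 + yf T t ^ 2 ≤ (2 * β) ^ 2) (x : V) :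
    MidLE (grad (uf T t) x) β := by
  rw [uf_grad]
  refine ⟨![0, 0, 1], fun v hv => ?_⟩
  have hv2 : v 2 = 0 := by
    simpa [dotProduct, Fin.sum_univ_three] using hv
  have h1 : nrm ((Af T t).mulVec v) ^ 2 ≤ (β * nrm v) ^ 2 := by
    rw [mul_pow, nrm_sq, nrm_sq]
    simp only [Af, Matrix.mulVec, dotProduct, Fin.sum_univ_three, Matrix.of_apply,
      Matrix.cons_val_zero, Matrix.cons_val_one, Matrix.cons_val, hv2]
    nlinarith [sq_nonneg (v 0), sq_nonneg (v 1), mul_nonneg (sub_nonneg.2 h) (sq_nonneg (v 0)),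
      mul_nonneg (sub_nonneg.2 h) (sq_nonneg (v 1))]
  exact (le_abs_self _).trans (abs_le_of_sq_le_sq h1 (mul_nonneg hβ (nrm_nonneg _)))

/-- The linear flow satisfies the hypothesis of the criterion for every `κ < 1`. -/
theorem uf_type (hT : 0 < T) {κ : ℝ} (hκ : κ < 1) :
    ∀ᶠ t in 𝓝[<] T, ∀ x,
      MidLE (grad (uf T t) x) ((1 - κ / Real.log (1 / (T - t))) / (2 * (T - t))) := by
  have h1 : Tendsto (fun t => Lf T t / lf T t) (𝓝[<] T) (𝓝 1) := by
    have e : Tendsto (fun t => 1 - (1 + Real.log T) / lf T t) (𝓝[<] T) (𝓝 (1 - 0)) :=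
      tendsto_const_nhds.sub ((tendsto_lf T).const_div_atTop _)
    rw [sub_zero] at e
    refine e.congr' ?_
    filter_upwards [(tendsto_lf T).eventually (eventually_gt_atTop 0)] with t ht
    have : Lf T t = lf T t - (1 + Real.log T) := by unfold lf; ring
    rw [this, sub_div, div_self ht.ne']
  -- `L ((1 - 1/l)² + 1/l² - 1) + 2 κ → 2 κ - 2`
  have h2 : Tendsto (fun t => -2 * (Lf T t / lf T t) + 2 * (Lf T t / lf T t) * (1 / lf T t)
      + 2 * κ) (𝓝[<] T) (𝓝 (-2 * 1 + 2 * 1 * 0 + 2 * κ)) :=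
    ((h1.const_mul (-2)).add ((h1.const_mul 2).mul ((tendsto_lf T).const_div_atTop 1))).add_const _
  have h3 := h2.eventually (gt_mem_nhds (show -2 * 1 + 2 * 1 * 0 + 2 * κ < 0 by linarith))
  filter_upwards [h3, (tendsto_Lf T).eventually (eventually_gt_atTop (max 0 κ)),
    Ico_mem_nhdsLT hT] with t ht hL htI x
  have hL0 : 0 < Lf T t := (le_max_left _ _).trans_lt hL
  have hLκ : κ < Lf T t := (le_max_right _ _).trans_lt hL
  have hl := lf_ge htI
  have hl0 : 0 < lf T t := lt_of_lt_of_le one_pos hl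
  have hs : 0 < T - t := sub_pos.2 htI.2
  rw [← Lf_eq]
  have hk : κ / Lf T t < 1 := (div_lt_one hL0).2 hLκ
  refine uf_mid (div_nonneg (by linarith) (by positivity)) ?_ x
  have e1 : 2 * ((1 - κ / Lf T t) / (2 * (T - t))) = (1 - κ / Lf T t) / (T - t) := by
    field_simp
  have e2 : af T t ^ 2 + yf T t ^ 2 = ((1 - (lf T t)⁻¹) ^ 2 + (lf T t)⁻¹ ^ 2) / (T - t) ^ 2 := by
    unfold af yf
    rw [mul_inv]
    field_simp
  rw [e1, e2, div_pow]
  refine div_le_div_of_nonneg_right ?_ (by positivity)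
  have e3 : (1 - (lf T t)⁻¹) ^ 2 + (lf T t)⁻¹ ^ 2 - (1 - κ / Lf T t) ^ 2
      = (-2 * (Lf T t / lf T t) + 2 * (Lf T t / lf T t) * (1 / lf T t) + 2 * κ) / Lf T t
        - (κ / Lf T t) ^ 2 := by
    field_simp
    ring
  have e4 : (-2 * (Lf T t / lf T t) + 2 * (Lf T t / lf T t) * (1 / lf T t) + 2 * κ) / Lf T t ≤ 0 :=
    div_nonpos_of_nonpos_of_nonneg ht.le hL0.le
  nlinarith [sq_nonneg (κ / Lf T t)]

end Pool.Agent.W786.Sv
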