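import Pool.Agent.W786.Max1
import Pool.Agent.W786.Sv3

/-!
# Criteria at one maximum point of the vorticity
-/

open MeasureTheory Set Filter
open scoped ENNReal NNReal Topology

namespace Pool.Agent.W786.Max

open Pool.Agent.H708R2.EulerSign Pool.Agent.H708R2.EulerTypeI Pool.Agent.W786.Sv
  Pool.Agent.W786.Dir

variable {T : ℝ} {u : ℝ → V → V} {p : ℝ → V → ℝ}

/-- The stretching term `ω · (∇u) ω`. -/
noncomputable def Pq (u : ℝ → V → V) (t : ℝ) (x : V) : ℝ :=
  vort (u t) x ⬝ᵥ (grad (u t) x).mulVec (vort (u t) x)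

lemma exists_isMaxPt (h : IsClassicalSolution (Ico 0 T) u p) {t : ℝ} (ht : t ∈ Ico 0 T) :
    ∃ x, IsMaxPt u t x := by
  have hK : IsCompact (closure Dom) := dom_bdd.isCompact_closure
  have hne : (closure Dom).Nonempty := by
    obtain ⟨g, hg, -⟩ := dom_exists_unique (0 : V)
    exact ⟨_, subset_closure hg⟩
  have hc : Continuous fun x => nrm (vort (u t) x) := by
    have h1 := nrm_vort_cont h ht.2
    have h2 : Continuous fun x : V => ((t, x) : ℝ × V) := by fun_prop
    have h3 := h1.comp_continuous h2 fun x => ⟨⟨ht.1, le_rfl⟩, mem_univ _⟩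
    simpa only [Function.comp_def] using h3
  obtain ⟨x, hx, hmax⟩ := hK.exists_isMaxOn hne hc.continuousOn
  refine ⟨x, fun y => ?_⟩
  obtain ⟨g, hg, -⟩ := dom_exists_unique y
  have h2 : (g +ᵥ y : V) = y + g := by rw [add_comm]; rfl
  have h3 : y + (g : V) ∈ closure Dom := by
    rw [← h2]; exact subset_closure hg
  have h4 := hmax h3
  simp only [mem_ofPred_eq] at h4
  have h5 := (vort_periodic h ht).lat g.2 y
  rwa [h5] at h4

/-- Growth of the maximum. -/
lemma max_growth (h : IsC2Solution T u p) {a b : ℝ} (ha : 0 ≤ a) (hab : a ≤ b) (hb : b < T)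
    {ρ : ℝ → ℝ} (hρi : IntegrableOn ρ (Icc a b)) (hρ0 : ∀ t ∈ Ioo a b, 0 ≤ ρ t)
    (hmax : ∀ᵐ t, t ∈ Ioo a b → ∃ x, IsMaxPt u t x ∧ Pq u t x ≤ ρ t * Wq u t x)
    {K : ℝ} (hK : ∀ y, nrm (vort (u a) y) ≤ K) (x : V) :
    nrm (vort (u b) x) ≤ K * Real.exp (∫ s in a..b, ρ s) := by
  have hK0 : 0 ≤ K := (nrm_nonneg _).trans (hK 0)
  set I := ∫ s in a..b, ρ s with hI
  have hρi' : IntervalIntegrable ρ volume a b :=
    (intervalIntegrable_iff_integrableOn_Icc_of_le hab).2 hρi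
  obtain ⟨C, hC0, hC⟩ := Mx_growth h hb
  have key : ∀ ε : ℝ, 0 < ε → Mx u b + ε ≤ (Mx u a + ε) * Real.exp (2 * I) := by
    intro ε hε
    have hpos : ∀ t, 0 < Mx u t + ε := fun t => by have := Mx_nonneg (u := u) t; linarith
    have h1 : Real.log (Mx u b + ε) - Real.log (Mx u a + ε) ≤ ∫ t in a..b, 2 * ρ t := by
      refine growth_of_ae (L := fun t => Real.log (Mx u t + ε)) (C := 2 * C) hab ?_
        (hρi'.const_mul 2) ?_
      · intro s hs t ht hst
        have h2 := hC s ⟨ha.trans hs.1, hs.2⟩ t ⟨ha.trans ht.1, ht.2⟩ hst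
        have h3 : 1 ≤ Real.exp (2 * C * (t - s)) := Real.one_le_exp (by
          have : 0 ≤ t - s := by linarith
          positivity)
        have h4 : Mx u t + ε ≤ (Mx u s + ε) * Real.exp (2 * C * (t - s)) := by nlinarith
        have h5 := Real.log_le_log (hpos t) h4
        rw [Real.log_mul (hpos s).ne' (Real.exp_pos _).ne', Real.log_exp] at h5
        linarith
      · filter_upwards [hmax] with t ht htI d hd
        obtain ⟨x, hx, hx2⟩ := ht htI
        have htT : t ∈ Ioo 0 T := ⟨ha.trans_lt htI.1, htI.2.trans hb⟩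
        have hW0 := Wq_nonneg (u := u) t x
        have h4 : 0 < Wq u t x + ε := by linarith
        have hΦd : HasDerivAt (fun y => Real.log (y + ε)) (1 / (Wq u t x + ε)) (Wq u t x) :=
          ((hasDerivAt_id (Wq u t x)).add_const ε).log h4.ne'
        have h2 := deriv_le h htT hx (Φ := fun y => Real.log (y + ε)) (by
          intro y hy z _ hyz
          have : (0 : ℝ) ≤ y := hy
          exact Real.log_le_log (by linarith) (by linarith)) hΦd hd
        refine h2.trans ?_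
        have h3 := hρ0 t htI
        have h5 : vort (u t) x ⬝ᵥ (grad (u t) x).mulVec (vort (u t) x) ≤ ρ t * Wq u t x := hx2
        rw [div_mul_eq_mul_div, one_mul, div_le_iff₀ h4]
        nlinarith [mul_nonneg h3 hε.le]
    rw [intervalIntegral.integral_const_mul] at h1
    have h3 : Real.log (Mx u b + ε) ≤ Real.log (Mx u a + ε) + 2 * I := by linarith
    have h4 := Real.exp_le_exp.2 h3
    rwa [Real.exp_log (hpos b), Real.exp_add, Real.exp_log (hpos a)] at h4
  have hlim : Mx u b ≤ Mx u a * Real.exp (2 * I) := by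
    have hE := Real.exp_pos (2 * I)
    refine le_of_forall_pos_le_add fun δ hδ => ?_
    have h1 := key (δ / Real.exp (2 * I)) (by positivity)
    have h2 : (Mx u a + δ / Real.exp (2 * I)) * Real.exp (2 * I)
        = Mx u a * Real.exp (2 * I) + δ := by
      field_simp
    rw [h2] at h1
    have : 0 < δ / Real.exp (2 * I) := by positivity
    linarith
  have e3 : Real.exp (2 * I) = Real.exp I ^ 2 := by
    rw [← Real.exp_nat_mul]
    norm_num
  have hfin : nrm (vort (u b) x) ^ 2 ≤ (K * Real.exp I) ^ 2 := by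
    rw [← Wq_eq, mul_pow, ← e3]
    refine (Wq_le h.sol ⟨ha.trans hab, hb⟩ x).trans (hlim.trans ?_)
    have := Mx_le hK
    gcongr
  exact (le_abs_self _).trans
    (abs_le_of_sq_le_sq hfin (mul_nonneg hK0 (Real.exp_pos _).le))

/-- Comparison of the maximum of the vorticity with a function `G`. -/
lemma comp_max (h : IsC2Solution T u p) {a b : ℝ} (ha : 0 ≤ a) (hab : a ≤ b) (hb : b < T)
    {ρ G : ℝ → ℝ} (hGc : ContinuousOn G (Icc a b)) (hρi : IntegrableOn ρ (Icc a b))
    (hρ0 : ∀ t ∈ Icc a b, 0 ≤ ρ t)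
    (hG : ∀ s ∈ Icc a b, G s * Real.exp (∫ r in s..b, ρ r) ≤ G b)
    (h0 : ∀ y, nrm (vort (u a) y) ≤ G a)
    (hmax : ∀ᵐ t, t ∈ Ioo a b → ∃ x, IsMaxPt u t x ∧
      (G t < nrm (vort (u t) x) → Pq u t x ≤ ρ t * Wq u t x)) (x : V) :
    nrm (vort (u b) x) ≤ G b := by
  by_contra hcon
  push Not at hcon
  have hnc : ∀ y, ContinuousOn (fun t => nrm (vort (u t) y)) (Icc a b) := by
    intro y
    have h1 := nrm_vort_cont h.sol hb
    have h2 : Continuous fun t : ℝ => ((t, y) : ℝ × V) := by fun_prop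
    have h3 := h1.comp (s := Icc a b) h2.continuousOn
      fun t ht => ⟨⟨ha.trans ht.1, ht.2⟩, mem_univ _⟩
    simpa only [Function.comp_def] using h3
  set S : Set ℝ := {t ∈ Icc a b | ∀ y, nrm (vort (u t) y) ≤ G t} with hS
  have hSc : IsCompact S := by
    have : IsClosed S := by
      have h1 : S = Icc a b ∩ ⋂ y, (Icc a b ∩ (fun t => nrm (vort (u t) y) - G t) ⁻¹' Iic 0) := by
        ext t
        simp only [hS, mem_inter_iff, mem_iInter, mem_preimage, mem_Iic, sub_nonpos]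
        constructor
        · rintro ⟨h1, h2⟩
          exact ⟨h1, fun y => ⟨h1, h2 y⟩⟩
        · rintro ⟨h1, h2⟩
          exact ⟨h1, fun y => (h2 y).2⟩
      rw [h1]
      exact isClosed_Icc.inter (isClosed_iInter fun y =>
        ((hnc y).sub hGc).preimage_isClosed_of_isClosed isClosed_Icc isClosed_Iic)
    exact isCompact_Icc.of_isClosed_subset this fun t ht => ht.1
  have hSne : S.Nonempty := ⟨a, ⟨le_rfl, hab⟩, h0⟩
  obtain ⟨hsI, hsG⟩ := hSc.sSup_mem hSne
  set s := sSup S with hs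
  have hsub : Icc s b ⊆ Icc a b := Icc_subset_Icc_left hsI.1
  have hlt : ∀ t ∈ Ioc s b, ∀ z, IsMaxPt u t z → G t < nrm (vort (u t) z) := by
    intro t ht z hz
    by_contra h1
    push Not at h1
    have : t ∈ S := ⟨hsub ⟨ht.1.le, ht.2⟩, fun y => (hz y).trans h1⟩
    exact absurd (le_csSup hSc.bddAbove this) (not_le.2 ht.1)
  have h1 := max_growth h (ha.trans hsI.1) hsI.2 hb (hρi.mono_set hsub)
    (fun t ht => hρ0 t (hsub ⟨ht.1.le, ht.2.le⟩)) (by
      filter_upwards [hmax] with t ht htI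
      obtain ⟨z, hz, hz2⟩ := ht ⟨hsI.1.trans_lt htI.1, htI.2⟩
      exact ⟨z, hz, hz2 (hlt t ⟨htI.1, htI.2.le⟩ z hz)⟩) hsG x
  exact absurd (h1.trans (hG s hsI)) (not_le.2 hcon)

/-! ## The second singular value -/

lemma mid_rate (h : IsClassicalSolution (Ico 0 T) u p) {t : ℝ} (ht : t ∈ Ico 0 T) {x : V} {β : ℝ}
    (hm : MidLE (grad (u t) x) β) : Pq u t x ≤ 2 * β * Wq u t x :=
  (abs_le.1 (stretch_le (h.div_free t ht x) hm)).2

/-- The criterion with an integrable bound for the second singular value at one maximum point. -/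
theorem mid_bound (h : IsC2Solution T u p) {β Λ : ℝ → ℝ} (hβ0 : ∀ t ∈ Ioo 0 T, 0 ≤ β t)
    (hβi : IntegrableOn β (Ioo 0 T)) (hΛ : MonotoneOn Λ (Ioo 0 T))
    (hyp : ∀ᵐ t, t ∈ Ioo 0 T → ∃ x, IsMaxPt u t x ∧
      (Λ t < nrm (vort (u t) x) → MidLE (grad (u t) x) (β t)))
    {W : ℝ} (hW : ∀ x, nrm (vort (u 0) x) ≤ W) :
    ∀ t ∈ Ioo 0 T, ∀ x,
      nrm (vort (u t) x) ≤ max W (Λ t) * Real.exp (2 * ∫ s in Ioo 0 t, β s) := by
  intro b hb x
  have hW0 : 0 ≤ W := (nrm_nonneg _).trans (hW 0)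
  have hm0 : 0 ≤ max W (Λ b) := hW0.trans (le_max_left _ _)
  have hβb : IntegrableOn β (Icc 0 b) := by
    have : IntegrableOn β (Ioo 0 b) := hβi.mono_set (Ioo_subset_Ioo_right hb.2.le)
    rwa [integrableOn_Icc_iff_integrableOn_Ioo]
  -- replace `β` by `0` outside the open interval
  set β' : ℝ → ℝ := fun t => if t ∈ Ioo 0 T then 2 * β t else 0 with hβ'
  have hβ'0 : ∀ t, 0 ≤ β' t := by
    intro t
    simp only [hβ']
    split_ifs with ht
    · have := hβ0 t ht
      positivity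
    · exact le_rfl
  have hae : ∀ s ∈ Icc 0 b, ∀ t ∈ Icc 0 b, s ≤ t →
      ∫ r in s..t, β' r = 2 * ∫ r in s..t, β r := by
    intro s hs t ht hst
    rw [← intervalIntegral.integral_const_mul, intervalIntegral.integral_of_le hst,
      intervalIntegral.integral_of_le hst, integral_Ioc_eq_integral_Ioo,
      integral_Ioc_eq_integral_Ioo]
    refine setIntegral_congr_fun measurableSet_Ioo fun r hr => ?_
    have : r ∈ Ioo 0 T := ⟨hs.1.trans_lt hr.1, hr.2.trans_le (ht.2.trans hb.2.le)⟩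
    simp only [hβ', if_pos this]
  have hβ'i : IntegrableOn β' (Icc 0 b) := by
    rw [integrableOn_Icc_iff_integrableOn_Ioo] at hβb ⊢
    have h2β : IntegrableOn (fun r => 2 * β r) (Ioo 0 b) := hβb.const_mul 2
    refine h2β.congr_fun (fun r hr => ?_) measurableSet_Ioo
    have : r ∈ Ioo 0 T := ⟨hr.1, hr.2.trans hb.2⟩
    simp only [hβ', if_pos this]
  have hii : ∀ s ∈ Icc 0 b, IntervalIntegrable β' volume 0 s := fun s hs =>
    (intervalIntegrable_iff_integrableOn_Icc_of_le hs.1).2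
      (hβ'i.mono_set (Icc_subset_Icc_right hs.2))
  have hconv : 2 * ∫ s in Ioo 0 b, β s = ∫ s in (0 : ℝ)..b, β' s := by
    rw [hae 0 ⟨le_rfl, hb.1.le⟩ b ⟨hb.1.le, le_rfl⟩ hb.1.le, intervalIntegral.integral_of_le hb.1.le,
      integral_Ioc_eq_integral_Ioo]
  rw [hconv]
  refine comp_max h le_rfl hb.1.le hb.2 (ρ := β')
    (G := fun t => max W (Λ b) * Real.exp (∫ s in (0 : ℝ)..t, β' s)) ?_ hβ'i
    (fun t _ => hβ'0 t) ?_ ?_ ?_ x
  · have h1 : ContinuousOn (fun t => ∫ s in (0 : ℝ)..t, β' s) (Icc 0 b) := by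
      have := intervalIntegral.continuousOn_primitive_interval (f := β') (a := 0) (b := b)
        (by rwa [uIcc_of_le hb.1.le])
      rwa [uIcc_of_le hb.1.le] at this
    exact continuousOn_const.mul (Real.continuous_exp.comp_continuousOn h1)
  · intro s hs
    have h1 : (∫ r in (0 : ℝ)..s, β' r) + ∫ r in s..b, β' r = ∫ r in (0 : ℝ)..b, β' r :=
      intervalIntegral.integral_add_adjacent_intervals (hii s hs)
        ((hii s hs).symm.trans (hii b ⟨hb.1.le, le_rfl⟩))
    rw [mul_assoc, ← Real.exp_add, h1]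
  · intro y
    simp only [intervalIntegral.integral_same, Real.exp_zero, mul_one]
    exact (hW y).trans (le_max_left _ _)
  · filter_upwards [hyp] with t ht htI
    have htT : t ∈ Ioo 0 T := ⟨htI.1, htI.2.trans hb.2⟩
    obtain ⟨y, hy, hy2⟩ := ht htT
    refine ⟨y, hy, fun hlt => ?_⟩
    have h1 : Λ t ≤ Λ b := hΛ htT hb htI.2.le
    have h2 : 0 ≤ ∫ s in (0 : ℝ)..t, β' s :=
      intervalIntegral.integral_nonneg htI.1.le fun s _ => hβ'0 s
    have h3 : 1 ≤ Real.exp (∫ s in (0 : ℝ)..t, β' s) := Real.one_le_exp h2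
    have h4 : Λ t < nrm (vort (u t) y) := lt_of_le_of_lt (by
      calc Λ t ≤ max W (Λ b) := h1.trans (le_max_right _ _)
        _ ≤ max W (Λ b) * Real.exp (∫ s in (0 : ℝ)..t, β' s) := le_mul_of_one_le_right hm0 h3) hlt
    have h5 := mid_rate h.sol ⟨htT.1.le, htT.2⟩ (hy2 h4)
    simp only [hβ', if_pos htT]
    exact h5

/-- Finiteness of the Beale-Kato-Majda integral. -/
theorem mid_bkm (h : IsC2Solution T u p) {β Λ : ℝ → ℝ} (hβ0 : ∀ t ∈ Ioo 0 T, 0 ≤ β t)
    (hβi : IntegrableOn β (Ioo 0 T)) (hΛ : MonotoneOn Λ (Ioo 0 T))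
    (hΛi : IntegrableOn Λ (Ioo 0 T))
    (hyp : ∀ᵐ t, t ∈ Ioo 0 T → ∃ x, IsMaxPt u t x ∧
      (Λ t < nrm (vort (u t) x) → MidLE (grad (u t) x) (β t))) :
    BKMFinite T u := by
  unfold BKMFinite
  rcases le_or_gt T 0 with hT | hT
  · rw [Ioo_eq_empty (not_lt.2 hT)]
    simp
  obtain ⟨W, hW0, hW⟩ := vort_bound h.sol (b := 0) hT
  have hb := mid_bound h hβ0 hβi hΛ hyp (fun x => (hW 0 ⟨le_rfl, le_rfl⟩ x).1)
  set E := Real.exp (2 * ∫ s in Ioo 0 T, β s) with hE
  have hEt : ∀ t ∈ Ioo 0 T, Real.exp (2 * ∫ s in Ioo 0 t, β s) ≤ E := by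
    intro t ht
    refine Real.exp_le_exp.2 (mul_le_mul_of_nonneg_left ?_ (by norm_num))
    refine setIntegral_mono_set hβi ?_ (Ioo_subset_Ioo_right ht.2.le).eventuallyLE
    exact (ae_restrict_iff' measurableSet_Ioo).2 (Eventually.of_forall fun s hs => hβ0 s hs)
  have h1 : ∫⁻ t in Ioo 0 T, ⨆ x, ENNReal.ofReal (nrm (vort (u t) x))
      ≤ ∫⁻ t in Ioo 0 T, ENNReal.ofReal ((W + |Λ t|) * E) := by
    refine setLIntegral_mono' measurableSet_Ioo fun t ht => ?_
    refine iSup_le fun x => ENNReal.ofReal_le_ofReal ((hb t ht x).trans ?_)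
    have h2 : max W (Λ t) ≤ W + |Λ t| :=
      max_le (by have := abs_nonneg (Λ t); linarith) (by have := le_abs_self (Λ t); linarith)
    have h3 := hEt t ht
    have h4 := abs_nonneg (Λ t)
    gcongr
  refine h1.trans_lt ?_
  have h2 : IntegrableOn (fun t => (W + |Λ t|) * E) (Ioo 0 T) := by
    refine Integrable.mul_const ?_ E
    refine Integrable.add ?_ hΛi.abs
    exact integrableOn_const (by simp)
  exact h2.lintegral_lt_top

end Pool.Agent.W786.Max
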