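import Pool.Agent.W786.Max2

/-!
# Criteria at one maximum point of the vorticity: Type I rates and directed vorticities
-/

open MeasureTheory Set Filter
open scoped ENNReal NNReal Topology

namespace Pool.Agent.W786.Max

open Pool.Agent.H708R2.EulerSign Pool.Agent.H708R2.EulerTypeI Pool.Agent.W786.Sv
  Pool.Agent.W786.Dir

variable {T : ℝ} {u : ℝ → V → V} {p : ℝ → V → ℝ}

/-- Type I threshold for the second singular value at one maximum point. -/
theorem mid_type_one (hT : 0 < T) (h : IsC2Solution T u p) {κ : ℝ} (hκ : 1 < κ)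
    (hyp : ∀ᶠ t in 𝓝[<] T, ∃ x, IsMaxPt u t x ∧
      (1 / ((T - t) * Real.log (1 / (T - t)) ^ κ) < nrm (vort (u t) x) →
        MidLE (grad (u t) x) ((1 - κ / Real.log (1 / (T - t))) / (2 * (T - t))))) :
    (∃ C : ℝ, ∀ᶠ t in 𝓝[<] T, ∀ x,
      nrm (vort (u t) x) ≤ C / ((T - t) * Real.log (1 / (T - t)) ^ κ)) ∧ BKMFinite T u := by
  obtain ⟨t₀, ht₀, hP⟩ := exists_start hT hyp (max 1 κ)
  have hL : ∀ t ∈ Ico t₀ T, 1 ≤ Lf T t ∧ κ ≤ Lf T t := fun t ht =>
    ⟨(le_max_left _ _).trans (hP t ht).2, (le_max_right _ _).trans (hP t ht).2⟩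
  have hLpos : ∀ t ∈ Ico t₀ T, 0 < Lf T t := fun t ht => lt_of_lt_of_le one_pos (hL t ht).1
  obtain ⟨M, hM0, hM⟩ := vort_bound h.sol ht₀.2
  set C := max 1 (M / Rf T 1 κ t₀) with hC
  have hC1 : 1 ≤ C := le_max_left _ _
  have hform : ∀ t ∈ Ico t₀ T, Rf T 1 κ t = 1 / (T - t) * (Lf T t) ^ (-κ) := by
    intro t ht
    have h1 := hLpos t ht
    have h4 : 0 < T - t := sub_pos.2 ht.2
    unfold Rf
    rw [one_mul, Real.exp_sub, mul_comm κ, ← Real.rpow_def_of_pos h1, Real.rpow_neg h1.le,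
      div_eq_mul_inv]
    congr 1
    rw [Lf, Real.exp_neg, Real.exp_log h4, one_div]
  have hform2 : ∀ t ∈ Ico t₀ T, Rf T 1 κ t = 1 / ((T - t) * Real.log (1 / (T - t)) ^ κ) := by
    intro t ht
    rw [hform t ht, ← Lf_eq, Real.rpow_neg (hLpos t ht).le]
    have h4 : 0 < T - t := sub_pos.2 ht.2
    have h5 : 0 < (Lf T t) ^ κ := Real.rpow_pos_of_pos (hLpos t ht) _
    field_simp
  have hmain : ∀ b ∈ Ico t₀ T, ∀ x, nrm (vort (u b) x) ≤ C * Rf T 1 κ b := by
    intro b hb x
    have hsub : Icc t₀ b ⊆ Ico t₀ T := Icc_subset_Ico_right hb.2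
    have hd : ∀ t ∈ Icc t₀ b, HasDerivAt (fun t => 1 * Lf T t - κ * Real.log (Lf T t))
        ((1 - κ / Lf T t) / (T - t)) t := by
      intro t ht
      have h1 := Lf_hasDerivAt (hsub ht).2
      have h2 := hLpos t (hsub ht)
      refine ((h1.const_mul 1).fun_sub ((h1.log h2.ne').const_mul κ)).congr_deriv ?_
      have := (sub_pos.2 (hsub ht).2).ne'
      field_simp
    have hcont : ContinuousOn (fun t => (1 - κ / Lf T t) / (T - t)) (Icc t₀ b) := by
      have h1 : ContinuousOn (Lf T) (Icc t₀ b) := fun t ht =>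
        (Lf_hasDerivAt (hsub ht).2).continuousAt.continuousWithinAt
      refine (continuousOn_const.sub (continuousOn_const.div h1 fun t ht => ?_)).div
        (continuousOn_const.sub continuousOn_id) fun t ht => ?_
      · exact (hLpos t (hsub ht)).ne'
      · exact (sub_pos.2 (hsub ht).2).ne'
    refine comp_max h ht₀.1.le hb.1 hb.2 (G := fun t => C * Rf T 1 κ t)
      (ρ := fun t => (1 - κ / Lf T t) / (T - t)) ?_ hcont.integrableOn_Icc ?_ ?_ ?_ ?_ x
    · exact continuousOn_const.mul fun t ht =>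
        (Rf_hasDerivAt (hsub ht).2 (hLpos t (hsub ht))).continuousAt.continuousWithinAt
    · intro t ht
      have h1 := hLpos t (hsub ht)
      have h2 : κ / Lf T t ≤ 1 := (div_le_one h1).2 (hL t (hsub ht)).2
      have h3 : 0 < T - t := sub_pos.2 (hsub ht).2
      exact div_nonneg (by linarith) h3.le
    · intro s hs
      have h1 : ∫ t in s..b, (1 - κ / Lf T t) / (T - t)
          = (1 * Lf T b - κ * Real.log (Lf T b)) - (1 * Lf T s - κ * Real.log (Lf T s)) := by
        refine intervalIntegral.integral_eq_sub_of_hasDerivAt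
          (f := fun t => 1 * Lf T t - κ * Real.log (Lf T t)) ?_ ?_
        · intro t ht
          rw [uIcc_of_le hs.2] at ht
          exact hd t ⟨hs.1.trans ht.1, ht.2⟩
        · refine ContinuousOn.intervalIntegrable ?_
          rw [uIcc_of_le hs.2]
          exact hcont.mono (Icc_subset_Icc_left hs.1)
      rw [h1, mul_assoc]
      refine le_of_eq ?_
      congr 1
      unfold Rf
      rw [← Real.exp_add]
      congr 1
      ring
    · intro y
      have h1 := Rf_pos T 1 κ t₀
      have h2 : M / Rf T 1 κ t₀ ≤ C := le_max_right _ _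
      rw [div_le_iff₀ h1] at h2
      exact ((hM t₀ ⟨ht₀.1.le, le_rfl⟩ y).1).trans h2
    · refine Eventually.of_forall fun t ht => ?_
      have htI : t ∈ Ico t₀ T := ⟨ht.1.le, ht.2.trans hb.2⟩
      obtain ⟨y, hy, hy2⟩ := (hP t htI).1
      refine ⟨y, hy, fun hlt => ?_⟩
      have h1 := hy2 (lt_of_le_of_lt (by
        rw [← hform2 t htI]
        exact le_mul_of_one_le_left (Rf_pos _ _ _ _).le hC1) hlt)
      rw [← Lf_eq] at h1
      have h2 := mid_rate h.sol ⟨ht₀.1.le.trans htI.1, htI.2⟩ h1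
      have h3 : 0 < T - t := sub_pos.2 htI.2
      have e : 2 * ((1 - κ / Lf T t) / (2 * (T - t))) = (1 - κ / Lf T t) / (T - t) := by
        field_simp
      rwa [e] at h2
  refine ⟨⟨C, ?_⟩, bkm_of_rate h.sol ht₀ hκ hLpos (C := C) fun t ht x => ?_⟩
  · have hmem : Ico t₀ T ∈ 𝓝[<] T := Ico_mem_nhdsLT ht₀.2
    filter_upwards [hmem] with t ht x
    refine (hmain t ht x).trans (le_of_eq ?_)
    rw [hform2 t ht]
    ring
  · rw [← hform t ht]
    exact hmain t ht x

/-! ## Directed vorticities -/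

/-- The bound of the vorticity, with the conditions at one maximum point. -/
theorem dir_bound (h : IsC2Solution T u p) {G U : ℝ → ℝ} {Λ K : ℝ}
    (hint : IntegrableOn (fun t => U t * G t) (Ioo 0 T))
    (hdir : ∀ᵐ t, t ∈ Ioo 0 T → 0 < G t ∧ ∃ x, IsMaxPt u t x ∧
      (Λ < nrm (vort (u t) x) → Directed (u t) x (G t) (U t)))
    (hK1 : 1 ≤ K) (hKΛ : Λ ≤ K) (hK0 : ∀ x, nrm (vort (u 0) x) ≤ K) :
    ∀ t ∈ Ioo 0 T, ∀ x, nrm (vort (u t) x)
      ≤ Real.exp ((2 + Real.log K) * Real.exp (Cst * ∫ s in Ioo 0 t, (1 + |U s * G s|))) := by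
  intro c hc x₂
  have hC := Cst_pos
  set b : ℝ → ℝ := fun t => Cst * (1 + |U t * G t|) with hb
  have hb0 : ∀ t, 0 ≤ b t := fun t => by
    have := abs_nonneg (U t * G t)
    positivity
  have hbi : IntegrableOn b (Icc 0 c) := by
    rw [integrableOn_Icc_iff_integrableOn_Ioo]
    have h1 : IntegrableOn (fun t => U t * G t) (Ioo 0 c) :=
      hint.mono_set (Ioo_subset_Ioo_right hc.2.le)
    have h2 : IntegrableOn (fun _ : ℝ => (1 : ℝ)) (Ioo 0 c) := integrableOn_const (by simp)
    exact (h2.add h1.abs).const_mul Cst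
  have hlogK : 0 ≤ Real.log K := Real.log_nonneg hK1
  have hIc : ∫ s in (0 : ℝ)..c, b s = Cst * ∫ s in Ioo 0 c, (1 + |U s * G s|) := by
    simp only [hb]
    rw [intervalIntegral.integral_of_le hc.1.le, integral_Ioc_eq_integral_Ioo, integral_const_mul]
  -- the last time at which the vorticity is at most `K`
  have hnc : ∀ y, ContinuousOn (fun t => nrm (vort (u t) y)) (Icc 0 c) := by
    intro y
    have h1 := nrm_vort_cont h.sol hc.2
    have h2 : Continuous fun t : ℝ => ((t, y) : ℝ × V) := by fun_prop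
    have h3 := h1.comp (s := Icc 0 c) h2.continuousOn fun t ht => ⟨ht, mem_univ _⟩
    simpa only [Function.comp_def] using h3
  set S : Set ℝ := {t ∈ Icc 0 c | ∀ y, nrm (vort (u t) y) ≤ K} with hS
  have hSc : IsCompact S := by
    have : IsClosed S := by
      have h1 : S = Icc 0 c ∩ ⋂ y, (Icc 0 c ∩ (fun t => nrm (vort (u t) y)) ⁻¹' Iic K) := by
        ext t
        simp only [hS, mem_inter_iff, mem_iInter, mem_preimage, mem_Iic]
        constructor
        · rintro ⟨h1, h2⟩
          exact ⟨h1, fun y => ⟨h1, h2 y⟩⟩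
        · rintro ⟨h1, h2⟩
          exact ⟨h1, fun y => (h2 y).2⟩
      rw [h1]
      exact isClosed_Icc.inter (isClosed_iInter fun y =>
        (hnc y).preimage_isClosed_of_isClosed isClosed_Icc isClosed_Iic)
    exact isCompact_Icc.of_isClosed_subset this fun t ht => ht.1
  have hSne : S.Nonempty := ⟨0, ⟨le_rfl, hc.1.le⟩, hK0⟩
  obtain ⟨hsI, hsK⟩ := hSc.sSup_mem hSne
  set s := sSup S with hs
  have hlt : ∀ t ∈ Ioc s c, ∀ z, IsMaxPt u t z → K < nrm (vort (u t) z) := by
    intro t ht z hz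
    by_contra h1
    push Not at h1
    have : t ∈ S := ⟨⟨hsI.1.trans ht.1.le, ht.2⟩, fun y => (hz y).trans h1⟩
    exact absurd (le_csSup hSc.bddAbove this) (not_le.2 ht.1)
  obtain ⟨C, hC0, hCg⟩ := Mx_growth h hc.2
  -- the function `log (2 + log (1 + M))`
  have hpos1 : ∀ y : ℝ, 0 ≤ y → 0 < y + 1 := fun y hy => by linarith
  have hlog1 : ∀ y : ℝ, 0 ≤ y → 0 ≤ Real.log (y + 1) := fun y hy => Real.log_nonneg (by linarith)
  set Φ : ℝ → ℝ := fun y => Real.log (2 + Real.log (y + 1)) with hΦ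
  have hΦm : MonotoneOn Φ (Ici 0) := by
    intro y hy z _ hyz
    have hy0 : (0 : ℝ) ≤ y := hy
    have h1 := hlog1 y hy0
    exact Real.log_le_log (by linarith) (by
      have := Real.log_le_log (hpos1 y hy0) (show y + 1 ≤ z + 1 by linarith)
      linarith)
  have hΦd : ∀ y : ℝ, 0 ≤ y →
      HasDerivAt Φ (1 / (y + 1) / (2 + Real.log (y + 1))) y := by
    intro y hy
    have h1 := hlog1 y hy
    have h2 : HasDerivAt (fun y => 2 + Real.log (y + 1)) (1 / (y + 1)) y :=
      (((hasDerivAt_id y).add_const 1).log (hpos1 y hy).ne').const_add 2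
    exact h2.log (by linarith)
  have hLip : ∀ r ∈ Icc s c, ∀ t ∈ Icc s c, r ≤ t →
      Φ (Mx u t) - Φ (Mx u r) ≤ 2 * C * (t - r) := by
    intro r hr t ht hrt
    have h2 := hCg r ⟨hsI.1.trans hr.1, hr.2⟩ t ⟨hsI.1.trans ht.1, ht.2⟩ hrt
    have hMr := Mx_nonneg (u := u) r
    have hMt := Mx_nonneg (u := u) t
    have hE0 : 0 ≤ 2 * C * (t - r) := by
      have : 0 ≤ t - r := by linarith
      positivity
    have h3 : 1 ≤ Real.exp (2 * C * (t - r)) := Real.one_le_exp hE0
    have h4 : Mx u t + 1 ≤ (Mx u r + 1) * Real.exp (2 * C * (t - r)) := by nlinarith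
    have h5 := Real.log_le_log (hpos1 _ hMt) h4
    rw [Real.log_mul (hpos1 _ hMr).ne' (Real.exp_pos _).ne', Real.log_exp] at h5
    have h6 := hlog1 _ hMr
    have h7 := hlog1 _ hMt
    have h8 : 2 + Real.log (Mx u t + 1)
        ≤ (2 + Real.log (Mx u r + 1)) * Real.exp (2 * C * (t - r)) := by
      have h9 := Real.add_one_le_exp (2 * C * (t - r))
      nlinarith
    have h9 := Real.log_le_log (by linarith) h8
    rw [Real.log_mul (by positivity) (Real.exp_pos _).ne', Real.log_exp] at h9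
    simp only [hΦ]
    linarith
  have hbi' : IntegrableOn b (Icc s c) := hbi.mono_set (Icc_subset_Icc_left hsI.1)
  have key : Φ (Mx u c) - Φ (Mx u s) ≤ ∫ t in s..c, b t := by
    refine growth_of_ae (L := fun t => Φ (Mx u t)) (C := 2 * C) hsI.2 hLip
      ((intervalIntegrable_iff_integrableOn_Icc_of_le hsI.2).2 hbi') ?_
    filter_upwards [hdir] with t ht htI d hd
    have htT : t ∈ Ioo 0 T := ⟨hsI.1.trans_lt htI.1, htI.2.trans hc.2⟩
    obtain ⟨hG, x, hx, hx2⟩ := ht htT
    have hKx := hlt t ⟨htI.1, htI.2.le⟩ x hx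
    have hDx := hx2 (hKΛ.trans_lt hKx)
    set m := nrm (vort (u t) x) with hm
    have hm1 : 1 < m := hK1.trans_lt hKx
    have hm0 : 0 < m := by linarith
    have hWm : Wq u t x = m ^ 2 := Wq_eq t x
    have hlogm : 0 < Real.log m := Real.log_pos hm1
    have h1 := stretch_dir (slice_two h htT) (fun x => h.sol.div_free t ⟨htT.1.le, htT.2⟩ x)
      hG hDx (Ω := m) (fun y _ => hx y) (δ := 1 / m) (by positivity)
      (by rw [div_le_one hm0]; exact hm1.le)
    have e1 : Real.log (1 / (1 / m)) = Real.log m := by rw [one_div_one_div]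
    have e2 : 1 / m * m = 1 := by field_simp
    rw [e1, e2] at h1
    have hP : vort (u t) x ⬝ᵥ (grad (u t) x).mulVec (vort (u t) x)
        ≤ b t * (1 + Real.log m) * m ^ 2 := by
      refine (le_abs_self _).trans (h1.trans ?_)
      have e3 : vort (u t) x ⬝ᵥ vort (u t) x = m ^ 2 := (nrm_sq _).symm
      rw [e3]
      refine mul_le_mul_of_nonneg_right ?_ (by positivity)
      have h5 : U t * G t * (1 + Real.log m) ≤ |U t * G t| * (1 + Real.log m) :=
        mul_le_mul_of_nonneg_right (le_abs_self _) (by linarith)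
      have h6 : U t * G t * (1 + Real.log m) + 1 ≤ (1 + |U t * G t|) * (1 + Real.log m) := by
        nlinarith
      calc Cst * (U t * G t * (1 + Real.log m) + 1)
          ≤ Cst * ((1 + |U t * G t|) * (1 + Real.log m)) := by gcongr
        _ = b t * (1 + Real.log m) := by simp only [hb]; ring
    have hW0 := Wq_nonneg (u := u) t x
    have h2 := deriv_le h htT hx hΦm (hΦd _ hW0) hd
    refine h2.trans ?_
    have hq : 0 < 2 + Real.log (Wq u t x + 1) := by
      have := hlog1 _ hW0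
      linarith
    have hw1 := hpos1 _ hW0
    have h3 : 2 * Real.log m ≤ Real.log (Wq u t x + 1) := by
      have e4 : 2 * Real.log m = Real.log (m ^ 2) := by
        rw [Real.log_pow]
        norm_num
      rw [e4]
      exact Real.log_le_log (by positivity) (by rw [hWm]; linarith)
    rw [div_div, div_mul_eq_mul_div, one_mul, div_le_iff₀ (by positivity)]
    calc 2 * (vort (u t) x ⬝ᵥ (grad (u t) x).mulVec (vort (u t) x))
        ≤ 2 * (b t * (1 + Real.log m) * m ^ 2) := by linarith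
      _ = b t * (m ^ 2 * (2 + 2 * Real.log m)) := by ring
      _ ≤ b t * ((Wq u t x + 1) * (2 + Real.log (Wq u t x + 1))) := by
          have := hb0 t
          have h4 : m ^ 2 ≤ Wq u t x + 1 := by rw [hWm]; linarith
          gcongr
  -- conclusion
  have hint0 : ∫ t in s..c, b t ≤ ∫ t in (0 : ℝ)..c, b t := by
    have h1 : IntervalIntegrable b volume 0 s :=
      (intervalIntegrable_iff_integrableOn_Icc_of_le hsI.1).2
        (hbi.mono_set (Icc_subset_Icc_right hsI.2))
    have h2 : IntervalIntegrable b volume s c :=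
      (intervalIntegrable_iff_integrableOn_Icc_of_le hsI.2).2 hbi'
    have h3 := intervalIntegral.integral_add_adjacent_intervals h1 h2
    have h4 : 0 ≤ ∫ t in (0 : ℝ)..s, b t :=
      intervalIntegral.integral_nonneg hsI.1 fun t _ => hb0 t
    linarith
  have hMc := Mx_nonneg (u := u) c
  have hMs := Mx_nonneg (u := u) s
  have hMsK : Mx u s ≤ K ^ 2 := Mx_le hsK
  have hfin : 2 + Real.log (Mx u c + 1)
      ≤ (2 + Real.log (Mx u s + 1)) * Real.exp (∫ t in (0 : ℝ)..c, b t) := by
    have h1 : Real.log (2 + Real.log (Mx u c + 1))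
        ≤ Real.log (2 + Real.log (Mx u s + 1)) + ∫ t in (0 : ℝ)..c, b t := by
      simp only [hΦ] at key
      linarith
    have h2 := Real.exp_le_exp.2 h1
    have h3 := hlog1 _ hMc
    have h4 := hlog1 _ hMs
    rwa [Real.exp_log (by linarith), Real.exp_add, Real.exp_log (by linarith)] at h2
  rw [hIc] at hfin
  set E := Real.exp (Cst * ∫ s in Ioo 0 c, (1 + |U s * G s|)) with hE
  have hE1 : 0 < E := Real.exp_pos _
  have hKlog : Real.log (Mx u s + 1) ≤ 2 + 2 * Real.log K := by
    have h1 : Mx u s + 1 ≤ Real.exp 2 * K ^ 2 := by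
      have h2 : (2 : ℝ) ≤ Real.exp 2 := by
        have := Real.add_one_le_exp (2 : ℝ)
        linarith
      have h3 : 1 ≤ K ^ 2 := one_le_pow₀ hK1
      nlinarith
    have h2 := Real.log_le_log (hpos1 _ hMs) h1
    rw [Real.log_mul (Real.exp_pos _).ne' (by positivity), Real.log_exp, Real.log_pow] at h2
    push_cast at h2
    exact h2
  have h5 : Real.log (Mx u c + 1) ≤ 2 * ((2 + Real.log K) * E) := by
    have h6 : (2 + Real.log (Mx u s + 1)) * E ≤ (2 + (2 + 2 * Real.log K)) * E := by gcongr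
    linarith
  have h6 : Mx u c + 1 ≤ Real.exp ((2 + Real.log K) * E) ^ 2 := by
    rw [← Real.exp_nat_mul, ← Real.exp_log (hpos1 _ hMc)]
    refine Real.exp_le_exp.2 ?_
    push_cast
    exact h5
  have h7 : nrm (vort (u c) x₂) ^ 2 ≤ Real.exp ((2 + Real.log K) * E) ^ 2 := by
    rw [← Wq_eq]
    have := Wq_le h.sol ⟨hc.1.le, hc.2⟩ x₂
    linarith
  exact (le_abs_self _).trans (abs_le_of_sq_le_sq h7 (Real.exp_pos _).le)

end Pool.Agent.W786.Max
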