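import Pool.Agent.W786.Max3

/-!
# Criteria at one maximum point of the vorticity: conclusions for directed vorticities
-/

open MeasureTheory Set Filter
open scoped ENNReal NNReal Topology

namespace Pool.Agent.W786.Max

open Pool.Agent.H708R2.EulerSign Pool.Agent.H708R2.EulerTypeI Pool.Agent.W786.Sv
  Pool.Agent.W786.Dir

variable {T : ℝ} {u : ℝ → V → V} {p : ℝ → V → ℝ}

/-- Finiteness of the Beale-Kato-Majda integral. -/
theorem dir_bkm (h : IsC2Solution T u p) {G U : ℝ → ℝ} {Λ : ℝ}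
    (hint : IntegrableOn (fun t => U t * G t) (Ioo 0 T))
    (hdir : ∀ᵐ t, t ∈ Ioo 0 T → 0 < G t ∧ ∃ x, IsMaxPt u t x ∧
      (Λ < nrm (vort (u t) x) → Directed (u t) x (G t) (U t))) :
    BKMFinite T u := by
  unfold BKMFinite
  rcases le_or_gt T 0 with hT | hT
  · rw [Ioo_eq_empty (not_lt.2 hT)]
    simp
  obtain ⟨W, hW0, hW⟩ := vort_bound h.sol (b := 0) hT
  set K := max 1 (max Λ W) with hK
  have hK1 : 1 ≤ K := le_max_left _ _
  have hKΛ : Λ ≤ K := (le_max_left _ _).trans (le_max_right _ _)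
  have hK0 : ∀ x, nrm (vort (u 0) x) ≤ K := fun x =>
    ((hW 0 ⟨le_rfl, le_rfl⟩ x).1).trans ((le_max_right _ _).trans (le_max_right _ _))
  have hb := dir_bound h hint hdir hK1 hKΛ hK0
  have hint1 : IntegrableOn (fun s => 1 + |U s * G s|) (Ioo 0 T) := by
    have h2 : IntegrableOn (fun _ : ℝ => (1 : ℝ)) (Ioo 0 T) := integrableOn_const (by simp)
    exact h2.add hint.abs
  set M := Real.exp ((2 + Real.log K)
    * Real.exp (Cst * ∫ s in Ioo 0 T, (1 + |U s * G s|))) with hM
  have hle : ∀ t ∈ Ioo 0 T, ∀ x, nrm (vort (u t) x) ≤ M := by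
    intro t ht x
    refine (hb t ht x).trans (Real.exp_le_exp.2 ?_)
    have h0 : 0 ≤ Real.log K := Real.log_nonneg hK1
    refine mul_le_mul_of_nonneg_left (Real.exp_le_exp.2 ?_) (by linarith)
    refine mul_le_mul_of_nonneg_left ?_ Cst_pos.le
    refine setIntegral_mono_set hint1 ?_ (Ioo_subset_Ioo_right ht.2.le).eventuallyLE
    exact (ae_restrict_iff' measurableSet_Ioo).2 (Eventually.of_forall fun s _ => by
      have := abs_nonneg (U s * G s)
      show (0 : ℝ) ≤ 1 + |U s * G s|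
      linarith)
  have h1 : ∫⁻ t in Ioo 0 T, ⨆ x, ENNReal.ofReal (nrm (vort (u t) x))
      ≤ ∫⁻ _t in Ioo 0 T, ENNReal.ofReal M := by
    refine setLIntegral_mono' measurableSet_Ioo fun t ht => ?_
    exact iSup_le fun x => ENNReal.ofReal_le_ofReal (hle t ht x)
  refine h1.trans_lt ?_
  rw [setLIntegral_const, Real.volume_Ioo]
  exact ENNReal.mul_lt_top ENNReal.ofReal_lt_top ENNReal.ofReal_lt_top

/-- Type I singularities, with the conditions at one maximum point. -/
theorem dir_type_one (hT : 0 < T) (h : IsC2Solution T u p) {G U : ℝ → ℝ} {C₁ : ℝ} (hC₁ : 1 ≤ C₁)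
    (hI : ∀ᶠ t in 𝓝[<] T, ∀ x, (T - t) * nrm (vort (u t) x) ≤ C₁)
    (hd : ∀ᶠ t in 𝓝[<] T, 0 < G t ∧ (T - t) * (U t * G t) ≤ cst1 / (1 + Real.log C₁) ∧
      ∃ x, IsMaxPt u t x ∧
        (1 / Real.sqrt (T - t) < nrm (vort (u t) x) → Directed (u t) x (G t) (U t))) :
    (∃ C : ℝ, ∀ᶠ t in 𝓝[<] T, ∀ x, nrm (vort (u t) x) ≤ C / Real.sqrt (T - t)) ∧
    BKMFinite T u := by
  obtain ⟨t₀, ht₀, hP⟩ := exists_start hT (hI.and hd) 0
  have hM1 : 1 ≤ max 1 Cst := le_max_left _ _
  have hCle : Cst ≤ max 1 Cst := le_max_right _ _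
  set M := max 1 Cst with hM
  have hC := Cst_pos
  have hlogC : 0 ≤ Real.log C₁ := Real.log_nonneg hC₁
  have hlogM : 0 ≤ Real.log (4 * M) := Real.log_nonneg (by linarith)
  set δ := 1 / (4 * M * C₁) with hδ
  have hδ0 : 0 < δ := by positivity
  have hδ1 : δ ≤ 1 := by
    rw [hδ, div_le_one (by positivity)]
    nlinarith
  have hlogδ : Real.log (1 / δ) = Real.log (4 * M) + Real.log C₁ := by
    rw [hδ, one_div_one_div, Real.log_mul (by positivity) (by positivity)]
  -- the rate
  have hrate : ∀ t ∈ Ico t₀ T, ∃ y, IsMaxPt u t y ∧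
      (1 / Real.sqrt (T - t) < nrm (vort (u t) y) →
        Pq u t y ≤ 1 / (2 * (T - t)) * Wq u t y) := by
    intro t ht
    obtain ⟨⟨hIt, hG, hUG, y, hy, hdir⟩, -⟩ := hP t ht
    refine ⟨y, hy, fun hlt => ?_⟩
    have htI : t ∈ Ioo 0 T := ⟨ht₀.1.trans_le ht.1, ht.2⟩
    have hTt : 0 < T - t := sub_pos.2 ht.2
    have h1 := stretch_dir (slice_two h htI) (fun x => h.sol.div_free t ⟨htI.1.le, htI.2⟩ x)
      hG (hdir hlt) (Ω := C₁ / (T - t))
      (fun y _ => by rw [le_div_iff₀ hTt, mul_comm]; exact hIt y) hδ0 hδ1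
    refine (le_abs_self _).trans (h1.trans ?_)
    refine mul_le_mul_of_nonneg_right ?_ (dot_self_nonneg _)
    rw [hlogδ]
    have h2 : U t * G t ≤ cst1 / (1 + Real.log C₁) / (T - t) := by
      rw [le_div_iff₀ hTt, mul_comm]
      exact hUG
    have h3 : Cst * (U t * G t * (1 + (Real.log (4 * M) + Real.log C₁))) ≤ 1 / (4 * (T - t)) := by
      have h4 : 1 + (Real.log (4 * M) + Real.log C₁)
          ≤ (1 + Real.log (4 * M)) * (1 + Real.log C₁) := by nlinarith
      calc Cst * (U t * G t * (1 + (Real.log (4 * M) + Real.log C₁)))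
          ≤ Cst * (cst1 / (1 + Real.log C₁) / (T - t)
            * (1 + (Real.log (4 * M) + Real.log C₁))) := by gcongr
        _ ≤ M * (cst1 / (1 + Real.log C₁) / (T - t)
            * ((1 + Real.log (4 * M)) * (1 + Real.log C₁))) := by
            have := cst1_pos
            gcongr
        _ = 1 / (4 * (T - t)) := by
            unfold cst1
            rw [← hM]
            have hq : 0 < 1 + Real.log (4 * M) := by linarith
            have hq2 : 0 < 1 + Real.log C₁ := by linarith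
            generalize 1 + Real.log (4 * M) = q at hq ⊢
            generalize 1 + Real.log C₁ = q2 at hq2 ⊢
            field_simp
    have h5 : Cst * (δ * (C₁ / (T - t))) ≤ 1 / (4 * (T - t)) := by
      calc Cst * (δ * (C₁ / (T - t))) ≤ M * (δ * (C₁ / (T - t))) := by gcongr
        _ = 1 / (4 * (T - t)) := by
          rw [hδ]
          field_simp
    have h6 : 1 / (4 * (T - t)) + 1 / (4 * (T - t)) = 1 / (2 * (T - t)) := by
      field_simp
      norm_num
    calc Cst * (U t * G t * (1 + (Real.log (4 * M) + Real.log C₁)) + δ * (C₁ / (T - t)))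
        = Cst * (U t * G t * (1 + (Real.log (4 * M) + Real.log C₁)))
          + Cst * (δ * (C₁ / (T - t))) := by ring
      _ ≤ _ := by linarith
  obtain ⟨W, hW0, hW⟩ := vort_bound h.sol ht₀.2
  set C := max 1 (W * Real.sqrt (T - t₀)) with hCdef
  have hC1 : 1 ≤ C := le_max_left _ _
  have hmain : ∀ b ∈ Ico t₀ T, ∀ x, nrm (vort (u b) x) ≤ C * (1 / Real.sqrt (T - b)) := by
    intro b hb x
    have hsub : ∀ t ∈ Icc t₀ b, 0 < T - t := fun t ht => by linarith [ht.2, hb.2]
    refine comp_max h ht₀.1.le hb.1 hb.2 (G := fun t => C * (1 / Real.sqrt (T - t)))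
      (ρ := fun t => 1 / (2 * (T - t))) ?_ ?_ ?_ ?_ ?_ ?_ x
    · refine continuousOn_const.mul (continuousOn_const.div (by fun_prop) fun t ht => ?_)
      exact (Real.sqrt_pos.2 (hsub t ht)).ne'
    · refine (continuousOn_const.div (by fun_prop) fun t ht => ?_).integrableOn_Icc
      have := hsub t ht
      positivity
    · intro t ht
      have := hsub t ht
      positivity
    · intro s hs
      rw [mul_assoc, int_half hs.2 hb.2]
    · intro y
      have h1 := (hW t₀ ⟨ht₀.1.le, le_rfl⟩ y).1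
      have h2 : 0 < Real.sqrt (T - t₀) := Real.sqrt_pos.2 (sub_pos.2 ht₀.2)
      have h3 : W * Real.sqrt (T - t₀) ≤ C := le_max_right _ _
      rw [mul_one_div, le_div_iff₀ h2]
      exact (mul_le_mul_of_nonneg_right h1 h2.le).trans h3
    · refine Eventually.of_forall fun t ht => ?_
      obtain ⟨y, hy, hy2⟩ := hrate t ⟨ht.1.le, ht.2.trans hb.2⟩
      refine ⟨y, hy, fun hlt => hy2 (lt_of_le_of_lt ?_ hlt)⟩
      have := hsub t ⟨ht.1.le, ht.2.le⟩
      exact le_mul_of_one_le_left (by positivity) hC1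
  refine ⟨⟨C, ?_⟩, ?_⟩
  · filter_upwards [Ico_mem_nhdsLT ht₀.2] with t ht x
    have := hmain t ht x
    rwa [mul_one_div] at this
  -- finiteness of the integral
  obtain ⟨M', hM0', hM'⟩ := vort_bound h.sol ht₀.2
  have hint : IntegrableOn (fun t => C * (1 / Real.sqrt (T - t))) (Ioc t₀ T) := by
    have h1 : IntegrableOn (fun t => 1 / Real.sqrt (T - t)) (Ioc t₀ T) := by
      refine intervalIntegral.integrableOn_deriv_of_nonneg
        (g := fun t => -2 * Real.sqrt (T - t)) ?_ ?_ ?_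
      · exact (continuous_const.mul (Real.continuous_sqrt.comp
          (continuous_const.sub continuous_id))).continuousOn
      · intro t ht
        have hTt : 0 < T - t := sub_pos.2 ht.2
        have h2 : HasDerivAt (fun r => T - r) (-1) t := by
          simpa using (hasDerivAt_id t).const_sub T
        have h3 := (h2.sqrt hTt.ne').const_mul (-2)
        refine h3.congr_deriv ?_
        have := (Real.sqrt_pos.2 hTt).ne'
        field_simp
      · intro t ht
        have hTt : 0 < T - t := sub_pos.2 ht.2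
        positivity
    exact h1.const_mul C
  have hfin2 : ∫⁻ t in Ico t₀ T, ⨆ x, ENNReal.ofReal (nrm (vort (u t) x)) < ∞ := by
    have h1 : ∫⁻ t in Ico t₀ T, ⨆ x, ENNReal.ofReal (nrm (vort (u t) x))
        ≤ ∫⁻ t in Ico t₀ T, ENNReal.ofReal (C * (1 / Real.sqrt (T - t))) := by
      refine setLIntegral_mono' measurableSet_Ico fun t ht => ?_
      exact iSup_le fun x => ENNReal.ofReal_le_ofReal (hmain t ht x)
    refine h1.trans_lt ?_
    have h2 : IntegrableOn (fun t => C * (1 / Real.sqrt (T - t))) (Ico t₀ T) := by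
      rw [integrableOn_Ico_iff_integrableOn_Ioo, ← integrableOn_Ioc_iff_integrableOn_Ioo]
      exact hint
    exact h2.lintegral_lt_top
  have hfin1 : ∫⁻ t in Ioo 0 t₀, ⨆ x, ENNReal.ofReal (nrm (vort (u t) x)) < ∞ := by
    have h1 : ∫⁻ t in Ioo 0 t₀, ⨆ x, ENNReal.ofReal (nrm (vort (u t) x))
        ≤ ∫⁻ _t in Ioo 0 t₀, ENNReal.ofReal M' := by
      refine setLIntegral_mono' measurableSet_Ioo fun t ht => ?_
      exact iSup_le fun x => ENNReal.ofReal_le_ofReal (hM' t ⟨ht.1.le, ht.2.le⟩ x).1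
    refine h1.trans_lt ?_
    rw [setLIntegral_const, Real.volume_Ioo]
    exact ENNReal.mul_lt_top ENNReal.ofReal_lt_top ENNReal.ofReal_lt_top
  unfold BKMFinite
  have hsplit : Ioo 0 T ⊆ Ioo 0 t₀ ∪ Ico t₀ T := by
    intro t ht
    by_cases h1 : t < t₀
    · exact Or.inl ⟨ht.1, h1⟩
    · exact Or.inr ⟨not_lt.1 h1, ht.2⟩
  refine (lintegral_mono_set hsplit).trans_lt ?_
  refine (lintegral_union_le _ _ _).trans_lt ?_
  exact ENNReal.add_lt_top.2 ⟨hfin1, hfin2⟩

end Pool.Agent.W786.Max
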