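import Pool.Agent.W786.Dir4
import Pool.Agent.W268.NS.Crit

/-!
# Averages over small balls of periodic functions
-/

open MeasureTheory Set Filter
open scoped ENNReal NNReal Topology

namespace Pool.Agent.W786.One

open Pool.Agent.H708R2.EulerSign Pool.Agent.H708R2.EulerTypeI Pool.Agent.W786.Dir
open H459R3.NS (cube pd SP Per)

lemma P_le_one (n : ℕ) (z : V) : P n z ≤ 1 := by
  unfold P
  refine pow_le_one₀ (le_max_right _ _) (max_le ?_ zero_le_one)
  have := dot_self_nonneg z
  linarith

/-- Cauchy-Schwarz for the averages. -/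
lemma cs {k a b : V → ℝ} (hk : Continuous k) (hkc : HasCompactSupport k) (hk0 : ∀ z, 0 ≤ k z)
    (ha : Continuous a) (hb : Continuous b) :
    ∫ z, k z * (a z * b z) ≤ Real.sqrt (∫ z, k z * a z ^ 2) * Real.sqrt (∫ z, k z * b z ^ 2) := by
  set X := ∫ z, k z * a z ^ 2 with hX
  set Y := ∫ z, k z * b z ^ 2 with hY
  set Z := ∫ z, k z * (a z * b z) with hZ
  have iX : Integrable fun z => k z * a z ^ 2 :=
    (hk.mul (ha.pow 2)).integrable_of_hasCompactSupport hkc.mul_right
  have iY : Integrable fun z => k z * b z ^ 2 :=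
    (hk.mul (hb.pow 2)).integrable_of_hasCompactSupport hkc.mul_right
  have iZ : Integrable fun z => k z * (a z * b z) :=
    (hk.mul (ha.mul hb)).integrable_of_hasCompactSupport hkc.mul_right
  have hq : ∀ l : ℝ, 0 ≤ X * (l * l) + (-2 * Z) * l + Y := by
    intro l
    have h1 : 0 ≤ ∫ z, k z * (l * a z - b z) ^ 2 :=
      integral_nonneg fun z => mul_nonneg (hk0 z) (sq_nonneg _)
    have h2 : ∫ z, k z * (l * a z - b z) ^ 2
        = ∫ z, (l * l * (k z * a z ^ 2) + (-2 * l) * (k z * (a z * b z)) + k z * b z ^ 2) := by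
      congr 1
      funext z
      ring
    have i2 : Integrable fun z => l * l * (k z * a z ^ 2) + (-2 * l) * (k z * (a z * b z)) :=
      (iX.const_mul _).add (iZ.const_mul _)
    rw [h2, integral_add i2 iY,
      integral_add (iX.const_mul _) (iZ.const_mul _), integral_const_mul, integral_const_mul] at h1
    linarith
  have hd := discrim_le_zero hq
  unfold discrim at hd
  have hX0 : 0 ≤ X := integral_nonneg fun z => mul_nonneg (hk0 z) (sq_nonneg _)
  have hY0 : 0 ≤ Y := integral_nonneg fun z => mul_nonneg (hk0 z) (sq_nonneg _)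
  rw [← Real.sqrt_mul hX0]
  refine Real.le_sqrt_of_sq_le ?_
  linarith

/-- Averages over balls of radius at most `1/2` of nonnegative periodic functions. -/
lemma av_le {f : V → ℝ} (hf : Continuous f) (hf0 : ∀ x, 0 ≤ f x) (hp : Per f) (n : ℕ) (x₀ : V)
    {r : ℝ} (hr : 0 < r) (hr2 : r ≤ 1 / 2) :
    r ^ 3 * ∫ z, P (n + 1) z * f (x₀ + r • z) ≤ 27 * ∫ x in cube, f x := by
  -- reduction to `x₀` in the unit cube
  set m : Fin 3 → ℤ := fun i => -⌊x₀ i⌋ with hm
  set x₁ : V := x₀ + fun i => (m i : ℝ) with hx₁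
  have hx₁0 : ∀ i, 0 ≤ x₁ i ∧ x₁ i ≤ 1 := by
    intro i
    have e : x₁ i = x₀ i - ⌊x₀ i⌋ := by
      simp only [hx₁, hm, Pi.add_apply]
      push_cast
      ring
    rw [e]
    exact ⟨sub_nonneg.2 (Int.floor_le _), by have := Int.lt_floor_add_one (x₀ i); linarith⟩
  have hfx : ∀ z, f (x₀ + r • z) = f (x₁ + r • z) := by
    intro z
    have h1 := hp.int m (x₀ + r • z)
    rw [← h1]
    congr 1
    rw [hx₁]
    abel
  set g : V → ℝ := fun y => P (n + 1) (r⁻¹ • y) * f (x₁ + y) with hg
  have h1 : ∫ z, P (n + 1) z * f (x₀ + r • z) = ∫ z, g (r • z) := by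
    congr 1
    funext z
    simp only [hg, hfx, smul_smul, inv_mul_cancel₀ hr.ne', one_smul]
  have h2 : ∫ z, g (r • z) = |(r ^ 3)⁻¹| • ∫ y, g y := by
    have := Measure.integral_comp_smul (volume : Measure V) g r
    rw [this]
    simp
  have h3 : r ^ 3 * ∫ z, P (n + 1) z * f (x₀ + r • z) = ∫ y, g y := by
    rw [h1, h2, abs_of_pos (by positivity), smul_eq_mul, ← mul_assoc, mul_inv_cancel₀ (by positivity),
      one_mul]
  rw [h3]
  have h4 : ∫ y, g y = ∫ y, P (n + 1) (r⁻¹ • (y - x₁)) * f y := by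
    rw [← integral_sub_right_eq_self (fun y => g y) x₁]
    congr 1
    funext y
    simp only [hg]
    congr 2
    abel
  rw [h4]
  have hcont : Continuous fun y => P (n + 1) (r⁻¹ • (y - x₁)) * f y :=
    ((P_cont _).comp (by fun_prop)).mul hf
  have hsupp : ∀ y, y ∉ H459R3.NS.box → P (n + 1) (r⁻¹ • (y - x₁)) * f y = 0 := by
    intro y hy
    have hP : P (n + 1) (r⁻¹ • (y - x₁)) = 0 := by
      refine P_zero_of ?_
      by_contra hcon
      push Not at hcon
      apply hy
      have hz : ∀ i, |(r⁻¹ • (y - x₁)) i| ≤ 1 := fun i =>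
        (abs_le_nrm _ i).trans (nrm_lt_one hcon).le
      have hz' : ∀ i, |y i - x₁ i| ≤ 1 / 2 := by
        intro i
        have h5 := hz i
        rw [Pi.smul_apply, Pi.sub_apply, smul_eq_mul, abs_mul, abs_of_pos (inv_pos.2 hr)] at h5
        rw [inv_mul_le_iff₀ hr, mul_one] at h5
        exact h5.trans hr2
      constructor
      · intro i
        have h5 := abs_le.1 (hz' i)
        have h6 := (hx₁0 i).1
        show (-1 : ℝ) ≤ y i
        linarith [h5.1]
      · intro i
        have h5 := abs_le.1 (hz' i)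
        have h6 := (hx₁0 i).2
        show y i ≤ (2 : ℝ)
        linarith [h5.2]
    rw [hP, zero_mul]
  have hnn : ∀ y, 0 ≤ P (n + 1) (r⁻¹ • (y - x₁)) * f y := fun y =>
    mul_nonneg (P_nonneg _ _) (hf0 y)
  have hint : IntegrableOn f cube := H459R3.NS.integrableOn_cube hf
  have h5 : ENNReal.ofReal (∫ y, P (n + 1) (r⁻¹ • (y - x₁)) * f y)
      ≤ ENNReal.ofReal (27 * ∫ x in cube, f x) := by
    have hc : HasCompactSupport fun y => P (n + 1) (r⁻¹ • (y - x₁)) * f y :=
      HasCompactSupport.intro (K := H459R3.NS.box) isCompact_Icc hsupp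
    rw [ofReal_integral_eq_lintegral_ofReal (hcont.integrable_of_hasCompactSupport hc)
      (Eventually.of_forall hnn), ENNReal.ofReal_mul (by norm_num),
      ofReal_integral_eq_lintegral_ofReal hint (Eventually.of_forall fun x => hf0 x)]
    have h6 : ∫⁻ y, ENNReal.ofReal (P (n + 1) (r⁻¹ • (y - x₁)) * f y)
        = ∫⁻ y in H459R3.NS.box, ENNReal.ofReal (P (n + 1) (r⁻¹ • (y - x₁)) * f y) := by
      have hbm : MeasurableSet H459R3.NS.box := measurableSet_Icc
      rw [← lintegral_indicator hbm]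
      congr 1
      funext y
      by_cases hy : y ∈ H459R3.NS.box
      · rw [indicator_of_mem hy]
      · rw [indicator_of_notMem hy, hsupp y hy, ENNReal.ofReal_zero]
    rw [h6]
    have hm : Measurable fun y => ENNReal.ofReal (f y) := by
      exact ENNReal.measurable_ofReal.comp hf.measurable
    have hpe : Per fun y => ENNReal.ofReal (f y) := fun i x => by simp only [hp i x]
    have h7 : ∫⁻ y in H459R3.NS.box, ENNReal.ofReal (P (n + 1) (r⁻¹ • (y - x₁)) * f y)
        ≤ ∫⁻ y in H459R3.NS.box, ENNReal.ofReal (f y) := lintegral_mono fun y =>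
      ENNReal.ofReal_le_ofReal (mul_le_of_le_one_left (hf0 y) (P_le_one _ _))
    refine h7.trans ((H459R3.NS.lintegral_box_le hm hpe).trans ?_)
    rw [ENNReal.ofReal_ofNat]
  refine (ENNReal.ofReal_le_ofReal_iff ?_).1 h5
  exact mul_nonneg (by norm_num) (integral_nonneg fun x => hf0 x)

end Pool.Agent.W786.One
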