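import Pool.Agent.W786.One9

/-!
# One-point criterion: final form
-/

open MeasureTheory Set Filter
open scoped ENNReal NNReal Topology

namespace Pool.Agent.W786.One

open Pool.Agent.H708R2.EulerSign Pool.Agent.H708R2.EulerTypeI Pool.Agent.W786.Dir
  Pool.Agent.W786.Max
open H459R3.NS hiding V nrm ibp S nrm_sq nrm_nonneg

/-- The vorticity is twisted at most at the Lipschitz rate `K` (up to a logarithm) near `x`: with
`w = curl v (x)`, for all `y` with `|y| < r`,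
`(y · w) det (curl v (x + y), w, y) ≤ K |y|³ (1 - log |y|) |w|² |∇v (x + y)|`. -/
def TwistLe (v : V → V) (x : V) (K r : ℝ) : Prop :=
  ∀ y, nrm y < r → (y ⬝ᵥ vort v x) * (vort v (x + y) ⬝ᵥ cross (vort v x) y)
    ≤ K * nrm y ^ 3 * (1 - Real.log (nrm y)) * nrm (vort v x) ^ 2 * gr v (x + y)

/-- The final form. -/
theorem final : ∃ C : ℝ, 0 ≤ C ∧ ∀ (ν T K Λ : ℝ) (u : ℝ → V → V) (p : ℝ → V → ℝ) (g : ℝ → ℝ),
    0 < ν → 0 ≤ K → IsSol ν T u p → (∀ᵐ t, t ∈ Ioo 0 T → 0 ≤ g t) → IntegrableOn g (Ioo 0 T) →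
    (∀ᵐ t, t ∈ Ioo 0 T → ∃ x, IsMaxPt u t x ∧ (Λ < nrm (vort (u t) x) →
      (∀ s ∈ Ico 0 t, ∀ y, nrm (vort (u s) y) < nrm (vort (u t) x)) →
      TwistLe (u t) x K ((1 + enstrophy (u t) / ν ^ 2 + g t) ^ (-(2 / 5) : ℝ)))) →
    (∃ B, ∀ t ∈ Ico 0 T, ∀ x i, |u t x i| ≤ B) ∧
    ∀ A, ν ≤ A → Λ ≤ A → (∀ x, nrm (vort (u 0) x) ≤ A) → ∀ t ∈ Ico 0 T, ∀ x,
      nrm (vort (u t) x) ≤ ν * Real.exp ((1 + Real.log (A / ν))
        * Real.exp (C * (K * (1 + ν * T + energy (u 0) / ν ^ 2)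
          + Real.sqrt (energy (u 0)) * (T + energy (u 0) / ν ^ 3 + ∫ s in Ioo 0 T, g s))) - 1) := by
  obtain ⟨C, hC0, hC⟩ := main
  refine ⟨C, hC0, fun ν T K Λ u p g hν hK h hg hgi hmax => ?_⟩
  rcases le_or_gt T 0 with hT | hT
  · have hem : ∀ t, t ∉ Ico 0 T := fun t ht => absurd (ht.1.trans_lt ht.2) (not_lt.2 hT)
    exact ⟨⟨0, fun t ht => absurd ht (hem t)⟩, fun _ _ _ _ t ht => absurd ht (hem t)⟩
  set E := energy (u 0) with hE
  have hE0 : 0 ≤ E := energy_nonneg _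
  set r : ℝ → ℝ := fun t => (1 + yy ν u t + g t) ^ (-(2 / 5) : ℝ) with hr
  set G := ∫ s in Ioo 0 T, g s with hG
  have hG0 : 0 ≤ G := by
    refine integral_nonneg_of_ae ?_
    rw [EventuallyLE, ae_restrict_iff' measurableSet_Ioo]
    filter_upwards [hg] with t ht1 ht2
    exact ht1 ht2
  have hone : ∀ t, 0 ≤ g t → 1 ≤ 1 + yy ν u t + g t := fun t ht => by
    linarith [yy_nonneg (ν := ν) (u := u) t]
  have hrr : ∀ t, 0 ≤ g t → r t ^ (-(5 / 2) : ℝ) = 1 + yy ν u t + g t := by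
    intro t ht
    have h1 := hone t ht
    simp only [hr]
    rw [← Real.rpow_mul (by linarith), show (-(2 / 5) * -(5 / 2) : ℝ) = 1 by norm_num,
      Real.rpow_one]
  have hint : ∀ b ∈ Ico 0 T, IntervalIntegrable (fun t => r t ^ (-(5 / 2) : ℝ)) volume 0 b ∧
      ∫ t in (0 : ℝ)..b, r t ^ (-(5 / 2) : ℝ) ≤ T + E / ν ^ 3 + G := by
    intro b hb
    have hsub : Icc 0 b ⊆ Ico 0 T := fun s hs => ⟨hs.1, hs.2.trans_lt hb.2⟩
    have iy : IntervalIntegrable (yy ν u) volume 0 b :=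
      ((yy_cont h).mono hsub).intervalIntegrable_of_Icc hb.1
    have ig : IntervalIntegrable g volume 0 b := by
      rw [intervalIntegrable_iff_integrableOn_Ioo_of_le hb.1]
      exact hgi.mono_set (Ioo_subset_Ioo_right hb.2.le)
    have i1 : IntervalIntegrable (fun t => 1 + yy ν u t) volume 0 b :=
      intervalIntegrable_const.add iy
    have hae : ∀ᵐ t, t ∈ Set.uIoc 0 b → 1 + yy ν u t + g t = r t ^ (-(5 / 2) : ℝ) := by
      filter_upwards [hg] with t ht1 ht2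
      rw [uIoc_of_le hb.1] at ht2
      exact (hrr t (ht1 ⟨ht2.1, ht2.2.trans_lt hb.2⟩)).symm
    refine ⟨(i1.add ig).congr_ae ((ae_restrict_iff' measurableSet_uIoc).2 hae), ?_⟩
    rw [← intervalIntegral.integral_congr_ae hae, intervalIntegral.integral_add i1 ig,
      intervalIntegral.integral_add intervalIntegrable_const iy,
      intervalIntegral.integral_const, smul_eq_mul]
    have h1 : ∫ t in (0 : ℝ)..b, yy ν u t ≤ E / ν ^ 3 := by
      have h2 := int_yy h hν hb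
      have h3 := mul_le_mul_of_nonneg_left h2 (show 0 ≤ 1 / ν by positivity)
      have e1 : 1 / ν * (ν * ∫ t in (0 : ℝ)..b, yy ν u t) = ∫ t in (0 : ℝ)..b, yy ν u t := by
        field_simp
      have e2 : 1 / ν * (energy (u 0) / (2 * ν ^ 2)) = E / ν ^ 3 / 2 := by
        rw [← hE]
        field_simp
      rw [e1, e2] at h3
      have : 0 ≤ E / ν ^ 3 := by positivity
      linarith
    have h2 : ∫ t in (0 : ℝ)..b, g t ≤ G := by
      rw [intervalIntegral.integral_of_le hb.1, integral_Ioc_eq_integral_Ioo]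
      refine setIntegral_mono_set hgi ?_ (Ioo_subset_Ioo_right hb.2.le).eventuallyLE
      rw [EventuallyLE, ae_restrict_iff' measurableSet_Ioo]
      filter_upwards [hg] with t ht1 ht2
      exact ht1 ht2
    have h3 := hb.2
    linarith
  have hr1 : ∀ᵐ t, t ∈ Ioo 0 T → 0 < r t ∧ r t ≤ 1 := by
    filter_upwards [hg] with t ht1 ht2
    have h1 := hone t (ht1 ht2)
    exact ⟨Real.rpow_pos_of_pos (by linarith) _,
      Real.rpow_le_one_of_one_le_of_nonpos h1 (by norm_num)⟩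
  have hR0 : 0 ≤ T + E / ν ^ 3 + G := by positivity
  have key := fun A (hA : ν ≤ A) (hΛ : Λ ≤ A) (hA0 : ∀ x, nrm (vort (u 0) x) ≤ A) =>
    hC ν T K A (T + E / ν ^ 3 + G) u p r hν hK hA hA0 h hr1 hR0 hint (by
      filter_upwards [hmax] with t ht htI
      obtain ⟨x, hx, hxt⟩ := ht htI
      exact ⟨x, hx, fun hAx hrec => hxt (hΛ.trans_lt hAx) hrec⟩)
  refine ⟨?_, fun A hA hΛ hA0 => (key A hA hΛ hA0).1⟩
  obtain ⟨b, hb1, hb2⟩ := exists_between hT
  obtain ⟨L, hL0, hL1, hL2⟩ := Wq_lip h hb2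
  have h0 : ∀ x, nrm (vort (u 0) x) ≤ Real.sqrt L := by
    intro x
    refine Real.le_sqrt_of_sq_le ?_
    rw [← Wq_eq]
    exact hL1 0 ⟨le_rfl, hb1.le⟩ x
  exact (key (max (max ν Λ) (Real.sqrt L)) ((le_max_left _ _).trans (le_max_left _ _))
    ((le_max_right _ _).trans (le_max_left _ _)) fun x => (h0 x).trans (le_max_right _ _)).2

end Pool.Agent.W786.One
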