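import Pool.Agent.W786.One1

/-!
# Averages of the velocity gradient
-/

open MeasureTheory Set Filter
open scoped ENNReal NNReal Topology

namespace Pool.Agent.W786.One

open Pool.Agent.H708R2.EulerSign Pool.Agent.H708R2.EulerTypeI Pool.Agent.W786.Dir
open H459R3.NS (cube pd SP Per)

/-- `|∇v|²` -/
noncomputable def gsq (v : V → V) (x : V) : ℝ := ∑ i, ∑ j, grad v x i j ^ 2

/-- `|∇v|` -/
noncomputable def gr (v : V → V) (x : V) : ℝ := Real.sqrt (gsq v x)

/-- `|∇²v|²` -/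
noncomputable def hsq (v : V → V) (x : V) : ℝ :=
  ∑ i, ∑ j, ∑ k, fderiv ℝ (fun x => grad v x i j) x (Pi.single k 1) ^ 2

lemma gsq_nonneg (v : V → V) (x : V) : 0 ≤ gsq v x :=
  Finset.sum_nonneg fun _ _ => Finset.sum_nonneg fun _ _ => sq_nonneg _

lemma hsq_nonneg (v : V → V) (x : V) : 0 ≤ hsq v x :=
  Finset.sum_nonneg fun _ _ => Finset.sum_nonneg fun _ _ => Finset.sum_nonneg fun _ _ =>
    sq_nonneg _

lemma gr_nonneg (v : V → V) (x : V) : 0 ≤ gr v x := Real.sqrt_nonneg _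

lemma gr_sq (v : V → V) (x : V) : gr v x ^ 2 = gsq v x := Real.sq_sqrt (gsq_nonneg v x)

lemma cs2 (a b : Fin 3 → Fin 3 → ℝ) : |∑ i, ∑ j, a i j * b i j|
    ≤ Real.sqrt (∑ i, ∑ j, a i j ^ 2) * Real.sqrt (∑ i, ∑ j, b i j ^ 2) := by
  have h0 : 0 ≤ ∑ i, ∑ j, a i j ^ 2 :=
    Finset.sum_nonneg fun _ _ => Finset.sum_nonneg fun _ _ => sq_nonneg _
  rw [← Real.sqrt_mul h0]
  refine Real.abs_le_sqrt ?_
  have h := Finset.sum_mul_sq_le_sq_mul_sq (Finset.univ : Finset (Fin 3 × Fin 3))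
    (fun q => a q.1 q.2) (fun q => b q.1 q.2)
  simpa only [Fintype.sum_prod_type] using h

variable {v : V → V}

lemma gsq_contDiff (hv : ContDiff ℝ 2 v) : ContDiff ℝ 1 (gsq v) :=
  ContDiff.sum fun i _ => ContDiff.sum fun j _ => (grad_contDiff hv i j).pow 2

lemma gr_cont (hv : ContDiff ℝ 2 v) : Continuous (gr v) :=
  (gsq_contDiff hv).continuous.sqrt

lemma hsq_cont (hv : ContDiff ℝ 2 v) : Continuous (hsq v) := by
  unfold hsq
  refine continuous_finsetSum _ fun i _ => continuous_finsetSum _ fun j _ =>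
    continuous_finsetSum _ fun k _ => ?_
  exact (((grad_contDiff hv i j).continuous_fderiv one_ne_zero).clm_apply continuous_const).pow 2

lemma gsq_fderiv_le (hv : ContDiff ℝ 2 v) (x z : V) :
    |fderiv ℝ (gsq v) x z| ≤ 2 * (Real.sqrt (gsq v x) * (nrm z * Real.sqrt (hsq v x))) := by
  have h1 : HasFDerivAt (gsq v) (∑ i, ∑ j, (2 * grad v x i j) •
      fderiv ℝ (fun x => grad v x i j) x) x := by
    refine HasFDerivAt.fun_sum fun i _ => HasFDerivAt.fun_sum fun j _ => ?_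
    have := (gd hv x i j).pow 2
    refine this.congr_fderiv ?_
    ext w
    simp
  rw [h1.fderiv]
  simp only [FunLike.coe_sum, Finset.sum_apply, FunLike.coe_smul, Pi.smul_apply, smul_eq_mul]
  have e : ∑ i, ∑ j, 2 * grad v x i j * fderiv ℝ (fun x => grad v x i j) x z
      = 2 * ∑ i, ∑ j, grad v x i j * fderiv ℝ (fun x => grad v x i j) x z := by
    simp only [Finset.mul_sum]
    refine Finset.sum_congr rfl fun i _ => Finset.sum_congr rfl fun j _ => ?_
    ring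
  rw [e, abs_mul, abs_of_pos (by norm_num : (0 : ℝ) < 2)]
  refine mul_le_mul_of_nonneg_left ((cs2 _ _).trans ?_) (by norm_num)
  refine mul_le_mul_of_nonneg_left ?_ (Real.sqrt_nonneg _)
  have hn := nrm_nonneg z
  rw [← Real.sqrt_sq hn, ← Real.sqrt_mul (sq_nonneg _)]
  refine Real.sqrt_le_sqrt ?_
  unfold hsq
  rw [Finset.mul_sum]
  refine Finset.sum_le_sum fun i _ => ?_
  rw [Finset.mul_sum]
  refine Finset.sum_le_sum fun j _ => ?_
  rw [fderiv_sum_single x z]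
  have h2 := Finset.sum_mul_sq_le_sq_mul_sq (Finset.univ : Finset (Fin 3)) (fun k => z k)
    (fun k => fderiv ℝ (fun x => grad v x i j) x (Pi.single k 1))
  refine h2.trans (le_of_eq ?_)
  rw [nrm_sq]
  simp only [dotProduct, sq]

/-- The average of `|∇v|²`. -/
noncomputable def q (v : V → V) (x₀ : V) (r : ℝ) : ℝ := ∫ z, P 2 z * gsq v (x₀ + r • z)

lemma q_nonneg (x₀ : V) (r : ℝ) : 0 ≤ q v x₀ r :=
  integral_nonneg fun z => mul_nonneg (P_nonneg _ _) (gsq_nonneg _ _)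

lemma q_deriv (hv : ContDiff ℝ 2 v) (x₀ : V) (r : ℝ) :
    ∃ q', HasDerivAt (q v x₀) q' r ∧
      |q'| ≤ 2 * (Real.sqrt (q v x₀ r) * Real.sqrt (∫ z, P 2 z * hsq v (x₀ + r • z))) := by
  refine ⟨_, param_deriv (P_cont 2) (P_supp 1) (gsq_contDiff hv) x₀ r, ?_⟩
  have ca : Continuous fun z : V => Real.sqrt (gsq v (x₀ + r • z)) :=
    ((gsq_contDiff hv).continuous.comp (by fun_prop)).sqrt
  have cb : Continuous fun z : V => Real.sqrt (hsq v (x₀ + r • z)) :=
    ((hsq_cont hv).comp (by fun_prop)).sqrt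
  have h1 := cs (P_cont 2) (P_supp 1) (P_nonneg 2) ca cb
  have e1 : ∀ z : V, Real.sqrt (gsq v (x₀ + r • z)) ^ 2 = gsq v (x₀ + r • z) := fun z =>
    Real.sq_sqrt (gsq_nonneg _ _)
  have e2 : ∀ z, Real.sqrt (hsq v (x₀ + r • z)) ^ 2 = hsq v (x₀ + r • z) := fun z =>
    Real.sq_sqrt (hsq_nonneg _ _)
  simp only [e1, e2] at h1
  have h2 : |∫ z, P 2 z * fderiv ℝ (gsq v) (x₀ + r • z) z|
      ≤ ∫ z, 2 * (P 2 z * (Real.sqrt (gsq v (x₀ + r • z)) * Real.sqrt (hsq v (x₀ + r • z)))) := by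
    rw [← Real.norm_eq_abs]
    refine norm_integral_le_of_norm_le ?_ (Eventually.of_forall fun z => ?_)
    · exact (((P_cont 2).mul (ca.mul cb)).integrable_of_hasCompactSupport
        (P_supp 1).mul_right).const_mul 2
    · rw [Real.norm_eq_abs, abs_mul, abs_of_nonneg (P_nonneg 2 z)]
      have hp := P_nonneg 2 z
      have h3 := gsq_fderiv_le hv (x₀ + r • z) z
      have s1 := Real.sqrt_nonneg (gsq v (x₀ + r • z))
      have s2 := Real.sqrt_nonneg (hsq v (x₀ + r • z))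
      rcases lt_or_ge (z ⬝ᵥ z) 1 with hz | hz
      · have hz1 := (nrm_lt_one hz).le
        have hn := nrm_nonneg z
        calc P 2 z * |fderiv ℝ (gsq v) (x₀ + r • z) z|
            ≤ P 2 z * (2 * (Real.sqrt (gsq v (x₀ + r • z))
              * (1 * Real.sqrt (hsq v (x₀ + r • z))))) := by
              refine mul_le_mul_of_nonneg_left (h3.trans ?_) hp
              gcongr
          _ = _ := by ring
      · have e : P 2 z = 0 := P_zero_of hz
        rw [e]
        simp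
  refine h2.trans ?_
  rw [integral_const_mul]
  exact mul_le_mul_of_nonneg_left h1 (by norm_num)

lemma inv_sqrt_deriv {s : ℝ} (hs : 0 < s) :
    HasDerivAt (fun s : ℝ => (Real.sqrt s)⁻¹) (-(1 / (2 * (s * Real.sqrt s)))) s := by
  have h1 := (Real.hasDerivAt_sqrt hs.ne').inv (Real.sqrt_pos.2 hs).ne'
  refine h1.congr_deriv ?_
  have h2 := Real.sq_sqrt hs.le
  have h3 := Real.sqrt_pos.2 hs
  rw [h2]
  field_simp

section

variable (hv : ContDiff ℝ 2 v) (hp : Per v) {Y Z : ℝ} (hY : ∫ x in cube, gsq v x ≤ Y)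
  (hZ : ∫ x in cube, hsq v x ≤ Z) {x₀ : V}

include hp in
lemma grad_per (i j : Fin 3) : Per fun x => grad v x i j := by
  intro k x
  unfold grad
  simp only [Matrix.of_apply]
  rw [hp.fderiv k x]

include hp in
lemma gsq_per : Per (gsq v) := by
  intro k x
  unfold gsq
  refine Finset.sum_congr rfl fun i _ => Finset.sum_congr rfl fun j _ => ?_
  exact congrArg (fun a : ℝ => a ^ 2) (grad_per hp i j k x)

include hp in
lemma hsq_per : Per (hsq v) := by
  intro k x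
  unfold hsq
  refine Finset.sum_congr rfl fun i _ => Finset.sum_congr rfl fun j _ =>
    Finset.sum_congr rfl fun l _ => ?_
  rw [(grad_per hp i j).fderiv k x]

include hv hp hY in
lemma q_le {r : ℝ} (hr : 0 < r) (hr2 : r ≤ 1 / 2) : q v x₀ r ≤ 27 * Y / r ^ 3 := by
  have h := av_le (gsq_contDiff hv).continuous (gsq_nonneg v) (gsq_per hp) 1 x₀ hr hr2
  rw [le_div_iff₀ (by positivity), mul_comm]
  exact h.trans (by linarith)

include hv hp hZ in
lemma h_le {r : ℝ} (hr : 0 < r) (hr2 : r ≤ 1 / 2) :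
    ∫ z, P 2 z * hsq v (x₀ + r • z) ≤ 27 * Z / r ^ 3 := by
  have h := av_le (hsq_cont hv) (hsq_nonneg v) (hsq_per hp) 1 x₀ hr hr2
  rw [le_div_iff₀ (by positivity), mul_comm]
  exact h.trans (by linarith)

include hv hp hY hZ in
lemma sqrt_q_le {r : ℝ} (hr : 0 < r) (hr2 : r ≤ 1 / 2) :
    Real.sqrt (q v x₀ r) ≤ Real.sqrt (216 * Y) + 2 * Real.sqrt (27 * Z) * (Real.sqrt r)⁻¹ := by
  have hY0 : 0 ≤ Y := le_trans (integral_nonneg fun x => gsq_nonneg v x) hY
  have hZ0 : 0 ≤ Z := le_trans (integral_nonneg fun x => hsq_nonneg v x) hZ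
  have key : ∀ ε : ℝ, 0 < ε → Real.sqrt (q v x₀ r)
      ≤ Real.sqrt (216 * Y + ε) + 2 * Real.sqrt (27 * Z) * (Real.sqrt r)⁻¹ := by
    intro ε hε
    set c := Real.sqrt (27 * Z) with hc
    set φ : ℝ → ℝ := fun s => Real.sqrt (q v x₀ s + ε) - 2 * c * (Real.sqrt s)⁻¹ with hφ
    have hpos : ∀ s, 0 < q v x₀ s + ε := fun s => by have := q_nonneg (v := v) x₀ s; linarith
    have hd : ∀ s : ℝ, 0 < s → s ≤ 1 / 2 → ∃ d, 0 ≤ d ∧ HasDerivAt φ d s := by
      intro s hs hs2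
      obtain ⟨q', hq', hq'b⟩ := q_deriv hv x₀ s
      have h1 : HasDerivAt (fun s => Real.sqrt (q v x₀ s + ε))
          (q' / (2 * Real.sqrt (q v x₀ s + ε))) s := (hq'.add_const ε).sqrt (hpos s).ne'
      refine ⟨_, ?_, h1.sub ((inv_sqrt_deriv hs).const_mul (2 * c))⟩
      have hQ := Real.sqrt_pos.2 (hpos s)
      have h2 : Real.sqrt (q v x₀ s) ≤ Real.sqrt (q v x₀ s + ε) := Real.sqrt_le_sqrt (by linarith)
      have h3 : Real.sqrt (∫ z, P 2 z * hsq v (x₀ + s • z)) ≤ c / (s * Real.sqrt s) := by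
        refine (Real.sqrt_le_sqrt (h_le hv hp hZ hs hs2)).trans (le_of_eq ?_)
        rw [Real.sqrt_div (by positivity), ← hc]
        congr 1
        rw [show s ^ 3 = s ^ 2 * s by ring, Real.sqrt_mul (sq_nonneg s), Real.sqrt_sq hs.le]
      have h4 : |q' / (2 * Real.sqrt (q v x₀ s + ε))| ≤ c / (s * Real.sqrt s) := by
        rw [abs_div, abs_of_pos (by positivity : (0 : ℝ) < 2 * Real.sqrt (q v x₀ s + ε)),
          div_le_iff₀ (by positivity)]
        calc |q'| ≤ 2 * (Real.sqrt (q v x₀ s)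
              * Real.sqrt (∫ z, P 2 z * hsq v (x₀ + s • z))) := hq'b
          _ ≤ 2 * (Real.sqrt (q v x₀ s + ε) * (c / (s * Real.sqrt s))) := by gcongr
          _ = _ := by ring
      have h5 := (abs_le.1 h4).1
      have e : 2 * c * -(1 / (2 * (s * Real.sqrt s))) = -(c / (s * Real.sqrt s)) := by
        have := Real.sqrt_pos.2 hs
        field_simp
      rw [e]
      linarith
    have hmono : MonotoneOn φ (Icc r (1 / 2)) := by
      refine monotoneOn_of_deriv_nonneg (convex_Icc _ _) (fun s hs => ?_) (fun s hs => ?_)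
        (fun s hs => ?_)
      · obtain ⟨d, -, hd'⟩ := hd s (hr.trans_le hs.1) hs.2
        exact hd'.continuousAt.continuousWithinAt
      · rw [interior_Icc] at hs
        obtain ⟨d, -, hd'⟩ := hd s (hr.trans hs.1) hs.2.le
        exact hd'.differentiableAt.differentiableWithinAt
      · rw [interior_Icc] at hs
        obtain ⟨d, hd0, hd'⟩ := hd s (hr.trans hs.1) hs.2.le
        rw [hd'.deriv]
        exact hd0
    have h6 := hmono ⟨le_rfl, hr2⟩ ⟨hr2, le_rfl⟩ hr2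
    simp only [hφ] at h6
    have h7 : Real.sqrt (q v x₀ (1 / 2) + ε) ≤ Real.sqrt (216 * Y + ε) := by
      refine Real.sqrt_le_sqrt ?_
      have := q_le (x₀ := x₀) hv hp hY (r := 1 / 2) (by norm_num) le_rfl
      norm_num at this
      norm_num
      linarith
    have h8 : Real.sqrt (q v x₀ r) ≤ Real.sqrt (q v x₀ r + ε) := Real.sqrt_le_sqrt (by linarith)
    have h9 : 0 ≤ 2 * c * (Real.sqrt (1 / 2))⁻¹ := by positivity
    linarith
  have hlim : Tendsto (fun ε : ℝ => Real.sqrt (216 * Y + ε)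
      + 2 * Real.sqrt (27 * Z) * (Real.sqrt r)⁻¹) (𝓝[>] 0)
      (𝓝 (Real.sqrt (216 * Y + 0) + 2 * Real.sqrt (27 * Z) * (Real.sqrt r)⁻¹)) := by
    have h1 : Continuous fun ε : ℝ => Real.sqrt (216 * Y + ε)
      + 2 * Real.sqrt (27 * Z) * (Real.sqrt r)⁻¹ := by fun_prop
    exact (h1.tendsto 0).mono_left nhdsWithin_le_nhds
  rw [add_zero] at hlim
  refine ge_of_tendsto hlim ?_
  filter_upwards [self_mem_nhdsWithin] with ε hε
  exact key ε hε

/-- The average of `|∇v|`. -/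
noncomputable def J (v : V → V) (x₀ : V) (r : ℝ) : ℝ := ∫ z, P 2 z * gr v (x₀ + r • z)

include hv in
lemma J_le (r : ℝ) : J v x₀ r ≤ Real.sqrt (∫ z, P 2 z) * Real.sqrt (q v x₀ r) := by
  have cb : Continuous fun z : V => gr v (x₀ + r • z) := (gr_cont hv).comp (by fun_prop)
  have h1 := cs (P_cont 2) (P_supp 1) (P_nonneg 2) (continuous_const (y := (1 : ℝ))) cb
  simp only [one_pow, mul_one, one_mul, gr_sq] at h1
  exact h1

include hv hp hY hZ in
lemma J_le_one {r : ℝ} (hr : 0 < r) (hr2 : r ≤ 1 / 2) : J v x₀ r ≤ Real.sqrt (∫ z, P 2 z)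
    * (Real.sqrt (216 * Y) + 2 * Real.sqrt (27 * Z) * (Real.sqrt r)⁻¹) :=
  (J_le hv r).trans (mul_le_mul_of_nonneg_left (sqrt_q_le hv hp hY hZ hr hr2)
    (Real.sqrt_nonneg _))

include hv hp hY in
lemma J_le_two {r : ℝ} (hr : 0 < r) (hr2 : r ≤ 1 / 2) : J v x₀ r ≤ Real.sqrt (∫ z, P 2 z)
    * (Real.sqrt (27 * Y) / (r * Real.sqrt r)) := by
  have hY0 : 0 ≤ Y := le_trans (integral_nonneg fun x => gsq_nonneg v x) hY
  refine (J_le hv r).trans (mul_le_mul_of_nonneg_left ?_ (Real.sqrt_nonneg _))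
  refine (Real.sqrt_le_sqrt (q_le hv hp hY hr hr2)).trans (le_of_eq ?_)
  rw [Real.sqrt_div (by positivity)]
  congr 1
  rw [show r ^ 3 = r ^ 2 * r by ring, Real.sqrt_mul (sq_nonneg r), Real.sqrt_sq hr.le]

end

end Pool.Agent.W786.One
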