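import Pool.Agent.W786.One2

/-!
# The one-sided bound of the stretching rate
-/

open MeasureTheory Set Filter
open scoped ENNReal NNReal Topology

namespace Pool.Agent.W786.One

open Pool.Agent.H708R2.EulerSign Pool.Agent.H708R2.EulerTypeI Pool.Agent.W786.Dir
open H459R3.NS (cube pd SP Per)

/-- The twist of the vorticity at `x + y` relative to a unit vector `e`:
`(y · e) (ω(x + y) · (e × y))`. -/
noncomputable def twistE (v : V → V) (e x y : V) : ℝ := (y ⬝ᵥ e) * (vort v (x + y) ⬝ᵥ cross e y)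

lemma f1_mono {r s : ℝ} (hr : 0 ≤ r) (hrs : r ≤ s) (hs : s ≤ 1) :
    2 * r - r * Real.log r ≤ 2 * s - s * Real.log s := by
  rcases hr.eq_or_lt with h | h
  · rw [← h]
    have h1 : s * Real.log s ≤ 0 := by
      rcases (hr.trans hrs).eq_or_lt with h2 | h2
      · rw [← h2]; simp
      · exact mul_nonpos_of_nonneg_of_nonpos h2.le (Real.log_nonpos h2.le hs)
    have h2 : 0 ≤ s := hr.trans hrs
    simp only [mul_zero, zero_mul, sub_zero]
    linarith
  · have hs0 : 0 < s := h.trans_le hrs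
    have h1 : Real.log s ≤ 0 := Real.log_nonpos hs0.le hs
    have h2 : Real.log s - Real.log r ≤ s / r - 1 := by
      rw [← Real.log_div hs0.ne' h.ne']
      exact Real.log_le_sub_one_of_pos (by positivity)
    have h3 : r * (Real.log s - Real.log r) ≤ s - r := by
      have := mul_le_mul_of_nonneg_left h2 h.le
      refine this.trans (le_of_eq ?_)
      field_simp
    have h4 : (s - r) * Real.log s ≤ 0 := mul_nonpos_of_nonneg_of_nonpos (by linarith) h1
    nlinarith

lemma f2_mono {r s : ℝ} (_hr : 0 ≤ r) (hrs : r ≤ s) (hs : s ≤ 1) :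
    6 * Real.sqrt r - 4 * (Real.sqrt r * Real.log (Real.sqrt r))
      ≤ 6 * Real.sqrt s - 4 * (Real.sqrt s * Real.log (Real.sqrt s)) := by
  have h1 := Real.sqrt_nonneg r
  have h2 := Real.sqrt_le_sqrt hrs
  have h3 : Real.sqrt s ≤ 1 := Real.sqrt_le_one.2 hs
  rcases h1.eq_or_lt with h | h
  · rw [← h]
    have h4 : Real.sqrt s * Real.log (Real.sqrt s) ≤ 0 := by
      rcases (h1.trans h2).eq_or_lt with h5 | h5
      · rw [← h5]; simp
      · exact mul_nonpos_of_nonneg_of_nonpos h5.le (Real.log_nonpos h5.le h3)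
    have h5 := h1.trans h2
    simp only [mul_zero, zero_mul, sub_zero]
    linarith
  · set a := Real.sqrt r
    set b := Real.sqrt s
    have hb : 0 < b := h.trans_le h2
    have h4 : Real.log b ≤ 0 := Real.log_nonpos hb.le h3
    have h5 : Real.log b - Real.log a ≤ b / a - 1 := by
      rw [← Real.log_div hb.ne' h.ne']
      exact Real.log_le_sub_one_of_pos (by positivity)
    have h6 : a * (Real.log b - Real.log a) ≤ b - a := by
      have := mul_le_mul_of_nonneg_left h5 h.le
      refine this.trans (le_of_eq ?_)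
      field_simp
    have h7 : (b - a) * Real.log b ≤ 0 := mul_nonpos_of_nonneg_of_nonpos (by linarith) h4
    nlinarith

lemma cube_log_le {s r : ℝ} (hs : 0 < s) (hs1 : s < 1) (hr : 0 < r) (hr1 : r ≤ 1) :
    s ^ 3 * (1 - Real.log (r * s)) ≤ 1 - Real.log r := by
  rw [Real.log_mul hr.ne' hs.ne']
  have h1 : 0 ≤ -Real.log r := neg_nonneg.2 (Real.log_nonpos hr.le hr1)
  have h2 : 0 ≤ -Real.log s := neg_nonneg.2 (Real.log_nonpos hs.le hs1.le)
  have h3 : s * (1 - Real.log s) ≤ 1 := by
    have h4 := Real.one_sub_inv_le_log_of_pos hs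
    have h5 : s * (1 - s⁻¹) ≤ s * Real.log s := mul_le_mul_of_nonneg_left h4 hs.le
    have h6 : s * (1 - s⁻¹) = s - 1 := by field_simp
    nlinarith
  have h4 : s ^ 2 ≤ 1 := by nlinarith
  have h5 : 1 - (Real.log r + Real.log s) ≤ (1 - Real.log r) * (1 - Real.log s) := by nlinarith
  calc s ^ 3 * (1 - (Real.log r + Real.log s))
      ≤ s ^ 3 * ((1 - Real.log r) * (1 - Real.log s)) :=
        mul_le_mul_of_nonneg_left h5 (by positivity)
    _ = s ^ 2 * ((s * (1 - Real.log s)) * (1 - Real.log r)) := by ring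
    _ ≤ 1 * (1 * (1 - Real.log r)) := by
        have h6 : 0 ≤ 1 - Real.log r := by linarith
        have h7 : 0 ≤ s * (1 - Real.log s) := mul_nonneg hs.le (by linarith)
        gcongr
    _ = 1 - Real.log r := by ring

lemma cross_smul_right (e z : V) (r : ℝ) : cross e (r • z) = r • cross e z := by
  ext i
  fin_cases i <;> simp [cross] <;> ring

lemma cross_swap (e z : V) : cross z e = -cross e z := by
  ext i
  fin_cases i <;> simp [cross] <;> ring

section

variable {v : V → V} (hv : ContDiff ℝ 2 v) (hdiv : ∀ x, divergence v x = 0) (hp : Per v)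
  {Y Z E : ℝ} (hY : ∫ x in cube, gsq v x ≤ Y) (hZ : ∫ x in cube, hsq v x ≤ Z)
  (hE : ∫ x in cube, (∑ i, v x i ^ 2) ≤ E) {e x₀ : V} (he : nrm e = 1) {K ρ : ℝ} (hK : 0 ≤ K)
  (hρ : 0 < ρ) (hρ2 : ρ ≤ 1 / 2)
  (htw : ∀ y, nrm y < ρ → twistE v e x₀ y
    ≤ K * nrm y ^ 3 * (1 - Real.log (nrm y)) * gr v (x₀ + y))

/-- The averages of the stretching rate. -/
noncomputable def Av (v : V → V) (e x₀ : V) (r : ℝ) : ℝ := ∫ z, P 3 z * rate v e (x₀ + r • z)

include hv in
lemma Av_deriv (r : ℝ) : HasDerivAt (Av v e x₀)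
    (∫ z, P 3 z * fderiv ℝ (rate v e) (x₀ + r • z) z) r :=
  param_deriv (P_cont 3) (P_supp 2) (rate_contDiff hv e) x₀ r

include hv hdiv hK hρ2 htw in
lemma dA_ge {r : ℝ} (hr : 0 < r) (hrρ : r ≤ ρ) :
    -(6 * K * (1 - Real.log r) * J v x₀ r)
      ≤ ∫ z, P 3 z * fderiv ℝ (rate v e) (x₀ + r • z) z := by
  have hr1 : r ≤ 1 := by linarith
  have hL : 0 ≤ 1 - Real.log r := by
    have := Real.log_nonpos hr.le hr1
    linarith
  have h1 := rate_formula hv hdiv e x₀ r
  have iJ : Integrable fun z => P 2 z * gr v (x₀ + r • z) :=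
    ((P_cont 2).mul ((gr_cont hv).comp (by fun_prop))).integrable_of_hasCompactSupport
      (P_supp 1).mul_right
  have ccr : Continuous fun z : V => vort v (x₀ + r • z) ⬝ᵥ cross z e := by
    have c1 : Continuous fun z : V => vort v (x₀ + r • z) := (vort_cont hv).comp (by fun_prop)
    have c2 : Continuous fun z : V => cross z e := by
      unfold cross
      refine continuous_pi fun i => ?_
      fin_cases i <;> simp <;> fun_prop
    simp only [dotProduct]
    exact continuous_finsetSum _ fun i _ =>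
      ((continuous_apply i).comp c1).mul ((continuous_apply i).comp c2)
  have iF : Integrable fun z => (z ⬝ᵥ e) * P 2 z * (vort v (x₀ + r • z) ⬝ᵥ cross z e) := by
    have c3 : Continuous fun z : V => z ⬝ᵥ e := by
      simp only [dotProduct]
      fun_prop
    exact ((c3.mul (P_cont 2)).mul ccr).integrable_of_hasCompactSupport
      ((P_supp 1).mul_left).mul_right
  have h2 : -(K * r * (1 - Real.log r) * J v x₀ r)
      ≤ ∫ z, (z ⬝ᵥ e) * P 2 z * (vort v (x₀ + r • z) ⬝ᵥ cross z e) := by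
    unfold J
    rw [← integral_const_mul, ← integral_neg]
    refine integral_mono ((iJ.const_mul _).neg) iF fun z => ?_
    show -(K * r * (1 - Real.log r) * (P 2 z * gr v (x₀ + r • z)))
      ≤ (z ⬝ᵥ e) * P 2 z * (vort v (x₀ + r • z) ⬝ᵥ cross z e)
    have hp2 := P_nonneg 2 z
    have hg := gr_nonneg v (x₀ + r • z)
    rcases lt_or_ge (z ⬝ᵥ z) 1 with hz | hz
    · have hz1 := nrm_lt_one hz
      have hn := nrm_nonneg z
      have hy : nrm (r • z) = r * nrm z := by rw [nrm_smul, abs_of_pos hr]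
      have h3 := htw (r • z) (by
        rw [hy]
        calc r * nrm z < r * 1 := mul_lt_mul_of_pos_left hz1 hr
          _ ≤ ρ := by linarith)
      have h4 : twistE v e x₀ (r • z)
          = -(r ^ 2 * ((z ⬝ᵥ e) * (vort v (x₀ + r • z) ⬝ᵥ cross z e))) := by
        unfold twistE
        rw [cross_smul_right, smul_dotProduct, dotProduct_smul, cross_swap e z,
          dotProduct_neg]
        simp only [smul_eq_mul]
        ring
      rw [h4, hy] at h3
      have h5 : (r * nrm z) ^ 3 * (1 - Real.log (r * nrm z)) ≤ r ^ 3 * (1 - Real.log r) := by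
        rcases hn.eq_or_lt with h0 | h0
        · rw [← h0]
          simp only [mul_zero, Real.log_zero, sub_zero, mul_one]
          rw [zero_pow (by norm_num)]
          positivity
        · have := cube_log_le h0 hz1 hr hr1
          calc (r * nrm z) ^ 3 * (1 - Real.log (r * nrm z))
              = r ^ 3 * (nrm z ^ 3 * (1 - Real.log (r * nrm z))) := by ring
            _ ≤ r ^ 3 * (1 - Real.log r) := mul_le_mul_of_nonneg_left this (by positivity)
      have h6 : -(r ^ 2 * ((z ⬝ᵥ e) * (vort v (x₀ + r • z) ⬝ᵥ cross z e)))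
          ≤ r ^ 2 * (K * r * (1 - Real.log r) * gr v (x₀ + r • z)) := by
        refine h3.trans ?_
        calc K * (r * nrm z) ^ 3 * (1 - Real.log (r * nrm z)) * gr v (x₀ + r • z)
            = K * ((r * nrm z) ^ 3 * (1 - Real.log (r * nrm z))) * gr v (x₀ + r • z) := by ring
          _ ≤ K * (r ^ 3 * (1 - Real.log r)) * gr v (x₀ + r • z) := by gcongr
          _ = _ := by ring
      have h7 : -((z ⬝ᵥ e) * (vort v (x₀ + r • z) ⬝ᵥ cross z e))
          ≤ K * r * (1 - Real.log r) * gr v (x₀ + r • z) := by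
        have h8 : r ^ 2 * -((z ⬝ᵥ e) * (vort v (x₀ + r • z) ⬝ᵥ cross z e))
            ≤ r ^ 2 * (K * r * (1 - Real.log r) * gr v (x₀ + r • z)) := by linarith
        exact le_of_mul_le_mul_left h8 (by positivity)
      nlinarith [mul_le_mul_of_nonneg_left h7 hp2]
    · have e2 : P 2 z = 0 := P_zero_of hz
      rw [e2]
      simp
  have h3 : r * -(6 * K * (1 - Real.log r) * J v x₀ r)
      ≤ r * ∫ z, P 3 z * fderiv ℝ (rate v e) (x₀ + r • z) z := by
    rw [h1]
    linarith
  exact le_of_mul_le_mul_left h3 hr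

include hv hdiv hp hY hZ hK hρ2 htw in
/-- small radii -/
lemma Av_zero_le {s : ℝ} (hs : 0 ≤ s) (hsρ : s ≤ ρ) :
    Av v e x₀ 0 ≤ Av v e x₀ s + 6 * K * Real.sqrt (∫ z, P 2 z)
      * (Real.sqrt (216 * Y) * (2 * s - s * Real.log s)
        + 2 * Real.sqrt (27 * Z) * (6 * Real.sqrt s
          - 4 * (Real.sqrt s * Real.log (Real.sqrt s)))) := by
  set c2 := Real.sqrt (∫ z, P 2 z) with hc2
  set B : ℝ → ℝ := fun s => Av v e x₀ s + 6 * K * c2
      * (Real.sqrt (216 * Y) * (2 * s - s * Real.log s)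
        + 2 * Real.sqrt (27 * Z) * (6 * Real.sqrt s
          - 4 * (Real.sqrt s * Real.log (Real.sqrt s)))) with hB
  have hBd : ∀ t : ℝ, 0 < t → t ≤ ρ → ∃ d, 0 ≤ d ∧ HasDerivAt B d t := by
    intro t ht htρ
    have ht2 : t ≤ 1 / 2 := htρ.trans hρ2
    have hst := Real.sqrt_pos.2 ht
    have d1 : HasDerivAt (fun s : ℝ => 2 * s - s * Real.log s) (1 - Real.log t) t := by
      have := ((hasDerivAt_id t).const_mul 2).sub (Real.hasDerivAt_mul_log ht.ne')
      refine this.congr_deriv ?_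
      ring
    have d2 : HasDerivAt (fun s : ℝ => 6 * Real.sqrt s
        - 4 * (Real.sqrt s * Real.log (Real.sqrt s)))
        ((1 - Real.log t) * (Real.sqrt t)⁻¹) t := by
      have e1 := Real.hasDerivAt_sqrt ht.ne'
      have e2 : HasDerivAt (fun s : ℝ => Real.sqrt s * Real.log (Real.sqrt s))
          ((Real.log (Real.sqrt t) + 1) * (1 / (2 * Real.sqrt t))) t :=
        (Real.hasDerivAt_mul_log hst.ne').comp t e1
      refine ((e1.const_mul 6).sub (e2.const_mul 4)).congr_deriv ?_
      rw [Real.log_sqrt ht.le]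
      field_simp
      ring
    have h1 : HasDerivAt B _ t := (Av_deriv hv t).add
      (((d1.const_mul (Real.sqrt (216 * Y))).add (d2.const_mul (2 * Real.sqrt (27 * Z)))).const_mul
        (6 * K * c2))
    refine ⟨_, ?_, h1⟩
    have h2 := dA_ge hv hdiv hK hρ2 htw ht htρ
    have h3 := J_le_one (x₀ := x₀) hv hp hY hZ ht ht2
    have hL : 0 ≤ 1 - Real.log t := by
      have := Real.log_nonpos ht.le (by linarith : t ≤ 1)
      linarith
    have h4 : 6 * K * (1 - Real.log t) * J v x₀ t ≤ 6 * K * (1 - Real.log t)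
        * (c2 * (Real.sqrt (216 * Y) + 2 * Real.sqrt (27 * Z) * (Real.sqrt t)⁻¹)) := by gcongr
    have h5 : 6 * K * c2 * (Real.sqrt (216 * Y) * (1 - Real.log t)
          + 2 * Real.sqrt (27 * Z) * ((1 - Real.log t) * (Real.sqrt t)⁻¹))
        = 6 * K * (1 - Real.log t)
        * (c2 * (Real.sqrt (216 * Y) + 2 * Real.sqrt (27 * Z) * (Real.sqrt t)⁻¹)) := by ring
    rw [h5]
    linarith
  have hBc : ContinuousOn B (Icc 0 s) := by
    have c1 : Continuous (Av v e x₀) :=
      continuous_iff_continuousAt.2 fun t => (Av_deriv hv t).continuousAt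
    have c2' : Continuous fun s : ℝ => s * Real.log s := Real.continuous_mul_log
    have c3 : Continuous fun s : ℝ => Real.sqrt s * Real.log (Real.sqrt s) :=
      c2'.comp Real.continuous_sqrt
    have : Continuous B := by
      simp only [hB]
      fun_prop
    exact this.continuousOn
  have hmono : MonotoneOn B (Icc 0 s) := by
    refine monotoneOn_of_deriv_nonneg (convex_Icc _ _) hBc (fun t ht => ?_) (fun t ht => ?_)
    · rw [interior_Icc] at ht
      obtain ⟨d, -, hd'⟩ := hBd t ht.1 (ht.2.le.trans hsρ)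
      exact hd'.differentiableAt.differentiableWithinAt
    · rw [interior_Icc] at ht
      obtain ⟨d, hd0, hd'⟩ := hBd t ht.1 (ht.2.le.trans hsρ)
      rw [hd'.deriv]
      exact hd0
  have h6 := hmono ⟨le_rfl, hs⟩ ⟨hs, le_rfl⟩ hs
  have h7 : B 0 = Av v e x₀ 0 := by simp [hB]
  rw [h7] at h6
  exact h6

include hv hdiv hp hY hK hρ2 htw in
/-- large radii -/
lemma Av_le_large {s : ℝ} (hs : 0 < s) (hsρ : s ≤ ρ) :
    Av v e x₀ s ≤ Av v e x₀ ρ + 12 * K * (1 - Real.log s) * Real.sqrt (∫ z, P 2 z)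
      * Real.sqrt (27 * Y) * (Real.sqrt s)⁻¹ := by
  set c2 := Real.sqrt (∫ z, P 2 z) with hc2
  have hL : 0 ≤ 1 - Real.log s := by
    have := Real.log_nonpos hs.le (by linarith : s ≤ 1)
    linarith
  have hρ0 : 0 < ρ := hs.trans_le hsρ
  set B : ℝ → ℝ := fun t => Av v e x₀ t
    - 12 * K * (1 - Real.log s) * c2 * Real.sqrt (27 * Y) * (Real.sqrt t)⁻¹ with hB
  have hBd : ∀ t ∈ Icc s ρ, ∃ d, 0 ≤ d ∧ HasDerivAt B d t := by
    intro t ht
    have ht0 : 0 < t := hs.trans_le ht.1
    have hst := Real.sqrt_pos.2 ht0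
    have h1 : HasDerivAt B _ t := (Av_deriv hv t).sub ((inv_sqrt_deriv ht0).const_mul
      (12 * K * (1 - Real.log s) * c2 * Real.sqrt (27 * Y)))
    refine ⟨_, ?_, h1⟩
    have h2 := dA_ge hv hdiv hK hρ2 htw ht0 ht.2
    have h3 := J_le_two (x₀ := x₀) hv hp hY ht0 (ht.2.trans hρ2)
    have hL1 : 1 - Real.log t ≤ 1 - Real.log s := by
      have := Real.log_le_log hs ht.1
      linarith
    have hL0 : 0 ≤ 1 - Real.log t := by
      have := Real.log_nonpos ht0.le (by linarith [ht.2] : t ≤ 1)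
      linarith
    have hJ0 : 0 ≤ J v x₀ t := integral_nonneg fun z => mul_nonneg (P_nonneg _ _) (gr_nonneg _ _)
    have h4 : 6 * K * (1 - Real.log t) * J v x₀ t ≤ 6 * K * (1 - Real.log s)
        * (c2 * (Real.sqrt (27 * Y) / (t * Real.sqrt t))) := by gcongr
    have h5 : 12 * K * (1 - Real.log s) * c2 * Real.sqrt (27 * Y) * -(1 / (2 * (t * Real.sqrt t)))
        = -(6 * K * (1 - Real.log s) * (c2 * (Real.sqrt (27 * Y) / (t * Real.sqrt t)))) := by
      field_simp
      ring
    rw [h5]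
    linarith
  have hmono : MonotoneOn B (Icc s ρ) := by
    refine monotoneOn_of_deriv_nonneg (convex_Icc _ _) (fun t ht => ?_) (fun t ht => ?_)
      (fun t ht => ?_)
    · obtain ⟨d, -, hd'⟩ := hBd t ht
      exact hd'.continuousAt.continuousWithinAt
    · obtain ⟨d, -, hd'⟩ := hBd t (interior_subset ht)
      exact hd'.differentiableAt.differentiableWithinAt
    · obtain ⟨d, hd0, hd'⟩ := hBd t (interior_subset ht)
      rw [hd'.deriv]
      exact hd0
  have h6 := hmono ⟨le_rfl, hsρ⟩ ⟨hsρ, le_rfl⟩ hsρ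
  simp only [hB] at h6
  have h9 : 0 ≤ 12 * K * (1 - Real.log s) * c2 * Real.sqrt (27 * Y) * (Real.sqrt ρ)⁻¹ := by
    positivity
  linarith

end

end Pool.Agent.W786.One
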