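import Pool.Agent.W786.One3

/-!
# The one-sided bound of the stretching rate in terms of energy, enstrophy and palinstrophy
-/

open MeasureTheory Set Filter
open scoped ENNReal NNReal Topology

namespace Pool.Agent.W786.One

open Pool.Agent.H708R2.EulerSign Pool.Agent.H708R2.EulerTypeI Pool.Agent.W786.Dir
open H459R3.NS (cube pd SP Per)

/-- `|v|²` -/
noncomputable def vsq (v : V → V) (x : V) : ℝ := ∑ i, v x i ^ 2

lemma vsq_nonneg (v : V → V) (x : V) : 0 ≤ vsq v x := Finset.sum_nonneg fun _ _ => sq_nonneg _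

lemma vsq_eq (v : V → V) (x : V) : vsq v x = nrm (v x) ^ 2 := by
  rw [nrm_sq]
  unfold vsq
  simp only [dotProduct, sq]

/-- The absolute constant. -/
noncomputable def Ca : ℝ := 432 * Real.sqrt (∫ z, P 2 z) / ∫ z, P 3 z

lemma Ca_nonneg : 0 ≤ Ca := by
  unfold Ca
  have h1 := P_int_pos 2
  exact div_nonneg (by positivity) h1.le

section

variable {v : V → V} (hv : ContDiff ℝ 2 v) (hdiv : ∀ x, divergence v x = 0) (hp : Per v)
  {Y Z E : ℝ} (hY : ∫ x in cube, gsq v x ≤ Y) (hZ : ∫ x in cube, hsq v x ≤ Z)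
  (hE : ∫ x in cube, vsq v x ≤ E) {e x₀ : V} (he : nrm e = 1) {K ρ : ℝ} (hK : 0 ≤ K)
  (hρ : 0 < ρ) (hρ2 : ρ ≤ 1 / 2)
  (htw : ∀ y, nrm y < ρ → twistE v e x₀ y
    ≤ K * nrm y ^ 3 * (1 - Real.log (nrm y)) * gr v (x₀ + y))

include hv hp hE he hρ hρ2 in
lemma Av_rho : Av v e x₀ ρ
    ≤ 6 * Real.sqrt (∫ z, P 2 z) * Real.sqrt (27 * E) / (ρ * (ρ * Real.sqrt ρ)) := by
  have hvj : ∀ j, ContDiff ℝ 1 fun y => v y j := fun j =>
    (contDiff_pi.1 hv j).of_le (by norm_num)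
  set w : V → ℝ := fun y => ∑ j, e j * v y j with hw
  have cw : ContDiff ℝ 1 w := ContDiff.sum fun j _ => contDiff_const.mul (hvj j)
  set δ : V → ℝ := fun z => w (x₀ + ρ • z) with hδ
  have cδ : ContDiff ℝ 1 δ := comp_aff cw x₀ ρ
  have dδ : ∀ z, fderiv ℝ δ z e = ρ * rate v e (x₀ + ρ • z) := by
    intro z
    rw [fderiv_comp_aff cw, smul_eq_mul]
    congr 1
    have h2 : HasFDerivAt v (fderiv ℝ v (x₀ + ρ • z)) (x₀ + ρ • z) :=
      ((hv.differentiable two_ne_zero) _).hasFDerivAt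
    have h3 : HasFDerivAt w (∑ j, e j • ((ContinuousLinearMap.proj j : V →L[ℝ] ℝ) ∘L
        fderiv ℝ v (x₀ + ρ • z))) (x₀ + ρ • z) :=
      HasFDerivAt.fun_sum fun j _ => (hasFDerivAt_pi'.1 h2 j).const_mul (e j)
    rw [h3.fderiv]
    have h4 : fderiv ℝ v (x₀ + ρ • z) e
        = ∑ k, e k • fderiv ℝ v (x₀ + ρ • z) (Pi.single k 1) := by
      conv_lhs => rw [show e = ∑ k, e k • (Pi.single k 1 : V) by
        ext i; simp [Finset.sum_apply, Pi.single_apply]]
      rw [map_sum]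
      simp
    simp only [FunLike.coe_sum, Finset.sum_apply, FunLike.coe_smul, Pi.smul_apply,
      ContinuousLinearMap.comp_apply, smul_eq_mul, h4, rate, dotProduct, Matrix.mulVec, grad,
      Matrix.of_apply]
    refine Finset.sum_congr rfl fun j _ => ?_
    simp [mul_comm]
  have h1 : ρ * Av v e x₀ ρ = -∫ z, fderiv ℝ (P 3) z e * δ z := by
    unfold Av
    rw [← ibp (P_contDiff 1) (P_supp 2) cδ e, ← integral_const_mul]
    refine integral_congr_ae (Eventually.of_forall fun z => ?_)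
    simp only [dδ]
    ring
  have cn : Continuous fun z : V => nrm (v (x₀ + ρ • z)) :=
    nrm_cont.comp (hv.continuous.comp (by fun_prop))
  have h2 : |∫ z, fderiv ℝ (P 3) z e * δ z| ≤ ∫ z, 6 * (P 2 z * (1 * nrm (v (x₀ + ρ • z)))) := by
    rw [← Real.norm_eq_abs]
    refine norm_integral_le_of_norm_le ?_ (Eventually.of_forall fun z => ?_)
    · exact (((P_cont 2).mul (continuous_const.mul cn)).integrable_of_hasCompactSupport
        (P_supp 1).mul_right).const_mul 6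
    rw [Real.norm_eq_abs, abs_mul, show P 3 = P (1 + 2) from rfl, P_fderiv 1 z e]
    rcases lt_or_ge (z ⬝ᵥ z) 1 with hz | hz
    · have hz1 := (nrm_lt_one hz).le
      have b1 : |z ⬝ᵥ e| ≤ 1 := (dot_le _ _).trans (mul_le_one₀ hz1 (nrm_nonneg _) he.le)
      have b2 : |δ z| ≤ nrm (v (x₀ + ρ • z)) := by
        have e1 : δ z = e ⬝ᵥ v (x₀ + ρ • z) := by
          simp only [hδ, hw, dotProduct]
        rw [e1]
        refine (dot_le _ _).trans ?_
        rw [he, one_mul]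
      have e3 : |-2 * (((1 : ℕ) : ℝ) + 2) * P (1 + 1) z * (z ⬝ᵥ e)| = 6 * P 2 z * |z ⬝ᵥ e| := by
        rw [abs_mul, abs_mul, abs_of_nonneg (P_nonneg (1 + 1) z)]
        norm_num
      rw [e3]
      have hp := P_nonneg 2 z
      have hn := nrm_nonneg (v (x₀ + ρ • z))
      calc 6 * P 2 z * |z ⬝ᵥ e| * |δ z| ≤ 6 * P 2 z * 1 * nrm (v (x₀ + ρ • z)) := by gcongr
        _ = _ := by ring
    · have e3 : P (1 + 1) z = 0 := P_zero_of hz
      rw [e3]
      simp
  have h3 := cs (P_cont 2) (P_supp 1) (P_nonneg 2) (continuous_const (y := (1 : ℝ))) cn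
  simp only [one_pow, mul_one, ← vsq_eq] at h3
  have h4 : ∫ z, P 2 z * vsq v (x₀ + ρ • z) ≤ 27 * E / ρ ^ 3 := by
    have hc : Continuous (vsq v) := by
      unfold vsq
      have := hv.continuous
      fun_prop
    have hpv : Per (vsq v) := by
      intro k x
      unfold vsq
      rw [hp k x]
    have h := av_le hc (vsq_nonneg v) hpv 1 x₀ hρ hρ2
    rw [le_div_iff₀ (by positivity), mul_comm]
    exact h.trans (by linarith)
  have hE0 : 0 ≤ E := le_trans (integral_nonneg fun x => vsq_nonneg v x) hE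
  have h5 : Real.sqrt (∫ z, P 2 z * vsq v (x₀ + ρ • z)) ≤ Real.sqrt (27 * E) / (ρ * Real.sqrt ρ) := by
    refine (Real.sqrt_le_sqrt h4).trans (le_of_eq ?_)
    rw [Real.sqrt_div (by positivity)]
    congr 1
    rw [show ρ ^ 3 = ρ ^ 2 * ρ by ring, Real.sqrt_mul (sq_nonneg ρ), Real.sqrt_sq hρ.le]
  rw [integral_const_mul] at h2
  have h6 : ρ * Av v e x₀ ρ ≤ 6 * (Real.sqrt (∫ z, P 2 z)
      * (Real.sqrt (27 * E) / (ρ * Real.sqrt ρ))) := by
    rw [h1]
    refine (neg_le_abs _).trans (h2.trans ?_)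
    refine mul_le_mul_of_nonneg_left (h3.trans ?_) (by norm_num)
    exact mul_le_mul_of_nonneg_left h5 (Real.sqrt_nonneg _)
  have hsρ := Real.sqrt_pos.2 hρ
  rw [le_div_iff₀ (by positivity)]
  have h7 : 6 * (Real.sqrt (∫ z, P 2 z) * (Real.sqrt (27 * E) / (ρ * Real.sqrt ρ)))
      * (ρ * Real.sqrt ρ) = 6 * Real.sqrt (∫ z, P 2 z) * Real.sqrt (27 * E) := by
    field_simp
  rw [← h7]
  calc Av v e x₀ ρ * (ρ * (ρ * Real.sqrt ρ)) = (ρ * Av v e x₀ ρ) * (ρ * Real.sqrt ρ) := by ring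
    _ ≤ _ := mul_le_mul_of_nonneg_right h6 (by positivity)

lemma Av_zero : Av v e x₀ 0 = (∫ z, P 3 z) * rate v e x₀ := by
  unfold Av
  simp only [zero_smul, add_zero]
  rw [integral_mul_const]

include hv hdiv hp hY hZ hE he hK hρ hρ2 htw in
theorem rate_le {σ : ℝ} (hσ : 0 < σ) (hσ2 : σ ≤ 1 / 2) :
    rate v e x₀ ≤ Ca * (K * (1 - Real.log σ) * (Real.sqrt Y * σ + Real.sqrt Z * Real.sqrt σ
      + Real.sqrt Y * (Real.sqrt σ)⁻¹) + Real.sqrt E / (ρ * (ρ * Real.sqrt ρ))) := by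
  have hY0 : 0 ≤ Y := le_trans (integral_nonneg fun x => gsq_nonneg v x) hY
  have hZ0 : 0 ≤ Z := le_trans (integral_nonneg fun x => hsq_nonneg v x) hZ
  have hE0 : 0 ≤ E := le_trans (integral_nonneg fun x => vsq_nonneg v x) hE
  set c2 := Real.sqrt (∫ z, P 2 z) with hc2
  have hc20 : 0 ≤ c2 := Real.sqrt_nonneg _
  have hlogσ : Real.log σ ≤ 0 := Real.log_nonpos hσ.le (by linarith)
  have hL : 0 ≤ 1 - Real.log σ := by linarith
  have hsσ := Real.sqrt_pos.2 hσ
  have hsρ := Real.sqrt_pos.2 hρ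
  have q216 : Real.sqrt (216 * Y) ≤ 15 * Real.sqrt Y := by
    rw [Real.sqrt_mul (by norm_num)]
    refine mul_le_mul_of_nonneg_right ?_ (Real.sqrt_nonneg _)
    rw [Real.sqrt_le_left (by norm_num)]
    norm_num
  have q27 : ∀ X : ℝ, Real.sqrt (27 * X) ≤ 6 * Real.sqrt X := by
    intro X
    rw [Real.sqrt_mul (by norm_num)]
    refine mul_le_mul_of_nonneg_right ?_ (Real.sqrt_nonneg _)
    rw [Real.sqrt_le_left (by norm_num)]
    norm_num
  set F1 := 2 * σ - σ * Real.log σ with hF1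
  set F2 := 6 * Real.sqrt σ - 4 * (Real.sqrt σ * Real.log (Real.sqrt σ)) with hF2
  have key : Av v e x₀ 0 ≤ 6 * c2 * Real.sqrt (27 * E) / (ρ * (ρ * Real.sqrt ρ))
      + 6 * K * c2 * (Real.sqrt (216 * Y) * F1 + 2 * Real.sqrt (27 * Z) * F2)
      + 12 * K * (1 - Real.log σ) * c2 * Real.sqrt (27 * Y) * (Real.sqrt σ)⁻¹ := by
    have hA := Av_rho (x₀ := x₀) hv hp hE he hρ hρ2
    rcases le_total σ ρ with h | h
    · have h1 := Av_zero_le hv hdiv hp hY hZ hK hρ2 htw hσ.le h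
      have h2 := Av_le_large hv hdiv hp hY hK hρ2 htw hσ h
      linarith
    · have h1 := Av_zero_le hv hdiv hp hY hZ hK hρ2 htw hρ.le le_rfl
      have h3 := f1_mono hρ.le h (by linarith)
      have h4 := f2_mono hρ.le h (by linarith)
      have h5 : 6 * K * c2 * (Real.sqrt (216 * Y) * (2 * ρ - ρ * Real.log ρ)
          + 2 * Real.sqrt (27 * Z) * (6 * Real.sqrt ρ
            - 4 * (Real.sqrt ρ * Real.log (Real.sqrt ρ))))
          ≤ 6 * K * c2 * (Real.sqrt (216 * Y) * F1 + 2 * Real.sqrt (27 * Z) * F2) := by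
        gcongr
      have h6 : 0 ≤ 12 * K * (1 - Real.log σ) * c2 * Real.sqrt (27 * Y) * (Real.sqrt σ)⁻¹ := by
        positivity
      linarith
  have b1 : F1 ≤ 2 * σ * (1 - Real.log σ) := by
    have := mul_nonneg hσ.le (neg_nonneg.2 hlogσ)
    rw [hF1]
    nlinarith
  have b2 : F2 ≤ 6 * Real.sqrt σ * (1 - Real.log σ) := by
    rw [hF2, Real.log_sqrt hσ.le]
    have := mul_nonneg hsσ.le (neg_nonneg.2 hlogσ)
    nlinarith
  have b10 : 0 ≤ F1 := by
    have := mul_nonneg hσ.le (neg_nonneg.2 hlogσ)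
    rw [hF1]
    nlinarith
  have b20 : 0 ≤ F2 := by
    rw [hF2, Real.log_sqrt hσ.le]
    have := mul_nonneg hsσ.le (neg_nonneg.2 hlogσ)
    nlinarith
  set X := K * (1 - Real.log σ) * (Real.sqrt Y * σ + Real.sqrt Z * Real.sqrt σ
      + Real.sqrt Y * (Real.sqrt σ)⁻¹) + Real.sqrt E / (ρ * (ρ * Real.sqrt ρ)) with hX
  have key2 : Av v e x₀ 0 ≤ 432 * c2 * X := by
    refine key.trans ?_
    have t1 : 6 * c2 * Real.sqrt (27 * E) / (ρ * (ρ * Real.sqrt ρ))
        ≤ 432 * c2 * (Real.sqrt E / (ρ * (ρ * Real.sqrt ρ))) := by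
      rw [← mul_div_assoc]
      refine div_le_div_of_nonneg_right ?_ (by positivity)
      have := q27 E
      have hs := Real.sqrt_nonneg E
      calc 6 * c2 * Real.sqrt (27 * E) ≤ 6 * c2 * (6 * Real.sqrt E) := by gcongr
        _ = 36 * (c2 * Real.sqrt E) := by ring
        _ ≤ 432 * (c2 * Real.sqrt E) := by
            have := mul_nonneg hc20 hs
            linarith
        _ = _ := by ring
    have t2 : 6 * K * c2 * (Real.sqrt (216 * Y) * F1 + 2 * Real.sqrt (27 * Z) * F2)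
        ≤ 432 * c2 * (K * (1 - Real.log σ) * (Real.sqrt Y * σ + Real.sqrt Z * Real.sqrt σ)) := by
      have s1 : Real.sqrt (216 * Y) * F1 ≤ (15 * Real.sqrt Y) * (2 * σ * (1 - Real.log σ)) := by
        gcongr
      have s2 : 2 * Real.sqrt (27 * Z) * F2
          ≤ 2 * (6 * Real.sqrt Z) * (6 * Real.sqrt σ * (1 - Real.log σ)) := by
        have := q27 Z
        gcongr
      have s3 : (15 * Real.sqrt Y) * (2 * σ * (1 - Real.log σ))
          + 2 * (6 * Real.sqrt Z) * (6 * Real.sqrt σ * (1 - Real.log σ))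
          ≤ 72 * ((1 - Real.log σ) * (Real.sqrt Y * σ + Real.sqrt Z * Real.sqrt σ)) := by
        have : 0 ≤ Real.sqrt Y * σ * (1 - Real.log σ) := by positivity
        nlinarith
      calc 6 * K * c2 * (Real.sqrt (216 * Y) * F1 + 2 * Real.sqrt (27 * Z) * F2)
          ≤ 6 * K * c2 * (72 * ((1 - Real.log σ)
            * (Real.sqrt Y * σ + Real.sqrt Z * Real.sqrt σ))) := by
            refine mul_le_mul_of_nonneg_left ?_ (by positivity)
            linarith
        _ = _ := by ring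
    have t3 : 12 * K * (1 - Real.log σ) * c2 * Real.sqrt (27 * Y) * (Real.sqrt σ)⁻¹
        ≤ 432 * c2 * (K * (1 - Real.log σ) * (Real.sqrt Y * (Real.sqrt σ)⁻¹)) := by
      have := q27 Y
      have hs := Real.sqrt_nonneg Y
      calc 12 * K * (1 - Real.log σ) * c2 * Real.sqrt (27 * Y) * (Real.sqrt σ)⁻¹
          ≤ 12 * K * (1 - Real.log σ) * c2 * (6 * Real.sqrt Y) * (Real.sqrt σ)⁻¹ := by gcongr
        _ = 72 * (K * (1 - Real.log σ) * c2 * Real.sqrt Y * (Real.sqrt σ)⁻¹) := by ring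
        _ ≤ 432 * (K * (1 - Real.log σ) * c2 * Real.sqrt Y * (Real.sqrt σ)⁻¹) := by
            have : 0 ≤ K * (1 - Real.log σ) * c2 * Real.sqrt Y * (Real.sqrt σ)⁻¹ := by positivity
            linarith
        _ = _ := by ring
    have e : 432 * c2 * X = 432 * c2 * (Real.sqrt E / (ρ * (ρ * Real.sqrt ρ)))
        + 432 * c2 * (K * (1 - Real.log σ) * (Real.sqrt Y * σ + Real.sqrt Z * Real.sqrt σ))
        + 432 * c2 * (K * (1 - Real.log σ) * (Real.sqrt Y * (Real.sqrt σ)⁻¹)) := by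
      rw [hX]
      ring
    rw [e]
    linarith
  have hP3 := P_int_pos 2
  rw [Av_zero] at key2
  unfold Ca
  rw [div_mul_eq_mul_div, le_div_iff₀ hP3, mul_comm]
  exact key2

end

end Pool.Agent.W786.One
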