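import Pool.Agent.W786.One4
import Pool.Agent.W786.Max1

/-!
# The growth of the vorticity at a maximum point, for the Navier-Stokes equations
-/

open MeasureTheory Set Filter
open scoped ENNReal NNReal Topology ContDiff

namespace Pool.Agent.W786.One

open Pool.Agent.H708R2.EulerSign Pool.Agent.H708R2.EulerTypeI Pool.Agent.W786.Dir
  Pool.Agent.W786.Max
open H459R3.NS hiding V nrm ibp S
open Pool.Agent.W268.NS (SP.sub' pd_sub)

/-- Second derivative test. -/
lemma second_nonpos {φ : ℝ → ℝ} {φ'' : ℝ} (hφ : ∀ s, HasDerivAt φ (deriv φ s) s)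
    (h2 : HasDerivAt (deriv φ) φ'' 0) (hmax : ∀ s, φ s ≤ φ 0) : φ'' ≤ 0 := by
  by_contra hcon
  push Not at hcon
  have hl : IsLocalMax φ 0 := Eventually.of_forall hmax
  have h1 : deriv φ 0 = 0 := hl.deriv_eq_zero
  have h3 : 0 < deriv (deriv φ) 0 := by rw [h2.deriv]; exact hcon
  have h4 : IsLocalMin φ 0 := isLocalMin_of_deriv_deriv_pos h3 h1 (hφ 0).continuousAt
  have h5 : φ =ᶠ[𝓝 0] fun _ => φ 0 := by
    filter_upwards [h4] with s hs
    exact le_antisymm (hmax s) hs
  have h6 : deriv φ =ᶠ[𝓝 0] deriv fun _ => φ 0 := h5.deriv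
  have h7 : deriv (deriv φ) 0 = 0 := by
    rw [h6.deriv_eq]
    simp
  linarith

lemma SP.line {f : V → ℝ} (hf : SP f) (x : V) (j : Fin 3) (s : ℝ) :
    HasDerivAt (fun s : ℝ => f (x + s • (Pi.single j 1 : V)))
      (pd j f (x + s • (Pi.single j 1 : V))) s := by
  have h1 : HasDerivAt (fun s : ℝ => x + s • (Pi.single j 1 : V)) (Pi.single j 1 : V) s := by
    simpa using ((hasDerivAt_id s).smul_const (Pi.single j 1 : V)).const_add x
  exact (hf.diff _).hasFDerivAt.comp_hasDerivAt s h1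

lemma pd_max {f : V → ℝ} (hf : SP f) {x : V} (hx : ∀ y, f y ≤ f x) (j : Fin 3) :
    pd j f x = 0 ∧ pd j (pd j f) x ≤ 0 := by
  set φ : ℝ → ℝ := fun s => f (x + s • (Pi.single j 1 : V)) with hφ
  have hd : ∀ s, HasDerivAt φ (pd j f (x + s • (Pi.single j 1 : V))) s := fun s =>
    SP.line hf x j s
  have hd' : deriv φ = fun s => pd j f (x + s • (Pi.single j 1 : V)) :=
    funext fun s => (hd s).deriv
  have hmax : ∀ s, φ s ≤ φ 0 := by
    intro s
    simp only [hφ, zero_smul, add_zero]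
    exact hx _
  constructor
  · have hl : IsLocalMax φ 0 := Eventually.of_forall hmax
    have h1 := hl.deriv_eq_zero
    rw [hd'] at h1
    simpa using h1
  · have h2 : HasDerivAt (deriv φ) (pd j (pd j f) x) 0 := by
      rw [hd']
      have := SP.line (hf.pd j) x j 0
      simpa using this
    exact second_nonpos (fun s => by rw [(hd s).deriv]; exact hd s) h2 hmax

lemma grad_eq_pd {v : V → V} (hv : ∀ i, SP (fun y => v y i)) (x : V) (i j : Fin 3) :
    grad v x i j = pd j (fun y => v y i) x := by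
  have h : HasFDerivAt v (fderiv ℝ v x) x := by
    have : DifferentiableAt ℝ v x := differentiableAt_pi.2 fun i => (hv i).diff x
    exact this.hasFDerivAt
  unfold pd
  rw [(hasFDerivAt_pi'.1 h i).fderiv]
  rfl

lemma pd_congr {f g : V → ℝ} (h : ∀ x, f x = g x) (j : Fin 3) (x : V) : pd j f x = pd j g x := by
  rw [show f = g from funext h]

lemma pd_const_mul {f : V → ℝ} (hf : SP f) (c : ℝ) (j : Fin 3) (x : V) :
    pd j (fun y => c * f y) x = c * pd j f x := by
  unfold pd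
  rw [((hf.diff x).hasFDerivAt.const_mul c).fderiv]
  rfl

lemma lap_pd {f : V → ℝ} (hf : SP f) (a : Fin 3) (x : V) : lap (pd a f) x = pd a (lap f) x := by
  unfold lap
  rw [pd_sum (fun j _ => (hf.pd j).pd j) a x]
  refine Finset.sum_congr rfl fun j _ => ?_
  rw [pd_comm hf j a, pd_comm (hf.pd j) a j]

/-- A component of the curl. -/
noncomputable def cr (v : V → V) (a b : Fin 3) (x : V) : ℝ :=
  pd a (fun y => v y b) x - pd b (fun y => v y a) x

lemma sp_cr {v : V → V} (hv : ∀ i, SP (fun y => v y i)) (a b : Fin 3) : SP (cr v a b) :=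
  SP.sub' ((hv b).pd a) ((hv a).pd b)

lemma vort_cr {v : V → V} (hv : ∀ i, SP (fun y => v y i)) (x : V) :
    vort v x = ![cr v 1 2 x, cr v 2 0 x, cr v 0 1 x] := by
  unfold vort cr
  simp only [grad_eq_pd hv]

variable {ν T : ℝ} {u : ℝ → V → V} {p : ℝ → V → ℝ}

lemma pd_hasDerivAt (h : IsSol ν T u p) {t : ℝ} (ht : t ∈ Ioo 0 T) (i j : Fin 3) (x : V) :
    HasDerivAt (fun s => pd j (fun y => u s y i) x)
      (pd j (dt (fun s y => u s y i) t) x) t := by
  have hG : ContDiffOn ℝ ∞ (fun z : ℝ × V => pd j (fun y => u z.1 y i) z.2)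
      (Ico 0 T ×ˢ univ) := contDiffOn_pd (f := fun s y => u s y i) (h.smooth_c i) j
  have hG1 : ContDiffOn ℝ 1 (fun z : ℝ × V => pd j (fun y => u z.1 y i) z.2)
      (Ioo 0 T ×ˢ univ) :=
    mono_Ioo (f := fun s x => pd j (fun y => u s y i) x) hG (by norm_cast)
  have h3 := hasDerivAt_slice (F := fun s x => pd j (fun y => u s y i) x) hG1 ht x
  have h4 := dt_pd (f := fun s y => u s y i) (h.smooth_c i) ht j x
  rw [H459R3.NS.dt_eq (f := fun s => pd j (fun y => u s y i)) hG ht x] at h4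
  rwa [h4] at h3

/-- The equation for the components of the curl. -/
lemma cr_deriv (h : IsSol ν T u p) {t : ℝ} (ht : t ∈ Ioo 0 T) (a b : Fin 3) (x : V) :
    HasDerivAt (fun s => cr (u s) a b x)
      (ν * lap (cr (u t) a b) x - ∑ j, u t x j * pd j (cr (u t) a b) x
        - ∑ j, (pd a (fun y => u t y j) x * pd j (fun y => u t y b) x
          - pd b (fun y => u t y j) x * pd j (fun y => u t y a) x)) t := by
  have hI : t ∈ Ico 0 T := ⟨ht.1.le, ht.2⟩
  have hsp : ∀ i, SP (fun y => u t y i) := fun i => h.sp hI i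
  have h1 := (pd_hasDerivAt h ht b a x).sub (pd_hasDerivAt h ht a b x)
  refine h1.congr_deriv ?_
  have key : ∀ a b : Fin 3, pd a (dt (fun s y => u s y b) t) x
      = ν * pd a (lap (fun y => u t y b)) x
        - (∑ j, u t x j * pd a (pd j (fun y => u t y b)) x
          + ∑ j, pd a (fun y => u t y j) x * pd j (fun y => u t y b) x)
        - pd a (pd b (p t)) x := by
    intro a b
    have e1 : ∀ y, dt (fun s y => u s y b) t y
        = (ν * lap (fun y => u t y b) y - conv (fun i y => u t y i) b y) - pd b (p t) y :=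
      fun y => h.dt_eq ht b y
    have s1 : SP (fun y => ν * lap (fun y => u t y b) y) :=
      (⟨contDiff_const, fun _ _ => rfl⟩ : SP (fun _ : V => ν)).mul (hsp b).lap
    have s2 : SP (conv (fun i y => u t y i) b) := sp_conv (v := fun i y => u t y i) hsp b
    rw [pd_congr e1, pd_sub (SP.sub' s1 s2) ((h.sp_p hI).pd b), pd_sub s1 s2,
      pd_const_mul (hsp b).lap]
    congr 2
    unfold conv
    rw [pd_sum (fun j _ => (hsp j).mul ((hsp b).pd j)) a x, ← Finset.sum_add_distrib]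
    refine Finset.sum_congr rfl fun j _ => ?_
    rw [pd_mul (hsp j) ((hsp b).pd j)]
  rw [key a b, key b a]
  have e2 : lap (cr (u t) a b) x
      = pd a (lap (fun y => u t y b)) x - pd b (lap (fun y => u t y a)) x := by
    rw [← lap_pd (hsp b), ← lap_pd (hsp a)]
    unfold lap
    rw [← Finset.sum_sub_distrib]
    refine Finset.sum_congr rfl fun j _ => ?_
    have e3 : pd j (cr (u t) a b) = fun y => pd j (pd a (fun y => u t y b)) y
        - pd j (pd b (fun y => u t y a)) y := by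
      funext y
      exact pd_sub ((hsp b).pd a) ((hsp a).pd b) j y
    rw [e3, pd_sub (((hsp b).pd a).pd j) (((hsp a).pd b).pd j)]
  have e4 : ∀ j, pd j (cr (u t) a b) x
      = pd a (pd j (fun y => u t y b)) x - pd b (pd j (fun y => u t y a)) x := by
    intro j
    have := pd_sub ((hsp b).pd a) ((hsp a).pd b) j x
    have e5 : pd j (cr (u t) a b) x = _ := this
    rw [e5, pd_comm (hsp b) j a, pd_comm (hsp a) j b]
  have e6 : pd a (pd b (p t)) x = pd b (pd a (p t)) x := by
    rw [pd_comm (h.sp_p hI) a b]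
  rw [e2, e6]
  simp only [e4, Fin.sum_univ_three]
  ring

/-- The growth of the square of the vorticity at a maximum point. -/
lemma Wq_deriv (h : IsSol ν T u p) (hν : 0 ≤ ν) {t : ℝ} (ht : t ∈ Ioo 0 T) {x : V}
    (hx : IsMaxPt u t x) : ∃ d, HasDerivAt (fun s => Wq u s x) d t ∧
      d ≤ 2 * (vort (u t) x ⬝ᵥ (grad (u t) x).mulVec (vort (u t) x)) := by
  have hI : t ∈ Ico 0 T := ⟨ht.1.le, ht.2⟩
  have hsp : ∀ i, SP (fun y => u t y i) := fun i => h.sp hI i
  obtain ⟨b, hb1, hb2⟩ := exists_between ht.2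
  have hW : ∀ s ∈ Ico 0 T, ∀ y, Wq u s y
      = cr (u s) 1 2 y * cr (u s) 1 2 y + cr (u s) 2 0 y * cr (u s) 2 0 y
        + cr (u s) 0 1 y * cr (u s) 0 1 y := by
    intro s hs y
    unfold Wq
    rw [vort_cr (fun i => h.sp hs i)]
    simp [dotProduct, Fin.sum_univ_three]
  set c0 := cr (u t) 1 2 with hc0
  set c1 := cr (u t) 2 0 with hc1
  set c2 := cr (u t) 0 1 with hc2
  have s0 : SP c0 := sp_cr hsp 1 2
  have s1 : SP c1 := sp_cr hsp 2 0
  have s2 : SP c2 := sp_cr hsp 0 1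
  have d0 := cr_deriv h ht 1 2 x
  have d1 := cr_deriv h ht 2 0 x
  have d2 := cr_deriv h ht 0 1 x
  have hd := ((d0.mul d0).add (d1.mul d1)).add (d2.mul d2)
  have hd' : HasDerivAt (fun s => Wq u s x) _ t := hd.congr_of_eventuallyEq (by
    filter_upwards [Ioo_mem_nhds ht.1 ht.2] with s hs
    exact hW s ⟨hs.1.le, hs.2⟩ x)
  refine ⟨_, hd', ?_⟩
  -- the maximum
  have sW : SP (fun y => c0 y * c0 y + c1 y * c1 y + c2 y * c2 y) :=
    ((s0.mul s0).add (s1.mul s1)).add (s2.mul s2)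
  have hmax : ∀ y, c0 y * c0 y + c1 y * c1 y + c2 y * c2 y
      ≤ c0 x * c0 x + c1 x * c1 x + c2 x * c2 x := by
    intro y
    rw [← hW t hI y, ← hW t hI x, Wq_eq, Wq_eq]
    have := hx y
    have := nrm_nonneg (vort (u t) y)
    gcongr
  have pdW : ∀ j y, pd j (fun y => c0 y * c0 y + c1 y * c1 y + c2 y * c2 y) y
      = 2 * (c0 y * pd j c0 y + c1 y * pd j c1 y + c2 y * pd j c2 y) := by
    intro j y
    unfold pd
    have h1 := (((s0.diff y).hasFDerivAt.mul (s0.diff y).hasFDerivAt).add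
      ((s1.diff y).hasFDerivAt.mul (s1.diff y).hasFDerivAt)).add
      ((s2.diff y).hasFDerivAt.mul (s2.diff y).hasFDerivAt)
    have h2 : HasFDerivAt (fun y => c0 y * c0 y + c1 y * c1 y + c2 y * c2 y) _ y := h1
    rw [h2.fderiv]
    simp
    ring
  have pdW2 : ∀ j y, pd j (pd j (fun y => c0 y * c0 y + c1 y * c1 y + c2 y * c2 y)) y
      = 2 * (pd j c0 y ^ 2 + pd j c1 y ^ 2 + pd j c2 y ^ 2
        + (c0 y * pd j (pd j c0) y + c1 y * pd j (pd j c1) y + c2 y * pd j (pd j c2) y)) := by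
    intro j y
    rw [pd_congr (pdW j)]
    have t0 := s0.pd j
    have t1 := s1.pd j
    have t2 := s2.pd j
    unfold pd at t0 t1 t2 ⊢
    have h1 := ((((s0.diff y).hasFDerivAt.mul (t0.diff y).hasFDerivAt).add
      ((s1.diff y).hasFDerivAt.mul (t1.diff y).hasFDerivAt)).add
      ((s2.diff y).hasFDerivAt.mul (t2.diff y).hasFDerivAt)).const_mul 2
    have h2 : HasFDerivAt (fun y => 2 * (c0 y * fderiv ℝ c0 y (Pi.single j 1)
      + c1 y * fderiv ℝ c1 y (Pi.single j 1) + c2 y * fderiv ℝ c2 y (Pi.single j 1))) _ y := h1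
    rw [h2.fderiv]
    simp
    ring
  have hm1 : ∀ j, c0 x * pd j c0 x + c1 x * pd j c1 x + c2 x * pd j c2 x = 0 := by
    intro j
    have := (pd_max sW hmax j).1
    rw [pdW] at this
    linarith
  have hm2 : ∀ j, c0 x * pd j (pd j c0) x + c1 x * pd j (pd j c1) x + c2 x * pd j (pd j c2) x
      ≤ 0 := by
    intro j
    have := (pd_max sW hmax j).2
    rw [pdW2] at this
    nlinarith [sq_nonneg (pd j c0 x), sq_nonneg (pd j c1 x), sq_nonneg (pd j c2 x)]
  have hlap : c0 x * lap c0 x + c1 x * lap c1 x + c2 x * lap c2 x ≤ 0 := by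
    have a0 := hm2 0
    have a1 := hm2 1
    have a2 := hm2 2
    unfold lap
    simp only [Fin.sum_univ_three]
    nlinarith
  have hνlap := mul_nonneg_of_nonpos_of_nonpos (neg_nonpos.2 hν) hlap
  have hdiv := h.divfree t hI x
  have e0 := hm1 0
  have e1 := hm1 1
  have e2 := hm1 2
  rw [vort_cr hsp]
  simp only [Fin.sum_univ_three] at hdiv ⊢
  simp only [dotProduct, Matrix.mulVec, Fin.sum_univ_three, grad_eq_pd hsp, Matrix.cons_val_zero,
    Matrix.cons_val_one, Matrix.cons_val, ← hc0, ← hc1, ← hc2]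
  set g00 := pd 0 (fun y => u t y 0) x
  set g01 := pd 1 (fun y => u t y 0) x
  set g02 := pd 2 (fun y => u t y 0) x
  set g10 := pd 0 (fun y => u t y 1) x
  set g11 := pd 1 (fun y => u t y 1) x
  set g12 := pd 2 (fun y => u t y 1) x
  set g20 := pd 0 (fun y => u t y 2) x
  set g21 := pd 1 (fun y => u t y 2) x
  set g22 := pd 2 (fun y => u t y 2) x
  have f0 : c0 x = g21 - g12 := rfl
  have f1 : c1 x = g02 - g20 := rfl
  have f2 : c2 x = g10 - g01 := rfl
  have hg : g22 = -g00 - g11 := by linarith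
  have key : ∀ A B C L0 L1 L2 p00 p01 p02 p10 p11 p12 p20 p21 p22 u0 u1 u2 : ℝ,
      A * p00 + B * p10 + C * p20 = 0 → A * p01 + B * p11 + C * p21 = 0 →
      A * p02 + B * p12 + C * p22 = 0 → 0 ≤ -ν * (A * L0 + B * L1 + C * L2) →
      A = g21 - g12 → B = g02 - g20 → C = g10 - g01 →
      (ν * L0 - (u0 * p00 + u1 * p01 + u2 * p02)
          - (g01 * g20 - g02 * g10 + (g11 * g21 - g12 * g11) + (g21 * g22 - g22 * g12))) * A
        + A * (ν * L0 - (u0 * p00 + u1 * p01 + u2 * p02)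
          - (g01 * g20 - g02 * g10 + (g11 * g21 - g12 * g11) + (g21 * g22 - g22 * g12)))
        + ((ν * L1 - (u0 * p10 + u1 * p11 + u2 * p12)
          - (g02 * g00 - g00 * g20 + (g12 * g01 - g10 * g21) + (g22 * g02 - g20 * g22))) * B
        + B * (ν * L1 - (u0 * p10 + u1 * p11 + u2 * p12)
          - (g02 * g00 - g00 * g20 + (g12 * g01 - g10 * g21) + (g22 * g02 - g20 * g22))))
        + ((ν * L2 - (u0 * p20 + u1 * p21 + u2 * p22)
          - (g00 * g10 - g01 * g00 + (g10 * g11 - g11 * g01) + (g20 * g12 - g21 * g02))) * C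
        + C * (ν * L2 - (u0 * p20 + u1 * p21 + u2 * p22)
          - (g00 * g10 - g01 * g00 + (g10 * g11 - g11 * g01) + (g20 * g12 - g21 * g02))))
      ≤ 2 * (A * (g00 * A + g01 * B + g02 * C) + B * (g10 * A + g11 * B + g12 * C)
        + C * (g20 * A + g21 * B + g22 * C)) := by
    intro A B C L0 L1 L2 p00 p01 p02 p10 p11 p12 p20 p21 p22 u0 u1 u2 h0 h1 h2 hL hA hB hC
    have hdiff : 2 * (A * (g00 * A + g01 * B + g02 * C) + B * (g10 * A + g11 * B + g12 * C)
        + C * (g20 * A + g21 * B + g22 * C))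
      - ((ν * L0 - (u0 * p00 + u1 * p01 + u2 * p02)
          - (g01 * g20 - g02 * g10 + (g11 * g21 - g12 * g11) + (g21 * g22 - g22 * g12))) * A
        + A * (ν * L0 - (u0 * p00 + u1 * p01 + u2 * p02)
          - (g01 * g20 - g02 * g10 + (g11 * g21 - g12 * g11) + (g21 * g22 - g22 * g12)))
        + ((ν * L1 - (u0 * p10 + u1 * p11 + u2 * p12)
          - (g02 * g00 - g00 * g20 + (g12 * g01 - g10 * g21) + (g22 * g02 - g20 * g22))) * B
        + B * (ν * L1 - (u0 * p10 + u1 * p11 + u2 * p12)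
          - (g02 * g00 - g00 * g20 + (g12 * g01 - g10 * g21) + (g22 * g02 - g20 * g22))))
        + ((ν * L2 - (u0 * p20 + u1 * p21 + u2 * p22)
          - (g00 * g10 - g01 * g00 + (g10 * g11 - g11 * g01) + (g20 * g12 - g21 * g02))) * C
        + C * (ν * L2 - (u0 * p20 + u1 * p21 + u2 * p22)
          - (g00 * g10 - g01 * g00 + (g10 * g11 - g11 * g01) + (g20 * g12 - g21 * g02)))))
      = 2 * (-ν * (A * L0 + B * L1 + C * L2)) + 2 * u0 * (A * p00 + B * p10 + C * p20)
        + 2 * u1 * (A * p01 + B * p11 + C * p21) + 2 * u2 * (A * p02 + B * p12 + C * p22) := by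
      rw [hA, hB, hC, hg]
      ring
    rw [h0, h1, h2] at hdiff
    linarith
  exact key _ _ _ _ _ _ _ _ _ _ _ _ _ _ _ _ _ _ e0 e1 e2 hνlap f0 f1 f2

end Pool.Agent.W786.One
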