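import Pool.Agent.W786.One5

/-!
# The running maximum of the vorticity, for the Navier-Stokes equations
-/

open MeasureTheory Set Filter
open scoped ENNReal NNReal Topology ContDiff

namespace Pool.Agent.W786.One

open Pool.Agent.H708R2.EulerSign Pool.Agent.H708R2.EulerTypeI Pool.Agent.W786.Dir
  Pool.Agent.W786.Max
open H459R3.NS hiding V nrm ibp S
open Pool.Agent.W268.NS (SP.sub' pd_sub)

variable {ν T : ℝ} {u : ℝ → V → V} {p : ℝ → V → ℝ}

lemma smooth_cr (h : IsSol ν T u p) (a b : Fin 3) :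
    ContDiffOn ℝ ∞ (fun z : ℝ × V => cr (u z.1) a b z.2) (Ico 0 T ×ˢ univ) :=
  (contDiffOn_pd (f := fun s y => u s y b) (h.smooth_c b) a).sub
    (contDiffOn_pd (f := fun s y => u s y a) (h.smooth_c a) b)

lemma Wq_cr (h : IsSol ν T u p) {s : ℝ} (hs : s ∈ Ico 0 T) (y : V) : Wq u s y
      = cr (u s) 1 2 y * cr (u s) 1 2 y + cr (u s) 2 0 y * cr (u s) 2 0 y
        + cr (u s) 0 1 y * cr (u s) 0 1 y := by
  unfold Wq
  rw [vort_cr (fun i => h.sp hs i)]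
  simp [dotProduct, Fin.sum_univ_three]

lemma smooth_Wq (h : IsSol ν T u p) :
    ContDiffOn ℝ ∞ (fun z : ℝ × V => Wq u z.1 z.2) (Ico 0 T ×ˢ univ) := by
  refine ((((smooth_cr h 1 2).mul (smooth_cr h 1 2)).add
    ((smooth_cr h 2 0).mul (smooth_cr h 2 0))).add
    ((smooth_cr h 0 1).mul (smooth_cr h 0 1))).congr fun z hz => ?_
  exact Wq_cr h hz.1 z.2

lemma per_Wq (h : IsSol ν T u p) {s : ℝ} (hs : s ∈ Ico 0 T) : Per (Wq u s) := by
  have hsp : ∀ i, SP (fun y => u s y i) := fun i => h.sp hs i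
  intro k x
  rw [Wq_cr h hs, Wq_cr h hs, (sp_cr hsp 1 2).per k x, (sp_cr hsp 2 0).per k x,
    (sp_cr hsp 0 1).per k x]

lemma exists_cube (x : V) : ∃ (m : K3), (x + fun i => (m i : ℝ)) ∈ cube := by
  refine ⟨fun i => -⌊x i⌋, ?_, ?_⟩
  · intro i
    show (0 : ℝ) ≤ x i + ((-⌊x i⌋ : ℤ) : ℝ)
    push_cast
    linarith [Int.floor_le (x i)]
  · intro i
    show x i + ((-⌊x i⌋ : ℤ) : ℝ) ≤ 1
    push_cast
    linarith [Int.lt_floor_add_one (x i)]

/-- Bounds and Lipschitz continuity in time. -/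
lemma Wq_lip (h : IsSol ν T u p) {b : ℝ} (hb : b < T) : ∃ L : ℝ, 0 ≤ L ∧
    (∀ t ∈ Icc 0 b, ∀ x, Wq u t x ≤ L) ∧
    ∀ s ∈ Icc 0 b, ∀ t ∈ Icc 0 b, ∀ x, Wq u t x - Wq u s x ≤ L * |t - s| := by
  have hsm := smooth_Wq h
  have hK : IsCompact (Icc 0 b ×ˢ cube) := isCompact_Icc.prod isCompact_Icc
  have hsub : Icc 0 b ×ˢ cube ⊆ Ico 0 T ×ˢ (univ : Set V) :=
    prod_mono (fun s hs => ⟨hs.1, hs.2.trans_lt hb⟩) (subset_univ _)
  obtain ⟨C1, hC1⟩ := hK.exists_bound_of_continuousOn (hsm.continuousOn.mono hsub)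
  have hd : ContinuousOn (fun z : ℝ × V => fderivWithin ℝ (fun z : ℝ × V => Wq u z.1 z.2)
      (Ico 0 T ×ˢ univ) z (1, 0)) (Ico 0 T ×ˢ univ) :=
    ((hsm.continuousOn_fderivWithin (uniqueDiff T) (by norm_cast)).clm_apply continuousOn_const)
  obtain ⟨C2, hC2⟩ := hK.exists_bound_of_continuousOn (hd.mono hsub)
  have hW0 : ∀ t x, 0 ≤ Wq u t x := Wq_nonneg
  refine ⟨max (max C1 C2) 0, le_max_right _ _, ?_, ?_⟩
  · intro t ht x
    obtain ⟨m, hm⟩ := exists_cube x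
    have htI : t ∈ Ico 0 T := ⟨ht.1, ht.2.trans_lt hb⟩
    rw [← (per_Wq h htI).int m x]
    have := hC1 (t, x + fun i => (m i : ℝ)) ⟨ht, hm⟩
    exact (le_abs_self _).trans (this.trans ((le_max_left _ _).trans (le_max_left _ _)))
  · intro s hs t ht x
    obtain ⟨m, hm⟩ := exists_cube x
    have htI : t ∈ Ico 0 T := ⟨ht.1, ht.2.trans_lt hb⟩
    have hsI : s ∈ Ico 0 T := ⟨hs.1, hs.2.trans_lt hb⟩
    rw [← (per_Wq h htI).int m x, ← (per_Wq h hsI).int m x]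
    set y := x + fun i => (m i : ℝ) with hy
    have hder : ∀ r ∈ Icc 0 b, HasDerivWithinAt (fun r => Wq u r y)
        (fderivWithin ℝ (fun z : ℝ × V => Wq u z.1 z.2) (Ico 0 T ×ˢ univ) (r, y) (1, 0))
        (Icc 0 b) r := by
      intro r hr
      have hrI : (r, y) ∈ Ico 0 T ×ˢ (univ : Set V) := ⟨⟨hr.1, hr.2.trans_lt hb⟩, mem_univ _⟩
      have h1 : HasFDerivWithinAt (fun z : ℝ × V => Wq u z.1 z.2)
          (fderivWithin ℝ (fun z : ℝ × V => Wq u z.1 z.2) (Ico 0 T ×ˢ univ) (r, y))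
          (Ico 0 T ×ˢ univ) (r, y) :=
        ((hsm.differentiableOn (by norm_cast)) _ hrI).hasFDerivWithinAt
      have h2 : HasDerivWithinAt (fun r : ℝ => ((r, y) : ℝ × V)) (1, 0) (Icc 0 b) r :=
        ((hasDerivWithinAt_id r _).prodMk (hasDerivWithinAt_const r _ y))
      have h3 : MapsTo (fun r : ℝ => ((r, y) : ℝ × V)) (Icc 0 b) (Ico 0 T ×ˢ (univ : Set V)) :=
        fun r' hr' => mk_mem_prod ⟨hr'.1, hr'.2.trans_lt hb⟩ (mem_univ _)
      exact h1.comp_hasDerivWithinAt r h2 h3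
    have h3 := Convex.norm_image_sub_le_of_norm_hasDerivWithin_le (C := max (max C1 C2) 0) hder
      (fun r hr => (hC2 (r, y) ⟨hr, hm⟩).trans ((le_max_right _ _).trans (le_max_left _ _)))
      (convex_Icc 0 b) hs ht
    rw [Real.norm_eq_abs, Real.norm_eq_abs] at h3
    exact (le_abs_self _).trans h3

/-- The running maximum of the square of the vorticity. -/
noncomputable def RM (u : ℝ → V → V) (t : ℝ) : ℝ := sSup (Mx u '' Icc 0 t)

section

variable {b L : ℝ} (hb : b < T) (hL0 : 0 ≤ L) (hL1 : ∀ t ∈ Icc 0 b, ∀ x, Wq u t x ≤ L)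
  (hL2 : ∀ s ∈ Icc 0 b, ∀ t ∈ Icc 0 b, ∀ x, Wq u t x - Wq u s x ≤ L * |t - s|)

include hL1 in
lemma Wq_le_Mx {t : ℝ} (ht : t ∈ Icc 0 b) (x : V) : Wq u t x ≤ Mx u t :=
  le_ciSup ⟨L, by rintro _ ⟨y, rfl⟩; exact hL1 t ht y⟩ x

include hL1 in
lemma Mx_le_L {t : ℝ} (ht : t ∈ Icc 0 b) : Mx u t ≤ L := ciSup_le fun x => hL1 t ht x

include hL1 hL2 in
lemma Mx_lip {s t : ℝ} (hs : s ∈ Icc 0 b) (ht : t ∈ Icc 0 b) :
    Mx u t ≤ Mx u s + L * |t - s| := by
  refine ciSup_le fun x => ?_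
  have h1 := hL2 s hs t ht x
  have h2 := Wq_le_Mx hL1 hs x
  linarith

include hL1 in
lemma bdd_RM {t : ℝ} (ht : t ≤ b) : BddAbove (Mx u '' Icc 0 t) := by
  refine ⟨L, ?_⟩
  rintro _ ⟨s, hs, rfl⟩
  exact Mx_le_L hL1 ⟨hs.1, hs.2.trans ht⟩

include hL1 in
lemma Mx_le_RM {s t : ℝ} (hs : s ∈ Icc 0 t) (ht : t ≤ b) : Mx u s ≤ RM u t :=
  le_csSup (bdd_RM hL1 ht) ⟨s, hs, rfl⟩

lemma RM_le {t B : ℝ} (ht : 0 ≤ t) (hB : ∀ s ∈ Icc 0 t, Mx u s ≤ B) : RM u t ≤ B := by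
  refine csSup_le ⟨Mx u 0, 0, ⟨le_rfl, ht⟩, rfl⟩ ?_
  rintro _ ⟨s, hs, rfl⟩
  exact hB s hs

include hL1 in
lemma RM_mono {s t : ℝ} (hs : 0 ≤ s) (hst : s ≤ t) (ht : t ≤ b) : RM u s ≤ RM u t :=
  RM_le hs fun _ hr => Mx_le_RM hL1 ⟨hr.1, hr.2.trans hst⟩ ht

include hL0 hL1 hL2 in
lemma RM_lip {s t : ℝ} (hs : 0 ≤ s) (hst : s ≤ t) (ht : t ≤ b) :
    RM u t ≤ RM u s + L * (t - s) := by
  refine RM_le (hs.trans hst) fun r hr => ?_
  rcases le_total r s with h | h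
  · have h1 := Mx_le_RM hL1 (s := r) (t := s) ⟨hr.1, h⟩ (hst.trans ht)
    have h2 : 0 ≤ L * (t - s) := mul_nonneg hL0 (by linarith)
    linarith
  · have h1 := Mx_lip hL1 hL2 (s := s) (t := r) ⟨hs, hst.trans ht⟩ ⟨hr.1, hr.2.trans ht⟩
    have h2 := Mx_le_RM hL1 (s := s) (t := s) ⟨hs, le_rfl⟩ (hst.trans ht)
    rw [abs_of_nonneg (by linarith)] at h1
    have h3 : L * (r - s) ≤ L * (t - s) := mul_le_mul_of_nonneg_left (by linarith [hr.2]) hL0
    linarith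

include hL1 hL2 in
/-- At a time where the running maximum is strictly larger than before, the maximum is attained. -/
lemma Mx_eq_RM {t : ℝ} (ht : 0 < t) (htb : t ≤ b) (hrec : ∀ s ∈ Ico 0 t, RM u s < RM u t) :
    Mx u t = RM u t := by
  refine le_antisymm (Mx_le_RM hL1 ⟨ht.le, le_rfl⟩ htb) ?_
  by_contra hcon
  push Not at hcon
  -- choose `s < t` close to `t`
  have hcont : Tendsto (fun s => Mx u t + L * (t - s)) (𝓝[<] t) (𝓝 (Mx u t + L * (t - t))) := by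
    have : Continuous fun s => Mx u t + L * (t - s) := by fun_prop
    exact (this.tendsto t).mono_left nhdsWithin_le_nhds
  rw [sub_self, mul_zero, add_zero] at hcont
  have h1 : ∀ᶠ s in 𝓝[<] t, Mx u t + L * (t - s) < RM u t := hcont.eventually_lt_const hcon
  have h2 : ∀ᶠ s in 𝓝[<] t, s ∈ Ioo 0 t := Ioo_mem_nhdsLT ht
  obtain ⟨s, hs1, hs2⟩ := (h1.and h2).exists
  have h3 : RM u t ≤ max (RM u s) (Mx u t + L * (t - s)) := by
    refine RM_le ht.le fun r hr => ?_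
    rcases le_total r s with h | h
    · exact (Mx_le_RM hL1 ⟨hr.1, h⟩ (hs2.2.le.trans htb)).trans (le_max_left _ _)
    · refine le_trans ?_ (le_max_right _ _)
      have h4 := Mx_lip hL1 hL2 (s := t) (t := r) ⟨ht.le, htb⟩ ⟨hr.1, hr.2.trans htb⟩
      rw [abs_of_nonpos (by linarith [hr.2])] at h4
      have hL0' : 0 ≤ L := (Wq_nonneg (u := u) t 0).trans (hL1 t ⟨ht.le, htb⟩ 0)
      have h5 : L * (-(r - t)) ≤ L * (t - s) := mul_le_mul_of_nonneg_left (by linarith) hL0'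
      linarith
  have h4 := hrec s ⟨hs2.1.le, hs2.2⟩
  rcases le_max_iff.1 h3 with h5 | h5 <;> linarith

end

/-- The derivative of the logarithm of the running maximum. -/
lemma RM_deriv_le (h : IsSol ν T u p) (hν : 0 ≤ ν) {A : ℝ} (hA : 0 < A) {t : ℝ}
    (ht : t ∈ Ioo 0 T) {x : V} (hx : IsMaxPt u t x) {d R : ℝ} (hR : 0 ≤ R)
    (hd : HasDerivAt (fun s => Real.log (max (RM u s) (A ^ 2)) / 2) d t)
    (hrate : A < nrm (vort (u t) x) →
      (∀ s ∈ Ico 0 t, ∀ y, nrm (vort (u s) y) < nrm (vort (u t) x)) →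
      rate (u t) ((nrm (vort (u t) x))⁻¹ • vort (u t) x) x ≤ R) : d ≤ R := by
  by_contra hcon
  push Not at hcon
  have hd0 : 0 < d := hR.trans_lt hcon
  obtain ⟨b, hb1, hb2⟩ := exists_between ht.2
  obtain ⟨L, hL0, hL1, hL2⟩ := Wq_lip h hb2
  set Ψ : ℝ → ℝ := fun s => Real.log (max (RM u s) (A ^ 2)) / 2 with hΨ
  have hA2 : 0 < A ^ 2 := by positivity
  have hpos : ∀ s, 0 < max (RM u s) (A ^ 2) := fun s => hA2.trans_le (le_max_right _ _)
  -- the function is strictly smaller before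
  have hlt : ∀ s ∈ Ico 0 t, max (RM u s) (A ^ 2) < max (RM u t) (A ^ 2) := by
    intro s hs
    by_contra hc
    push Not at hc
    have hconst : ∀ r ∈ Icc s t, Ψ r = Ψ t := by
      intro r hr
      have h1 : max (RM u s) (A ^ 2) ≤ max (RM u r) (A ^ 2) :=
        max_le_max_right _ (RM_mono hL1 hs.1 hr.1 (hr.2.trans hb1.le))
      have h2 : max (RM u r) (A ^ 2) ≤ max (RM u t) (A ^ 2) :=
        max_le_max_right _ (RM_mono hL1 (hs.1.trans hr.1) hr.2 hb1.le)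
      simp only [hΨ]
      rw [le_antisymm h2 (hc.trans h1)]
    have h3 : HasDerivWithinAt Ψ d (Icc s t) t := hd.hasDerivWithinAt
    have h4 : HasDerivWithinAt Ψ 0 (Icc s t) t :=
      (hasDerivWithinAt_const t (Icc s t) (Ψ t)).congr hconst rfl
    have huniq : UniqueDiffWithinAt ℝ (Icc s t) t :=
      uniqueDiffOn_Icc hs.2 t ⟨hs.2.le, le_rfl⟩
    have h5 : d = 0 := huniq.eq_deriv _ h3 h4
    exact hd0.ne' h5
  have hAt : A ^ 2 < RM u t := by
    by_contra hc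
    push Not at hc
    have h1 := hlt 0 ⟨le_rfl, ht.1⟩
    rw [max_eq_right hc] at h1
    exact absurd h1 (not_lt.2 (le_max_right _ _))
  have hrec : ∀ s ∈ Ico 0 t, RM u s < RM u t := by
    intro s hs
    have h1 := hlt s hs
    rw [max_eq_left hAt.le] at h1
    exact (le_max_left _ _).trans_lt h1
  have htb : t ∈ Icc 0 b := ⟨ht.1.le, hb1.le⟩
  have hMx : Mx u t = RM u t := Mx_eq_RM hL1 hL2 ht.1 hb1.le hrec
  have hWM : Wq u t x = RM u t := by
    rw [← hMx]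
    refine le_antisymm (Wq_le_Mx hL1 htb x) (ciSup_le fun y => ?_)
    rw [Wq_eq, Wq_eq]
    have h0 := nrm_nonneg (vort (u t) y)
    have := hx y
    gcongr
  set n := nrm (vort (u t) x) with hn
  have hn0 : 0 ≤ n := nrm_nonneg _
  have hn2 : n ^ 2 = RM u t := by rw [← hWM, Wq_eq]
  have hAn : A < n := lt_of_pow_lt_pow_left₀ 2 hn0 (by rw [hn2]; exact hAt)
  have hnpos : 0 < n := hA.trans hAn
  have hrec2 : ∀ s ∈ Ico 0 t, ∀ y, nrm (vort (u s) y) < n := by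
    intro s hs y
    refine lt_of_pow_lt_pow_left₀ 2 hn0 ?_
    rw [hn2, ← Wq_eq]
    have hsb : s ∈ Icc 0 b := ⟨hs.1, hs.2.le.trans hb1.le⟩
    exact ((Wq_le_Mx hL1 hsb y).trans (Mx_le_RM hL1 ⟨hs.1, le_rfl⟩ hsb.2)).trans_lt (hrec s hs)
  have hR1 := hrate hAn hrec2
  obtain ⟨d', hd'1, hd'2⟩ := Wq_deriv h hν ht hx
  have hWpos : 0 < Wq u t x := by rw [hWM]; exact hA2.trans hAt
  -- the derivative of the logarithm
  have hf : HasDerivAt (fun s => Real.log (Wq u s x) / 2) (d' / Wq u t x / 2) t :=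
    (hd'1.log hWpos.ne').div_const 2
  have hrate2 : rate (u t) (n⁻¹ • vort (u t) x) x
      = (vort (u t) x ⬝ᵥ (grad (u t) x).mulVec (vort (u t) x)) / n ^ 2 := by
    unfold rate
    rw [Matrix.mulVec_smul, dotProduct_smul, smul_dotProduct, smul_eq_mul, smul_eq_mul]
    field_simp
  have hle1 : d' / Wq u t x / 2 ≤ R := by
    refine le_trans ?_ hR1
    rw [hrate2, Wq_eq, ← hn, div_div, div_le_div_iff₀ (by positivity) (by positivity)]
    have := mul_le_mul_of_nonneg_right hd'2 (show 0 ≤ n ^ 2 by positivity)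
    linarith
  have hWcont : ∀ᶠ s in 𝓝 t, 0 < Wq u s x := 
    hd'1.continuousAt.eventually (lt_mem_nhds hWpos)
  have hle2 : d ≤ d' / Wq u t x / 2 := by
    have h5 : HasDerivWithinAt (fun s => Real.log (Wq u s x) / 2) (d' / Wq u t x / 2) (Iio t) t :=
      hf.hasDerivWithinAt
    have h6 : HasDerivWithinAt Ψ d (Iio t) t := hd.hasDerivWithinAt
    rw [hasDerivWithinAt_iff_tendsto_slope' (by simp)] at h5 h6
    refine le_of_tendsto_of_tendsto h6 h5 ?_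
    filter_upwards [self_mem_nhdsWithin, mem_nhdsWithin_of_mem_nhds hWcont,
      mem_nhdsWithin_of_mem_nhds (Ioi_mem_nhds ht.1)] with s hs1 hs2 hs3
    rw [slope_def_field, slope_def_field]
    have hneg : s - t < 0 := by linarith [show s < t from hs1]
    rw [div_le_div_right_of_neg hneg]
    have e1 : Ψ t = Real.log (Wq u t x) / 2 := by
      simp only [hΨ]
      rw [max_eq_left hAt.le, hWM]
    have hsb : s ∈ Icc 0 b := ⟨le_of_lt hs3, (le_of_lt hs1).trans hb1.le⟩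
    have e2 : Real.log (Wq u s x) / 2 ≤ Ψ s := by
      simp only [hΨ]
      have := Real.log_le_log hs2 (((Wq_le_Mx hL1 hsb x).trans
        (Mx_le_RM hL1 ⟨hsb.1, le_rfl⟩ hsb.2)).trans (le_max_left _ (A ^ 2)))
      linarith
    simp only [e1]
    linarith
  linarith

end Pool.Agent.W786.One
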