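import Pool.Agent.W786.One4
import Pool.Agent.W786.One6
import Pool.Agent.W268.NS.Crit

/-!
# A priori bounds
-/

open MeasureTheory Set Filter
open scoped ENNReal NNReal Topology ContDiff

namespace Pool.Agent.W786.One

open Pool.Agent.H708R2.EulerSign Pool.Agent.H708R2.EulerTypeI Pool.Agent.W786.Dir
  Pool.Agent.W786.Max
open H459R3.NS hiding V nrm ibp S nrm_sq nrm_nonneg
open Pool.Agent.W268.NS (SP.sub' pd_sub int_minor int_pot young2 gradSq gradM)

section

variable {v : V → V} (hv : ∀ i, SP (fun y => v y i))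

include hv in
lemma gsq_eq (x : V) : gsq v x = ∑ i, ∑ j, pd j (fun y => v y i) x ^ 2 := by
  unfold gsq
  simp_rw [grad_eq_pd hv]

lemma SP.sq {f : V → ℝ} (hf : SP f) : SP (fun x => f x ^ 2) := by
  have := hf.mul hf
  simpa only [← pow_two] using this

include hv in
lemma int_gsq : ∫ x in cube, gsq v x = enstrophy v := by
  simp_rw [gsq_eq hv]
  unfold enstrophy
  rw [integral_finsetSum _ fun i _ => (SP.sum fun j _ => (SP.sq ((hv i).pd j))).int]
  refine Finset.sum_congr rfl fun i _ => ?_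
  rw [integral_finsetSum _ fun j _ => (SP.sq ((hv i).pd j)).int]

include hv in
lemma int_vsq : ∫ x in cube, vsq v x = energy v := by
  unfold vsq energy
  rw [integral_finsetSum _ fun i _ => (SP.sq (hv i)).int]

include hv in
lemma int_hsq : ∫ x in cube, hsq v x = palin v := by
  have e : ∀ x, hsq v x = ∑ i, ∑ j, ∑ k, pd k (pd j (fun y => v y i)) x ^ 2 := by
    intro x
    unfold hsq
    refine Finset.sum_congr rfl fun i _ => Finset.sum_congr rfl fun j _ =>
      Finset.sum_congr rfl fun k _ => ?_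
    have : (fun x => grad v x i j) = pd j (fun y => v y i) := by
      funext y
      exact grad_eq_pd hv y i j
    rw [this]
    rfl
  simp_rw [e]
  unfold palin
  rw [← sum_hess hv]
  have s : ∀ i j k, SP fun x => pd k (pd j (fun y => v y i)) x ^ 2 := fun i j k =>
    SP.sq (((hv i).pd j).pd k)
  rw [integral_finsetSum _ fun i _ => (SP.sum fun j _ => SP.sum fun k _ => s i j k).int]
  refine Finset.sum_congr rfl fun i _ => ?_
  rw [integral_finsetSum _ fun j _ => (SP.sum fun k _ => s i j k).int]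
  refine Finset.sum_congr rfl fun j _ => ?_
  rw [integral_finsetSum _ fun k _ => (s i j k).int]
  refine Finset.sum_congr rfl fun k _ => ?_
  rw [← fr_pd (hv i), ← fr_pd ((hv i).pd j), n2_fr (((hv i).pd j).pd k)]

include hv in
/-- The enstrophy is at most the maximum of the square of the vorticity. -/
lemma enstrophy_le (hdiv : ∀ x, ∑ i, pd i (fun y => v y i) x = 0) {B : ℝ}
    (hB : ∀ x, nrm (vort v x) ^ 2 ≤ B) : enstrophy v ≤ B := by
  rw [← int_gsq hv]
  have m := fun i j k l : Fin 3 => int_minor (hv k) (hv l) i j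
  have s := fun i j k l : Fin 3 => Pool.Agent.W268.NS.sp_minor (hv k) (hv l) i j
  set m01 : V → ℝ := fun x => pd 0 (fun y => v y 0) x * pd 1 (fun y => v y 1) x
    - pd 1 (fun y => v y 0) x * pd 0 (fun y => v y 1) x with hm01
  set m02 : V → ℝ := fun x => pd 0 (fun y => v y 0) x * pd 2 (fun y => v y 2) x
    - pd 2 (fun y => v y 0) x * pd 0 (fun y => v y 2) x with hm02
  set m12 : V → ℝ := fun x => pd 1 (fun y => v y 1) x * pd 2 (fun y => v y 2) x
    - pd 2 (fun y => v y 1) x * pd 1 (fun y => v y 2) x with hm12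
  have e : ∀ x, gsq v x = nrm (vort v x) ^ 2 - 2 * m01 x - 2 * m02 x - 2 * m12 x := by
    intro x
    rw [gsq_eq hv, nrm_sq, vort_cr hv]
    have hd := hdiv x
    simp only [Fin.sum_univ_three, dotProduct, Matrix.cons_val_zero, Matrix.cons_val_one,
      Matrix.cons_val, cr, hm01, hm02, hm12] at hd ⊢
    set g00 := pd 0 (fun y => v y 0) x
    set g01 := pd 1 (fun y => v y 0) x
    set g02 := pd 2 (fun y => v y 0) x
    set g10 := pd 0 (fun y => v y 1) x
    set g11 := pd 1 (fun y => v y 1) x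
    set g12 := pd 2 (fun y => v y 1) x
    set g20 := pd 0 (fun y => v y 2) x
    set g21 := pd 1 (fun y => v y 2) x
    set g22 := pd 2 (fun y => v y 2) x
    have hg : g22 = -g00 - g11 := by linarith
    rw [hg]
    ring
  have i1 : IntegrableOn (gsq v) cube := by
    have : gsq v = fun x => ∑ i, ∑ j, pd j (fun y => v y i) x ^ 2 := funext (gsq_eq hv)
    rw [this]
    exact (SP.sum fun i _ => SP.sum fun j _ => SP.sq ((hv i).pd j)).int
  have h01 : ∫ x in cube, m01 x = 0 := m 0 1 0 1
  have h02 : ∫ x in cube, m02 x = 0 := m 0 2 0 2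
  have h12 : ∫ x in cube, m12 x = 0 := m 1 2 1 2
  have j01 : IntegrableOn m01 cube := (s 0 1 0 1).int
  have j02 : IntegrableOn m02 cube := (s 0 2 0 2).int
  have j12 : IntegrableOn m12 cube := (s 1 2 1 2).int
  have k2 : IntegrableOn (fun x => gsq v x + 2 * m01 x) cube := i1.add (j01.const_mul 2)
  have k3 : IntegrableOn (fun x => gsq v x + 2 * m01 x + 2 * m02 x) cube :=
    k2.add (j02.const_mul 2)
  have k4 : IntegrableOn (fun x => gsq v x + 2 * m01 x + 2 * m02 x + 2 * m12 x) cube :=
    k3.add (j12.const_mul 2)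
  have e2 : ∫ x in cube, gsq v x
      = ∫ x in cube, (gsq v x + 2 * m01 x + 2 * m02 x + 2 * m12 x) := by
    rw [integral_add k3 (j12.const_mul 2), integral_add k2 (j02.const_mul 2),
      integral_add i1 (j01.const_mul 2), integral_const_mul, integral_const_mul,
      integral_const_mul, h01, h02, h12]
    ring
  rw [e2]
  have := cube_finite
  calc ∫ x in cube, (gsq v x + 2 * m01 x + 2 * m02 x + 2 * m12 x) ≤ ∫ x in cube, B := by
        refine integral_mono k4 (integrable_const _) fun x => ?_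
        have := hB x
        show gsq v x + 2 * m01 x + 2 * m02 x + 2 * m12 x ≤ B
        rw [e x]
        linarith
    _ = B := by
        rw [integral_const, smul_eq_mul]
        simp [Measure.real, volume_cube]

end

/-- The production of enstrophy. -/
lemma cub_young : ∃ D : ℝ, 0 ≤ D ∧ ∀ (ν : ℝ) (v : V → V), 0 < ν → (∀ i, SP (fun y => v y i)) →
    -(2 * cub (fun i y => v y i)) ≤ ν * palin v + D * enstrophy v ^ 3 / ν ^ 3 := by
  obtain ⟨C, hC0, hC⟩ := int_pot (p := 2) (by
    rw [ENNReal.div_lt_iff (by norm_num) (by norm_num)]; norm_num)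
  have hth : th 2 = 3 / 2 := by
    unfold th
    norm_num
  obtain ⟨D, hD0, hD⟩ := young2 (θ := 3 / 2) (ε := 1) (c := 2 * C) (by norm_num) (by norm_num)
    one_pos (by positivity)
  refine ⟨D, hD0, fun ν v hν hv => ?_⟩
  set G := Real.sqrt (enstrophy v) with hG
  set H := Real.sqrt (palin v) with hH
  have hG2 : G ^ 2 = enstrophy v := Real.sq_sqrt (enstrophy_nonneg v)
  have hH2 : H ^ 2 = palin v := Real.sq_sqrt (palin_nonneg v)
  have hG0 : 0 ≤ G := Real.sqrt_nonneg _
  have hH0 : 0 ≤ H := Real.sqrt_nonneg _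
  have hsm : ContDiff ℝ 2 v := contDiff_pi.2 fun i => (hv i).smooth.of_le (by norm_cast)
  have cgr : Continuous (gr v) := gr_cont hsm
  have ha : GH2 (fun i x => v x i) G H := ⟨hv, hG0, hH0, hG2.ge, hH2.ge⟩
  have hnorm : eLpNorm (gr v) 2 (volume.restrict cube) ≤ ENNReal.ofReal G := by
    rw [eLpNorm_two cgr]
    refine ENNReal.ofReal_le_ofReal ?_
    rw [hG, ← int_gsq hv]
    refine Real.sqrt_le_sqrt (le_of_eq ?_)
    simp_rw [gr_sq]
  obtain ⟨hI, h1⟩ := hC (gr v) v G H G cgr.aestronglyMeasurable hG0 hnorm ha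
  rw [hth] at h1
  have h2 := hD (G / ν) G H (by positivity) hG0 hH0
  have hgs : ∀ x, gradSq v x = gsq v x := by
    intro x
    rw [gsq_eq hv]
    unfold gradSq gradM
    rw [Finset.sum_comm]
    rfl
  have h3 : -cub (fun i y => v y i) ≤ ∫ x in cube, gr v x * gradSq v x := by
    have hsp : ∀ i j m : Fin 3, SP fun x => pd m (fun y => v y i) x
            * (pd i (fun y => v y j) x * pd m (fun y => v y j) x) := fun i j m =>
      ((hv i).pd m).mul (((hv j).pd i).mul ((hv j).pd m))
    have e1 : cub (fun i y => v y i) = ∫ x in cube, ∑ i, ∑ j, ∑ m, pd m (fun y => v y i) x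
            * (pd i (fun y => v y j) x * pd m (fun y => v y j) x) := by
      unfold cub
      rw [integral_finsetSum _ fun i _ =>
        (SP.sum fun j _ => SP.sum fun m _ => hsp i j m).int]
      refine Finset.sum_congr rfl fun i _ => ?_
      rw [integral_finsetSum _ fun j _ => (SP.sum fun m _ => hsp i j m).int]
      refine Finset.sum_congr rfl fun j _ => ?_
      rw [integral_finsetSum _ fun m _ => (hsp i j m).int]
    rw [e1, ← integral_neg]
    refine integral_mono (SP.sum fun i _ => SP.sum fun j _ => SP.sum fun m _ => hsp i j m).int.neg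
      hI fun x => ?_
    have hfr := frob (fun i m => -pd m (fun y => v y i) x) (fun i m => pd m (fun y => v y i) x)
      (fun i m => pd m (fun y => v y i) x) (gr_nonneg v x) (gr_nonneg v x) (gr_nonneg v x)
      (by simp only [neg_sq]; rw [gr_sq, gsq_eq hv]) (by rw [gr_sq, gsq_eq hv])
      (by rw [gr_sq, gsq_eq hv])
    have e2 : ∑ i, ∑ j, ∑ m, -pd m (fun y => v y i) x * pd i (fun y => v y j) x
          * pd m (fun y => v y j) x
        = -∑ i, ∑ j, ∑ m, pd m (fun y => v y i) x
            * (pd i (fun y => v y j) x * pd m (fun y => v y j) x) := by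
      rw [← Finset.sum_neg_distrib]
      refine Finset.sum_congr rfl fun i _ => ?_
      rw [← Finset.sum_neg_distrib]
      refine Finset.sum_congr rfl fun j _ => ?_
      rw [← Finset.sum_neg_distrib]
      refine Finset.sum_congr rfl fun m _ => ?_
      ring
    rw [e2] at hfr
    refine hfr.trans (le_of_eq ?_)
    show gr v x * gr v x * gr v x = gr v x * gradSq v x
    rw [hgs, ← gr_sq]
    ring
  have e4 : (G / ν) ^ (2 / (2 - 3 / 2) : ℝ) = G ^ 4 / ν ^ 4 := by
    rw [show (2 / (2 - 3 / 2) : ℝ) = ((4 : ℕ) : ℝ) by norm_num, Real.rpow_natCast, div_pow]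
  rw [e4] at h2
  have h5 : 2 * (C * (G * (G ^ (2 - 3 / 2 : ℝ) * H ^ (3 / 2 : ℝ))))
      ≤ ν * H ^ 2 + D * (G ^ 4 / ν ^ 3 * G ^ 2) := by
    have h6 := mul_le_mul_of_nonneg_left h2 hν.le
    have e5 : ν * (2 * C * (G / ν * (G ^ (2 - 3 / 2 : ℝ) * H ^ (3 / 2 : ℝ))))
        = 2 * (C * (G * (G ^ (2 - 3 / 2 : ℝ) * H ^ (3 / 2 : ℝ)))) := by
      field_simp
    have e6 : ν * (1 * H ^ 2 + D * (G ^ 4 / ν ^ 4 * G ^ 2))
        = ν * H ^ 2 + D * (G ^ 4 / ν ^ 3 * G ^ 2) := by
      field_simp
    rw [e5, e6] at h6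
    exact h6
  have e7 : D * (G ^ 4 / ν ^ 3 * G ^ 2) = D * enstrophy v ^ 3 / ν ^ 3 := by
    rw [← hG2]
    ring
  rw [e7, hH2] at h5
  linarith

end Pool.Agent.W786.One
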