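import Pool.Agent.W786.One7

/-!
# The differential inequality of the maximum of the vorticity
-/

open MeasureTheory Set Filter
open scoped ENNReal NNReal Topology

namespace Pool.Agent.W786.One

open Pool.Agent.H708R2.EulerSign Pool.Agent.H708R2.EulerTypeI Pool.Agent.W786.Dir
  Pool.Agent.W786.Max
open H459R3.NS hiding V nrm ibp S nrm_sq nrm_nonneg

variable {ν T : ℝ} {u : ℝ → V → V} {p : ℝ → V → ℝ}

/-- The normalized enstrophy. -/
noncomputable def yy (ν : ℝ) (u : ℝ → V → V) (t : ℝ) : ℝ := enstrophy (u t) / ν ^ 2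

/-- The normalized palinstrophy over the square of the enstrophy. -/
noncomputable def zz (ν : ℝ) (u : ℝ → V → V) (t : ℝ) : ℝ :=
  palin (u t) / ν ^ 2 / (1 + yy ν u t) ^ 2

lemma yy_nonneg (t : ℝ) : 0 ≤ yy ν u t := div_nonneg (enstrophy_nonneg _) (sq_nonneg _)

lemma zz_nonneg (t : ℝ) : 0 ≤ zz ν u t :=
  div_nonneg (div_nonneg (palin_nonneg _) (sq_nonneg _)) (sq_nonneg _)

lemma yy_cont (h : IsSol ν T u p) : ContinuousOn (yy ν u) (Ico 0 T) :=
  h.enstrophy_continuousOn.div_const _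

lemma zz_cont (h : IsSol ν T u p) : ContinuousOn (zz ν u) (Ico 0 T) :=
  (h.palin_continuousOn.div_const _).div ((continuousOn_const.add (yy_cont h)).pow 2)
    fun t _ => by have := yy_nonneg (ν := ν) (u := u) t; positivity

/-- A priori bound of the enstrophy. -/
lemma int_yy (h : IsSol ν T u p) (hν : 0 < ν) {t : ℝ} (ht : t ∈ Ico 0 T) :
    ν * ∫ s in (0 : ℝ)..t, yy ν u s ≤ energy (u 0) / (2 * ν ^ 2) := by
  have h1 := h.int_enstrophy hν ht
  have e : ∫ s in (0 : ℝ)..t, yy ν u s = (∫ s in (0 : ℝ)..t, enstrophy (u s)) / ν ^ 2 := by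
    unfold yy
    rw [intervalIntegral.integral_div]
  rw [e]
  have h2 := mul_le_mul_of_nonneg_left h1 (show 0 ≤ 1 / ν by positivity)
  calc ν * ((∫ s in (0 : ℝ)..t, enstrophy (u s)) / ν ^ 2)
      = 1 / ν * ∫ s in (0 : ℝ)..t, enstrophy (u s) := by field_simp
    _ ≤ _ := h2
    _ = energy (u 0) / (2 * ν ^ 2) := by field_simp

/-- A priori bound of the palinstrophy. -/
lemma int_zz {D : ℝ} (hD0 : 0 ≤ D) (hD : ∀ (ν : ℝ) (v : V → V), 0 < ν →
    (∀ i, SP (fun y => v y i)) →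
    -(2 * cub (fun i y => v y i)) ≤ ν * palin v + D * enstrophy v ^ 3 / ν ^ 3)
    (h : IsSol ν T u p) (hν : 0 < ν) {t : ℝ} (ht : t ∈ Ico 0 T) :
    ν * ∫ s in (0 : ℝ)..t, zz ν u s ≤ 1 + D * (energy (u 0) / (2 * ν ^ 2)) := by
  have hsub : Icc 0 t ⊆ Ico 0 T := fun s hs => ⟨hs.1, hs.2.trans_lt ht.2⟩
  have cy := (yy_cont h).mono hsub
  have cz := (zz_cont h).mono hsub
  have hpos : ∀ s, 0 < 1 + yy ν u s := fun s => by linarith [yy_nonneg (ν := ν) (u := u) s]
  have hc : ContinuousOn (fun s => -(1 + yy ν u s)⁻¹) (Icc 0 t) :=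
    ((continuousOn_const.add cy).inv₀ fun s _ => (hpos s).ne').neg
  have hder : ∀ s ∈ Ioo 0 t, HasDerivWithinAt (fun s => -(1 + yy ν u s)⁻¹)
      ((-(2 * ν * palin (u s)) - 2 * cub (fun i y => u s y i)) / ν ^ 2 / (1 + yy ν u s) ^ 2)
      (Ioi s) s := by
    intro s hs
    have h1 := (h.enstrophy_hasDerivAt ⟨hs.1, hs.2.trans ht.2⟩).div_const (ν ^ 2)
    have h2 := ((h1.const_add 1).inv (hpos s).ne').neg
    refine (h2.congr_deriv ?_).hasDerivWithinAt
    rw [yy, neg_div, neg_neg]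
  have hφ : ContinuousOn (fun s => -(ν * zz ν u s) + D * (ν * yy ν u s)) (Icc 0 t) :=
    (cz.const_smul ν).neg.add ((cy.const_smul ν).const_smul D)
  have h1 := intervalIntegral.sub_le_integral_of_hasDeriv_right_of_le ht.1 hc hder
    hφ.integrableOn_Icc (fun s hs => by
      have hsI : s ∈ Ico 0 T := ⟨hs.1.le, hs.2.trans ht.2⟩
      have h3 := hD ν (u s) hν (fun i => h.sp hsI i)
      have h4 : -(2 * ν * palin (u s)) - 2 * cub (fun i y => u s y i)
          ≤ -(ν * palin (u s)) + D * enstrophy (u s) ^ 3 / ν ^ 3 := by linarith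
      have h5 : (-(2 * ν * palin (u s)) - 2 * cub (fun i y => u s y i)) / ν ^ 2
            / (1 + yy ν u s) ^ 2
          ≤ (-(ν * palin (u s)) + D * enstrophy (u s) ^ 3 / ν ^ 3) / ν ^ 2
            / (1 + yy ν u s) ^ 2 := by gcongr
      refine h5.trans ?_
      have hy0 := yy_nonneg (ν := ν) (u := u) s
      have e1 : (-(ν * palin (u s)) + D * enstrophy (u s) ^ 3 / ν ^ 3) / ν ^ 2
            / (1 + yy ν u s) ^ 2
          = -(ν * zz ν u s) + D * (ν * (yy ν u s ^ 3 / (1 + yy ν u s) ^ 2)) := by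
        unfold zz yy
        have : 1 + enstrophy (u s) / ν ^ 2 ≠ 0 := (hpos s).ne'
        field_simp
      rw [e1]
      have h6 : yy ν u s ^ 3 / (1 + yy ν u s) ^ 2 ≤ yy ν u s := by
        rw [div_le_iff₀ (by positivity)]
        have : 0 ≤ yy ν u s * (1 + 2 * yy ν u s) := by positivity
        nlinarith
      have h7 : D * (ν * (yy ν u s ^ 3 / (1 + yy ν u s) ^ 2)) ≤ D * (ν * yy ν u s) := by
        gcongr
      show _ ≤ -(ν * zz ν u s) + D * (ν * yy ν u s)
      linarith)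
  have i1 : IntervalIntegrable (zz ν u) volume 0 t := cz.intervalIntegrable_of_Icc ht.1
  have i2 : IntervalIntegrable (yy ν u) volume 0 t := cy.intervalIntegrable_of_Icc ht.1
  have e2 : ∫ s in (0 : ℝ)..t, (-(ν * zz ν u s) + D * (ν * yy ν u s))
      = -(ν * ∫ s in (0 : ℝ)..t, zz ν u s) + D * (ν * ∫ s in (0 : ℝ)..t, yy ν u s) := by
    have i3 : IntervalIntegrable (fun s => -(ν * zz ν u s)) volume 0 t := (i1.const_mul ν).neg
    rw [intervalIntegral.integral_add i3 ((i2.const_mul ν).const_mul D),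
      intervalIntegral.integral_neg, intervalIntegral.integral_const_mul,
      intervalIntegral.integral_const_mul, intervalIntegral.integral_const_mul]
  rw [e2] at h1
  have h3 := mul_le_mul_of_nonneg_left (int_yy h hν ht) hD0
  have h4 : (1 + yy ν u 0)⁻¹ ≤ 1 := inv_le_one_of_one_le₀ (by
    linarith [yy_nonneg (ν := ν) (u := u) 0])
  have h5 : 0 < (1 + yy ν u t)⁻¹ := inv_pos.2 (hpos t)
  have h6 : 0 < (1 + yy ν u 0)⁻¹ := inv_pos.2 (hpos 0)
  have h7 : (1 + yy ν u t)⁻¹ ≤ 1 := inv_le_one_of_one_le₀ (by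
    linarith [yy_nonneg (ν := ν) (u := u) t])
  linarith

/-- The bound of the rate in normalized form. -/
lemma rate_norm {v : V → V} (hv : ContDiff ℝ 2 v) (hdiv : ∀ x, divergence v x = 0) (hp : Per v)
    {G P E M : ℝ} (hν : 0 < ν) (hY : ∫ x in cube, gsq v x ≤ G) (hZ : ∫ x in cube, hsq v x ≤ P)
    (hE : ∫ x in cube, vsq v x ≤ E) {e x₀ : V} (he : nrm e = 1) {K r : ℝ} (hK : 0 ≤ K)
    (hr : 0 < r) (hr1 : r ≤ 1)
    (htw : ∀ y, nrm y < r → twistE v e x₀ y
      ≤ K * nrm y ^ 3 * (1 - Real.log (nrm y)) * gr v (x₀ + y)) (hGM : G ≤ M) (hνM : ν ^ 2 ≤ M)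
    {X y z : ℝ} (hX : X = 1 + (Real.log M / 2 - Real.log ν)) (hy : y = G / ν ^ 2)
    (hz : z = P / ν ^ 2 / (1 + y) ^ 2) :
    rate v e x₀ ≤ X * (9 * Ca * (ν * K * (1 + y + z) + Real.sqrt E * r ^ (-(5 / 2) : ℝ))) := by
  have hG0 : 0 ≤ G := le_trans (integral_nonneg fun x => gsq_nonneg v x) hY
  have hP0 : 0 ≤ P := le_trans (integral_nonneg fun x => hsq_nonneg v x) hZ
  have hy0 : 0 ≤ y := by rw [hy]; positivity
  have hy1 : 0 < 1 + y := by linarith
  have hM0 : 0 < M := (sq_pos_of_pos hν).trans_le hνM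
  set σ : ℝ := 1 / (2 * (1 + y)) with hσ
  have hσ0 : 0 < σ := by positivity
  have hσ1 : σ ≤ 1 / 2 := by
    rw [hσ, div_le_div_iff₀ (by positivity) (by norm_num)]
    linarith
  have h1 := rate_le hv hdiv hp hY hZ hE he hK (ρ := r / 2) (by positivity) (by linarith)
    (fun y hy => htw y (hy.trans (by linarith))) hσ0 hσ1
  -- the logarithm
  have hX1 : 1 ≤ X := by
    have : Real.log (ν ^ 2) ≤ Real.log M := Real.log_le_log (by positivity) hνM
    rw [Real.log_pow] at this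
    push_cast at this
    rw [hX]
    linarith
  have hlog : 1 - Real.log σ ≤ 3 * X := by
    have e1 : Real.log σ = -Real.log (2 * (1 + y)) := by
      rw [hσ, one_div, Real.log_inv]
    have h2 : 2 * (1 + y) ≤ 4 * (M / ν ^ 2) := by
      have h3 : 1 ≤ M / ν ^ 2 := by rw [le_div_iff₀ (by positivity)]; linarith
      have h4 : y ≤ M / ν ^ 2 := by rw [hy]; gcongr
      linarith
    have h3 : Real.log (2 * (1 + y)) ≤ Real.log (4 * (M / ν ^ 2)) :=
      Real.log_le_log (by positivity) h2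
    have h4 : Real.log (4 * (M / ν ^ 2)) = 2 * Real.log 2 + (Real.log M - 2 * Real.log ν) := by
      rw [Real.log_mul (by norm_num) (by positivity), Real.log_div hM0.ne' (by positivity),
        Real.log_pow, show (4 : ℝ) = 2 ^ 2 by norm_num, Real.log_pow]
      push_cast
      ring
    have h5 := Real.log_two_lt_d9
    rw [e1]
    have h6 : Real.log M - 2 * Real.log ν = 2 * (X - 1) := by rw [hX]; ring
    rw [h6] at h4
    linarith
  have hlog0 : 0 ≤ 1 - Real.log σ := by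
    have := Real.log_nonpos hσ0.le (by linarith)
    linarith
  -- the sum
  have hGs : Real.sqrt G = ν * Real.sqrt y := by
    rw [hy, Real.sqrt_div hG0, Real.sqrt_sq hν.le]
    field_simp
  set ζ := Real.sqrt z with hζ
  have hz0 : 0 ≤ z := by rw [hz]; positivity
  have hPs : Real.sqrt P = ν * (1 + y) * ζ := by
    have : P = (ν * (1 + y)) ^ 2 * z := by rw [hz]; field_simp
    rw [this, Real.sqrt_mul (by positivity), Real.sqrt_sq (by positivity)]
  set η := Real.sqrt (1 + y) with hη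
  have hη1 : 1 ≤ η := by rw [hη, Real.one_le_sqrt]; linarith
  have hη2 : η ^ 2 = 1 + y := Real.sq_sqrt hy1.le
  have hyη : Real.sqrt y ≤ η := Real.sqrt_le_sqrt (by linarith)
  have hs2 : Real.sqrt 2 ≤ 3 / 2 := by rw [Real.sqrt_le_left (by norm_num)]; norm_num
  have hs20 : 0 < Real.sqrt 2 := by positivity
  have hs21 : 1 ≤ Real.sqrt 2 := by rw [Real.one_le_sqrt]; norm_num
  have hσs : Real.sqrt σ = (Real.sqrt 2 * η)⁻¹ := by
    rw [hσ, one_div, Real.sqrt_inv, Real.sqrt_mul (by norm_num)]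
  have hsum : Real.sqrt G * σ + Real.sqrt P * Real.sqrt σ + Real.sqrt G * (Real.sqrt σ)⁻¹
      ≤ 3 * (ν * (1 + y + z)) := by
    rw [hσs, inv_inv, hGs, hPs]
    have hsy := Real.sqrt_nonneg y
    have hζ0 : 0 ≤ ζ := Real.sqrt_nonneg _
    have hζ2 : ζ ^ 2 = z := Real.sq_sqrt hz0
    have t1 : ν * Real.sqrt y * σ ≤ ν * (1 / 2 * (1 + y)) := by
      have a1 : Real.sqrt y ≤ 1 + y := by
        rw [← hη2]
        calc Real.sqrt y ≤ η := hyη
          _ = η * 1 := (mul_one _).symm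
          _ ≤ η * η := by gcongr
          _ = η ^ 2 := by ring
      have : Real.sqrt y * σ ≤ (1 + y) * (1 / 2) := by gcongr
      have := mul_le_mul_of_nonneg_left this hν.le
      linarith
    have t2 : ν * (1 + y) * ζ * (Real.sqrt 2 * η)⁻¹ ≤ ν * (1 / 2 * (z + (1 + y))) := by
      have e2 : ν * (1 + y) * ζ * (Real.sqrt 2 * η)⁻¹ = ν * (ζ * η * (Real.sqrt 2)⁻¹) := by
        rw [← hη2]
        field_simp
      rw [e2]
      refine mul_le_mul_of_nonneg_left ?_ hν.le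
      have a1 : (Real.sqrt 2)⁻¹ ≤ 1 := inv_le_one_of_one_le₀ hs21
      have a2 : ζ * η * (Real.sqrt 2)⁻¹ ≤ ζ * η * 1 := by gcongr
      have a3 := sq_nonneg (ζ - η)
      have a4 : (ζ - η) ^ 2 = ζ ^ 2 - 2 * (ζ * η) + η ^ 2 := by ring
      rw [a4, hζ2, hη2] at a3
      linarith
    have t3 : ν * Real.sqrt y * (Real.sqrt 2 * η) ≤ ν * (3 / 2 * (1 + y)) := by
      have : Real.sqrt y * (Real.sqrt 2 * η) ≤ η * (3 / 2 * η) := by gcongr
      have h2 : η * (3 / 2 * η) = 3 / 2 * (1 + y) := by rw [← hη2]; ring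
      rw [h2] at this
      have := mul_le_mul_of_nonneg_left this hν.le
      linarith
    have t4 : 0 ≤ ν * z := by positivity
    have t5 : 0 ≤ ν * y := by positivity
    have t6 : ν * (1 / 2 * (1 + y)) = 1 / 2 * ν + 1 / 2 * (ν * y) := by ring
    have t7 : ν * (1 / 2 * (z + (1 + y))) = 1 / 2 * ν + 1 / 2 * (ν * y) + 1 / 2 * (ν * z) := by
      ring
    have t8 : ν * (3 / 2 * (1 + y)) = 3 / 2 * ν + 3 / 2 * (ν * y) := by ring
    have t9 : 3 * (ν * (1 + y + z)) = 3 * ν + 3 * (ν * y) + 3 * (ν * z) := by ring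
    rw [t6] at t1
    rw [t7] at t2
    rw [t8] at t3
    rw [t9]
    linarith
  -- the energy term
  have hEn : Real.sqrt E / (r / 2 * (r / 2 * Real.sqrt (r / 2)))
      ≤ 6 * (Real.sqrt E * r ^ (-(5 / 2) : ℝ)) := by
    have e1 : r ^ (-(5 / 2) : ℝ) = (r * (r * Real.sqrt r))⁻¹ := by
      rw [Real.rpow_neg hr.le]
      congr 1
      rw [show (5 / 2 : ℝ) = 1 + (1 + 1 / 2) by norm_num, Real.rpow_add hr, Real.rpow_add hr,
        Real.rpow_one, ← Real.sqrt_eq_rpow]
    rw [e1, Real.sqrt_div' r (by norm_num : (0 : ℝ) ≤ 2)]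
    have hsr := Real.sqrt_pos.2 hr
    have e2 : Real.sqrt E / (r / 2 * (r / 2 * (Real.sqrt r / Real.sqrt 2)))
        = 4 * Real.sqrt 2 * (Real.sqrt E * (r * (r * Real.sqrt r))⁻¹) := by
      field_simp
      ring
    rw [e2]
    have : 0 ≤ Real.sqrt E * (r * (r * Real.sqrt r))⁻¹ := by positivity
    exact mul_le_mul_of_nonneg_right (by linarith) this
  have hCa := Ca_nonneg
  refine h1.trans ?_
  have hr5 : 0 ≤ Real.sqrt E * r ^ (-(5 / 2) : ℝ) :=
    mul_nonneg (Real.sqrt_nonneg _) (Real.rpow_nonneg hr.le _)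
  have k1 : K * (1 - Real.log σ) * (Real.sqrt G * σ + Real.sqrt P * Real.sqrt σ
      + Real.sqrt G * (Real.sqrt σ)⁻¹) ≤ K * (3 * X) * (3 * (ν * (1 + y + z))) := by
    gcongr
  have k2 : 6 * (Real.sqrt E * r ^ (-(5 / 2) : ℝ)) ≤ 9 * X * (Real.sqrt E * r ^ (-(5 / 2) : ℝ)) :=
    mul_le_mul_of_nonneg_right (by linarith) hr5
  calc Ca * (K * (1 - Real.log σ) * (Real.sqrt G * σ + Real.sqrt P * Real.sqrt σ
      + Real.sqrt G * (Real.sqrt σ)⁻¹) + Real.sqrt E / (r / 2 * (r / 2 * Real.sqrt (r / 2))))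
      ≤ Ca * (K * (3 * X) * (3 * (ν * (1 + y + z)))
        + 9 * X * (Real.sqrt E * r ^ (-(5 / 2) : ℝ))) := by
        refine mul_le_mul_of_nonneg_left ?_ hCa
        linarith
    _ = _ := by ring

end Pool.Agent.W786.One
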