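import Pool.Agent.W786.One8

/-!
# One-point criterion for the Navier-Stokes equations
-/

open MeasureTheory Set Filter
open scoped ENNReal NNReal Topology

namespace Pool.Agent.W786.One

open Pool.Agent.H708R2.EulerSign Pool.Agent.H708R2.EulerTypeI Pool.Agent.W786.Dir
  Pool.Agent.W786.Max
open H459R3.NS hiding V nrm ibp S nrm_sq nrm_nonneg

variable {ν T : ℝ} {u : ℝ → V → V} {p : ℝ → V → ℝ}

/-- The function whose growth is estimated: `1 + log (m / ν)`, where `m` is the maximum of the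
running maximum of the vorticity and of `A`. -/
noncomputable def XX (ν A : ℝ) (u : ℝ → V → V) (t : ℝ) : ℝ :=
  1 + (Real.log (max (RM u t) (A ^ 2)) / 2 - Real.log ν)

lemma one_le_XX {A : ℝ} (hν : 0 < ν) (hA : ν ≤ A) (t : ℝ) : 1 ≤ XX ν A u t := by
  unfold XX
  have h1 : ν ^ 2 ≤ max (RM u t) (A ^ 2) := le_trans (by gcongr) (le_max_right _ _)
  have h2 := Real.log_le_log (by positivity) h1
  rw [Real.log_pow] at h2
  push_cast at h2
  linarith

/-- The logarithm has bounded increments. -/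
lemma log_incr {a b : ℝ} (ha : 0 < a) (hab : a ≤ b) : Real.log b - Real.log a ≤ (b - a) / a := by
  have hb : 0 < b := ha.trans_le hab
  rw [← Real.log_div hb.ne' ha.ne']
  have := Real.log_le_sub_one_of_pos (show 0 < b / a by positivity)
  rw [sub_div, div_self ha.ne']
  exact this

lemma lip_log_XX (h : IsSol ν T u p) {A : ℝ} (hν : 0 < ν) (hA : ν ≤ A) {b : ℝ} (hb : b < T) :
    ∃ C : ℝ, ∀ s ∈ Icc 0 b, ∀ t ∈ Icc 0 b, s ≤ t →
      Real.log (XX ν A u t) - Real.log (XX ν A u s) ≤ C * (t - s) := by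
  obtain ⟨L, hL0, hL1, hL2⟩ := Wq_lip h hb
  have hA0 : 0 < A := hν.trans_le hA
  refine ⟨L / A ^ 2 / 2, fun s hs t ht hst => ?_⟩
  have hs1 := one_le_XX (u := u) hν hA s
  have hm1 : max (RM u s) (A ^ 2) ≤ max (RM u t) (A ^ 2) :=
    max_le_max_right _ (RM_mono hL1 hs.1 hst ht.2)
  have hm2 : max (RM u t) (A ^ 2) ≤ max (RM u s) (A ^ 2) + L * (t - s) := by
    have h0 : 0 ≤ L * (t - s) := mul_nonneg hL0 (by linarith)
    refine max_le ?_ ?_
    · have := RM_lip hL0 hL1 hL2 hs.1 hst ht.2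
      have := le_max_left (RM u s) (A ^ 2)
      linarith
    · have := le_max_right (RM u s) (A ^ 2)
      linarith
  have hpos : 0 < max (RM u s) (A ^ 2) := lt_of_lt_of_le (by positivity) (le_max_right _ _)
  have h1 := log_incr hpos hm1
  have h2 : (max (RM u t) (A ^ 2) - max (RM u s) (A ^ 2)) / max (RM u s) (A ^ 2)
      ≤ L * (t - s) / A ^ 2 := by
    refine div_le_div₀ (mul_nonneg hL0 (by linarith)) (by linarith) (by positivity)
      (le_max_right _ _)
  have h3 : XX ν A u s ≤ XX ν A u t := by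
    unfold XX
    have := Real.log_le_log hpos hm1
    linarith
  have h4 := log_incr (by linarith) h3
  have h5 : (XX ν A u t - XX ν A u s) / XX ν A u s ≤ XX ν A u t - XX ν A u s :=
    div_le_self (by linarith) hs1
  have h6 : XX ν A u t - XX ν A u s
      = (Real.log (max (RM u t) (A ^ 2)) - Real.log (max (RM u s) (A ^ 2))) / 2 := by
    unfold XX
    ring
  have h7 : L / A ^ 2 / 2 * (t - s) = L * (t - s) / A ^ 2 / 2 := by ring
  rw [h7]
  linarith

/-- `div v = 0` in the two notations. -/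
lemma div_eq (h : IsSol ν T u p) {t : ℝ} (ht : t ∈ Ico 0 T) (x : V) : divergence (u t) x = 0 := by
  have := h.divfree t ht x
  rw [← this]
  unfold divergence
  refine Finset.sum_congr rfl fun i _ => ?_
  exact grad_eq_pd (fun i => h.sp ht i) x i i

lemma smooth_slice (h : IsSol ν T u p) {t : ℝ} (ht : t ∈ Ico 0 T) : ContDiff ℝ 2 (u t) :=
  contDiff_pi.2 fun i => (h.sp ht i).smooth.of_le (by norm_cast)

lemma twistE_smul (v : V → V) (c : ℝ) (w x y : V) :
    twistE v (c • w) x y = c ^ 2 * twistE v w x y := by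
  unfold twistE
  have : cross (c • w) y = c • cross w y := by
    funext i
    fin_cases i <;> simp [cross] <;> ring
  rw [this, dotProduct_smul, dotProduct_smul, smul_eq_mul, smul_eq_mul]
  ring

/-- The differential inequality. -/
lemma XX_deriv (h : IsSol ν T u p) (hν : 0 < ν) {A : ℝ} (hA : ν ≤ A) {K r t : ℝ} (hK : 0 ≤ K)
    (hr : 0 < r) (hr1 : r ≤ 1) (ht : t ∈ Ioo 0 T) {x : V} (hx : IsMaxPt u t x)
    (htw : A < nrm (vort (u t) x) →
      (∀ s ∈ Ico 0 t, ∀ y, nrm (vort (u s) y) < nrm (vort (u t) x)) → ∀ y, nrm y < r →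
      twistE (u t) (vort (u t) x) x y ≤ K * nrm y ^ 3 * (1 - Real.log (nrm y))
        * nrm (vort (u t) x) ^ 2 * gr (u t) (x + y)) {d : ℝ}
    (hd : HasDerivAt (fun s => Real.log (XX ν A u s)) d t) :
    d ≤ 9 * Ca * (ν * K * (1 + yy ν u t + zz ν u t)
      + Real.sqrt (energy (u 0)) * r ^ (-(5 / 2) : ℝ)) := by
  set f := 9 * Ca * (ν * K * (1 + yy ν u t + zz ν u t)
      + Real.sqrt (energy (u 0)) * r ^ (-(5 / 2) : ℝ)) with hf
  have hA0 : 0 < A := hν.trans_le hA
  have htI : t ∈ Ico 0 T := ⟨ht.1.le, ht.2⟩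
  have hX1 := one_le_XX (u := u) hν hA
  have hXt : 0 < XX ν A u t := by linarith [hX1 t]
  have hCa := Ca_nonneg
  have hf0 : 0 ≤ f := by
    have h1 := yy_nonneg (ν := ν) (u := u) t
    have h2 := zz_nonneg (ν := ν) (u := u) t
    have h3 := Real.rpow_nonneg hr.le (-(5 / 2) : ℝ)
    positivity
  have h1 : HasDerivAt (fun s => XX ν A u s) (XX ν A u t * d) t := by
    have h2 := hd.exp
    rw [Real.exp_log hXt] at h2
    refine h2.congr_of_eventuallyEq (Eventually.of_forall fun s => ?_)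
    exact (Real.exp_log (by linarith [hX1 s])).symm
  have h2 : HasDerivAt (fun s => Real.log (max (RM u s) (A ^ 2)) / 2) (XX ν A u t * d) t := by
    have h3 := (h1.sub_const 1).add_const (Real.log ν)
    refine h3.congr_of_eventuallyEq (Eventually.of_forall fun s => ?_)
    unfold XX
    ring
  have h3 : XX ν A u t * d ≤ XX ν A u t * f := by
    refine RM_deriv_le h hν.le hA0 ht hx (mul_nonneg hXt.le hf0) h2 fun hAx hrec => ?_
    set w := vort (u t) x with hw
    have hn : 0 < nrm w := hA0.trans hAx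
    have he : nrm ((nrm w)⁻¹ • w) = 1 := by
      rw [nrm_smul, abs_of_pos (inv_pos.2 hn), inv_mul_cancel₀ hn.ne']
    have hsp : ∀ i, SP (fun y => u t y i) := fun i => h.sp htI i
    obtain ⟨b, hb1, hb2⟩ := exists_between ht.2
    obtain ⟨L, hL0, hL1, hL2⟩ := Wq_lip h hb2
    have htb : t ∈ Icc 0 b := ⟨ht.1.le, hb1.le⟩
    have hGM : enstrophy (u t) ≤ max (RM u t) (A ^ 2) := by
      refine enstrophy_le hsp (h.divfree t htI) fun y => ?_
      rw [← Wq_eq]
      exact ((Wq_le_Mx hL1 htb y).trans (Mx_le_RM hL1 ⟨ht.1.le, le_rfl⟩ hb1.le)).trans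
        (le_max_left _ _)
    refine rate_norm (smooth_slice h htI) (div_eq h htI) (h.per_u t htI) hν
      (int_gsq hsp).le (int_hsq hsp).le ((int_vsq hsp).le.trans (h.energy_le hν htI)) he hK hr hr1
      ?_ hGM (le_trans (by gcongr) (le_max_right _ _)) rfl rfl rfl
    intro y hy
    have h4 := htw hAx hrec y hy
    rw [twistE_smul]
    have h5 := mul_le_mul_of_nonneg_left h4 (show 0 ≤ (nrm w)⁻¹ ^ 2 by positivity)
    refine h5.trans (le_of_eq ?_)
    field_simp
  exact le_of_mul_le_mul_left h3 hXt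

/-- The theorem. -/
theorem main : ∃ C : ℝ, 0 ≤ C ∧ ∀ (ν T K A R : ℝ) (u : ℝ → V → V) (p : ℝ → V → ℝ) (r : ℝ → ℝ),
    0 < ν → 0 ≤ K → ν ≤ A → (∀ x, nrm (vort (u 0) x) ≤ A) → IsSol ν T u p →
    (∀ᵐ t, t ∈ Ioo 0 T → 0 < r t ∧ r t ≤ 1) → 0 ≤ R →
    (∀ b ∈ Ico 0 T, IntervalIntegrable (fun t => r t ^ (-(5 / 2) : ℝ)) volume 0 b ∧
      ∫ t in (0 : ℝ)..b, r t ^ (-(5 / 2) : ℝ) ≤ R) →
    (∀ᵐ t, t ∈ Ioo 0 T → ∃ x, IsMaxPt u t x ∧ (A < nrm (vort (u t) x) →
      (∀ s ∈ Ico 0 t, ∀ y, nrm (vort (u s) y) < nrm (vort (u t) x)) → ∀ y, nrm y < r t →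
      twistE (u t) (vort (u t) x) x y ≤ K * nrm y ^ 3 * (1 - Real.log (nrm y))
        * nrm (vort (u t) x) ^ 2 * gr (u t) (x + y))) →
    (∀ t ∈ Ico 0 T, ∀ x, nrm (vort (u t) x) ≤ ν * Real.exp ((1 + Real.log (A / ν))
      * Real.exp (C * (K * (1 + ν * T + energy (u 0) / ν ^ 2)
        + Real.sqrt (energy (u 0)) * R)) - 1)) ∧
    ∃ B, ∀ t ∈ Ico 0 T, ∀ x i, |u t x i| ≤ B := by
  obtain ⟨D, hD0, hD⟩ := cub_young
  have hCa := Ca_nonneg
  refine ⟨9 * Ca * (1 + D), by positivity, fun ν T K A R u p r hν hK hA hA0 h hr hR0 hri hmax => ?_⟩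
  set E := energy (u 0) with hE
  have hE0 : 0 ≤ E := energy_nonneg _
  have hApos : 0 < A := hν.trans_le hA
  set Q := 9 * Ca * (1 + D) * (K * (1 + ν * T + E / ν ^ 2) + Real.sqrt E * R) with hQ
  have hX1 := one_le_XX (u := u) hν hA
  -- the growth
  have hgrow : ∀ b ∈ Ico 0 T, XX ν A u b ≤ (1 + Real.log (A / ν)) * Real.exp Q := by
    intro b hb
    have hsub : Icc 0 b ⊆ Ico 0 T := fun s hs => ⟨hs.1, hs.2.trans_lt hb.2⟩
    have iy : IntervalIntegrable (yy ν u) volume 0 b :=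
      ((yy_cont h).mono hsub).intervalIntegrable_of_Icc hb.1
    have iz : IntervalIntegrable (zz ν u) volume 0 b :=
      ((zz_cont h).mono hsub).intervalIntegrable_of_Icc hb.1
    obtain ⟨ir, h4⟩ := hri b hb
    obtain ⟨C, hC⟩ := lip_log_XX h hν hA hb.2
    have i1 : IntervalIntegrable (fun t => 1 + yy ν u t + zz ν u t) volume 0 b :=
      (intervalIntegrable_const.add iy).add iz
    have i2 : IntervalIntegrable (fun t => ν * K * (1 + yy ν u t + zz ν u t)
        + Real.sqrt E * r t ^ (-(5 / 2) : ℝ)) volume 0 b :=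
      (i1.const_mul _).add (ir.const_mul _)
    have h1 := growth_of_ae (L := fun s => Real.log (XX ν A u s)) (C := C)
      (r := fun t => 9 * Ca * (ν * K * (1 + yy ν u t + zz ν u t)
        + Real.sqrt E * r t ^ (-(5 / 2) : ℝ))) hb.1 hC (i2.const_mul _) (by
        filter_upwards [hr, hmax] with t ht1 ht2 htI d hd
        have htI' : t ∈ Ioo 0 T := ⟨htI.1, htI.2.trans hb.2⟩
        obtain ⟨x, hx, hxt⟩ := ht2 htI'
        exact XX_deriv h hν hA hK (ht1 htI').1 (ht1 htI').2 htI' hx hxt hd)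
    have iyz : IntervalIntegrable (fun t => 1 + yy ν u t) volume 0 b :=
      intervalIntegrable_const.add iy
    have e1 : ∫ t in (0 : ℝ)..b, 9 * Ca * (ν * K * (1 + yy ν u t + zz ν u t)
        + Real.sqrt E * r t ^ (-(5 / 2) : ℝ))
        = 9 * Ca * (K * (ν * b + ν * (∫ t in (0 : ℝ)..b, yy ν u t)
          + ν * ∫ t in (0 : ℝ)..b, zz ν u t)
          + Real.sqrt E * ∫ t in (0 : ℝ)..b, r t ^ (-(5 / 2) : ℝ)) := by
      rw [intervalIntegral.integral_const_mul,
        intervalIntegral.integral_add (i1.const_mul _) (ir.const_mul _),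
        intervalIntegral.integral_const_mul, intervalIntegral.integral_const_mul,
        intervalIntegral.integral_add iyz iz,
        intervalIntegral.integral_add intervalIntegrable_const iy,
        intervalIntegral.integral_const, smul_eq_mul]
      ring
    have h2 := int_yy h hν hb
    have h3 := int_zz hD0 hD h hν hb
    have h5 : K * (ν * b + ν * (∫ t in (0 : ℝ)..b, yy ν u t) + ν * ∫ t in (0 : ℝ)..b, zz ν u t)
        ≤ K * ((1 + D) * (1 + ν * T + E / ν ^ 2)) := by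
      refine mul_le_mul_of_nonneg_left ?_ hK
      have a1 : ν * b ≤ ν * T := mul_le_mul_of_nonneg_left hb.2.le hν.le
      have a2 : E / (2 * ν ^ 2) = E / ν ^ 2 / 2 := by
        rw [div_div, mul_comm (ν ^ 2) 2]
      rw [a2] at h2 h3
      have a3 : 0 ≤ E / ν ^ 2 := by positivity
      have a4 : 0 ≤ D * (E / ν ^ 2) := mul_nonneg hD0 a3
      have a5 : 0 ≤ ν * T := mul_nonneg hν.le (hb.1.trans hb.2.le)
      have a6 : 0 ≤ D * (ν * T) := mul_nonneg hD0 a5
      have a7 : (1 + D) * (1 + ν * T + E / ν ^ 2)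
          = 1 + ν * T + E / ν ^ 2 + D + D * (ν * T) + D * (E / ν ^ 2) := by ring
      have a8 : D * (E / ν ^ 2 / 2) = D * (E / ν ^ 2) / 2 := by ring
      rw [a7]
      rw [a8] at h3
      linarith
    have h6 : Real.sqrt E * ∫ t in (0 : ℝ)..b, r t ^ (-(5 / 2) : ℝ)
        ≤ (1 + D) * (Real.sqrt E * R) := by
      have a1 := mul_le_mul_of_nonneg_left h4 (Real.sqrt_nonneg E)
      have a2 : 0 ≤ Real.sqrt E * R := mul_nonneg (Real.sqrt_nonneg E) hR0
      have a3 : 0 ≤ D * (Real.sqrt E * R) := mul_nonneg hD0 a2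
      linarith
    have h7 : Real.log (XX ν A u b) - Real.log (XX ν A u 0) ≤ Q := by
      refine h1.trans ?_
      rw [e1, hQ]
      have h8 : 9 * Ca * (1 + D) * (K * (1 + ν * T + E / ν ^ 2) + Real.sqrt E * R)
          = 9 * Ca * (K * ((1 + D) * (1 + ν * T + E / ν ^ 2)) + (1 + D) * (Real.sqrt E * R)) := by
        ring
      rw [h8]
      refine mul_le_mul_of_nonneg_left ?_ (by positivity)
      linarith
    have hX0 : XX ν A u 0 = 1 + Real.log (A / ν) := by
      unfold XX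
      have h9 : max (RM u 0) (A ^ 2) = A ^ 2 := by
        refine max_eq_right (RM_le le_rfl fun s hs => ?_)
        have : s = 0 := le_antisymm hs.2 hs.1
        rw [this]
        exact Mx_le hA0
      rw [h9, Real.log_pow, Real.log_div hApos.ne' hν.ne']
      push_cast
      ring
    have hb1 := hX1 b
    calc XX ν A u b = Real.exp (Real.log (XX ν A u b)) := (Real.exp_log (by linarith)).symm
      _ ≤ Real.exp (Real.log (XX ν A u 0) + Q) := Real.exp_le_exp.2 (by linarith)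
      _ = XX ν A u 0 * Real.exp Q := by
          rw [Real.exp_add, Real.exp_log (by linarith [hX1 0])]
      _ = _ := by rw [hX0]
  have hbd : ∀ t ∈ Ico 0 T, ∀ x, nrm (vort (u t) x)
      ≤ ν * Real.exp ((1 + Real.log (A / ν)) * Real.exp Q - 1) := by
    intro t ht x
    obtain ⟨b, hb1, hb2⟩ := exists_between ht.2
    obtain ⟨L, hL0, hL1, hL2⟩ := Wq_lip h hb2
    have htb : t ∈ Icc 0 b := ⟨ht.1, hb1.le⟩
    have h1 : nrm (vort (u t) x) ^ 2 ≤ max (RM u t) (A ^ 2) := by
      rw [← Wq_eq]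
      exact ((Wq_le_Mx hL1 htb x).trans (Mx_le_RM hL1 ⟨ht.1, le_rfl⟩ hb1.le)).trans
        (le_max_left _ _)
    have hpos : 0 < max (RM u t) (A ^ 2) := lt_of_lt_of_le (by positivity) (le_max_right _ _)
    have h2 : max (RM u t) (A ^ 2) = (ν * Real.exp (XX ν A u t - 1)) ^ 2 := by
      have e1 : XX ν A u t - 1 = Real.log (max (RM u t) (A ^ 2)) / 2 - Real.log ν := by
        unfold XX; ring
      rw [e1, Real.exp_sub, Real.exp_log hν, mul_div_cancel₀ _ hν.ne', ← Real.exp_nat_mul]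
      push_cast
      rw [mul_div_cancel₀ _ (two_ne_zero), Real.exp_log hpos]
    rw [h2] at h1
    have h3 : nrm (vort (u t) x) ≤ ν * Real.exp (XX ν A u t - 1) :=
      (pow_le_pow_iff_left₀ (nrm_nonneg _) (by positivity) two_ne_zero).1 h1
    refine h3.trans (mul_le_mul_of_nonneg_left (Real.exp_le_exp.2 ?_) hν.le)
    linarith [hgrow t ht]
  refine ⟨hbd, ?_⟩
  set B := ν * Real.exp ((1 + Real.log (A / ν)) * Real.exp Q - 1) with hB
  have hB0 : 0 ≤ B := by positivity
  have hens : ∀ t ∈ Ico 0 T, enstrophy (u t) ≤ B ^ 2 := by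
    intro t ht
    refine enstrophy_le (fun i => h.sp ht i) (h.divfree t ht) fun x => ?_
    have := hbd t ht x
    have := nrm_nonneg (vort (u t) x)
    gcongr
  refine (h.gron hν (g := fun _ => D * B ^ 4 / ν ^ 3) (B := D * B ^ 4 / ν ^ 3 * max T 0) (δ := 1)
    one_pos (fun _ _ => by positivity) (fun t _ => by simp) (fun t ht => ?_)
    fun s hs => ?_).2
  · rw [intervalIntegral.integral_const, smul_eq_mul, sub_zero, mul_comm]
    refine mul_le_mul_of_nonneg_left ?_ (by positivity)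
    exact ht.2.le.trans (le_max_left _ _)
  · have hsI : s ∈ Ico 0 T := ⟨hs.1.le, hs.2⟩
    have h1 := hD ν (u s) hν (fun i => h.sp hsI i)
    have h2 := hens s hsI
    have h3 := enstrophy_nonneg (u s)
    have h4 : D * enstrophy (u s) ^ 3 / ν ^ 3 ≤ D * B ^ 4 / ν ^ 3 * enstrophy (u s) := by
      have h5 : enstrophy (u s) ^ 2 ≤ (B ^ 2) ^ 2 := by gcongr
      have h6 := mul_le_mul_of_nonneg_right h5 h3
      have h7 : D * enstrophy (u s) ^ 3 / ν ^ 3 = D / ν ^ 3 * (enstrophy (u s) ^ 2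
        * enstrophy (u s)) := by ring
      have h8 : D * B ^ 4 / ν ^ 3 * enstrophy (u s) = D / ν ^ 3 * ((B ^ 2) ^ 2
        * enstrophy (u s)) := by ring
      rw [h7, h8]
      exact mul_le_mul_of_nonneg_left h6 (by positivity)
    linarith

end Pool.Agent.W786.One
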