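import Pool.Agent.W786.One7

/-!
# Averages over small balls: general form
-/

open MeasureTheory Set Filter
open scoped ENNReal NNReal Topology

namespace Pool.Agent.W786.St

open Pool.Agent.H708R2.EulerSign Pool.Agent.H708R2.EulerTypeI Pool.Agent.W786.Dir
  Pool.Agent.W786.One
open H459R3.NS (cube pd SP Per lap)

/-- A pair of functions like `|f|²` and `|∇f|²`. -/
structure FH (F H : V → ℝ) : Prop where
  cF : ContDiff ℝ 1 F
  cH : Continuous H
  F0 : ∀ x, 0 ≤ F x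
  H0 : ∀ x, 0 ≤ H x
  pF : Per F
  pH : Per H
  der : ∀ x z, |fderiv ℝ F x z| ≤ 2 * (Real.sqrt (F x) * (nrm z * Real.sqrt (H x)))

/-- Sums of squares. -/
lemma fh_family {ι : Type} [Fintype ι] {f : ι → V → ℝ} (hf : ∀ a, SP (f a)) :
    FH (fun x => ∑ a, f a x ^ 2) (fun x => ∑ a, ∑ l, pd l (f a) x ^ 2) where
  cF := ContDiff.sum fun a _ => ((hf a).smooth.of_le (by norm_cast)).pow 2
  cH := continuous_finsetSum _ fun a _ => continuous_finsetSum _ fun l _ =>
    ((hf a).pd l).cont.pow 2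
  F0 := fun _ => Finset.sum_nonneg fun _ _ => sq_nonneg _
  H0 := fun _ => Finset.sum_nonneg fun _ _ => Finset.sum_nonneg fun _ _ => sq_nonneg _
  pF := fun k x => Finset.sum_congr rfl fun a _ => by rw [(hf a).per k x]
  pH := fun k x => Finset.sum_congr rfl fun a _ => Finset.sum_congr rfl fun l _ => by
    rw [((hf a).pd l).per k x]
  der := fun x z => by
    have h1 : HasFDerivAt (fun x => ∑ a, f a x ^ 2) (∑ a, (2 * f a x) • fderiv ℝ (f a) x) x := by
      refine HasFDerivAt.fun_sum fun a _ => ?_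
      have := ((hf a).diff x).hasFDerivAt.pow 2
      refine this.congr_fderiv ?_
      ext w
      simp
    rw [h1.fderiv]
    simp only [FunLike.coe_sum, Finset.sum_apply, FunLike.coe_smul, Pi.smul_apply, smul_eq_mul]
    have e : ∑ a, 2 * f a x * fderiv ℝ (f a) x z = 2 * ∑ a, f a x * fderiv ℝ (f a) x z := by
      rw [Finset.mul_sum]
      exact Finset.sum_congr rfl fun a _ => by ring
    rw [e, abs_mul, abs_of_pos (by norm_num : (0 : ℝ) < 2)]
    refine mul_le_mul_of_nonneg_left ?_ (by norm_num)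
    have h0 : 0 ≤ ∑ a, f a x ^ 2 := Finset.sum_nonneg fun _ _ => sq_nonneg _
    rw [← Real.sqrt_sq (nrm_nonneg z), ← Real.sqrt_mul (sq_nonneg _), ← Real.sqrt_mul h0]
    refine Real.abs_le_sqrt ((Finset.sum_mul_sq_le_sq_mul_sq _ _ _).trans ?_)
    refine mul_le_mul_of_nonneg_left ?_ h0
    rw [Finset.mul_sum]
    refine Finset.sum_le_sum fun a _ => ?_
    have h2 : fderiv ℝ (f a) x z = ∑ l, z l * pd l (f a) x := by
      conv_lhs => rw [show z = ∑ k, z k • (Pi.single k 1 : V) by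
        ext i; simp [Finset.sum_apply, Pi.single_apply]]
      rw [map_sum]
      refine Finset.sum_congr rfl fun k _ => ?_
      rw [map_smul, smul_eq_mul]
      rfl
    rw [h2]
    refine (Finset.sum_mul_sq_le_sq_mul_sq _ _ _).trans (le_of_eq ?_)
    rw [nrm_sq]
    simp only [dotProduct, sq]

section

variable {F H : V → ℝ} (h : FH F H) {Y Z : ℝ} (hY : ∫ x in cube, F x ≤ Y)
  (hZ : ∫ x in cube, H x ≤ Z) {x₀ : V}

include h in
lemma avF_nonneg (r : ℝ) : 0 ≤ ∫ z, P 2 z * F (x₀ + r • z) :=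
  integral_nonneg fun z => mul_nonneg (P_nonneg _ _) (h.F0 _)

include h in
lemma avF_deriv (r : ℝ) :
    ∃ q', HasDerivAt (fun r : ℝ => ∫ z, P 2 z * F (x₀ + r • z)) q' r ∧
      |q'| ≤ 2 * (Real.sqrt (∫ z, P 2 z * F (x₀ + r • z))
        * Real.sqrt (∫ z, P 2 z * H (x₀ + r • z))) := by
  refine ⟨_, param_deriv (P_cont 2) (P_supp 1) h.cF x₀ r, ?_⟩
  have ca : Continuous fun z : V => Real.sqrt (F (x₀ + r • z)) :=
    (h.cF.continuous.comp (by fun_prop)).sqrt
  have cb : Continuous fun z : V => Real.sqrt (H (x₀ + r • z)) :=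
    (h.cH.comp (by fun_prop)).sqrt
  have h1 := cs (P_cont 2) (P_supp 1) (P_nonneg 2) ca cb
  have e1 : ∀ z : V, Real.sqrt (F (x₀ + r • z)) ^ 2 = F (x₀ + r • z) := fun z =>
    Real.sq_sqrt (h.F0 _)
  have e2 : ∀ z, Real.sqrt (H (x₀ + r • z)) ^ 2 = H (x₀ + r • z) := fun z =>
    Real.sq_sqrt (h.H0 _)
  simp only [e1, e2] at h1
  have h2 : |∫ z, P 2 z * fderiv ℝ F (x₀ + r • z) z|
      ≤ ∫ z, 2 * (P 2 z * (Real.sqrt (F (x₀ + r • z)) * Real.sqrt (H (x₀ + r • z)))) := by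
    rw [← Real.norm_eq_abs]
    refine norm_integral_le_of_norm_le ?_ (Eventually.of_forall fun z => ?_)
    · exact (((P_cont 2).mul (ca.mul cb)).integrable_of_hasCompactSupport
        (P_supp 1).mul_right).const_mul 2
    · rw [Real.norm_eq_abs, abs_mul, abs_of_nonneg (P_nonneg 2 z)]
      have hp := P_nonneg 2 z
      have h3 := h.der (x₀ + r • z) z
      have s1 := Real.sqrt_nonneg (F (x₀ + r • z))
      have s2 := Real.sqrt_nonneg (H (x₀ + r • z))
      rcases lt_or_ge (z ⬝ᵥ z) 1 with hz | hz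
      · have hz1 := (nrm_lt_one hz).le
        have hn := nrm_nonneg z
        calc P 2 z * |fderiv ℝ F (x₀ + r • z) z|
            ≤ P 2 z * (2 * (Real.sqrt (F (x₀ + r • z))
              * (1 * Real.sqrt (H (x₀ + r • z))))) := by
              refine mul_le_mul_of_nonneg_left (h3.trans ?_) hp
              gcongr
          _ = _ := by ring
      · have e : P 2 z = 0 := P_zero_of hz
        rw [e]
        simp
  refine h2.trans ?_
  rw [integral_const_mul]
  exact mul_le_mul_of_nonneg_left h1 (by norm_num)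

include h hY in
lemma avF_le {r : ℝ} (hr : 0 < r) (hr2 : r ≤ 1 / 2) :
    ∫ z, P 2 z * F (x₀ + r • z) ≤ 27 * Y / r ^ 3 := by
  have h := av_le h.cF.continuous h.F0 h.pF 1 x₀ hr hr2
  rw [le_div_iff₀ (by positivity), mul_comm]
  exact h.trans (by linarith)

include h hZ in
lemma avH_le {r : ℝ} (hr : 0 < r) (hr2 : r ≤ 1 / 2) :
    ∫ z, P 2 z * H (x₀ + r • z) ≤ 27 * Z / r ^ 3 := by
  have h := av_le h.cH h.H0 h.pH 1 x₀ hr hr2
  rw [le_div_iff₀ (by positivity), mul_comm]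
  exact h.trans (by linarith)

include h hY hZ in
lemma sqrt_avF_le {r : ℝ} (hr : 0 < r) (hr2 : r ≤ 1 / 2) :
    Real.sqrt (∫ z, P 2 z * F (x₀ + r • z))
      ≤ Real.sqrt (216 * Y) + 2 * Real.sqrt (27 * Z) * (Real.sqrt r)⁻¹ := by
  have hY0 : 0 ≤ Y := le_trans (integral_nonneg fun x => h.F0 x) hY
  have hZ0 : 0 ≤ Z := le_trans (integral_nonneg fun x => h.H0 x) hZ
  set q : ℝ → ℝ := fun r => ∫ z, P 2 z * F (x₀ + r • z) with hq
  have hq0 : ∀ s, 0 ≤ q s := fun s => avF_nonneg h s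
  have key : ∀ ε : ℝ, 0 < ε → Real.sqrt (q r)
      ≤ Real.sqrt (216 * Y + ε) + 2 * Real.sqrt (27 * Z) * (Real.sqrt r)⁻¹ := by
    intro ε hε
    set c := Real.sqrt (27 * Z) with hc
    set φ : ℝ → ℝ := fun s => Real.sqrt (q s + ε) - 2 * c * (Real.sqrt s)⁻¹ with hφ
    have hpos : ∀ s, 0 < q s + ε := fun s => by have := hq0 s; linarith
    have hd : ∀ s : ℝ, 0 < s → s ≤ 1 / 2 → ∃ d, 0 ≤ d ∧ HasDerivAt φ d s := by
      intro s hs hs2
      obtain ⟨q', hq', hq'b⟩ := avF_deriv (x₀ := x₀) h s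
      have h1 : HasDerivAt (fun s => Real.sqrt (q s + ε))
          (q' / (2 * Real.sqrt (q s + ε))) s := (hq'.add_const ε).sqrt (hpos s).ne'
      refine ⟨_, ?_, h1.sub ((inv_sqrt_deriv hs).const_mul (2 * c))⟩
      have hQ := Real.sqrt_pos.2 (hpos s)
      have h2 : Real.sqrt (q s) ≤ Real.sqrt (q s + ε) := Real.sqrt_le_sqrt (by linarith)
      have h3 : Real.sqrt (∫ z, P 2 z * H (x₀ + s • z)) ≤ c / (s * Real.sqrt s) := by
        refine (Real.sqrt_le_sqrt (avH_le h hZ hs hs2)).trans (le_of_eq ?_)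
        rw [Real.sqrt_div (by positivity), ← hc]
        congr 1
        rw [show s ^ 3 = s ^ 2 * s by ring, Real.sqrt_mul (sq_nonneg s), Real.sqrt_sq hs.le]
      have h4 : |q' / (2 * Real.sqrt (q s + ε))| ≤ c / (s * Real.sqrt s) := by
        rw [abs_div, abs_of_pos (by positivity : (0 : ℝ) < 2 * Real.sqrt (q s + ε)),
          div_le_iff₀ (by positivity)]
        calc |q'| ≤ 2 * (Real.sqrt (q s)
              * Real.sqrt (∫ z, P 2 z * H (x₀ + s • z))) := hq'b
          _ ≤ 2 * (Real.sqrt (q s + ε) * (c / (s * Real.sqrt s))) := by gcongr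
          _ = _ := by ring
      have h5 := (abs_le.1 h4).1
      have e : 2 * c * -(1 / (2 * (s * Real.sqrt s))) = -(c / (s * Real.sqrt s)) := by
        have := Real.sqrt_pos.2 hs
        field_simp
      rw [e]
      linarith
    have hmono : MonotoneOn φ (Icc r (1 / 2)) := by
      refine monotoneOn_of_deriv_nonneg (convex_Icc _ _) (fun s hs => ?_) (fun s hs => ?_)
        (fun s hs => ?_)
      · obtain ⟨d, -, hd'⟩ := hd s (hr.trans_le hs.1) hs.2
        exact hd'.continuousAt.continuousWithinAt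
      · rw [interior_Icc] at hs
        obtain ⟨d, -, hd'⟩ := hd s (hr.trans hs.1) hs.2.le
        exact hd'.differentiableAt.differentiableWithinAt
      · rw [interior_Icc] at hs
        obtain ⟨d, hd0, hd'⟩ := hd s (hr.trans hs.1) hs.2.le
        rw [hd'.deriv]
        exact hd0
    have h6 := hmono ⟨le_rfl, hr2⟩ ⟨hr2, le_rfl⟩ hr2
    simp only [hφ] at h6
    have h7 : Real.sqrt (q (1 / 2) + ε) ≤ Real.sqrt (216 * Y + ε) := by
      refine Real.sqrt_le_sqrt ?_
      have : q (1 / 2) ≤ _ := avF_le (x₀ := x₀) h hY (r := 1 / 2) (by norm_num) le_rfl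
      norm_num at this
      norm_num
      linarith
    have h8 : Real.sqrt (q r) ≤ Real.sqrt (q r + ε) := Real.sqrt_le_sqrt (by linarith)
    have h9 : 0 ≤ 2 * c * (Real.sqrt (1 / 2))⁻¹ := by positivity
    linarith
  have hlim : Tendsto (fun ε : ℝ => Real.sqrt (216 * Y + ε)
      + 2 * Real.sqrt (27 * Z) * (Real.sqrt r)⁻¹) (𝓝[>] 0)
      (𝓝 (Real.sqrt (216 * Y + 0) + 2 * Real.sqrt (27 * Z) * (Real.sqrt r)⁻¹)) := by
    have h1 : Continuous fun ε : ℝ => Real.sqrt (216 * Y + ε)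
      + 2 * Real.sqrt (27 * Z) * (Real.sqrt r)⁻¹ := by fun_prop
    exact (h1.tendsto 0).mono_left nhdsWithin_le_nhds
  rw [add_zero] at hlim
  refine ge_of_tendsto hlim ?_
  filter_upwards [self_mem_nhdsWithin] with ε hε
  exact key ε hε

include h in
/-- The average of the square root. -/
lemma avR_le (r : ℝ) : ∫ z, P 2 z * Real.sqrt (F (x₀ + r • z))
    ≤ Real.sqrt (∫ z, P 2 z) * Real.sqrt (∫ z, P 2 z * F (x₀ + r • z)) := by
  have cb : Continuous fun z : V => Real.sqrt (F (x₀ + r • z)) :=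
    (h.cF.continuous.comp (by fun_prop)).sqrt
  have h1 := cs (P_cont 2) (P_supp 1) (P_nonneg 2) (continuous_const (y := (1 : ℝ))) cb
  have e1 : ∀ z : V, Real.sqrt (F (x₀ + r • z)) ^ 2 = F (x₀ + r • z) := fun z =>
    Real.sq_sqrt (h.F0 _)
  simp only [one_pow, mul_one, one_mul, e1] at h1
  exact h1

/-- Growth of averages, small radii: if `|A'(r)| ≤ ∫ P₂ √F(x₀ + r z) dz` then
`|A(0) - A(s)| ≤ c (√Y s + √Z √s)`. -/
lemma small {A : ℝ → ℝ} (h : FH F H) (hY : ∫ x in cube, F x ≤ Y) (hZ : ∫ x in cube, H x ≤ Z)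
    (hA : ∀ r, ∃ d, HasDerivAt A d r ∧ |d| ≤ ∫ z, P 2 z * Real.sqrt (F (x₀ + r • z)))
    {s : ℝ} (hs : 0 ≤ s) (hs2 : s ≤ 1 / 2) :
    A 0 ≤ A s + Real.sqrt (∫ z, P 2 z) * (Real.sqrt (216 * Y) * s
      + 4 * Real.sqrt (27 * Z) * Real.sqrt s) := by
  set c2 := Real.sqrt (∫ z, P 2 z) with hc2
  set B : ℝ → ℝ := fun s => A s + c2 * (Real.sqrt (216 * Y) * s
      + 4 * Real.sqrt (27 * Z) * Real.sqrt s) with hB
  have hBd : ∀ t : ℝ, 0 < t → t ≤ 1 / 2 → ∃ d, 0 ≤ d ∧ HasDerivAt B d t := by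
    intro t ht ht2
    have hst := Real.sqrt_pos.2 ht
    obtain ⟨d, hd, hdb⟩ := hA t
    have h1 : HasDerivAt B _ t := hd.add
      ((((hasDerivAt_id t).const_mul (Real.sqrt (216 * Y))).add
        ((Real.hasDerivAt_sqrt ht.ne').const_mul (4 * Real.sqrt (27 * Z)))).const_mul c2)
    refine ⟨_, ?_, h1⟩
    have h2 := (avR_le (x₀ := x₀) h t).trans
      (mul_le_mul_of_nonneg_left (sqrt_avF_le h hY hZ ht ht2) (Real.sqrt_nonneg _))
    have h3 := (abs_le.1 hdb).1
    have h4 : c2 * (Real.sqrt (216 * Y) * 1 + 4 * Real.sqrt (27 * Z) * (1 / (2 * Real.sqrt t)))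
        = c2 * (Real.sqrt (216 * Y) + 2 * Real.sqrt (27 * Z) * (Real.sqrt t)⁻¹) := by
      field_simp
      ring
    rw [h4]
    linarith
  have hBc : ContinuousOn B (Icc 0 s) := by
    have c1 : Continuous A := continuous_iff_continuousAt.2 fun t => by
      obtain ⟨d, hd, -⟩ := hA t
      exact hd.continuousAt
    have : Continuous B := by
      simp only [hB]
      fun_prop
    exact this.continuousOn
  have hmono : MonotoneOn B (Icc 0 s) := by
    refine monotoneOn_of_deriv_nonneg (convex_Icc _ _) hBc (fun t ht => ?_) (fun t ht => ?_)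
    · rw [interior_Icc] at ht
      obtain ⟨d, -, hd'⟩ := hBd t ht.1 (ht.2.le.trans hs2)
      exact hd'.differentiableAt.differentiableWithinAt
    · rw [interior_Icc] at ht
      obtain ⟨d, hd0, hd'⟩ := hBd t ht.1 (ht.2.le.trans hs2)
      rw [hd'.deriv]
      exact hd0
  have h6 := hmono ⟨le_rfl, hs⟩ ⟨hs, le_rfl⟩ hs
  have h7 : B 0 = A 0 := by simp [hB]
  rw [h7] at h6
  exact h6

/-- Growth of averages, large radii. -/
lemma large {A : ℝ → ℝ} (h : FH F H) (hY : ∫ x in cube, F x ≤ Y)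
    (hA : ∀ r, ∃ d, HasDerivAt A d r ∧ |d| ≤ ∫ z, P 2 z * Real.sqrt (F (x₀ + r • z)))
    {s : ℝ} (hs : 0 < s) (hs2 : s ≤ 1 / 2) :
    A s ≤ A (1 / 2) + 2 * Real.sqrt (∫ z, P 2 z) * Real.sqrt (27 * Y) * (Real.sqrt s)⁻¹ := by
  set c2 := Real.sqrt (∫ z, P 2 z) with hc2
  have hY0 : 0 ≤ Y := le_trans (integral_nonneg fun x => h.F0 x) hY
  set B : ℝ → ℝ := fun t => A t - 2 * c2 * Real.sqrt (27 * Y) * (Real.sqrt t)⁻¹ with hB
  have hBd : ∀ t ∈ Icc s (1 / 2), ∃ d, 0 ≤ d ∧ HasDerivAt B d t := by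
    intro t ht
    have ht0 : 0 < t := hs.trans_le ht.1
    have hst := Real.sqrt_pos.2 ht0
    obtain ⟨d, hd, hdb⟩ := hA t
    have h1 : HasDerivAt B _ t := hd.sub ((inv_sqrt_deriv ht0).const_mul
      (2 * c2 * Real.sqrt (27 * Y)))
    refine ⟨_, ?_, h1⟩
    have h3 : Real.sqrt (∫ z, P 2 z * F (x₀ + t • z)) ≤ Real.sqrt (27 * Y) / (t * Real.sqrt t) := by
      refine (Real.sqrt_le_sqrt (avF_le h hY ht0 ht.2)).trans (le_of_eq ?_)
      rw [Real.sqrt_div (by positivity)]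
      congr 1
      rw [show t ^ 3 = t ^ 2 * t by ring, Real.sqrt_mul (sq_nonneg t), Real.sqrt_sq ht0.le]
    have h2 := (avR_le (x₀ := x₀) h t).trans (mul_le_mul_of_nonneg_left h3 (Real.sqrt_nonneg _))
    have h4 := (abs_le.1 hdb).1
    have h5 : 2 * c2 * Real.sqrt (27 * Y) * -(1 / (2 * (t * Real.sqrt t)))
        = -(c2 * (Real.sqrt (27 * Y) / (t * Real.sqrt t))) := by
      field_simp
    rw [h5]
    linarith
  have hmono : MonotoneOn B (Icc s (1 / 2)) := by
    refine monotoneOn_of_deriv_nonneg (convex_Icc _ _) (fun t ht => ?_) (fun t ht => ?_)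
      (fun t ht => ?_)
    · obtain ⟨d, -, hd'⟩ := hBd t ht
      exact hd'.continuousAt.continuousWithinAt
    · obtain ⟨d, -, hd'⟩ := hBd t (interior_subset ht)
      exact hd'.differentiableAt.differentiableWithinAt
    · obtain ⟨d, hd0, hd'⟩ := hBd t (interior_subset ht)
      rw [hd'.deriv]
      exact hd0
  have h6 := hmono ⟨le_rfl, hs2⟩ ⟨hs2, le_rfl⟩ hs2
  simp only [hB] at h6
  have h9 : 0 ≤ 2 * c2 * Real.sqrt (27 * Y) * (Real.sqrt (1 / 2))⁻¹ := by positivity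
  linarith

end

end Pool.Agent.W786.St
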