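import Pool.Agent.W786.St1

/-!
# Small scale bounds
-/

open MeasureTheory Set Filter
open scoped ENNReal NNReal Topology

namespace Pool.Agent.W786.St

open Pool.Agent.H708R2.EulerSign Pool.Agent.H708R2.EulerTypeI Pool.Agent.W786.Dir
  Pool.Agent.W786.One
open H459R3.NS (cube pd SP Per lap enstrophy energy palin third)

section

variable {v : V → V} (hv : ∀ i, SP (fun y => v y i))

/-- The square of the third derivatives. -/
noncomputable def tsq (v : V → V) (x : V) : ℝ :=
  ∑ q : Fin 3 × Fin 3 × Fin 3, ∑ l, pd l (pd q.2.2 (pd q.2.1 (fun y => v y q.1))) x ^ 2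

include hv in
lemma hsq_eq (x : V) : hsq v x
    = ∑ q : Fin 3 × Fin 3 × Fin 3, pd q.2.2 (pd q.2.1 (fun y => v y q.1)) x ^ 2 := by
  unfold hsq
  simp only [Fintype.sum_prod_type]
  refine Finset.sum_congr rfl fun i _ => Finset.sum_congr rfl fun j _ =>
    Finset.sum_congr rfl fun k _ => ?_
  have : (fun x => grad v x i j) = pd j (fun y => v y i) := by
    funext y
    exact grad_eq_pd hv y i j
  rw [this]
  rfl

include hv in
lemma fh_hsq : FH (hsq v) (tsq v) := by
  have h := fh_family (ι := Fin 3 × Fin 3 × Fin 3)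
    (f := fun q => pd q.2.2 (pd q.2.1 (fun y => v y q.1))) fun q => ((hv q.1).pd _).pd _
  have e : hsq v = fun x => ∑ q : Fin 3 × Fin 3 × Fin 3,
      pd q.2.2 (pd q.2.1 (fun y => v y q.1)) x ^ 2 := funext (hsq_eq hv)
  rw [e]
  exact h

include hv in
lemma fh_gsq : FH (gsq v) (hsq v) := by
  have h := fh_family (ι := Fin 3 × Fin 3) (f := fun q => pd q.2 (fun y => v y q.1))
    fun q => (hv q.1).pd _
  have e : gsq v = fun x => ∑ q : Fin 3 × Fin 3, pd q.2 (fun y => v y q.1) x ^ 2 := by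
    funext x
    rw [gsq_eq hv]
    simp only [Fintype.sum_prod_type]
  have e2 : hsq v = fun x => ∑ q : Fin 3 × Fin 3, ∑ l, pd l (pd q.2 (fun y => v y q.1)) x ^ 2 := by
    funext x
    rw [hsq_eq hv]
    simp only [Fintype.sum_prod_type]
  rw [e, e2]
  exact h

include hv in
lemma int_tsq : ∫ x in cube, tsq v x = third v := by
  unfold tsq
  have s : ∀ (q : Fin 3 × Fin 3 × Fin 3) (l : Fin 3),
      SP fun x => pd l (pd q.2.2 (pd q.2.1 (fun y => v y q.1))) x ^ 2 := fun q l =>
    SP.sq ((((hv q.1).pd _).pd _).pd l)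
  rw [integral_finsetSum _ fun q _ => (SP.sum fun l _ => s q l).int]
  have e1 : ∀ q : Fin 3 × Fin 3 × Fin 3,
      ∫ x in cube, ∑ l, pd l (pd q.2.2 (pd q.2.1 (fun y => v y q.1))) x ^ 2
        = ∑ l, ∫ x in cube, pd l (pd q.2.2 (pd q.2.1 (fun y => v y q.1))) x ^ 2 := fun q =>
    integral_finsetSum _ fun l _ => (s q l).int
  simp_rw [e1]
  simp only [Fintype.sum_prod_type]
  unfold third
  rw [Finset.sum_comm]
  conv_rhs => rw [Finset.sum_comm]
  refine Finset.sum_congr rfl fun j _ => ?_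
  have h1 := H459R3.NS.sum_hess (v := fun i => pd j (fun y => v y i)) fun i => (hv i).pd j
  have h2 : ∀ i k l : Fin 3, ∫ x in cube, pd l (pd k (pd j (fun y => v y i))) x ^ 2
      = H459R3.NS.n2 (H459R3.NS.D l (H459R3.NS.D k
        (H459R3.NS.fr (pd j (fun y => v y i))))) ^ 2 := by
    intro i k l
    rw [← H459R3.NS.fr_pd ((hv i).pd j), ← H459R3.NS.fr_pd (((hv i).pd j).pd k),
      H459R3.NS.n2_fr ((((hv i).pd j).pd k).pd l)]
  simp_rw [h2]
  rw [h1]
  refine Finset.sum_congr rfl fun i _ => ?_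
  simp_rw [lap_pd (hv i) j]

include hv in
lemma contDiff_two : ContDiff ℝ 2 v := contDiff_pi.2 fun i => (hv i).smooth.of_le (by norm_cast)

include hv in
/-- The derivative of the averages of the stretching rate. -/
lemma dA_small {e : V} (he : nrm e = 1) (x₀ : V) (r : ℝ) :
    ∃ d, HasDerivAt (Av v e x₀) d r ∧ |d| ≤ ∫ z, P 2 z * Real.sqrt (hsq v (x₀ + r • z)) := by
  have hv2 := contDiff_two hv
  refine ⟨_, Av_deriv hv2 r, ?_⟩
  have cb : Continuous fun z : V => Real.sqrt (hsq v (x₀ + r • z)) :=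
    ((hsq_cont hv2).comp (by fun_prop)).sqrt
  rw [← Real.norm_eq_abs]
  refine norm_integral_le_of_norm_le ?_ (Eventually.of_forall fun z => ?_)
  · exact ((P_cont 2).mul cb).integrable_of_hasCompactSupport (P_supp 1).mul_right
  rw [Real.norm_eq_abs, abs_mul, abs_of_nonneg (P_nonneg 3 z)]
  rcases lt_or_ge (z ⬝ᵥ z) 1 with hz | hz
  · have hz1 := (nrm_lt_one hz).le
    have hn := nrm_nonneg z
    have h1 : |fderiv ℝ (rate v e) (x₀ + r • z) z| ≤ Real.sqrt (hsq v (x₀ + r • z)) := by
      rw [rate_fderiv hv2]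
      set x := x₀ + r • z with hx
      have e1 : ∑ i, e i * ∑ j, fderiv ℝ (fun x => grad v x i j) x z * e j
          = ∑ i, ∑ j, (e i * e j) * fderiv ℝ (fun x => grad v x i j) x z := by
        refine Finset.sum_congr rfl fun i _ => ?_
        rw [Finset.mul_sum]
        exact Finset.sum_congr rfl fun j _ => by ring
      rw [e1]
      refine (cs2 _ _).trans ?_
      have e2 : Real.sqrt (∑ i, ∑ j, (e i * e j) ^ 2) = 1 := by
        have : ∑ i, ∑ j, (e i * e j) ^ 2 = (nrm e ^ 2) ^ 2 := by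
          rw [nrm_sq, pow_two, dotProduct, Finset.sum_mul_sum]
          refine Finset.sum_congr rfl fun i _ => Finset.sum_congr rfl fun j _ => ?_
          ring
        rw [this, he]
        simp
      rw [e2, one_mul]
      refine Real.sqrt_le_sqrt ?_
      unfold hsq
      refine Finset.sum_le_sum fun i _ => Finset.sum_le_sum fun j _ => ?_
      rw [fderiv_sum_single x z]
      refine (Finset.sum_mul_sq_le_sq_mul_sq _ _ _).trans ?_
      have h2 : ∑ k, z k ^ 2 ≤ 1 := by
        have : ∑ k, z k ^ 2 = nrm z ^ 2 := by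
          rw [nrm_sq]; simp only [dotProduct, sq]
        rw [this]
        exact pow_le_one₀ hn hz1
      exact mul_le_of_le_one_left (Finset.sum_nonneg fun _ _ => sq_nonneg _) h2
    have hP : P 3 z ≤ P 2 z := by
      have h3 : P 3 z = P 2 z * P 1 z := by unfold P; ring
      rw [h3]
      exact mul_le_of_le_one_right (P_nonneg 2 z) (P_le_one 1 z)
    exact mul_le_mul hP h1 (abs_nonneg _) (P_nonneg 2 z)
  · have e0 : P 3 z = 0 := P_zero_of hz
    have e1 : P 2 z = 0 := P_zero_of hz
    rw [e0, e1]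
    simp

end

/-! ### The sup norm -/

section

variable {v : V → V} (hv : ∀ i, SP (fun y => v y i))

include hv in
/-- The sup norm of the velocity in terms of energy, enstrophy and palinstrophy. -/
lemma sup_u {Y Z E : ℝ} (hY : ∫ x in cube, gsq v x ≤ Y) (hZ : ∫ x in cube, hsq v x ≤ Z)
    (hE : ∫ x in cube, vsq v x ≤ E) (i : Fin 3) (x₀ : V) {s : ℝ} (hs : 0 < s) (hs2 : s ≤ 1 / 2) :
    (∫ z, P 3 z) * |v x₀ i| ≤ 24 * Real.sqrt (∫ z, P 2 z) * (Real.sqrt E
      + Real.sqrt Y * s + Real.sqrt Z * Real.sqrt s + Real.sqrt Y * (Real.sqrt s)⁻¹) := by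
  have hv2 := contDiff_two hv
  have hfh := fh_gsq hv
  set c2 := Real.sqrt (∫ z, P 2 z) with hc2
  have hc20 : 0 ≤ c2 := Real.sqrt_nonneg _
  have hY0 : 0 ≤ Y := le_trans (integral_nonneg fun x => gsq_nonneg v x) hY
  have hZ0 : 0 ≤ Z := le_trans (integral_nonneg fun x => hsq_nonneg v x) hZ
  have hE0 : 0 ≤ E := le_trans (integral_nonneg fun x => vsq_nonneg v x) hE
  have hss := Real.sqrt_pos.2 hs
  -- for both signs
  have key : ∀ ε : ℝ, |ε| = 1 → (∫ z, P 3 z) * (ε * v x₀ i) ≤ 24 * c2 * (Real.sqrt E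
      + Real.sqrt Y * s + Real.sqrt Z * Real.sqrt s + Real.sqrt Y * (Real.sqrt s)⁻¹) := by
    intro ε hε
    set f : V → ℝ := fun y => ε * v y i with hf
    have cf : ContDiff ℝ 1 f := contDiff_const.mul ((hv i).smooth.of_le (by norm_cast))
    set A : ℝ → ℝ := fun r => ∫ z, P 3 z * f (x₀ + r • z) with hA
    have hAd : ∀ r, ∃ d, HasDerivAt A d r ∧
        |d| ≤ ∫ z, P 2 z * Real.sqrt (gsq v (x₀ + r • z)) := by
      intro r
      refine ⟨_, param_deriv (P_cont 3) (P_supp 2) cf x₀ r, ?_⟩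
      have cb : Continuous fun z : V => Real.sqrt (gsq v (x₀ + r • z)) :=
        ((gsq_contDiff hv2).continuous.comp (by fun_prop)).sqrt
      rw [← Real.norm_eq_abs]
      refine norm_integral_le_of_norm_le ?_ (Eventually.of_forall fun z => ?_)
      · exact ((P_cont 2).mul cb).integrable_of_hasCompactSupport (P_supp 1).mul_right
      rw [Real.norm_eq_abs, abs_mul, abs_of_nonneg (P_nonneg 3 z)]
      rcases lt_or_ge (z ⬝ᵥ z) 1 with hz | hz
      · have hz1 := (nrm_lt_one hz).le
        have hn := nrm_nonneg z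
        have h1 : |fderiv ℝ f (x₀ + r • z) z| ≤ Real.sqrt (gsq v (x₀ + r • z)) := by
          set x := x₀ + r • z with hx
          have e1 : fderiv ℝ f x z = ε * ∑ k, z k * pd k (fun y => v y i) x := by
            have h2 : HasFDerivAt f (ε • fderiv ℝ (fun y => v y i) x) x :=
              ((hv i).diff x).hasFDerivAt.const_mul ε
            rw [h2.fderiv]
            show ε * fderiv ℝ (fun y => v y i) x z = _
            rw [fderiv_sum_single x z]
            rfl
          rw [e1, abs_mul, hε, one_mul]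
          refine Real.abs_le_sqrt ((Finset.sum_mul_sq_le_sq_mul_sq _ _ _).trans ?_)
          have h2 : ∑ k, z k ^ 2 ≤ 1 := by
            have : ∑ k, z k ^ 2 = nrm z ^ 2 := by
              rw [nrm_sq]; simp only [dotProduct, sq]
            rw [this]
            exact pow_le_one₀ hn hz1
          refine (mul_le_of_le_one_left (Finset.sum_nonneg fun _ _ => sq_nonneg _) h2).trans ?_
          rw [gsq_eq hv]
          exact Finset.single_le_sum (f := fun i => ∑ j, pd j (fun y => v y i) x ^ 2)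
            (fun _ _ => Finset.sum_nonneg fun _ _ => sq_nonneg _) (Finset.mem_univ i)
        have hP : P 3 z ≤ P 2 z := by
          have h3 : P 3 z = P 2 z * P 1 z := by unfold P; ring
          rw [h3]
          exact mul_le_of_le_one_right (P_nonneg 2 z) (P_le_one 1 z)
        exact mul_le_mul hP h1 (abs_nonneg _) (P_nonneg 2 z)
      · have e0 : P 3 z = 0 := P_zero_of hz
        have e1 : P 2 z = 0 := P_zero_of hz
        rw [e0, e1]
        simp
    have h1 := small (x₀ := x₀) hfh hY hZ hAd hs.le hs2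
    have h2 := large (x₀ := x₀) hfh hY hAd hs hs2
    have h3 : A (1 / 2) ≤ c2 * Real.sqrt (216 * E) := by
      have cn : Continuous fun z : V => nrm (v (x₀ + (1 / 2 : ℝ) • z)) :=
        nrm_cont.comp (hv2.continuous.comp (by fun_prop))
      have cf' : Continuous fun z : V => f (x₀ + (1 / 2 : ℝ) • z) :=
        cf.continuous.comp (by fun_prop)
      have i1 : Integrable fun z => P 3 z * f (x₀ + (1 / 2 : ℝ) • z) :=
        ((P_cont 3).mul cf').integrable_of_hasCompactSupport (P_supp 2).mul_right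
      have i2 : Integrable fun z => P 2 z * (1 * nrm (v (x₀ + (1 / 2 : ℝ) • z))) :=
        ((P_cont 2).mul (continuous_const.mul cn)).integrable_of_hasCompactSupport
          (P_supp 1).mul_right
      have h4 : A (1 / 2) ≤ ∫ z, P 2 z * (1 * nrm (v (x₀ + (1 / 2 : ℝ) • z))) := by
        refine integral_mono i1 i2 fun z => ?_
        show P 3 z * f (x₀ + (1 / 2 : ℝ) • z) ≤ P 2 z * (1 * nrm (v (x₀ + (1 / 2 : ℝ) • z)))
        have hP : P 3 z ≤ P 2 z := by
          have h3 : P 3 z = P 2 z * P 1 z := by unfold P; ring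
          rw [h3]
          exact mul_le_of_le_one_right (P_nonneg 2 z) (P_le_one 1 z)
        have h5 : f (x₀ + (1 / 2 : ℝ) • z) ≤ nrm (v (x₀ + (1 / 2 : ℝ) • z)) := by
          refine (le_abs_self _).trans ?_
          simp only [hf]
          rw [abs_mul, hε, one_mul]
          exact abs_le_nrm _ i
        rw [one_mul]
        calc P 3 z * f (x₀ + (1 / 2 : ℝ) • z) ≤ P 3 z * nrm (v (x₀ + (1 / 2 : ℝ) • z)) :=
              mul_le_mul_of_nonneg_left h5 (P_nonneg 3 z)
          _ ≤ _ := mul_le_mul_of_nonneg_right hP (nrm_nonneg _)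
      have h5 := cs (P_cont 2) (P_supp 1) (P_nonneg 2) (continuous_const (y := (1 : ℝ))) cn
      simp only [one_pow, mul_one, ← vsq_eq] at h5
      have hc : Continuous (vsq v) := by
        unfold vsq
        have := hv2.continuous
        fun_prop
      have hpv : Per (vsq v) := by
        intro k x
        unfold vsq
        exact Finset.sum_congr rfl fun j _ => congrArg (fun a : ℝ => a ^ 2) ((hv j).per k x)
      have h6 := av_le hc (vsq_nonneg v) hpv 1 x₀ (r := 1 / 2) (by norm_num) le_rfl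
      have h7 : ∫ z, P 2 z * vsq v (x₀ + (1 / 2 : ℝ) • z) ≤ 216 * E := by
        norm_num at h6 ⊢
        linarith
      exact h4.trans (h5.trans (mul_le_mul_of_nonneg_left (Real.sqrt_le_sqrt h7) hc20))
    have hA0 : A 0 = (∫ z, P 3 z) * (ε * v x₀ i) := by
      simp only [hA, zero_smul, add_zero, hf]
      rw [integral_mul_const]
    rw [hA0] at h1
    have q216 : ∀ X : ℝ, Real.sqrt (216 * X) ≤ 15 * Real.sqrt X := by
      intro X
      rw [Real.sqrt_mul (by norm_num)]
      refine mul_le_mul_of_nonneg_right ?_ (Real.sqrt_nonneg _)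
      rw [Real.sqrt_le_left (by norm_num)]
      norm_num
    have q27 : ∀ X : ℝ, Real.sqrt (27 * X) ≤ 6 * Real.sqrt X := by
      intro X
      rw [Real.sqrt_mul (by norm_num)]
      refine mul_le_mul_of_nonneg_right ?_ (Real.sqrt_nonneg _)
      rw [Real.sqrt_le_left (by norm_num)]
      norm_num
    have t1 : c2 * (Real.sqrt (216 * Y) * s + 4 * Real.sqrt (27 * Z) * Real.sqrt s)
        ≤ c2 * ((15 * Real.sqrt Y) * s + 4 * (6 * Real.sqrt Z) * Real.sqrt s) := by
      have a1 := q216 Y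
      have a2 := q27 Z
      gcongr
    have t2 : 2 * c2 * Real.sqrt (27 * Y) * (Real.sqrt s)⁻¹
        ≤ 2 * c2 * (6 * Real.sqrt Y) * (Real.sqrt s)⁻¹ := by
      have a1 := q27 Y
      gcongr
    have t3 : c2 * Real.sqrt (216 * E) ≤ c2 * (15 * Real.sqrt E) :=
      mul_le_mul_of_nonneg_left (q216 E) hc20
    have p1 : 0 ≤ c2 * Real.sqrt E := by positivity
    have p2 : 0 ≤ c2 * (Real.sqrt Y * s) := by positivity
    have p3 : 0 ≤ c2 * (Real.sqrt Z * Real.sqrt s) := by positivity
    have p4 : 0 ≤ c2 * (Real.sqrt Y * (Real.sqrt s)⁻¹) := by positivity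
    have e1 : c2 * ((15 * Real.sqrt Y) * s + 4 * (6 * Real.sqrt Z) * Real.sqrt s)
        = 15 * (c2 * (Real.sqrt Y * s)) + 24 * (c2 * (Real.sqrt Z * Real.sqrt s)) := by ring
    have e2 : 2 * c2 * (6 * Real.sqrt Y) * (Real.sqrt s)⁻¹
        = 12 * (c2 * (Real.sqrt Y * (Real.sqrt s)⁻¹)) := by ring
    have e3 : c2 * (15 * Real.sqrt E) = 15 * (c2 * Real.sqrt E) := by ring
    have e4 : 24 * c2 * (Real.sqrt E + Real.sqrt Y * s + Real.sqrt Z * Real.sqrt s
        + Real.sqrt Y * (Real.sqrt s)⁻¹) = 24 * (c2 * Real.sqrt E) + 24 * (c2 * (Real.sqrt Y * s))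
        + 24 * (c2 * (Real.sqrt Z * Real.sqrt s)) + 24 * (c2 * (Real.sqrt Y * (Real.sqrt s)⁻¹)) := by
      ring
    rw [e1] at t1
    rw [e2] at t2
    rw [e3] at t3
    rw [e4]
    linarith
  rcases abs_cases (v x₀ i) with ⟨h, -⟩ | ⟨h, -⟩
  · rw [h]
    have := key 1 (by simp)
    rwa [one_mul] at this
  · rw [h]
    have := key (-1) (by simp)
    rwa [neg_one_mul] at this

end

end Pool.Agent.W786.St
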