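import Pool.Agent.W786.St2
import Pool.Agent.H459R3.NS.High2

/-!
# Bounds of the palinstrophy
-/

open MeasureTheory Set Filter
open scoped ENNReal NNReal Topology

namespace Pool.Agent.W786.St

open Pool.Agent.H708R2.EulerSign Pool.Agent.H708R2.EulerTypeI Pool.Agent.W786.Dir
  Pool.Agent.W786.One
open H459R3.NS (cube pd SP Per lap enstrophy energy palin third IsSol enstrophy_nonneg
  energy_nonneg palin_nonneg third_nonneg C4 C4_nonneg)

variable {ν T : ℝ} {u : ℝ → V → V} {p : ℝ → V → ℝ}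

/-- Interpolation. -/
lemma palin_sq_le {v : V → V} (hv : ∀ i, SP (fun y => v y i)) :
    palin v ^ 2 ≤ enstrophy v * third v := by
  have h1 : palin v ≤ ∑ q : Fin 3 × Fin 3, H459R3.NS.nrm (pd q.2 (fun y => v y q.1))
      * H459R3.NS.nrm (pd q.2 (lap (fun y => v y q.1))) := by
    rw [Fintype.sum_prod_type]
    unfold palin
    refine Finset.sum_le_sum fun i _ => ?_
    have e : ∫ x in cube, lap (fun y => v y i) x ^ 2
        = -∑ m, ∫ x in cube, pd m (fun y => v y i) x * pd m (lap (fun y => v y i)) x := by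
      rw [← H459R3.NS.int_lap_mul (hv i) (hv i).lap]
      congr 1
      funext x
      rw [pow_two]
    rw [e, ← Finset.sum_neg_distrib]
    refine Finset.sum_le_sum fun m _ => ?_
    exact (neg_le_abs _).trans (H459R3.NS.abs_int_mul_le ((hv i).pd m).cont ((hv i).lap.pd m).cont)
  have h2 : ∑ q : Fin 3 × Fin 3, H459R3.NS.nrm (pd q.2 (fun y => v y q.1)) ^ 2
      = enstrophy v := by
    rw [Fintype.sum_prod_type]
    unfold enstrophy
    exact Finset.sum_congr rfl fun i _ => Finset.sum_congr rfl fun j _ => H459R3.NS.nrm_sq _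
  have h3 : ∑ q : Fin 3 × Fin 3, H459R3.NS.nrm (pd q.2 (lap (fun y => v y q.1))) ^ 2
      = third v := by
    rw [Fintype.sum_prod_type]
    unfold third
    exact Finset.sum_congr rfl fun i _ => Finset.sum_congr rfl fun j _ => H459R3.NS.nrm_sq _
  rw [← h2, ← h3]
  refine le_trans ?_ (Finset.sum_mul_sq_le_sq_mul_sq _ _ _)
  exact pow_le_pow_left₀ (palin_nonneg v) h1 2

/-- The differential inequality for the palinstrophy. -/
lemma palin_deriv (h : IsSol ν T u p) (hν : 0 < ν) {t : ℝ} (ht : t ∈ Ioo 0 T) {b : ℝ}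
    (hb : ∀ i x, |u t x i| ≤ b) :
    -(2 * ν * third (u t)) - 2 * ∑ i, ∫ x in cube, lap (fun y => u t y i) x
        * lap (H459R3.NS.conv (fun i y => u t y i) i) x
      ≤ -(ν * third (u t)) + 11664 / ν * b ^ 2 * palin (u t) := by
  have hI : t ∈ Ico 0 T := ⟨ht.1.le, ht.2⟩
  set v : Fin 3 → V → ℝ := fun i y => u t y i with hv
  have hsp : ∀ i, SP (v i) := fun i => h.sp hI i
  set P := Real.sqrt (palin (u t)) with hP
  set Z := Real.sqrt (third (u t)) with hZ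
  have hP2 : P ^ 2 = palin (u t) := Real.sq_sqrt (palin_nonneg _)
  have hZ2 : Z ^ 2 = third (u t) := Real.sq_sqrt (third_nonneg _)
  have h1 := H459R3.NS.int_lap_lap_conv (v := v) hsp (b := b) (P := P) (Z := Z) hb
    (fun i => by
      unfold H459R3.NS.nrm
      refine Real.sqrt_le_sqrt ?_
      exact Finset.single_le_sum (f := fun i => ∫ x in cube, lap (v i) x ^ 2)
        (fun _ _ => integral_nonneg fun _ => sq_nonneg _) (Finset.mem_univ i))
    (fun i m => by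
      unfold H459R3.NS.nrm
      refine Real.sqrt_le_sqrt ?_
      have a1 : ∫ x in cube, pd m (lap (v i)) x ^ 2
          ≤ ∑ m, ∫ x in cube, pd m (lap (v i)) x ^ 2 :=
        Finset.single_le_sum (f := fun m => ∫ x in cube, pd m (lap (v i)) x ^ 2)
          (fun _ _ => integral_nonneg fun _ => sq_nonneg _) (Finset.mem_univ m)
      exact a1.trans (Finset.single_le_sum
        (f := fun i => ∑ m, ∫ x in cube, pd m (lap (v i)) x ^ 2)
        (fun _ _ => Finset.sum_nonneg fun _ _ => integral_nonneg fun _ => sq_nonneg _)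
        (Finset.mem_univ i)))
  have h2 := (_root_.abs_le.1 h1).1
  have h3 : 216 * (b * P * Z) ≤ ν * Z ^ 2 + 11664 / ν * b ^ 2 * P ^ 2 := by
    have : 0 ≤ (ν * Z - 108 * b * P) ^ 2 / ν := by positivity
    have e : (ν * Z - 108 * b * P) ^ 2 / ν
        = ν * Z ^ 2 + 11664 / ν * b ^ 2 * P ^ 2 - 216 * (b * P * Z) := by
      field_simp
      ring
    linarith
  rw [hP2] at h3
  rw [← hZ2]
  linarith

/-- The constant in the bound of the velocity. -/
noncomputable def Cv : ℝ := 24 * Real.sqrt (∫ z, P 2 z) / ∫ z, P 3 z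

lemma Cv_nonneg : 0 ≤ Cv := by
  unfold Cv
  have h1 := P_int_pos 2
  exact div_nonneg (by positivity) h1.le

lemma sup_u' {v : V → V} (hv : ∀ i, SP (fun y => v y i)) (i : Fin 3) (x₀ : V) {s : ℝ}
    (hs : 0 < s) (hs2 : s ≤ 1 / 2) :
    |v x₀ i| ≤ Cv * (Real.sqrt (energy v) + Real.sqrt (enstrophy v) * s
      + Real.sqrt (palin v) * Real.sqrt s + Real.sqrt (enstrophy v) * (Real.sqrt s)⁻¹) := by
  have h := sup_u hv (int_gsq hv).le (int_hsq hv).le (int_vsq hv).le i x₀ hs hs2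
  have h3 := P_int_pos 2
  unfold Cv
  rw [div_mul_eq_mul_div, le_div_iff₀ h3, mul_comm]
  exact h

/-- The constant in the bound of the palinstrophy. -/
noncomputable def Cb : ℝ := 46656 * Cv ^ 2

lemma Cb_nonneg : 0 ≤ Cb := by unfold Cb; positivity

/-- The algebra of the next lemma. -/
lemma alg {C m g e π ζ s B : ℝ} (hC : 0 ≤ C) (hm : 1 ≤ m) (hπ : 0 < π)
    (hg : g ≤ m) (he : e ≤ m) (hζ : π ^ 2 ≤ m * ζ) (hs : s = 1 / (2 + (2 * C + 1) * m))
    (hB : B ≤ C * (e + 2 * g / s + π * s)) (hbig : (2 * C * (7 + 4 * C) + 1) * m ^ 3 < π) :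
    -ζ + B * π < 0 := by
  have hm0 : 0 < m := by linarith
  have hden : 0 < 2 + (2 * C + 1) * m := by positivity
  have h1 : 2 * g / s = 2 * g * (2 + (2 * C + 1) * m) := by
    rw [hs]
    field_simp
  have h2 : e + 2 * g / s ≤ (7 + 4 * C) * m ^ 2 := by
    rw [h1]
    have a1 : 2 * g * (2 + (2 * C + 1) * m) ≤ 2 * m * (2 + (2 * C + 1) * m) := by gcongr
    have a2 : m ≤ m ^ 2 := by nlinarith
    have a3 : 2 * m * (2 + (2 * C + 1) * m) = 4 * m + (4 * C + 2) * m ^ 2 := by ring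
    have a4 : (7 + 4 * C) * m ^ 2 = 5 * m ^ 2 + (4 * C + 2) * m ^ 2 := by ring
    rw [a3] at a1
    rw [a4]
    linarith
  have h3 : C * (π * s) ≤ π / (2 * m) := by
    rw [hs, mul_one_div, ← mul_div_assoc, div_le_div_iff₀ hden (by positivity)]
    have a1 : C * π * (2 * m) = π * (2 * C * m) := by ring
    rw [a1]
    refine mul_le_mul_of_nonneg_left ?_ hπ.le
    nlinarith
  have h4 : π ^ 2 / m ≤ ζ := by
    rw [div_le_iff₀ hm0, mul_comm]
    exact hζ
  have h5 : B ≤ C * ((7 + 4 * C) * m ^ 2) + π / (2 * m) := by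
    have a1 : C * (e + 2 * g / s + π * s) = C * (e + 2 * g / s) + C * (π * s) := by ring
    rw [a1] at hB
    have a2 := mul_le_mul_of_nonneg_left h2 hC
    linarith
  have h6 : B * π ≤ (C * ((7 + 4 * C) * m ^ 2) + π / (2 * m)) * π :=
    mul_le_mul_of_nonneg_right h5 hπ.le
  have h7 : C * ((7 + 4 * C) * m ^ 2) < π / (2 * m) := by
    rw [lt_div_iff₀ (by positivity)]
    have a1 : C * ((7 + 4 * C) * m ^ 2) * (2 * m) = 2 * C * (7 + 4 * C) * m ^ 3 := by ring
    rw [a1]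
    have a2 : 0 < m ^ 3 := by positivity
    have a3 : (2 * C * (7 + 4 * C) + 1) * m ^ 3 = 2 * C * (7 + 4 * C) * m ^ 3 + m ^ 3 := by ring
    rw [a3] at hbig
    linarith
  have h8 : (C * ((7 + 4 * C) * m ^ 2) + π / (2 * m)) * π < (π / (2 * m) + π / (2 * m)) * π := by
    gcongr
  have h9 : (π / (2 * m) + π / (2 * m)) * π = π ^ 2 / m := by
    field_simp
    ring
  rw [h9] at h8
  linarith

/-- The palinstrophy decreases when it is large. -/
lemma palin_decr (h : IsSol ν T u p) (hν : 0 < ν) {t : ℝ} (ht : t ∈ Ioo 0 T) {M : ℝ}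
    (hG : enstrophy (u t) ≤ M ^ 2) (hE : energy (u t) ≤ M ^ 2) (hM : ν ≤ M)
    (hP : (2 * Cb * (7 + 4 * Cb) + 1) * (M ^ 6 / ν ^ 4) < palin (u t)) :
    -(2 * ν * third (u t)) - 2 * ∑ i, ∫ x in cube, lap (fun y => u t y i) x
        * lap (H459R3.NS.conv (fun i y => u t y i) i) x < 0 := by
  have hI : t ∈ Ico 0 T := ⟨ht.1.le, ht.2⟩
  have hsp : ∀ i, SP (fun y => u t y i) := fun i => h.sp hI i
  have hM0 : 0 < M := hν.trans_le hM
  have hCb := Cb_nonneg
  have hCv := Cv_nonneg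
  set m := M ^ 2 / ν ^ 2 with hm
  have hm1 : 1 ≤ m := by
    rw [hm, le_div_iff₀ (by positivity), one_mul]
    gcongr
  set s := 1 / (2 + (2 * Cb + 1) * m) with hs
  have hden : 0 < 2 + (2 * Cb + 1) * m := by positivity
  have hs0 : 0 < s := by positivity
  have hs2 : s ≤ 1 / 2 := by
    rw [hs, div_le_div_iff₀ hden (by norm_num)]
    have : 0 ≤ (2 * Cb + 1) * m := by positivity
    linarith
  set G := enstrophy (u t) with hGd
  set Pl := palin (u t) with hPd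
  set E := energy (u t) with hEd
  have hG0 : 0 ≤ G := enstrophy_nonneg _
  have hP0 : 0 ≤ Pl := palin_nonneg _
  have hE0 : 0 ≤ E := energy_nonneg _
  set b := Cv * (Real.sqrt E + Real.sqrt G * s + Real.sqrt Pl * Real.sqrt s
    + Real.sqrt G * (Real.sqrt s)⁻¹) with hb
  have h1 := palin_deriv h hν ht (b := b) fun i x => sup_u' hsp i x hs0 hs2
  have hss := Real.sqrt_pos.2 hs0
  -- the square of the bound
  have hb2 : b ^ 2 ≤ 4 * Cv ^ 2 * (E + 2 * G / s + Pl * s) := by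
    have e1 : Real.sqrt E ^ 2 = E := Real.sq_sqrt hE0
    have e2 : Real.sqrt G ^ 2 = G := Real.sq_sqrt hG0
    have e3 : Real.sqrt Pl ^ 2 = Pl := Real.sq_sqrt hP0
    have e4 : Real.sqrt s ^ 2 = s := Real.sq_sqrt hs0.le
    have key : ∀ a b c d : ℝ, (a + b + c + d) ^ 2 ≤ 4 * (a ^ 2 + b ^ 2 + c ^ 2 + d ^ 2) := by
      intro a b c d
      nlinarith [sq_nonneg (a - b), sq_nonneg (a - c), sq_nonneg (a - d), sq_nonneg (b - c),
        sq_nonneg (b - d), sq_nonneg (c - d)]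
    have h2 := key (Real.sqrt E) (Real.sqrt G * s) (Real.sqrt Pl * Real.sqrt s)
      (Real.sqrt G * (Real.sqrt s)⁻¹)
    rw [mul_pow, mul_pow, mul_pow, inv_pow, e1, e2, e3, e4] at h2
    have h3 : G * s ^ 2 ≤ G / s := by
      rw [div_eq_mul_inv]
      refine mul_le_mul_of_nonneg_left ?_ hG0
      have a1 : s ^ 2 ≤ 1 := pow_le_one₀ hs0.le (by linarith)
      exact a1.trans ((one_le_inv₀ hs0).2 (by linarith))
    have h4 : b ^ 2 = Cv ^ 2 * (Real.sqrt E + Real.sqrt G * s + Real.sqrt Pl * Real.sqrt s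
      + Real.sqrt G * (Real.sqrt s)⁻¹) ^ 2 := by rw [hb, mul_pow]
    rw [h4]
    have h5 : E + G * s ^ 2 + Pl * s + G * s⁻¹ ≤ E + 2 * G / s + Pl * s := by
      have : 2 * G / s = G / s + G * s⁻¹ := by rw [div_eq_mul_inv, div_eq_mul_inv]; ring
      linarith
    calc Cv ^ 2 * (Real.sqrt E + Real.sqrt G * s + Real.sqrt Pl * Real.sqrt s
          + Real.sqrt G * (Real.sqrt s)⁻¹) ^ 2
        ≤ Cv ^ 2 * (4 * (E + 2 * G / s + Pl * s)) := by
          refine mul_le_mul_of_nonneg_left ?_ (sq_nonneg _)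
          linarith
      _ = _ := by ring
  have hPpos : 0 < Pl := lt_of_le_of_lt (by positivity) hP
  have hν2 : 0 < ν ^ 2 := by positivity
  have key := alg (C := Cb) (m := m) (g := G / ν ^ 2) (e := E / ν ^ 2) (π := Pl / ν ^ 2)
    (ζ := third (u t) / ν ^ 2) (s := s) (B := 11664 * (b ^ 2 / ν ^ 2)) hCb hm1 (by positivity)
    (by rw [hm]; gcongr) (by rw [hm]; gcongr) (by
      have h6 := (palin_sq_le hsp).trans (mul_le_mul_of_nonneg_right hG (third_nonneg _))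
      rw [div_pow, hm, div_mul_div_comm, ← pow_two (ν ^ 2)]
      gcongr) hs (by
      have h6 : b ^ 2 / ν ^ 2 ≤ 4 * Cv ^ 2 * (E + 2 * G / s + Pl * s) / ν ^ 2 := by gcongr
      have e1 : Cb * (E / ν ^ 2 + 2 * (G / ν ^ 2) / s + Pl / ν ^ 2 * s)
          = 11664 * (4 * Cv ^ 2 * (E + 2 * G / s + Pl * s) / ν ^ 2) := by
        unfold Cb
        ring
      rw [e1]
      exact mul_le_mul_of_nonneg_left h6 (by norm_num)) (by
      rw [lt_div_iff₀ hν2]
      refine lt_of_le_of_lt (le_of_eq ?_) hP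
      rw [hm]
      field_simp)
  have h7 : -(ν * third (u t)) + 11664 / ν * b ^ 2 * Pl
      = ν ^ 3 * (-(third (u t) / ν ^ 2) + 11664 * (b ^ 2 / ν ^ 2) * (Pl / ν ^ 2)) := by
    field_simp
  have h8 : ν ^ 3 * (-(third (u t) / ν ^ 2) + 11664 * (b ^ 2 / ν ^ 2) * (Pl / ν ^ 2)) < 0 :=
    mul_neg_of_pos_of_neg (by positivity) key
  rw [h7] at h1
  exact h1.trans_lt h8

/-- The constant in the bound of the palinstrophy. -/
noncomputable def Cp : ℝ := 2 * Cb * (7 + 4 * Cb) + 1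

lemma Cp_one : 1 ≤ Cp := by
  have := Cb_nonneg
  unfold Cp
  have : 0 ≤ 2 * Cb * (7 + 4 * Cb) := by positivity
  linarith

/-- Polynomial bound of the palinstrophy. -/
lemma palin_bound (h : IsSol ν T u p) (hν : 0 < ν) {t : ℝ} (ht : t ∈ Ico 0 T) {M : ℝ}
    (hG : ∀ s ∈ Icc 0 t, enstrophy (u s) ≤ M ^ 2) (hE : energy (u 0) ≤ M ^ 2) (hM : ν ≤ M)
    (hP0 : palin (u 0) ≤ M ^ 2) : palin (u t) ≤ Cp * (M ^ 6 / ν ^ 4) := by
  have hM0 : 0 < M := hν.trans_le hM
  have hCp := Cp_one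
  have hm1 : 1 ≤ M ^ 2 / ν ^ 2 := by
    rw [le_div_iff₀ (by positivity), one_mul]
    gcongr
  have hB : M ^ 2 ≤ Cp * (M ^ 6 / ν ^ 4) := by
    have e : M ^ 6 / ν ^ 4 = M ^ 2 * (M ^ 2 / ν ^ 2) ^ 2 := by
      field_simp
    rw [e]
    have h1 : 1 ≤ (M ^ 2 / ν ^ 2) ^ 2 := one_le_pow₀ hm1
    have h2 : M ^ 2 * 1 ≤ M ^ 2 * (M ^ 2 / ν ^ 2) ^ 2 := by gcongr
    have h3 : 1 * (M ^ 2 * (M ^ 2 / ν ^ 2) ^ 2) ≤ Cp * (M ^ 2 * (M ^ 2 / ν ^ 2) ^ 2) := by gcongr
    linarith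
  rcases ht.1.eq_or_lt with h0 | h0
  · rw [← h0]
    exact hP0.trans hB
  refine le_of_forall_pos_le_add fun ε hε => ?_
  have hPc : ContinuousOn (fun s => palin (u s)) (Icc 0 t) :=
    h.palin_continuousOn.mono fun s hs => ⟨hs.1, hs.2.trans_lt ht.2⟩
  -- a starting time
  obtain ⟨a, ha1, ha2, ha3⟩ : ∃ a, 0 < a ∧ a < t ∧ palin (u a) ≤ Cp * (M ^ 6 / ν ^ 4) + ε := by
    have h1 : Tendsto (fun s => palin (u s)) (𝓝[Icc 0 t] 0) (𝓝 (palin (u 0))) :=
      hPc 0 ⟨le_rfl, h0.le⟩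
    have h2 : ∀ᶠ s in 𝓝[Icc 0 t] 0, palin (u s) < palin (u 0) + ε :=
      h1.eventually_lt_const (by linarith)
    have h3 : ∀ᶠ s in 𝓝[Ioo 0 t] (0 : ℝ), palin (u s) < palin (u 0) + ε :=
      h2.filter_mono (nhdsWithin_mono _ Ioo_subset_Icc_self)
    have : (𝓝[Ioo 0 t] (0 : ℝ)).NeBot := by
      rw [nhdsWithin_Ioo_eq_nhdsGT h0]
      infer_instance
    obtain ⟨a, ha⟩ := (h3.and self_mem_nhdsWithin).exists
    exact ⟨a, ha.2.1, ha.2.2, by linarith [ha.1]⟩
  have key := image_le_of_deriv_right_lt_deriv_boundary (f := fun s => palin (u s))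
    (f' := fun s => -(2 * ν * third (u s)) - 2 * ∑ i, ∫ x in cube, lap (fun y => u s y i) x
        * lap (H459R3.NS.conv (fun i y => u s y i) i) x) (a := a) (b := t)
    (hPc.mono (Icc_subset_Icc_left ha1.le))
    (fun s hs => (h.palin_hasDerivAt ⟨ha1.trans_le hs.1, hs.2.trans ht.2⟩).hasDerivWithinAt)
    (B := fun _ => Cp * (M ^ 6 / ν ^ 4) + ε) (B' := fun _ => 0) ha3
    (fun x => hasDerivAt_const x _) (fun s hs hse => by
      have hs' : s ∈ Ioo 0 T := ⟨ha1.trans_le hs.1, hs.2.trans ht.2⟩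
      refine palin_decr h hν hs' (hG s ⟨hs'.1.le, hs.2.le⟩)
        ((h.energy_le hν ⟨hs'.1.le, hs'.2⟩).trans hE) hM ?_
      rw [hse]
      show Cp * (M ^ 6 / ν ^ 4) < Cp * (M ^ 6 / ν ^ 4) + ε
      linarith)
  exact key ⟨ha2.le, le_rfl⟩

end Pool.Agent.W786.St
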