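import Pool.Agent.W786.St3
import Pool.Agent.W786.One8

/-!
# The bound of the stretching rate, strong form
-/

open MeasureTheory Set Filter
open scoped ENNReal NNReal Topology

namespace Pool.Agent.W786.St

open Pool.Agent.H708R2.EulerSign Pool.Agent.H708R2.EulerTypeI Pool.Agent.W786.Dir
  Pool.Agent.W786.One
open H459R3.NS (cube pd SP Per lap enstrophy energy palin third IsSol enstrophy_nonneg
  energy_nonneg palin_nonneg third_nonneg C4 C4_nonneg)

section

variable {v : V → V} (hv : ∀ i, SP (fun y => v y i)) (hdiv : ∀ x, divergence v x = 0)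
  {Y Z E : ℝ} (hY : ∫ x in cube, gsq v x ≤ Y) (hZ : ∫ x in cube, hsq v x ≤ Z)
  {e x₀ : V} {K g ρ : ℝ} (hK : 0 ≤ K) (hg : 0 ≤ g)
  (hρ2 : ρ ≤ 1 / 2)
  (htw : ∀ y, nrm y < ρ → twistE v e x₀ y
    ≤ nrm y ^ 2 * (g + K * nrm y * (1 - Real.log (nrm y)) * gr v (x₀ + y)))

lemma P_int_nonneg : 0 ≤ ∫ z, P 2 z := integral_nonneg fun z => P_nonneg 2 z

include hv hdiv hK hg hρ2 htw in
lemma dA_ge' {r : ℝ} (hr : 0 < r) (hrρ : r ≤ ρ) :
    -(6 * K * (1 - Real.log r) * J v x₀ r + 6 * g * (∫ z, P 2 z) * (1 / r))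
      ≤ ∫ z, P 3 z * fderiv ℝ (rate v e) (x₀ + r • z) z := by
  have hv2 := contDiff_two hv
  have hr1 : r ≤ 1 := by linarith
  have hL : 0 ≤ 1 - Real.log r := by
    have := Real.log_nonpos hr.le hr1
    linarith
  have h1 := rate_formula hv2 hdiv e x₀ r
  have iJ : Integrable fun z => P 2 z * gr v (x₀ + r • z) :=
    ((P_cont 2).mul ((gr_cont hv2).comp (by fun_prop))).integrable_of_hasCompactSupport
      (P_supp 1).mul_right
  have iP : Integrable fun z => P 2 z :=
    (P_cont 2).integrable_of_hasCompactSupport (P_supp 1)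
  have ccr : Continuous fun z : V => vort v (x₀ + r • z) ⬝ᵥ cross z e := by
    have c1 : Continuous fun z : V => vort v (x₀ + r • z) := (vort_cont hv2).comp (by fun_prop)
    have c2 : Continuous fun z : V => cross z e := by
      unfold cross
      refine continuous_pi fun i => ?_
      fin_cases i <;> simp <;> fun_prop
    simp only [dotProduct]
    exact continuous_finsetSum _ fun i _ =>
      ((continuous_apply i).comp c1).mul ((continuous_apply i).comp c2)
  have iF : Integrable fun z => (z ⬝ᵥ e) * P 2 z * (vort v (x₀ + r • z) ⬝ᵥ cross z e) := by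
    have c3 : Continuous fun z : V => z ⬝ᵥ e := by
      simp only [dotProduct]
      fun_prop
    exact ((c3.mul (P_cont 2)).mul ccr).integrable_of_hasCompactSupport
      ((P_supp 1).mul_left).mul_right
  have h2 : -(K * r * (1 - Real.log r) * J v x₀ r + g * ∫ z, P 2 z)
      ≤ ∫ z, (z ⬝ᵥ e) * P 2 z * (vort v (x₀ + r • z) ⬝ᵥ cross z e) := by
    unfold J
    rw [← integral_const_mul, ← integral_const_mul, ← integral_add (iJ.const_mul _)
      (iP.const_mul _), ← integral_neg]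
    refine integral_mono ((iJ.const_mul _).add (iP.const_mul _)).neg iF fun z => ?_
    show -(K * r * (1 - Real.log r) * (P 2 z * gr v (x₀ + r • z)) + g * P 2 z)
      ≤ (z ⬝ᵥ e) * P 2 z * (vort v (x₀ + r • z) ⬝ᵥ cross z e)
    have hp2 := P_nonneg 2 z
    have hgr := gr_nonneg v (x₀ + r • z)
    rcases lt_or_ge (z ⬝ᵥ z) 1 with hz | hz
    · have hz1 := nrm_lt_one hz
      have hn := nrm_nonneg z
      have hy : nrm (r • z) = r * nrm z := by rw [nrm_smul, abs_of_pos hr]
      have h3 := htw (r • z) (by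
        rw [hy]
        calc r * nrm z < r * 1 := mul_lt_mul_of_pos_left hz1 hr
          _ ≤ ρ := by linarith)
      have h4 : twistE v e x₀ (r • z)
          = -(r ^ 2 * ((z ⬝ᵥ e) * (vort v (x₀ + r • z) ⬝ᵥ cross z e))) := by
        unfold twistE
        rw [cross_smul_right, smul_dotProduct, dotProduct_smul, cross_swap e z,
          dotProduct_neg]
        simp only [smul_eq_mul]
        ring
      rw [h4, hy] at h3
      have h5 : (r * nrm z) ^ 3 * (1 - Real.log (r * nrm z)) ≤ r ^ 3 * (1 - Real.log r) := by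
        rcases hn.eq_or_lt with h0 | h0
        · rw [← h0]
          simp only [mul_zero, Real.log_zero, sub_zero, mul_one]
          rw [zero_pow (by norm_num)]
          positivity
        · have := cube_log_le h0 hz1 hr hr1
          calc (r * nrm z) ^ 3 * (1 - Real.log (r * nrm z))
              = r ^ 3 * (nrm z ^ 3 * (1 - Real.log (r * nrm z))) := by ring
            _ ≤ r ^ 3 * (1 - Real.log r) := mul_le_mul_of_nonneg_left this (by positivity)
      have h6 : -(r ^ 2 * ((z ⬝ᵥ e) * (vort v (x₀ + r • z) ⬝ᵥ cross z e)))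
          ≤ r ^ 2 * (K * r * (1 - Real.log r) * gr v (x₀ + r • z) + g) := by
        refine h3.trans ?_
        have a1 : (r * nrm z) ^ 2 * g ≤ r ^ 2 * g := by
          have : (r * nrm z) ^ 2 ≤ r ^ 2 := by
            rw [mul_pow]
            exact mul_le_of_le_one_right (by positivity) (pow_le_one₀ hn hz1.le)
          gcongr
        have a2 : K * ((r * nrm z) ^ 3 * (1 - Real.log (r * nrm z))) * gr v (x₀ + r • z)
            ≤ K * (r ^ 3 * (1 - Real.log r)) * gr v (x₀ + r • z) := by gcongr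
        calc (r * nrm z) ^ 2
              * (g + K * (r * nrm z) * (1 - Real.log (r * nrm z)) * gr v (x₀ + r • z))
            = (r * nrm z) ^ 2 * g
              + K * ((r * nrm z) ^ 3 * (1 - Real.log (r * nrm z))) * gr v (x₀ + r • z) := by ring
          _ ≤ r ^ 2 * g + K * (r ^ 3 * (1 - Real.log r)) * gr v (x₀ + r • z) :=
              add_le_add a1 a2
          _ = _ := by ring
      have h7 : -((z ⬝ᵥ e) * (vort v (x₀ + r • z) ⬝ᵥ cross z e))
          ≤ K * r * (1 - Real.log r) * gr v (x₀ + r • z) + g := by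
        have h8 : r ^ 2 * -((z ⬝ᵥ e) * (vort v (x₀ + r • z) ⬝ᵥ cross z e))
            ≤ r ^ 2 * (K * r * (1 - Real.log r) * gr v (x₀ + r • z) + g) := by linarith
        exact le_of_mul_le_mul_left h8 (by positivity)
      have h9 := mul_le_mul_of_nonneg_left h7 hp2
      have e1 : P 2 z * -((z ⬝ᵥ e) * (vort v (x₀ + r • z) ⬝ᵥ cross z e))
          = -((z ⬝ᵥ e) * P 2 z * (vort v (x₀ + r • z) ⬝ᵥ cross z e)) := by ring
      have e2 : P 2 z * (K * r * (1 - Real.log r) * gr v (x₀ + r • z) + g)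
          = K * r * (1 - Real.log r) * (P 2 z * gr v (x₀ + r • z)) + g * P 2 z := by ring
      rw [e1, e2] at h9
      linarith
    · have e2 : P 2 z = 0 := P_zero_of hz
      rw [e2]
      simp
  have h3 : r * -(6 * K * (1 - Real.log r) * J v x₀ r + 6 * g * (∫ z, P 2 z) * (1 / r))
      ≤ r * ∫ z, P 3 z * fderiv ℝ (rate v e) (x₀ + r • z) z := by
    rw [h1]
    have e1 : r * -(6 * K * (1 - Real.log r) * J v x₀ r + 6 * g * (∫ z, P 2 z) * (1 / r))
        = 6 * -(K * r * (1 - Real.log r) * J v x₀ r + g * ∫ z, P 2 z) := by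
      field_simp
    rw [e1]
    exact mul_le_mul_of_nonneg_left h2 (by norm_num)
  exact le_of_mul_le_mul_left h3 hr

include hv hdiv hY hZ hK hg hρ2 htw in
/-- middle radii -/
lemma Av_mid {a s : ℝ} (ha : 0 < a) (has : a ≤ s) (hsρ : s ≤ ρ) :
    Av v e x₀ a ≤ Av v e x₀ s + 6 * K * Real.sqrt (∫ z, P 2 z)
      * (Real.sqrt (216 * Y) * (2 * s - s * Real.log s)
        + 2 * Real.sqrt (27 * Z) * (6 * Real.sqrt s
          - 4 * (Real.sqrt s * Real.log (Real.sqrt s))))
      + 6 * g * (∫ z, P 2 z) * (Real.log s - Real.log a) := by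
  have hv2 := contDiff_two hv
  have hp : Per v := fun k x => funext fun i => (hv i).per k x
  set c2 := Real.sqrt (∫ z, P 2 z) with hc2
  set I2 := ∫ z, P 2 z with hI2
  set B : ℝ → ℝ := fun s => Av v e x₀ s + 6 * K * c2
      * (Real.sqrt (216 * Y) * (2 * s - s * Real.log s)
        + 2 * Real.sqrt (27 * Z) * (6 * Real.sqrt s
          - 4 * (Real.sqrt s * Real.log (Real.sqrt s))))
      + 6 * g * I2 * Real.log s with hB
  have hBd : ∀ t ∈ Icc a s, ∃ d, 0 ≤ d ∧ HasDerivAt B d t := by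
    intro t htI
    have ht : 0 < t := ha.trans_le htI.1
    have htρ : t ≤ ρ := htI.2.trans hsρ
    have ht2 : t ≤ 1 / 2 := htρ.trans hρ2
    have hst := Real.sqrt_pos.2 ht
    have d1 : HasDerivAt (fun s : ℝ => 2 * s - s * Real.log s) (1 - Real.log t) t := by
      have := ((hasDerivAt_id t).const_mul 2).sub (Real.hasDerivAt_mul_log ht.ne')
      refine this.congr_deriv ?_
      ring
    have d2 : HasDerivAt (fun s : ℝ => 6 * Real.sqrt s
        - 4 * (Real.sqrt s * Real.log (Real.sqrt s)))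
        ((1 - Real.log t) * (Real.sqrt t)⁻¹) t := by
      have e1 := Real.hasDerivAt_sqrt ht.ne'
      have e2 : HasDerivAt (fun s : ℝ => Real.sqrt s * Real.log (Real.sqrt s))
          ((Real.log (Real.sqrt t) + 1) * (1 / (2 * Real.sqrt t))) t :=
        (Real.hasDerivAt_mul_log hst.ne').comp t e1
      refine ((e1.const_mul 6).sub (e2.const_mul 4)).congr_deriv ?_
      rw [Real.log_sqrt ht.le]
      field_simp
      ring
    have h1 : HasDerivAt B _ t := ((Av_deriv hv2 t).add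
      (((d1.const_mul (Real.sqrt (216 * Y))).add (d2.const_mul (2 * Real.sqrt (27 * Z)))).const_mul
        (6 * K * c2))).add ((Real.hasDerivAt_log ht.ne').const_mul (6 * g * I2))
    refine ⟨_, ?_, h1⟩
    have h2 := dA_ge' hv hdiv hK hg hρ2 htw ht htρ
    have h3 := J_le_one (x₀ := x₀) hv2 hp hY hZ ht ht2
    have hL : 0 ≤ 1 - Real.log t := by
      have := Real.log_nonpos ht.le (by linarith : t ≤ 1)
      linarith
    have h4 : 6 * K * (1 - Real.log t) * J v x₀ t ≤ 6 * K * (1 - Real.log t)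
        * (c2 * (Real.sqrt (216 * Y) + 2 * Real.sqrt (27 * Z) * (Real.sqrt t)⁻¹)) := by gcongr
    have h5 : 6 * K * c2 * (Real.sqrt (216 * Y) * (1 - Real.log t)
          + 2 * Real.sqrt (27 * Z) * ((1 - Real.log t) * (Real.sqrt t)⁻¹))
        = 6 * K * (1 - Real.log t)
        * (c2 * (Real.sqrt (216 * Y) + 2 * Real.sqrt (27 * Z) * (Real.sqrt t)⁻¹)) := by ring
    rw [h5, ← one_div t]
    linarith
  have hmono : MonotoneOn B (Icc a s) := by
    refine monotoneOn_of_deriv_nonneg (convex_Icc _ _) (fun t ht => ?_) (fun t ht => ?_)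
      (fun t ht => ?_)
    · obtain ⟨d, -, hd'⟩ := hBd t ht
      exact hd'.continuousAt.continuousWithinAt
    · obtain ⟨d, -, hd'⟩ := hBd t (interior_subset ht)
      exact hd'.differentiableAt.differentiableWithinAt
    · obtain ⟨d, hd0, hd'⟩ := hBd t (interior_subset ht)
      rw [hd'.deriv]
      exact hd0
  have h6 := hmono ⟨le_rfl, has⟩ ⟨has, le_rfl⟩ has
  simp only [hB] at h6
  have hY0 : 0 ≤ Y := le_trans (integral_nonneg fun x => gsq_nonneg v x) hY
  have ha1 : a ≤ 1 := by linarith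
  have hfa : 0 ≤ 6 * K * c2 * (Real.sqrt (216 * Y) * (2 * a - a * Real.log a)
        + 2 * Real.sqrt (27 * Z) * (6 * Real.sqrt a
          - 4 * (Real.sqrt a * Real.log (Real.sqrt a)))) := by
    have f1 := f1_mono le_rfl ha.le ha1
    have f2 := f2_mono le_rfl ha.le ha1
    simp only [mul_zero, zero_mul, sub_zero, Real.sqrt_zero] at f1 f2
    positivity
  linarith

include hv hdiv hY hK hg hρ2 htw in
/-- large radii -/
lemma Av_large' {s : ℝ} (hs : 0 < s) (hsρ : s ≤ ρ) :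
    Av v e x₀ s ≤ Av v e x₀ ρ + 12 * K * (1 - Real.log s) * Real.sqrt (∫ z, P 2 z)
      * Real.sqrt (27 * Y) * (Real.sqrt s)⁻¹
      + 6 * g * (∫ z, P 2 z) * (Real.log ρ - Real.log s) := by
  have hv2 := contDiff_two hv
  have hp : Per v := fun k x => funext fun i => (hv i).per k x
  set c2 := Real.sqrt (∫ z, P 2 z) with hc2
  set I2 := ∫ z, P 2 z with hI2
  have hL : 0 ≤ 1 - Real.log s := by
    have := Real.log_nonpos hs.le (by linarith : s ≤ 1)
    linarith
  have hρ0 : 0 < ρ := hs.trans_le hsρ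
  set B : ℝ → ℝ := fun t => Av v e x₀ t
    - 12 * K * (1 - Real.log s) * c2 * Real.sqrt (27 * Y) * (Real.sqrt t)⁻¹
    + 6 * g * I2 * Real.log t with hB
  have hBd : ∀ t ∈ Icc s ρ, ∃ d, 0 ≤ d ∧ HasDerivAt B d t := by
    intro t ht
    have ht0 : 0 < t := hs.trans_le ht.1
    have hst := Real.sqrt_pos.2 ht0
    have h1 : HasDerivAt B _ t := ((Av_deriv hv2 t).sub ((inv_sqrt_deriv ht0).const_mul
      (12 * K * (1 - Real.log s) * c2 * Real.sqrt (27 * Y)))).add
      ((Real.hasDerivAt_log ht0.ne').const_mul (6 * g * I2))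
    refine ⟨_, ?_, h1⟩
    have h2 := dA_ge' hv hdiv hK hg hρ2 htw ht0 ht.2
    have h3 := J_le_two (x₀ := x₀) hv2 hp hY ht0 (ht.2.trans hρ2)
    have hL1 : 1 - Real.log t ≤ 1 - Real.log s := by
      have := Real.log_le_log hs ht.1
      linarith
    have hL0 : 0 ≤ 1 - Real.log t := by
      have := Real.log_nonpos ht0.le (by linarith [ht.2] : t ≤ 1)
      linarith
    have hJ0 : 0 ≤ J v x₀ t := integral_nonneg fun z => mul_nonneg (P_nonneg _ _) (gr_nonneg _ _)
    have h4 : 6 * K * (1 - Real.log t) * J v x₀ t ≤ 6 * K * (1 - Real.log s)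
        * (c2 * (Real.sqrt (27 * Y) / (t * Real.sqrt t))) := by gcongr
    have h5 : 12 * K * (1 - Real.log s) * c2 * Real.sqrt (27 * Y) * -(1 / (2 * (t * Real.sqrt t)))
        = -(6 * K * (1 - Real.log s) * (c2 * (Real.sqrt (27 * Y) / (t * Real.sqrt t)))) := by
      field_simp
      ring
    rw [h5, ← one_div t]
    linarith
  have hmono : MonotoneOn B (Icc s ρ) := by
    refine monotoneOn_of_deriv_nonneg (convex_Icc _ _) (fun t ht => ?_) (fun t ht => ?_)
      (fun t ht => ?_)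
    · obtain ⟨d, -, hd'⟩ := hBd t ht
      exact hd'.continuousAt.continuousWithinAt
    · obtain ⟨d, -, hd'⟩ := hBd t (interior_subset ht)
      exact hd'.differentiableAt.differentiableWithinAt
    · obtain ⟨d, hd0, hd'⟩ := hBd t (interior_subset ht)
      rw [hd'.deriv]
      exact hd0
  have h6 := hmono ⟨le_rfl, hsρ⟩ ⟨hsρ, le_rfl⟩ hsρ
  simp only [hB] at h6
  have h9 : 0 ≤ 12 * K * (1 - Real.log s) * c2 * Real.sqrt (27 * Y) * (Real.sqrt ρ)⁻¹ := by
    positivity
  linarith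

/-- The absolute constant. -/
noncomputable def Cs : ℝ := 432 * (Real.sqrt (∫ z, P 2 z) + ∫ z, P 2 z) / ∫ z, P 3 z

lemma Cs_nonneg : 0 ≤ Cs := by
  unfold Cs
  have h1 := P_int_pos 2
  have h2 := P_int_nonneg
  exact div_nonneg (by positivity) h1.le

include hv hdiv hY hZ hK hg hρ2 htw in
theorem rate_le' (he : nrm e = 1) (hρ : 0 < ρ) (hE : ∫ x in cube, vsq v x ≤ E) {W : ℝ}
    (hW : ∫ x in cube, tsq v x ≤ W) {σ δ : ℝ} (hσ : 0 < σ)
    (hσ2 : σ ≤ 1 / 2) (hδ : 0 < δ) (hδ2 : δ ≤ 1 / 2) :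
    rate v e x₀ ≤ Cs * (K * (1 - Real.log σ) * (Real.sqrt Y * σ + Real.sqrt Z * Real.sqrt σ
      + Real.sqrt Y * (Real.sqrt σ)⁻¹) + Real.sqrt E / (ρ * (ρ * Real.sqrt ρ))
      + g * -Real.log δ + (Real.sqrt Z * δ + Real.sqrt W * Real.sqrt δ)) := by
  have hv2 := contDiff_two hv
  have hp : Per v := fun k x => funext fun i => (hv i).per k x
  have hY0 : 0 ≤ Y := le_trans (integral_nonneg fun x => gsq_nonneg v x) hY
  have hZ0 : 0 ≤ Z := le_trans (integral_nonneg fun x => hsq_nonneg v x) hZ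
  have hE0 : 0 ≤ E := le_trans (integral_nonneg fun x => vsq_nonneg v x) hE
  have hW0 : 0 ≤ W := le_trans (integral_nonneg fun x => (fh_hsq hv).H0 x) hW
  set c2 := Real.sqrt (∫ z, P 2 z) with hc2
  have hc20 : 0 ≤ c2 := Real.sqrt_nonneg _
  set I2 := ∫ z, P 2 z with hI2
  have hI20 : 0 ≤ I2 := P_int_nonneg
  have hlogσ : Real.log σ ≤ 0 := Real.log_nonpos hσ.le (by linarith)
  have hlogδ : Real.log δ ≤ 0 := Real.log_nonpos hδ.le (by linarith)
  have hlogρ : Real.log ρ ≤ 0 := Real.log_nonpos hρ.le (by linarith)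
  have hL : 0 ≤ 1 - Real.log σ := by linarith
  have hsσ := Real.sqrt_pos.2 hσ
  have hsδ := Real.sqrt_pos.2 hδ
  have hsρ := Real.sqrt_pos.2 hρ
  have q216 : ∀ X : ℝ, Real.sqrt (216 * X) ≤ 15 * Real.sqrt X := by
    intro X
    rw [Real.sqrt_mul (by norm_num)]
    refine mul_le_mul_of_nonneg_right ?_ (Real.sqrt_nonneg _)
    rw [Real.sqrt_le_left (by norm_num)]
    norm_num
  have q27 : ∀ X : ℝ, Real.sqrt (27 * X) ≤ 6 * Real.sqrt X := by
    intro X
    rw [Real.sqrt_mul (by norm_num)]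
    refine mul_le_mul_of_nonneg_right ?_ (Real.sqrt_nonneg _)
    rw [Real.sqrt_le_left (by norm_num)]
    norm_num
  set F1 := 2 * σ - σ * Real.log σ with hF1
  set F2 := 6 * Real.sqrt σ - 4 * (Real.sqrt σ * Real.log (Real.sqrt σ)) with hF2
  have hsmall : ∀ s, 0 ≤ s → s ≤ 1 / 2 → Av v e x₀ 0 ≤ Av v e x₀ s
      + c2 * (Real.sqrt (216 * Z) * s + 4 * Real.sqrt (27 * W) * Real.sqrt s) := fun s hs hs2 =>
    small (x₀ := x₀) (fh_hsq hv) hZ hW (fun r => dA_small hv he x₀ r) hs hs2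
  set T1 := 6 * c2 * Real.sqrt (27 * E) / (ρ * (ρ * Real.sqrt ρ)) with hT1
  set T2 := 6 * K * c2 * (Real.sqrt (216 * Y) * F1 + 2 * Real.sqrt (27 * Z) * F2) with hT2
  set T3 := 12 * K * (1 - Real.log σ) * c2 * Real.sqrt (27 * Y) * (Real.sqrt σ)⁻¹ with hT3
  set T4 := c2 * (Real.sqrt (216 * Z) * δ + 4 * Real.sqrt (27 * W) * Real.sqrt δ) with hT4
  set T5 := 6 * g * I2 * -Real.log δ with hT5
  have w1 : σ * Real.log σ ≤ 0 := mul_nonpos_of_nonneg_of_nonpos hσ.le hlogσ
  have w2 : Real.sqrt σ * Real.log σ ≤ 0 := mul_nonpos_of_nonneg_of_nonpos hsσ.le hlogσ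
  have hF2' : F2 = 6 * Real.sqrt σ - 2 * (Real.sqrt σ * Real.log σ) := by
    rw [hF2, Real.log_sqrt hσ.le]
    ring
  have b10 : 0 ≤ F1 := by
    rw [hF1]
    linarith
  have b20 : 0 ≤ F2 := by
    rw [hF2']
    linarith
  have hT20 : 0 ≤ T2 := by positivity
  have hT30 : 0 ≤ T3 := by positivity
  have hT50 : 0 ≤ T5 := by
    have : 0 ≤ -Real.log δ := by linarith
    positivity
  have hA : Av v e x₀ ρ ≤ T1 := Av_rho (x₀ := x₀) hv2 hp hE he hρ hρ2
  have hglog : 6 * g * I2 * Real.log ρ ≤ 0 :=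
    mul_nonpos_of_nonneg_of_nonpos (by positivity) hlogρ
  have key : Av v e x₀ 0 ≤ T1 + T2 + T3 + T4 + T5 := by
    rcases le_or_gt ρ δ with h | h
    · have h1 := hsmall ρ hρ.le hρ2
      have h2 : c2 * (Real.sqrt (216 * Z) * ρ + 4 * Real.sqrt (27 * W) * Real.sqrt ρ) ≤ T4 := by
        rw [hT4]
        gcongr
      linarith
    · have h1 := hsmall δ hδ.le hδ2
      rcases le_or_gt δ σ with h2 | h2
      · rcases le_or_gt σ ρ with h3 | h3
        · have h4 := Av_mid hv hdiv hY hZ hK hg hρ2 htw hδ h2 h3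
          have h5 := Av_large' hv hdiv hY hK hg hρ2 htw hσ h3
          have e1 : 6 * g * I2 * (Real.log σ - Real.log δ) + 6 * g * I2 * (Real.log ρ - Real.log σ)
              = 6 * g * I2 * Real.log ρ + T5 := by rw [hT5]; ring
          linarith
        · have h4 := Av_mid hv hdiv hY hZ hK hg hρ2 htw hδ h.le le_rfl
          have m1 := f1_mono hρ.le h3.le (by linarith)
          have m2 := f2_mono hρ.le h3.le (by linarith)
          have h5 : 6 * K * c2 * (Real.sqrt (216 * Y) * (2 * ρ - ρ * Real.log ρ)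
              + 2 * Real.sqrt (27 * Z) * (6 * Real.sqrt ρ
                - 4 * (Real.sqrt ρ * Real.log (Real.sqrt ρ)))) ≤ T2 := by
            rw [hT2]
            gcongr
          have e1 : 6 * g * I2 * (Real.log ρ - Real.log δ) = 6 * g * I2 * Real.log ρ + T5 := by
            rw [hT5]; ring
          linarith
      · have h4 := Av_large' hv hdiv hY hK hg hρ2 htw hδ h.le
        have h5 : 12 * K * (1 - Real.log δ) * c2 * Real.sqrt (27 * Y) * (Real.sqrt δ)⁻¹ ≤ T3 := by
          rw [hT3]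
          have a1 : Real.log σ ≤ Real.log δ := Real.log_le_log hσ h2.le
          have a2 : (Real.sqrt δ)⁻¹ ≤ (Real.sqrt σ)⁻¹ :=
            inv_anti₀ hsσ (Real.sqrt_le_sqrt h2.le)
          have a3 : 0 ≤ 1 - Real.log δ := by linarith
          gcongr
        have e1 : 6 * g * I2 * (Real.log ρ - Real.log δ) = 6 * g * I2 * Real.log ρ + T5 := by
          rw [hT5]; ring
        linarith
  have b1 : F1 ≤ 2 * σ * (1 - Real.log σ) := by
    have e0 : 2 * σ * (1 - Real.log σ) = 2 * σ - 2 * (σ * Real.log σ) := by ring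
    rw [hF1, e0]
    linarith
  have b2 : F2 ≤ 6 * Real.sqrt σ * (1 - Real.log σ) := by
    have e0 : 6 * Real.sqrt σ * (1 - Real.log σ)
        = 6 * Real.sqrt σ - 6 * (Real.sqrt σ * Real.log σ) := by ring
    rw [hF2', e0]
    linarith
  set X1 := K * (1 - Real.log σ) * (Real.sqrt Y * σ + Real.sqrt Z * Real.sqrt σ) with hX1
  set X2 := K * (1 - Real.log σ) * (Real.sqrt Y * (Real.sqrt σ)⁻¹) with hX2
  set X3 := Real.sqrt E / (ρ * (ρ * Real.sqrt ρ)) with hX3
  set X4 := g * -Real.log δ with hX4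
  set X5 := Real.sqrt Z * δ + Real.sqrt W * Real.sqrt δ with hX5
  have p1 : 0 ≤ X1 := by positivity
  have p2 : 0 ≤ X2 := by positivity
  have p3 : 0 ≤ X3 := by positivity
  have p4 : 0 ≤ X4 := mul_nonneg hg (by linarith)
  have p5 : 0 ≤ X5 := by positivity
  have t1 : T1 ≤ 36 * (c2 * X3) := by
    rw [hT1, hX3, ← mul_div_assoc, ← mul_div_assoc]
    refine div_le_div_of_nonneg_right ?_ (by positivity)
    have := q27 E
    calc 6 * c2 * Real.sqrt (27 * E) ≤ 6 * c2 * (6 * Real.sqrt E) := by gcongr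
      _ = 36 * (c2 * Real.sqrt E) := by ring
  have t2 : T2 ≤ 432 * (c2 * X1) := by
    have s1 : Real.sqrt (216 * Y) * F1 ≤ (15 * Real.sqrt Y) * (2 * σ * (1 - Real.log σ)) := by
      have := q216 Y
      gcongr
    have s2 : 2 * Real.sqrt (27 * Z) * F2
        ≤ 2 * (6 * Real.sqrt Z) * (6 * Real.sqrt σ * (1 - Real.log σ)) := by
      have := q27 Z
      gcongr
    have s3 : (15 * Real.sqrt Y) * (2 * σ * (1 - Real.log σ))
        + 2 * (6 * Real.sqrt Z) * (6 * Real.sqrt σ * (1 - Real.log σ))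
        ≤ 72 * ((1 - Real.log σ) * (Real.sqrt Y * σ + Real.sqrt Z * Real.sqrt σ)) := by
      have e0 : (15 * Real.sqrt Y) * (2 * σ * (1 - Real.log σ))
        + 2 * (6 * Real.sqrt Z) * (6 * Real.sqrt σ * (1 - Real.log σ))
        = 30 * (Real.sqrt Y * σ * (1 - Real.log σ))
          + 72 * ((1 - Real.log σ) * (Real.sqrt Z * Real.sqrt σ)) := by ring
      have e1 : 72 * ((1 - Real.log σ) * (Real.sqrt Y * σ + Real.sqrt Z * Real.sqrt σ))
        = 72 * (Real.sqrt Y * σ * (1 - Real.log σ))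
          + 72 * ((1 - Real.log σ) * (Real.sqrt Z * Real.sqrt σ)) := by ring
      have : 0 ≤ Real.sqrt Y * σ * (1 - Real.log σ) := by positivity
      rw [e0, e1]
      linarith
    calc T2 ≤ 6 * K * c2 * (72 * ((1 - Real.log σ)
          * (Real.sqrt Y * σ + Real.sqrt Z * Real.sqrt σ))) := by
          rw [hT2]
          refine mul_le_mul_of_nonneg_left ?_ (by positivity)
          linarith
      _ = _ := by rw [hX1]; ring
  have t3 : T3 ≤ 72 * (c2 * X2) := by
    have := q27 Y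
    calc T3 ≤ 12 * K * (1 - Real.log σ) * c2 * (6 * Real.sqrt Y) * (Real.sqrt σ)⁻¹ := by
          rw [hT3]; gcongr
      _ = 72 * (c2 * X2) := by rw [hX2]; ring
  have t4 : T4 ≤ 24 * (c2 * X5) := by
    have a1 := q216 Z
    have a2 := q27 W
    have a3 : 0 ≤ c2 * (Real.sqrt Z * δ) := by positivity
    calc T4 ≤ c2 * ((15 * Real.sqrt Z) * δ + 4 * (6 * Real.sqrt W) * Real.sqrt δ) := by
          rw [hT4]; gcongr
      _ = 15 * (c2 * (Real.sqrt Z * δ)) + 24 * (c2 * (Real.sqrt W * Real.sqrt δ)) := by ring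
      _ ≤ 24 * (c2 * (Real.sqrt Z * δ)) + 24 * (c2 * (Real.sqrt W * Real.sqrt δ)) := by linarith
      _ = _ := by rw [hX5]; ring
  have t5 : T5 = 6 * (I2 * X4) := by rw [hT5, hX4]; ring
  have p6 : 0 ≤ c2 * X1 := mul_nonneg hc20 p1
  have p7 : 0 ≤ c2 * X2 := mul_nonneg hc20 p2
  have p8 : 0 ≤ c2 * X3 := mul_nonneg hc20 p3
  have p9 : 0 ≤ c2 * X4 := mul_nonneg hc20 p4
  have p10 : 0 ≤ c2 * X5 := mul_nonneg hc20 p5
  have p11 : 0 ≤ I2 * X1 := mul_nonneg hI20 p1
  have p12 : 0 ≤ I2 * X2 := mul_nonneg hI20 p2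
  have p13 : 0 ≤ I2 * X3 := mul_nonneg hI20 p3
  have p14 : 0 ≤ I2 * X4 := mul_nonneg hI20 p4
  have p15 : 0 ≤ I2 * X5 := mul_nonneg hI20 p5
  have key2 : Av v e x₀ 0 ≤ 432 * (c2 + I2) * (X1 + X2 + X3 + X4 + X5) := by
    have e1 : 432 * (c2 + I2) * (X1 + X2 + X3 + X4 + X5)
        = 432 * (c2 * X1) + 432 * (c2 * X2) + 432 * (c2 * X3) + 432 * (c2 * X4)
          + 432 * (c2 * X5) + 432 * (I2 * X1) + 432 * (I2 * X2) + 432 * (I2 * X3)
          + 432 * (I2 * X4) + 432 * (I2 * X5) := by ring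
    rw [e1]
    linarith
  have hP3 := P_int_pos 2
  rw [Av_zero] at key2
  have e2 : K * (1 - Real.log σ) * (Real.sqrt Y * σ + Real.sqrt Z * Real.sqrt σ
      + Real.sqrt Y * (Real.sqrt σ)⁻¹) + Real.sqrt E / (ρ * (ρ * Real.sqrt ρ))
      + g * -Real.log δ + (Real.sqrt Z * δ + Real.sqrt W * Real.sqrt δ)
      = X1 + X2 + X3 + X4 + X5 := by
    rw [hX1, hX2, hX3, hX4, hX5]
    ring
  rw [e2]
  unfold Cs
  rw [div_mul_eq_mul_div, le_div_iff₀ hP3, mul_comm]
  exact key2

end

end Pool.Agent.W786.St
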