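import Pool.Agent.W786.St4
import Pool.Agent.W786.One9

/-!
# The differential inequality, strong form
-/

open MeasureTheory Set Filter
open scoped ENNReal NNReal Topology

namespace Pool.Agent.W786.St

open Pool.Agent.H708R2.EulerSign Pool.Agent.H708R2.EulerTypeI Pool.Agent.W786.Dir
  Pool.Agent.W786.One Pool.Agent.W786.Max
open H459R3.NS (cube pd SP Per lap enstrophy energy palin third IsSol enstrophy_nonneg
  energy_nonneg palin_nonneg third_nonneg C4 C4_nonneg)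

variable {ν T : ℝ} {u : ℝ → V → V} {p : ℝ → V → ℝ}

/-- The normalized palinstrophy. -/
noncomputable def pp (ν : ℝ) (u : ℝ → V → V) (t : ℝ) : ℝ := palin (u t) / ν ^ 2

/-- The normalized third derivatives over the square of the palinstrophy. -/
noncomputable def ww (ν : ℝ) (u : ℝ → V → V) (t : ℝ) : ℝ :=
  third (u t) / ν ^ 2 / (1 + pp ν u t) ^ 2

lemma pp_nonneg (t : ℝ) : 0 ≤ pp ν u t := div_nonneg (palin_nonneg _) (sq_nonneg _)

lemma ww_nonneg (t : ℝ) : 0 ≤ ww ν u t :=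
  div_nonneg (div_nonneg (third_nonneg _) (sq_nonneg _)) (sq_nonneg _)

lemma pp_cont (h : IsSol ν T u p) : ContinuousOn (pp ν u) (Ico 0 T) :=
  h.palin_continuousOn.div_const _

lemma third_cont (h : IsSol ν T u p) : ContinuousOn (fun s => third (u s)) (Ico 0 T) := by
  unfold third
  refine continuousOn_finsetSum _ fun i _ => continuousOn_finsetSum _ fun m _ => ?_
  exact H459R3.NS.continuousOn_int (F := fun s x => pd m (lap (fun y => u s y i)) x ^ 2)
    ((H459R3.NS.contDiffOn_pd (f := fun s y => lap (fun y => u s y i) y)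
      (H459R3.NS.contDiffOn_lap (f := fun s y => u s y i) (h.smooth_c i)) m).continuousOn.pow 2)

lemma ww_cont (h : IsSol ν T u p) : ContinuousOn (ww ν u) (Ico 0 T) :=
  ((third_cont h).div_const _).div ((continuousOn_const.add (pp_cont h)).pow 2)
    fun t _ => by have := pp_nonneg (ν := ν) (u := u) t; positivity

/-- A priori bound of the third derivatives. -/
lemma int_ww (h : IsSol ν T u p) (hν : 0 < ν) {t : ℝ} (ht : t ∈ Ico 0 T) :
    ν * ∫ s in (0 : ℝ)..t, ww ν u s ≤ 1 + 23328 * (ν * t) * (energy (u 0) / ν ^ 2 + C4) := by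
  have hsub : Icc 0 t ⊆ Ico 0 T := fun s hs => ⟨hs.1, hs.2.trans_lt ht.2⟩
  have cp := (pp_cont h).mono hsub
  have cw := (ww_cont h).mono hsub
  have hE0 := energy_nonneg (u 0)
  have hC0 := C4_nonneg
  have hpos : ∀ s, 0 < 1 + pp ν u s := fun s => by linarith [pp_nonneg (ν := ν) (u := u) s]
  have hc : ContinuousOn (fun s => -(1 + pp ν u s)⁻¹) (Icc 0 t) :=
    ((continuousOn_const.add cp).inv₀ fun s _ => (hpos s).ne').neg
  set N : ℝ → ℝ := fun s => -(2 * ν * third (u s)) - 2 * ∑ i, ∫ x in cube,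
    lap (fun y => u s y i) x * lap (H459R3.NS.conv (fun i y => u s y i) i) x with hN
  have hder : ∀ s ∈ Ioo 0 t, HasDerivWithinAt (fun s => -(1 + pp ν u s)⁻¹)
      (N s / ν ^ 2 / (1 + pp ν u s) ^ 2) (Ioi s) s := by
    intro s hs
    have h1 := (h.palin_hasDerivAt ⟨hs.1, hs.2.trans ht.2⟩).div_const (ν ^ 2)
    have h2 := ((h1.const_add 1).inv (hpos s).ne').neg
    refine (h2.congr_deriv ?_).hasDerivWithinAt
    rw [pp, neg_div, neg_neg]
  set c := 23328 * ν * (energy (u 0) / ν ^ 2 + C4) with hcd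
  have hφ : ContinuousOn (fun s => -(ν * ww ν u s) + c) (Icc 0 t) :=
    (cw.const_smul ν).neg.add continuousOn_const
  have h1 := intervalIntegral.sub_le_integral_of_hasDeriv_right_of_le ht.1 hc hder
    hφ.integrableOn_Icc (fun s hs => by
      have hs' : s ∈ Ioo 0 T := ⟨hs.1, hs.2.trans ht.2⟩
      have hsI : s ∈ Ico 0 T := ⟨hs.1.le, hs.2.trans ht.2⟩
      have h3 := palin_deriv h hν hs' (b := Real.sqrt (energy (u 0))
        + Real.sqrt C4 * Real.sqrt (palin (u s))) fun i x => h.abs_le hν hsI i x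
      have hP0 := palin_nonneg (u s)
      have h4 : (Real.sqrt (energy (u 0)) + Real.sqrt C4 * Real.sqrt (palin (u s))) ^ 2
          ≤ 2 * (energy (u 0) + C4 * palin (u s)) := by
        have e1 := Real.sq_sqrt hE0
        have e2 := Real.sq_sqrt hC0
        have e3 := Real.sq_sqrt hP0
        have e4 : (Real.sqrt C4 * Real.sqrt (palin (u s))) ^ 2 = C4 * palin (u s) := by
          rw [mul_pow, e2, e3]
        have := sq_nonneg (Real.sqrt (energy (u 0)) - Real.sqrt C4 * Real.sqrt (palin (u s)))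
        have e5 : (Real.sqrt (energy (u 0)) - Real.sqrt C4 * Real.sqrt (palin (u s))) ^ 2
            = 2 * (Real.sqrt (energy (u 0)) ^ 2
              + (Real.sqrt C4 * Real.sqrt (palin (u s))) ^ 2)
              - (Real.sqrt (energy (u 0)) + Real.sqrt C4 * Real.sqrt (palin (u s))) ^ 2 := by
          ring
        rw [e1, e4] at e5
        linarith
      have h5 : N s ≤ -(ν * third (u s))
          + 11664 / ν * (2 * (energy (u 0) + C4 * palin (u s))) * palin (u s) := by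
        refine h3.trans ?_
        gcongr
      have h6 : N s / ν ^ 2 / (1 + pp ν u s) ^ 2
          ≤ (-(ν * third (u s))
          + 11664 / ν * (2 * (energy (u 0) + C4 * palin (u s))) * palin (u s)) / ν ^ 2
            / (1 + pp ν u s) ^ 2 := by gcongr
      refine h6.trans ?_
      have hp0 := pp_nonneg (ν := ν) (u := u) s
      have e1 : (-(ν * third (u s))
          + 11664 / ν * (2 * (energy (u 0) + C4 * palin (u s))) * palin (u s)) / ν ^ 2
            / (1 + pp ν u s) ^ 2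
          = -(ν * ww ν u s) + 23328 * ν * (energy (u 0) / ν ^ 2
              * (pp ν u s / (1 + pp ν u s) ^ 2)
            + C4 * (pp ν u s ^ 2 / (1 + pp ν u s) ^ 2)) := by
        unfold ww pp
        have : 1 + palin (u s) / ν ^ 2 ≠ 0 := (hpos s).ne'
        field_simp
        ring
      rw [e1]
      have h7 : pp ν u s / (1 + pp ν u s) ^ 2 ≤ 1 := by
        rw [div_le_one (by positivity)]
        nlinarith
      have h8 : pp ν u s ^ 2 / (1 + pp ν u s) ^ 2 ≤ 1 := by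
        rw [div_le_one (by positivity)]
        gcongr
        linarith
      have h9 : energy (u 0) / ν ^ 2 * (pp ν u s / (1 + pp ν u s) ^ 2)
            + C4 * (pp ν u s ^ 2 / (1 + pp ν u s) ^ 2) ≤ energy (u 0) / ν ^ 2 * 1 + C4 * 1 := by
        gcongr
      rw [mul_one, mul_one] at h9
      have h10 := mul_le_mul_of_nonneg_left h9 (show 0 ≤ 23328 * ν by positivity)
      show _ ≤ -(ν * ww ν u s) + c
      linarith)
  have i1 : IntervalIntegrable (ww ν u) volume 0 t := cw.intervalIntegrable_of_Icc ht.1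
  have e2 : ∫ s in (0 : ℝ)..t, (-(ν * ww ν u s) + c)
      = -(ν * ∫ s in (0 : ℝ)..t, ww ν u s) + c * t := by
    have i3 : IntervalIntegrable (fun s => -(ν * ww ν u s)) volume 0 t := (i1.const_mul ν).neg
    rw [intervalIntegral.integral_add i3 intervalIntegrable_const,
      intervalIntegral.integral_neg, intervalIntegral.integral_const_mul,
      intervalIntegral.integral_const, smul_eq_mul]
    ring
  rw [e2] at h1
  have h5 : 0 < (1 + pp ν u t)⁻¹ := inv_pos.2 (hpos t)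
  have h6 : 0 < (1 + pp ν u 0)⁻¹ := inv_pos.2 (hpos 0)
  have h7 : (1 + pp ν u t)⁻¹ ≤ 1 := inv_le_one_of_one_le₀ (by
    linarith [pp_nonneg (ν := ν) (u := u) t])
  have e3 : 23328 * (ν * t) * (energy (u 0) / ν ^ 2 + C4) = c * t := by rw [hcd]; ring
  rw [e3]
  linarith

/-- The constant in front of the logarithm. -/
noncomputable def Cl : ℝ := Real.log 4 + 2 * Real.log (2 * Cp) + 12

lemma Cl_nonneg : 0 ≤ Cl := by
  have h1 := Cp_one
  have h2 : 0 ≤ Real.log 4 := Real.log_nonneg (by norm_num)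
  have h3 : 0 ≤ Real.log (2 * Cp) := Real.log_nonneg (by linarith)
  unfold Cl
  positivity

/-- The sum. -/
lemma sum_norm {G P y z : ℝ} (hν : 0 < ν) (hG0 : 0 ≤ G) (hP0 : 0 ≤ P) (hy : y = G / ν ^ 2)
    (hz : z = P / ν ^ 2 / (1 + y) ^ 2) {σ : ℝ} (hσ : σ = 1 / (2 * (1 + y))) :
    Real.sqrt G * σ + Real.sqrt P * Real.sqrt σ + Real.sqrt G * (Real.sqrt σ)⁻¹
      ≤ 3 * (ν * (1 + y + z)) := by
  have hy0 : 0 ≤ y := by rw [hy]; positivity
  have hy1 : 0 < 1 + y := by linarith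
  have hσ0 : 0 < σ := by rw [hσ]; positivity
  have hσ1 : σ ≤ 1 / 2 := by
    rw [hσ, div_le_div_iff₀ (by positivity) (by norm_num)]
    linarith
  have hGs : Real.sqrt G = ν * Real.sqrt y := by
    rw [hy, Real.sqrt_div hG0, Real.sqrt_sq hν.le]
    field_simp
  set ζ := Real.sqrt z with hζ
  have hz0 : 0 ≤ z := by rw [hz]; positivity
  have hPs : Real.sqrt P = ν * (1 + y) * ζ := by
    have : P = (ν * (1 + y)) ^ 2 * z := by rw [hz]; field_simp
    rw [this, Real.sqrt_mul (by positivity), Real.sqrt_sq (by positivity)]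
  set η := Real.sqrt (1 + y) with hη
  have hη1 : 1 ≤ η := by rw [hη, Real.one_le_sqrt]; linarith
  have hη2 : η ^ 2 = 1 + y := Real.sq_sqrt hy1.le
  have hyη : Real.sqrt y ≤ η := Real.sqrt_le_sqrt (by linarith)
  have hs2 : Real.sqrt 2 ≤ 3 / 2 := by rw [Real.sqrt_le_left (by norm_num)]; norm_num
  have hs20 : 0 < Real.sqrt 2 := by positivity
  have hs21 : 1 ≤ Real.sqrt 2 := by rw [Real.one_le_sqrt]; norm_num
  have hσs : Real.sqrt σ = (Real.sqrt 2 * η)⁻¹ := by
    rw [hσ, one_div, Real.sqrt_inv, Real.sqrt_mul (by norm_num)]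
  rw [hσs, inv_inv, hGs, hPs]
  have hsy := Real.sqrt_nonneg y
  have hζ0 : 0 ≤ ζ := Real.sqrt_nonneg _
  have hζ2 : ζ ^ 2 = z := Real.sq_sqrt hz0
  have t1 : ν * Real.sqrt y * σ ≤ ν * (1 / 2 * (1 + y)) := by
    have a1 : Real.sqrt y ≤ 1 + y := by
      rw [← hη2]
      calc Real.sqrt y ≤ η := hyη
        _ = η * 1 := (mul_one _).symm
        _ ≤ η * η := by gcongr
        _ = η ^ 2 := by ring
    have a2 : Real.sqrt y * σ ≤ (1 + y) * (1 / 2) := mul_le_mul a1 hσ1 hσ0.le hy1.le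
    have := mul_le_mul_of_nonneg_left a2 hν.le
    linarith
  have t2 : ν * (1 + y) * ζ * (Real.sqrt 2 * η)⁻¹ ≤ ν * (1 / 2 * (z + (1 + y))) := by
    have e2 : ν * (1 + y) * ζ * (Real.sqrt 2 * η)⁻¹ = ν * (ζ * η * (Real.sqrt 2)⁻¹) := by
      rw [← hη2]
      field_simp
    rw [e2]
    refine mul_le_mul_of_nonneg_left ?_ hν.le
    have a1 : (Real.sqrt 2)⁻¹ ≤ 1 := inv_le_one_of_one_le₀ hs21
    have a2 : ζ * η * (Real.sqrt 2)⁻¹ ≤ ζ * η * 1 := by gcongr
    have a3 := sq_nonneg (ζ - η)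
    have a4 : (ζ - η) ^ 2 = ζ ^ 2 - 2 * (ζ * η) + η ^ 2 := by ring
    rw [a4, hζ2, hη2] at a3
    linarith
  have t3 : ν * Real.sqrt y * (Real.sqrt 2 * η) ≤ ν * (3 / 2 * (1 + y)) := by
    have a1 : Real.sqrt y * (Real.sqrt 2 * η) ≤ η * (3 / 2 * η) := by gcongr
    have h2 : η * (3 / 2 * η) = 3 / 2 * (1 + y) := by rw [← hη2]; ring
    rw [h2] at a1
    have := mul_le_mul_of_nonneg_left a1 hν.le
    linarith
  have t4 : 0 ≤ ν * z := by positivity
  have t5 : 0 ≤ ν * y := by positivity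
  have t6 : ν * (1 / 2 * (1 + y)) = 1 / 2 * ν + 1 / 2 * (ν * y) := by ring
  have t7 : ν * (1 / 2 * (z + (1 + y))) = 1 / 2 * ν + 1 / 2 * (ν * y) + 1 / 2 * (ν * z) := by
    ring
  have t8 : ν * (3 / 2 * (1 + y)) = 3 / 2 * ν + 3 / 2 * (ν * y) := by ring
  have t9 : 3 * (ν * (1 + y + z)) = 3 * ν + 3 * (ν * y) + 3 * (ν * z) := by ring
  rw [t6] at t1
  rw [t7] at t2
  rw [t8] at t3
  rw [t9]
  linarith

/-- The small scales. -/
lemma small_norm {P W q w : ℝ} (hν : 0 < ν) (hP0 : 0 ≤ P) (hW0 : 0 ≤ W) (hq : q = P / ν ^ 2)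
    (hw : w = W / ν ^ 2 / (1 + q) ^ 2) {δ : ℝ} (hδ : δ = (1 / (2 * (1 + q))) ^ 2) :
    Real.sqrt P * δ + Real.sqrt W * Real.sqrt δ ≤ 9 * (ν * (1 + w)) := by
  have hq0 : 0 ≤ q := by rw [hq]; positivity
  have hq1 : 0 < 1 + q := by linarith
  have hw0 : 0 ≤ w := by rw [hw]; positivity
  have hd0 : 0 < 1 / (2 * (1 + q)) := by positivity
  have hd1 : 1 / (2 * (1 + q)) ≤ 1 / 2 := by
    rw [div_le_div_iff₀ (by positivity) (by norm_num)]
    linarith
  have hδs : Real.sqrt δ = 1 / (2 * (1 + q)) := by rw [hδ]; exact Real.sqrt_sq hd0.le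
  have hPq : Real.sqrt P = ν * Real.sqrt q := by
    rw [hq, Real.sqrt_div hP0, Real.sqrt_sq hν.le]
    field_simp
  have hWq : Real.sqrt W = ν * (1 + q) * Real.sqrt w := by
    have : W = (ν * (1 + q)) ^ 2 * w := by rw [hw]; field_simp
    rw [this, Real.sqrt_mul (by positivity), Real.sqrt_sq (by positivity)]
  have hsq : Real.sqrt q ≤ 1 + q := by
    rw [Real.sqrt_le_left (by linarith)]
    nlinarith
  have hsw : Real.sqrt w ≤ 1 + w := by
    rw [Real.sqrt_le_left (by linarith)]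
    nlinarith
  have a1 : Real.sqrt P * δ ≤ ν * 1 := by
    rw [hPq, mul_assoc]
    refine mul_le_mul_of_nonneg_left ?_ hν.le
    calc Real.sqrt q * δ ≤ (1 + q) * δ := mul_le_mul_of_nonneg_right hsq (by rw [hδ]; positivity)
      _ = 1 / (2 * (1 + q)) * (1 / 2) := by rw [hδ]; field_simp
      _ ≤ 1 / 2 * (1 / 2) := mul_le_mul_of_nonneg_right hd1 (by norm_num)
      _ ≤ 1 := by norm_num
  have a2 : Real.sqrt W * Real.sqrt δ ≤ ν * (1 + w) := by
    rw [hWq, hδs]
    have e3 : ν * (1 + q) * Real.sqrt w * (1 / (2 * (1 + q))) = ν * (Real.sqrt w / 2) := by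
      field_simp
    rw [e3]
    refine mul_le_mul_of_nonneg_left ?_ hν.le
    have := Real.sqrt_nonneg w
    linarith
  have a3 : 0 ≤ ν * w := by positivity
  have a4 : ν * (1 + w) = ν + ν * w := by ring
  rw [a4] at a2 ⊢
  linarith

/-- The energy term. -/
lemma energy_norm (E : ℝ) {r : ℝ} (hr : 0 < r) :
    Real.sqrt E / (r / 2 * (r / 2 * Real.sqrt (r / 2)))
      ≤ 6 * (Real.sqrt E * r ^ (-(5 / 2) : ℝ)) := by
  have hs2 : Real.sqrt 2 ≤ 3 / 2 := by rw [Real.sqrt_le_left (by norm_num)]; norm_num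
  have e1 : r ^ (-(5 / 2) : ℝ) = (r * (r * Real.sqrt r))⁻¹ := by
    rw [Real.rpow_neg hr.le]
    congr 1
    rw [show (5 / 2 : ℝ) = 1 + (1 + 1 / 2) by norm_num, Real.rpow_add hr, Real.rpow_add hr,
      Real.rpow_one, ← Real.sqrt_eq_rpow]
  rw [e1, Real.sqrt_div' r (by norm_num : (0 : ℝ) ≤ 2)]
  have hsr := Real.sqrt_pos.2 hr
  have e2 : Real.sqrt E / (r / 2 * (r / 2 * (Real.sqrt r / Real.sqrt 2)))
      = 4 * Real.sqrt 2 * (Real.sqrt E * (r * (r * Real.sqrt r))⁻¹) := by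
    field_simp
    ring
  rw [e2]
  have : 0 ≤ Real.sqrt E * (r * (r * Real.sqrt r))⁻¹ := by positivity
  exact mul_le_mul_of_nonneg_right (by linarith) this

/-- The logarithms. -/
lemma log_norm {M X y q G P : ℝ} (hν : 0 < ν) (hνM : ν ^ 2 ≤ M) (hGM : G ≤ M)
    (hPM : P ≤ Cp * (M ^ 3 / ν ^ 4)) (hX : X = 1 + (Real.log M / 2 - Real.log ν))
    (hG0 : 0 ≤ G) (hP0 : 0 ≤ P) (hy : y = G / ν ^ 2) (hq : q = P / ν ^ 2) :
    1 ≤ X ∧ 1 - Real.log (1 / (2 * (1 + y))) ≤ 3 * X ∧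
      -Real.log ((1 / (2 * (1 + q))) ^ 2) ≤ Cl * X := by
  have hM0 : 0 < M := (sq_pos_of_pos hν).trans_le hνM
  have hy0 : 0 ≤ y := by rw [hy]; positivity
  have hq0 : 0 ≤ q := by rw [hq]; positivity
  have hq1 : 0 < 1 + q := by linarith
  have hX1 : 1 ≤ X := by
    have : Real.log (ν ^ 2) ≤ Real.log M := Real.log_le_log (by positivity) hνM
    rw [Real.log_pow] at this
    push_cast at this
    rw [hX]
    linarith
  have h6 : Real.log M - 2 * Real.log ν = 2 * (X - 1) := by rw [hX]; ring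
  have hm1 : 1 ≤ M / ν ^ 2 := by rw [le_div_iff₀ (by positivity)]; linarith
  have hlogm : Real.log (M / ν ^ 2) = 2 * (X - 1) := by
    rw [Real.log_div hM0.ne' (by positivity), Real.log_pow, ← h6]
    push_cast
    ring
  refine ⟨hX1, ?_, ?_⟩
  · have e1 : Real.log (1 / (2 * (1 + y))) = -Real.log (2 * (1 + y)) := by
      rw [one_div, Real.log_inv]
    have h2 : 2 * (1 + y) ≤ 4 * (M / ν ^ 2) := by
      have h4 : y ≤ M / ν ^ 2 := by rw [hy]; gcongr
      linarith
    have h3 : Real.log (2 * (1 + y)) ≤ Real.log (4 * (M / ν ^ 2)) :=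
      Real.log_le_log (by positivity) h2
    have h4 : Real.log (4 * (M / ν ^ 2)) = 2 * Real.log 2 + 2 * (X - 1) := by
      rw [Real.log_mul (by norm_num) (by positivity), hlogm,
        show (4 : ℝ) = 2 ^ 2 by norm_num, Real.log_pow]
      push_cast
      ring
    have h5 := Real.log_two_lt_d9
    rw [e1]
    linarith
  · have hCp := Cp_one
    have e1 : -Real.log ((1 / (2 * (1 + q))) ^ 2) = 2 * (Real.log 2 + Real.log (1 + q)) := by
      rw [Real.log_pow, one_div, Real.log_inv, Real.log_mul (by norm_num) hq1.ne']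
      push_cast
      ring
    have h2 : 1 + q ≤ 2 * Cp * (M / ν ^ 2) ^ 3 := by
      have a1 : q ≤ Cp * (M / ν ^ 2) ^ 3 := by
        rw [hq, div_le_iff₀ (by positivity)]
        refine hPM.trans (le_of_eq ?_)
        field_simp
      have a2 : 1 ≤ (M / ν ^ 2) ^ 3 := one_le_pow₀ hm1
      have a3 : 1 * 1 ≤ Cp * (M / ν ^ 2) ^ 3 := mul_le_mul hCp a2 zero_le_one (by linarith)
      linarith
    have h3 : Real.log (1 + q) ≤ Real.log (2 * Cp) + 6 * (X - 1) := by
      have a1 := Real.log_le_log hq1 h2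
      rw [Real.log_mul (by positivity) (by positivity), Real.log_pow, hlogm] at a1
      push_cast at a1
      linarith
    have h4 : Real.log 4 = 2 * Real.log 2 := by
      rw [show (4 : ℝ) = 2 ^ 2 by norm_num, Real.log_pow]
      push_cast
      ring
    have h5 : 0 ≤ Real.log 2 := Real.log_nonneg (by norm_num)
    have h7 : 0 ≤ Real.log (2 * Cp) := Real.log_nonneg (by linarith)
    rw [e1]
    unfold Cl
    rw [h4]
    have a1 : (2 * Real.log 2 + 2 * Real.log (2 * Cp) + 12) * X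
        = (2 * Real.log 2 + 2 * Real.log (2 * Cp)) * X + 12 * X := by ring
    have a2 : (2 * Real.log 2 + 2 * Real.log (2 * Cp)) * 1
        ≤ (2 * Real.log 2 + 2 * Real.log (2 * Cp)) * X :=
      mul_le_mul_of_nonneg_left hX1 (by linarith)
    rw [a1]
    linarith

/-- The final algebra. -/
lemma fin_norm {K N1 N2 R g X L S Dl En Sm : ℝ} (hX : 1 ≤ X) (hN1 : 0 ≤ N1)
    (hN2 : 0 ≤ N2) (hR : 0 ≤ R) (hg : 0 ≤ g) (hL : L * S ≤ 9 * (X * N1)) (hEn : En ≤ 6 * R)
    (hDl : Dl ≤ Cl * X) (hSm : Sm ≤ 9 * N2) (_hK : 0 ≤ K) :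
    Cs * (L * S + En + g * Dl + Sm) ≤ X * ((9 + Cl) * Cs * (N1 + R + g + N2)) := by
  have hCs := Cs_nonneg
  have hCl := Cl_nonneg
  have k2 : R ≤ X * R := le_mul_of_one_le_left hR hX
  have k3 : g * Dl ≤ Cl * (X * g) := by
    have := mul_le_mul_of_nonneg_left hDl hg
    refine this.trans (le_of_eq ?_)
    ring
  have k4 : N2 ≤ X * N2 := le_mul_of_one_le_left hN2 hX
  have hX0 : 0 ≤ X := by linarith
  have m1 : 0 ≤ X * N1 := mul_nonneg hX0 hN1
  have m2 : 0 ≤ X * R := mul_nonneg hX0 hR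
  have m3 : 0 ≤ X * g := mul_nonneg hX0 hg
  have m4 : 0 ≤ X * N2 := mul_nonneg hX0 hN2
  have m5 : 0 ≤ Cl * (X * N1) := mul_nonneg hCl m1
  have m6 : 0 ≤ Cl * (X * R) := mul_nonneg hCl m2
  have m7 : 0 ≤ Cl * (X * N2) := mul_nonneg hCl m4
  have e9 : X * ((9 + Cl) * Cs * (N1 + R + g + N2))
      = Cs * (9 * (X * N1) + 9 * (X * R) + 9 * (X * g) + 9 * (X * N2) + Cl * (X * N1)
        + Cl * (X * R) + Cl * (X * g) + Cl * (X * N2)) := by ring
  rw [e9]
  refine mul_le_mul_of_nonneg_left ?_ hCs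
  linarith

/-- The bound of the rate in normalized form. -/
lemma rate_norm' {v : V → V} (hv : ∀ i, SP (fun y => v y i)) (hdiv : ∀ x, divergence v x = 0)
    {E M : ℝ} (hν : 0 < ν) (hE : energy v ≤ E) {e x₀ : V} (he : nrm e = 1) {K g r : ℝ}
    (hK : 0 ≤ K) (hg : 0 ≤ g) (hr : 0 < r) (hr1 : r ≤ 1)
    (htw : ∀ y, nrm y < r → twistE v e x₀ y
      ≤ nrm y ^ 2 * (g + K * nrm y * (1 - Real.log (nrm y)) * gr v (x₀ + y)))
    (hGM : enstrophy v ≤ M) (hνM : ν ^ 2 ≤ M) (hPM : palin v ≤ Cp * (M ^ 3 / ν ^ 4))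
    {X y z q w : ℝ} (hX : X = 1 + (Real.log M / 2 - Real.log ν)) (hy : y = enstrophy v / ν ^ 2)
    (hz : z = palin v / ν ^ 2 / (1 + y) ^ 2) (hq : q = palin v / ν ^ 2)
    (hw : w = third v / ν ^ 2 / (1 + q) ^ 2) :
    rate v e x₀ ≤ X * ((9 + Cl) * Cs * (ν * K * (1 + y + z) + Real.sqrt E * r ^ (-(5 / 2) : ℝ)
      + g + ν * (1 + w))) := by
  have hG0 : 0 ≤ enstrophy v := enstrophy_nonneg v
  have hP0 : 0 ≤ palin v := palin_nonneg v
  have hW0 : 0 ≤ third v := third_nonneg v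
  have hy0 : 0 ≤ y := by rw [hy]; positivity
  have hq0 : 0 ≤ q := by rw [hq]; positivity
  have hz0 : 0 ≤ z := by rw [hz]; positivity
  have hw0 : 0 ≤ w := by rw [hw]; positivity
  have hσ0 : 0 < 1 / (2 * (1 + y)) := by positivity
  have hσ1 : 1 / (2 * (1 + y)) ≤ 1 / 2 := by
    rw [div_le_div_iff₀ (by positivity) (by norm_num)]
    linarith
  have hd0 : 0 < 1 / (2 * (1 + q)) := by positivity
  have hd1 : 1 / (2 * (1 + q)) ≤ 1 / 2 := by
    rw [div_le_div_iff₀ (by positivity) (by norm_num)]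
    linarith
  have hδ0 : 0 < (1 / (2 * (1 + q))) ^ 2 := by positivity
  have hδ1 : (1 / (2 * (1 + q))) ^ 2 ≤ 1 / 2 := by
    have : (1 / (2 * (1 + q))) ^ 2 ≤ (1 / 2) ^ 2 := pow_le_pow_left₀ hd0.le hd1 2
    norm_num at this ⊢
    linarith
  have h1 := rate_le' (ρ := r / 2) hv hdiv (int_gsq hv).le (int_hsq hv).le hK hg (by linarith)
    (fun y hy => htw y (hy.trans (by linarith))) he (by positivity) ((int_vsq hv).le.trans hE)
    (int_tsq hv).le hσ0 hσ1 hδ0 hδ1
  obtain ⟨hX1, hl1, hl2⟩ := log_norm hν hνM hGM hPM hX hG0 hP0 hy hq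
  have hs := sum_norm hν hG0 hP0 hy hz rfl
  have hsm := small_norm hν hP0 hW0 hq hw rfl
  have hen := energy_norm E hr
  have hs0 : 0 ≤ Real.sqrt (enstrophy v) * (1 / (2 * (1 + y)))
      + Real.sqrt (palin v) * Real.sqrt (1 / (2 * (1 + y)))
      + Real.sqrt (enstrophy v) * (Real.sqrt (1 / (2 * (1 + y))))⁻¹ := by positivity
  have hX0 : 0 ≤ X := by linarith
  refine h1.trans (fin_norm (K := K) hX1 (by positivity) (by positivity)
    (mul_nonneg (Real.sqrt_nonneg _) (Real.rpow_nonneg hr.le _)) hg ?_ hen hl2 hsm hK)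
  calc K * (1 - Real.log (1 / (2 * (1 + y)))) * (Real.sqrt (enstrophy v) * (1 / (2 * (1 + y)))
      + Real.sqrt (palin v) * Real.sqrt (1 / (2 * (1 + y)))
      + Real.sqrt (enstrophy v) * (Real.sqrt (1 / (2 * (1 + y))))⁻¹)
      ≤ K * (3 * X) * (3 * (ν * (1 + y + z))) :=
        mul_le_mul (mul_le_mul_of_nonneg_left hl1 hK) hs hs0 (by positivity)
    _ = 9 * (X * (ν * K * (1 + y + z))) := by ring

end Pool.Agent.W786.St
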