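import Pool.Agent.W786.St5

/-!
# One-point criterion for the Navier-Stokes equations, strong form
-/

open MeasureTheory Set Filter
open scoped ENNReal NNReal Topology

namespace Pool.Agent.W786.St

open Pool.Agent.H708R2.EulerSign Pool.Agent.H708R2.EulerTypeI Pool.Agent.W786.Dir
  Pool.Agent.W786.One Pool.Agent.W786.Max
open H459R3.NS (cube pd SP Per lap enstrophy energy palin third IsSol enstrophy_nonneg
  energy_nonneg palin_nonneg third_nonneg C4 C4_nonneg)

variable {ν T : ℝ} {u : ℝ → V → V} {p : ℝ → V → ℝ}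

/-- The differential inequality. -/
lemma XX_deriv' (h : IsSol ν T u p) (hν : 0 < ν) {A : ℝ} (hA : ν ≤ A)
    (hAE : energy (u 0) ≤ A ^ 2) (hAP : palin (u 0) ≤ A ^ 2) {K g r t : ℝ} (hK : 0 ≤ K)
    (hg : 0 ≤ g) (hr : 0 < r) (hr1 : r ≤ 1) (ht : t ∈ Ioo 0 T) {x : V} (hx : IsMaxPt u t x)
    (htw : A < nrm (vort (u t) x) →
      (∀ s ∈ Ico 0 t, ∀ y, nrm (vort (u s) y) < nrm (vort (u t) x)) → ∀ y, nrm y < r →
      twistE (u t) (vort (u t) x) x y ≤ nrm y ^ 2 * nrm (vort (u t) x) ^ 2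
        * (g + K * nrm y * (1 - Real.log (nrm y)) * gr (u t) (x + y))) {d : ℝ}
    (hd : HasDerivAt (fun s => Real.log (XX ν A u s)) d t) :
    d ≤ (9 + Cl) * Cs * (ν * K * (1 + yy ν u t + zz ν u t)
      + Real.sqrt (energy (u 0)) * r ^ (-(5 / 2) : ℝ) + g + ν * (1 + ww ν u t)) := by
  set f := (9 + Cl) * Cs * (ν * K * (1 + yy ν u t + zz ν u t)
      + Real.sqrt (energy (u 0)) * r ^ (-(5 / 2) : ℝ) + g + ν * (1 + ww ν u t)) with hf
  have hA0 : 0 < A := hν.trans_le hA
  have htI : t ∈ Ico 0 T := ⟨ht.1.le, ht.2⟩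
  have hX1 := one_le_XX (u := u) hν hA
  have hXt : 0 < XX ν A u t := by linarith [hX1 t]
  have hCs := Cs_nonneg
  have hCl := Cl_nonneg
  have hf0 : 0 ≤ f := by
    have h1 := yy_nonneg (ν := ν) (u := u) t
    have h2 := zz_nonneg (ν := ν) (u := u) t
    have h3 := Real.rpow_nonneg hr.le (-(5 / 2) : ℝ)
    have h4 := ww_nonneg (ν := ν) (u := u) t
    positivity
  have h1 : HasDerivAt (fun s => XX ν A u s) (XX ν A u t * d) t := by
    have h2 := hd.exp
    rw [Real.exp_log hXt] at h2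
    refine h2.congr_of_eventuallyEq (Eventually.of_forall fun s => ?_)
    exact (Real.exp_log (by linarith [hX1 s])).symm
  have h2 : HasDerivAt (fun s => Real.log (max (RM u s) (A ^ 2)) / 2) (XX ν A u t * d) t := by
    have h3 := (h1.sub_const 1).add_const (Real.log ν)
    refine h3.congr_of_eventuallyEq (Eventually.of_forall fun s => ?_)
    unfold XX
    ring
  have h3 : XX ν A u t * d ≤ XX ν A u t * f := by
    refine RM_deriv_le h hν.le hA0 ht hx (mul_nonneg hXt.le hf0) h2 fun hAx hrec => ?_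
    set w := vort (u t) x with hw
    have hn : 0 < nrm w := hA0.trans hAx
    have he : nrm ((nrm w)⁻¹ • w) = 1 := by
      rw [nrm_smul, abs_of_pos (inv_pos.2 hn), inv_mul_cancel₀ hn.ne']
    have hsp : ∀ i, SP (fun y => u t y i) := fun i => h.sp htI i
    obtain ⟨b, hb1, hb2⟩ := exists_between ht.2
    obtain ⟨L, hL0, hL1, hL2⟩ := Wq_lip h hb2
    have hG : ∀ s ∈ Icc 0 t, enstrophy (u s) ≤ max (RM u t) (A ^ 2) := by
      intro s hs
      have hsI : s ∈ Ico 0 T := ⟨hs.1, hs.2.trans_lt ht.2⟩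
      have hsb : s ∈ Icc 0 b := ⟨hs.1, hs.2.trans hb1.le⟩
      refine enstrophy_le (fun i => h.sp hsI i) (h.divfree s hsI) fun y => ?_
      rw [← Wq_eq]
      exact ((Wq_le_Mx hL1 hsb y).trans (Mx_le_RM hL1 ⟨hs.1, hs.2⟩ hb1.le)).trans
        (le_max_left _ _)
    have hA2 : A ^ 2 ≤ max (RM u t) (A ^ 2) := le_max_right _ _
    have hM0 : 0 < max (RM u t) (A ^ 2) := lt_of_lt_of_le (by positivity) hA2
    have hM2 : Real.sqrt (max (RM u t) (A ^ 2)) ^ 2 = max (RM u t) (A ^ 2) :=
      Real.sq_sqrt hM0.le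
    have hνM : ν ^ 2 ≤ max (RM u t) (A ^ 2) := le_trans (by gcongr) hA2
    have hP := palin_bound h hν htI (M := Real.sqrt (max (RM u t) (A ^ 2)))
      (fun s hs => by rw [hM2]; exact hG s hs) (by rw [hM2]; exact hAE.trans hA2)
      (Real.le_sqrt_of_sq_le hνM) (by rw [hM2]; exact hAP.trans hA2)
    have e6 : Real.sqrt (max (RM u t) (A ^ 2)) ^ 6 = max (RM u t) (A ^ 2) ^ 3 := by
      rw [show (6 : ℕ) = 2 * 3 by norm_num, pow_mul, hM2]
    rw [e6] at hP
    refine rate_norm' hsp (div_eq h htI) hν (h.energy_le hν htI) he hK hg hr hr1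
      ?_ (hG t ⟨ht.1.le, le_rfl⟩) hνM hP rfl rfl rfl rfl rfl
    intro y hy
    have h4 := htw hAx hrec y hy
    rw [twistE_smul]
    have h5 := mul_le_mul_of_nonneg_left h4 (show 0 ≤ (nrm w)⁻¹ ^ 2 by positivity)
    refine h5.trans (le_of_eq ?_)
    field_simp
  exact le_of_mul_le_mul_left h3 hXt

/-- The theorem. -/
theorem main' : ∃ C : ℝ, 0 ≤ C ∧ ∀ (ν T K A S : ℝ) (u : ℝ → V → V) (p : ℝ → V → ℝ)
    (g : ℝ → ℝ),
    0 < ν → 0 ≤ K → ν ≤ A → energy (u 0) ≤ A ^ 2 → palin (u 0) ≤ A ^ 2 →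
    (∀ x, nrm (vort (u 0) x) ≤ A) → IsSol ν T u p →
    (∀ᵐ t, t ∈ Ioo 0 T → 0 ≤ g t) → IntegrableOn g (Ioo 0 T) →
    S = 1 + ν * T + energy (u 0) / ν ^ 2 + ∫ s in Ioo 0 T, g s →
    (∀ᵐ t, t ∈ Ioo 0 T → ∃ x, IsMaxPt u t x ∧ (A < nrm (vort (u t) x) →
      (∀ s ∈ Ico 0 t, ∀ y, nrm (vort (u s) y) < nrm (vort (u t) x)) → ∀ y,
      nrm y < (1 + enstrophy (u t) / ν ^ 2 + g t / ν) ^ (-(2 / 5) : ℝ) →
      twistE (u t) (vort (u t) x) x y ≤ nrm y ^ 2 * nrm (vort (u t) x) ^ 2
        * (g t + K * nrm y * (1 - Real.log (nrm y)) * gr (u t) (x + y)))) →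
    (∀ t ∈ Ico 0 T, ∀ x, nrm (vort (u t) x) ≤ ν * Real.exp ((1 + Real.log (A / ν))
      * Real.exp (C * S * (K + S)) - 1)) ∧
    ∃ B, ∀ t ∈ Ico 0 T, ∀ x i, |u t x i| ≤ B := by
  obtain ⟨D, hD0, hD⟩ := cub_young
  have hCs := Cs_nonneg
  have hCl := Cl_nonneg
  have hC4 := C4_nonneg
  set c0 := (9 + Cl) * Cs with hc0
  have hc00 : 0 ≤ c0 := by positivity
  refine ⟨c0 * (23333 + D + 23328 * C4), by positivity,
    fun ν T K A S u p g hν hK hA hAE hAP hA0 h hg hgi hS hmax => ?_⟩
  rcases le_or_gt T 0 with hT | hT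
  · have hem : ∀ t, t ∉ Ico 0 T := fun t ht => absurd (ht.1.trans_lt ht.2) (not_lt.2 hT)
    exact ⟨fun t ht => absurd ht (hem t), ⟨0, fun t ht => absurd ht (hem t)⟩⟩
  set E := energy (u 0) with hE
  have hE0 : 0 ≤ E := energy_nonneg _
  set Γ := ∫ s in Ioo 0 T, g s with hΓ
  have hΓ0 : 0 ≤ Γ := by
    refine integral_nonneg_of_ae ?_
    rw [EventuallyLE, ae_restrict_iff' measurableSet_Ioo]
    filter_upwards [hg] with t ht1 ht2
    exact ht1 ht2
  have hApos : 0 < A := hν.trans_le hA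
  have hX1 := one_le_XX (u := u) hν hA
  set r : ℝ → ℝ := fun t => (1 + yy ν u t + g t / ν) ^ (-(2 / 5) : ℝ) with hr
  have hone : ∀ t, 0 ≤ g t → 1 ≤ 1 + yy ν u t + g t / ν := fun t ht => by
    have h1 := yy_nonneg (ν := ν) (u := u) t
    have h2 : 0 ≤ g t / ν := div_nonneg ht hν.le
    linarith
  have hrr : ∀ t, 0 ≤ g t → r t ^ (-(5 / 2) : ℝ) = 1 + yy ν u t + g t / ν := by
    intro t ht
    have h1 := hone t ht
    simp only [hr]
    rw [← Real.rpow_mul (by linarith), show (-(2 / 5) * -(5 / 2) : ℝ) = 1 by norm_num,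
      Real.rpow_one]
  have hνT : 0 ≤ ν * T := mul_nonneg hν.le hT.le
  have hEν : 0 ≤ E / ν ^ 2 := by positivity
  have hS1 : 1 ≤ S := by rw [hS]; linarith
  have hS0 : 0 ≤ S := by linarith
  -- the growth
  have hgrow : ∀ b ∈ Ico 0 T, XX ν A u b ≤ (1 + Real.log (A / ν))
      * Real.exp (c0 * (23333 + D + 23328 * C4) * S * (K + S)) := by
    intro b hb
    have hsub : Icc 0 b ⊆ Ico 0 T := fun s hs => ⟨hs.1, hs.2.trans_lt hb.2⟩
    have iy : IntervalIntegrable (yy ν u) volume 0 b :=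
      ((yy_cont h).mono hsub).intervalIntegrable_of_Icc hb.1
    have iz : IntervalIntegrable (zz ν u) volume 0 b :=
      ((zz_cont h).mono hsub).intervalIntegrable_of_Icc hb.1
    have iw : IntervalIntegrable (ww ν u) volume 0 b :=
      ((ww_cont h).mono hsub).intervalIntegrable_of_Icc hb.1
    have ig : IntervalIntegrable g volume 0 b := by
      rw [intervalIntegrable_iff_integrableOn_Ioo_of_le hb.1]
      exact hgi.mono_set (Ioo_subset_Ioo_right hb.2.le)
    obtain ⟨C, hC⟩ := lip_log_XX h hν hA hb.2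
    have i1 : IntervalIntegrable (fun t => 1 + yy ν u t) volume 0 b :=
      intervalIntegrable_const.add iy
    have i2 : IntervalIntegrable (fun t => 1 + yy ν u t + zz ν u t) volume 0 b := i1.add iz
    have i3 : IntervalIntegrable (fun t => 1 + yy ν u t + g t / ν) volume 0 b :=
      i1.add (ig.div_const ν)
    have i4 : IntervalIntegrable (fun t => 1 + ww ν u t) volume 0 b :=
      intervalIntegrable_const.add iw
    have j1 : IntervalIntegrable (fun t => ν * K * (1 + yy ν u t + zz ν u t)) volume 0 b :=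
      i2.const_mul _
    have j2 : IntervalIntegrable (fun t => Real.sqrt E * (1 + yy ν u t + g t / ν)) volume 0 b :=
      i3.const_mul _
    have j3 : IntervalIntegrable (fun t => ν * (1 + ww ν u t)) volume 0 b := i4.const_mul _
    have j12 : IntervalIntegrable (fun t => ν * K * (1 + yy ν u t + zz ν u t)
        + Real.sqrt E * (1 + yy ν u t + g t / ν)) volume 0 b := j1.add j2
    have j123 : IntervalIntegrable (fun t => ν * K * (1 + yy ν u t + zz ν u t)
        + Real.sqrt E * (1 + yy ν u t + g t / ν) + g t) volume 0 b := j12.add ig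
    have j1234 : IntervalIntegrable (fun t => ν * K * (1 + yy ν u t + zz ν u t)
        + Real.sqrt E * (1 + yy ν u t + g t / ν) + g t + ν * (1 + ww ν u t)) volume 0 b :=
      j123.add j3
    have h1 := growth_of_ae (L := fun s => Real.log (XX ν A u s)) (C := C)
      (r := fun t => c0 * (ν * K * (1 + yy ν u t + zz ν u t)
        + Real.sqrt E * (1 + yy ν u t + g t / ν) + g t + ν * (1 + ww ν u t)))
      hb.1 hC (j1234.const_mul _) (by
        filter_upwards [hg, hmax] with t ht1 ht2 htI d hd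
        have htI' : t ∈ Ioo 0 T := ⟨htI.1, htI.2.trans hb.2⟩
        obtain ⟨x, hx, hxt⟩ := ht2 htI'
        have hgt := ht1 htI'
        have hr0 : 0 < r t := Real.rpow_pos_of_pos (by linarith [hone t hgt]) _
        have hr1 : r t ≤ 1 := Real.rpow_le_one_of_one_le_of_nonpos (hone t hgt) (by norm_num)
        have := XX_deriv' h hν hA hAE hAP hK hgt hr0 hr1 htI' hx hxt hd
        rw [hrr t hgt] at this
        exact this)
    have e1 : ∫ t in (0 : ℝ)..b, c0 * (ν * K * (1 + yy ν u t + zz ν u t)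
        + Real.sqrt E * (1 + yy ν u t + g t / ν) + g t + ν * (1 + ww ν u t))
        = c0 * (K * (ν * b + ν * (∫ t in (0 : ℝ)..b, yy ν u t)
          + ν * ∫ t in (0 : ℝ)..b, zz ν u t)
          + Real.sqrt E * (b + (∫ t in (0 : ℝ)..b, yy ν u t) + (∫ t in (0 : ℝ)..b, g t) / ν)
          + (∫ t in (0 : ℝ)..b, g t) + (ν * b + ν * ∫ t in (0 : ℝ)..b, ww ν u t)) := by
      rw [intervalIntegral.integral_const_mul, intervalIntegral.integral_add j123 j3,
        intervalIntegral.integral_add j12 ig, intervalIntegral.integral_add j1 j2,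
        intervalIntegral.integral_const_mul, intervalIntegral.integral_const_mul,
        intervalIntegral.integral_const_mul,
        intervalIntegral.integral_add i1 iz, intervalIntegral.integral_add i1 (ig.div_const ν),
        intervalIntegral.integral_add intervalIntegrable_const iy,
        intervalIntegral.integral_add intervalIntegrable_const iw,
        intervalIntegral.integral_const, intervalIntegral.integral_div, smul_eq_mul]
      ring
    have h2 := int_yy h hν hb
    have h3 := int_zz hD0 hD h hν hb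
    have h4 := int_ww h hν hb
    have h5 : ∫ t in (0 : ℝ)..b, g t ≤ Γ := by
      rw [intervalIntegral.integral_of_le hb.1, integral_Ioc_eq_integral_Ioo]
      refine setIntegral_mono_set hgi ?_ (Ioo_subset_Ioo_right hb.2.le).eventuallyLE
      rw [EventuallyLE, ae_restrict_iff' measurableSet_Ioo]
      filter_upwards [hg] with t ht1 ht2
      exact ht1 ht2
    set Iy := ∫ t in (0 : ℝ)..b, yy ν u t with hIy
    set Iz := ∫ t in (0 : ℝ)..b, zz ν u t with hIz
    set Iw := ∫ t in (0 : ℝ)..b, ww ν u t with hIw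
    set Ig := ∫ t in (0 : ℝ)..b, g t with hIg
    have a1 : ν * b ≤ ν * T := mul_le_mul_of_nonneg_left hb.2.le hν.le
    have a2 : E / (2 * ν ^ 2) = E / ν ^ 2 / 2 := by
      rw [div_div, mul_comm (ν ^ 2) 2]
    rw [a2] at h2 h3
    have hνb : 0 ≤ ν * b := mul_nonneg hν.le hb.1
    have t1 : ν * b + ν * Iy + ν * Iz ≤ (1 + D) * S := by
      have b1 : 0 ≤ D * (ν * T) := mul_nonneg hD0 hνT
      have b2 : 0 ≤ D * (E / ν ^ 2) := mul_nonneg hD0 hEν
      have b3 : 0 ≤ D * Γ := mul_nonneg hD0 hΓ0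
      have b4 : (1 + D) * S = 1 + ν * T + E / ν ^ 2 + Γ + (D + D * (ν * T) + D * (E / ν ^ 2)
        + D * Γ) := by rw [hS]; ring
      have b5 : D * (E / ν ^ 2 / 2) = D * (E / ν ^ 2) / 2 := by ring
      rw [b4]
      rw [b5] at h3
      linarith
    have t2 : Real.sqrt E * (b + Iy + Ig / ν) ≤ S * S := by
      have b1 : b + Iy + Ig / ν = (ν * b + ν * Iy + Ig) / ν := by field_simp
      have b2 : ν * b + ν * Iy + Ig ≤ S := by rw [hS]; linarith
      have b3 : Real.sqrt E / ν ≤ S := by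
        have b4 : Real.sqrt E / ν = Real.sqrt (E / ν ^ 2) := by
          rw [Real.sqrt_div hE0, Real.sqrt_sq hν.le]
        rw [b4, Real.sqrt_le_left hS0]
        have b5 : E / ν ^ 2 ≤ S := by rw [hS]; linarith
        nlinarith
      rw [b1, mul_div_assoc', mul_comm, mul_div_assoc, mul_comm]
      rw [mul_comm (Real.sqrt E / ν)]
      exact mul_le_mul b2 b3 (by positivity) hS0
    have t3 : Ig ≤ S := by rw [hS]; linarith
    have t4 : ν * b + ν * Iw ≤ S + 23328 * (S * S) + 23328 * C4 * S := by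
      have b1 : ν * T ≤ S := by rw [hS]; linarith
      have b2 : E / ν ^ 2 ≤ S := by rw [hS]; linarith
      have b3 : 1 + ν * T ≤ S := by rw [hS]; linarith
      have b4 : 23328 * (ν * b) * (E / ν ^ 2 + C4) ≤ 23328 * S * (S + C4) := by
        have : ν * b ≤ S := a1.trans b1
        gcongr
      have b5 : 23328 * S * (S + C4) = 23328 * (S * S) + 23328 * C4 * S := by ring
      linarith
    have hSS : S ≤ S * S := le_mul_of_one_le_left hS0 hS1
    have h7 : Real.log (XX ν A u b) - Real.log (XX ν A u 0)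
        ≤ c0 * (23333 + D + 23328 * C4) * S * (K + S) := by
      refine h1.trans ?_
      rw [e1]
      have h8 : c0 * (23333 + D + 23328 * C4) * S * (K + S)
          = c0 * ((23333 + D + 23328 * C4) * (S * K) + (23333 + D + 23328 * C4) * (S * S)) := by
        ring
      rw [h8]
      refine mul_le_mul_of_nonneg_left ?_ hc00
      have b1 := mul_le_mul_of_nonneg_left t1 hK
      have b2 : K * ((1 + D) * S) = (1 + D) * (S * K) := by ring
      have b3 : 0 ≤ S * K := mul_nonneg hS0 hK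
      have b4 : 0 ≤ D * (S * S) := mul_nonneg hD0 (mul_nonneg hS0 hS0)
      have b5 : 23328 * C4 * S ≤ 23328 * C4 * (S * S) := by gcongr
      have b6 : 0 ≤ C4 * (S * K) := mul_nonneg hC4 b3
      have b7 : (23333 + D + 23328 * C4) * (S * K)
          = 23333 * (S * K) + D * (S * K) + 23328 * (C4 * (S * K)) := by ring
      have b8 : (23333 + D + 23328 * C4) * (S * S)
          = 23333 * (S * S) + D * (S * S) + 23328 * C4 * (S * S) := by ring
      have b9 : (1 + D) * (S * K) = S * K + D * (S * K) := by ring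
      rw [b2, b9] at b1
      rw [b7, b8]
      linarith
    have hX0 : XX ν A u 0 = 1 + Real.log (A / ν) := by
      unfold XX
      have h9 : max (RM u 0) (A ^ 2) = A ^ 2 := by
        refine max_eq_right (RM_le le_rfl fun s hs => ?_)
        have : s = 0 := le_antisymm hs.2 hs.1
        rw [this]
        exact Mx_le hA0
      rw [h9, Real.log_pow, Real.log_div hApos.ne' hν.ne']
      push_cast
      ring
    have hb1 := hX1 b
    calc XX ν A u b = Real.exp (Real.log (XX ν A u b)) := (Real.exp_log (by linarith)).symm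
      _ ≤ Real.exp (Real.log (XX ν A u 0) + c0 * (23333 + D + 23328 * C4) * S * (K + S)) :=
          Real.exp_le_exp.2 (by linarith)
      _ = XX ν A u 0 * Real.exp (c0 * (23333 + D + 23328 * C4) * S * (K + S)) := by
          rw [Real.exp_add, Real.exp_log (by linarith [hX1 0])]
      _ = _ := by rw [hX0]
  set Q := c0 * (23333 + D + 23328 * C4) * S * (K + S) with hQ
  have hbd : ∀ t ∈ Ico 0 T, ∀ x, nrm (vort (u t) x)
      ≤ ν * Real.exp ((1 + Real.log (A / ν)) * Real.exp Q - 1) := by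
    intro t ht x
    obtain ⟨b, hb1, hb2⟩ := exists_between ht.2
    obtain ⟨L, hL0, hL1, hL2⟩ := Wq_lip h hb2
    have htb : t ∈ Icc 0 b := ⟨ht.1, hb1.le⟩
    have h1 : nrm (vort (u t) x) ^ 2 ≤ max (RM u t) (A ^ 2) := by
      rw [← Wq_eq]
      exact ((Wq_le_Mx hL1 htb x).trans (Mx_le_RM hL1 ⟨ht.1, le_rfl⟩ hb1.le)).trans
        (le_max_left _ _)
    have hpos : 0 < max (RM u t) (A ^ 2) := lt_of_lt_of_le (by positivity) (le_max_right _ _)
    have h2 : max (RM u t) (A ^ 2) = (ν * Real.exp (XX ν A u t - 1)) ^ 2 := by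
      have e1 : XX ν A u t - 1 = Real.log (max (RM u t) (A ^ 2)) / 2 - Real.log ν := by
        unfold XX; ring
      rw [e1, Real.exp_sub, Real.exp_log hν, mul_div_cancel₀ _ hν.ne', ← Real.exp_nat_mul]
      push_cast
      rw [mul_div_cancel₀ _ (two_ne_zero), Real.exp_log hpos]
    rw [h2] at h1
    have h3 : nrm (vort (u t) x) ≤ ν * Real.exp (XX ν A u t - 1) :=
      (pow_le_pow_iff_left₀ (nrm_nonneg _) (by positivity) two_ne_zero).1 h1
    refine h3.trans (mul_le_mul_of_nonneg_left (Real.exp_le_exp.2 ?_) hν.le)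
    linarith [hgrow t ht]
  refine ⟨hbd, ?_⟩
  set B := ν * Real.exp ((1 + Real.log (A / ν)) * Real.exp Q - 1) with hB
  have hB0 : 0 ≤ B := by positivity
  have hens : ∀ t ∈ Ico 0 T, enstrophy (u t) ≤ B ^ 2 := by
    intro t ht
    refine enstrophy_le (fun i => h.sp ht i) (h.divfree t ht) fun x => ?_
    have := hbd t ht x
    have := nrm_nonneg (vort (u t) x)
    gcongr
  refine (h.gron hν (g := fun _ => D * B ^ 4 / ν ^ 3) (B := D * B ^ 4 / ν ^ 3 * max T 0) (δ := 1)
    one_pos (fun _ _ => by positivity) (fun t _ => by simp) (fun t ht => ?_)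
    fun s hs => ?_).2
  · rw [intervalIntegral.integral_const, smul_eq_mul, sub_zero, mul_comm]
    refine mul_le_mul_of_nonneg_left ?_ (by positivity)
    exact ht.2.le.trans (le_max_left _ _)
  · have hsI : s ∈ Ico 0 T := ⟨hs.1.le, hs.2⟩
    have h1 := hD ν (u s) hν (fun i => h.sp hsI i)
    have h2 := hens s hsI
    have h3 := enstrophy_nonneg (u s)
    have h4 : D * enstrophy (u s) ^ 3 / ν ^ 3 ≤ D * B ^ 4 / ν ^ 3 * enstrophy (u s) := by
      have h5 : enstrophy (u s) ^ 2 ≤ (B ^ 2) ^ 2 := by gcongr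
      have h6 := mul_le_mul_of_nonneg_right h5 h3
      have h7 : D * enstrophy (u s) ^ 3 / ν ^ 3 = D / ν ^ 3 * (enstrophy (u s) ^ 2
        * enstrophy (u s)) := by ring
      have h8 : D * B ^ 4 / ν ^ 3 * enstrophy (u s) = D / ν ^ 3 * ((B ^ 2) ^ 2
        * enstrophy (u s)) := by ring
      rw [h7, h8]
      exact mul_le_mul_of_nonneg_left h6 (by positivity)
    linarith

end Pool.Agent.W786.St
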