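import Pool.Agent.W786.St6

/-!
# One-point criterion for the Navier-Stokes equations: final form
-/

open MeasureTheory Set Filter
open scoped ENNReal NNReal Topology

namespace Pool.Agent.W786.St

open Pool.Agent.H708R2.EulerSign Pool.Agent.H708R2.EulerTypeI Pool.Agent.W786.Dir
  Pool.Agent.W786.One Pool.Agent.W786.Max
open H459R3.NS (cube pd SP Per lap enstrophy energy palin third IsSol enstrophy_nonneg
  energy_nonneg palin_nonneg third_nonneg C4 C4_nonneg)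

/-- With `w = curl v (x)`, for all `y` with `|y| < r`,
`(y · w) det (curl v (x + y), w, y) ≤ |y|² |w|² (g + K |y| (1 - log |y|) |∇v (x + y)|)`. -/
def TwistLe (v : V → V) (x : V) (K g r : ℝ) : Prop :=
  ∀ y, nrm y < r → (y ⬝ᵥ vort v x) * (vort v (x + y) ⬝ᵥ cross (vort v x) y)
    ≤ nrm y ^ 2 * nrm (vort v x) ^ 2
      * (g + K * nrm y * (1 - Real.log (nrm y)) * gr v (x + y))

/-- The final form. -/
theorem final : ∃ C : ℝ, 0 ≤ C ∧ ∀ (ν T K Λ : ℝ) (u : ℝ → V → V) (p : ℝ → V → ℝ) (g : ℝ → ℝ),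
    0 < ν → 0 ≤ K → IsSol ν T u p → (∀ᵐ t, t ∈ Ioo 0 T → 0 ≤ g t) → IntegrableOn g (Ioo 0 T) →
    (∀ᵐ t, t ∈ Ioo 0 T → ∃ x, IsMaxPt u t x ∧ (Λ < nrm (vort (u t) x) →
      (∀ s ∈ Ico 0 t, ∀ y, nrm (vort (u s) y) < nrm (vort (u t) x)) →
      TwistLe (u t) x K (g t)
        ((1 + enstrophy (u t) / ν ^ 2 + g t / ν) ^ (-(2 / 5) : ℝ)))) →
    (∃ B, ∀ t ∈ Ico 0 T, ∀ x i, |u t x i| ≤ B) ∧
    ∀ A S, ν ≤ A → Λ ≤ A → (∀ x, nrm (vort (u 0) x) ≤ A) → energy (u 0) ≤ A ^ 2 →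
      palin (u 0) ≤ A ^ 2 → S = 1 + ν * T + energy (u 0) / ν ^ 2 + ∫ s in Ioo 0 T, g s →
      ∀ t ∈ Ico 0 T, ∀ x, nrm (vort (u t) x)
        ≤ ν * Real.exp ((1 + Real.log (A / ν)) * Real.exp (C * S * (K + S)) - 1) := by
  obtain ⟨C, hC0, hC⟩ := main'
  refine ⟨C, hC0, fun ν T K Λ u p g hν hK h hg hgi hmax => ?_⟩
  have key := fun A S (hA : ν ≤ A) (hΛ : Λ ≤ A) (hA0 : ∀ x, nrm (vort (u 0) x) ≤ A)
    (hE : energy (u 0) ≤ A ^ 2) (hP : palin (u 0) ≤ A ^ 2)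
    (hS : S = 1 + ν * T + energy (u 0) / ν ^ 2 + ∫ s in Ioo 0 T, g s) =>
    hC ν T K A S u p g hν hK hA hE hP hA0 h hg hgi hS (by
      filter_upwards [hmax] with t ht htI
      obtain ⟨x, hx, hxt⟩ := ht htI
      exact ⟨x, hx, fun hAx hrec => hxt (hΛ.trans_lt hAx) hrec⟩)
  refine ⟨?_, fun A S hA hΛ hA0 hE hP hS => (key A S hA hΛ hA0 hE hP hS).1⟩
  rcases le_or_gt T 0 with hT | hT
  · exact ⟨0, fun t ht => absurd (ht.1.trans_lt ht.2) (not_lt.2 hT)⟩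
  obtain ⟨b, hb1, hb2⟩ := exists_between hT
  obtain ⟨L, hL0, hL1, hL2⟩ := Wq_lip h hb2
  have h0 : ∀ x, nrm (vort (u 0) x) ≤ Real.sqrt L := by
    intro x
    refine Real.le_sqrt_of_sq_le ?_
    rw [← Wq_eq]
    exact hL1 0 ⟨le_rfl, hb1.le⟩ x
  have hE0 := energy_nonneg (u 0)
  have hP0 := palin_nonneg (u 0)
  set A := ν + |Λ| + Real.sqrt L + Real.sqrt (energy (u 0)) + Real.sqrt (palin (u 0)) with hA
  have a1 := Real.sqrt_nonneg L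
  have a2 := Real.sqrt_nonneg (energy (u 0))
  have a3 := Real.sqrt_nonneg (palin (u 0))
  have a4 := abs_nonneg Λ
  have a5 := le_abs_self Λ
  refine (key A _ (by rw [hA]; linarith) (by rw [hA]; linarith) (fun x => (h0 x).trans
    (by rw [hA]; linarith)) ?_ ?_ rfl).2
  · calc energy (u 0) = Real.sqrt (energy (u 0)) ^ 2 := (Real.sq_sqrt hE0).symm
      _ ≤ A ^ 2 := pow_le_pow_left₀ a2 (by rw [hA]; linarith) 2
  · calc palin (u 0) = Real.sqrt (palin (u 0)) ^ 2 := (Real.sq_sqrt hP0).symm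
      _ ≤ A ^ 2 := pow_le_pow_left₀ a3 (by rw [hA]; linarith) 2

end Pool.Agent.W786.St
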