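import Pool.Agent.H708R2.EulerTypeI.Rate

/-!
# The stretching rate is at most twice the second singular value of the velocity gradient
-/

open MeasureTheory Set
open scoped ENNReal NNReal Topology

namespace Pool.Agent.W786.Sv

open Pool.Agent.H708R2.EulerSign Pool.Agent.H708R2.EulerTypeI

/-- The second largest singular value of the matrix `M` is at most `β`: on some plane through the
origin (given by a normal vector `g`) the estimate `|M v| ≤ β |v|` holds. Equivalently, `M` has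
distance at most `β`, in operator norm, from some matrix of rank at most one. -/
def MidLE (M : Matrix (Fin 3) (Fin 3) ℝ) (β : ℝ) : Prop :=
  ∃ g : V, ∀ v : V, g ⬝ᵥ v = 0 → nrm (M.mulVec v) ≤ β * nrm v

lemma exists_unit (a b : ℝ) : ∃ c s : ℝ, c ^ 2 + s ^ 2 = 1 ∧ a * c + b * s = 0 := by
  by_cases h : a ^ 2 + b ^ 2 = 0
  · have ha : a = 0 := by nlinarith [sq_nonneg a, sq_nonneg b]
    have hb : b = 0 := by nlinarith [sq_nonneg a, sq_nonneg b]
    exact ⟨1, 0, by norm_num, by simp [ha]⟩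
  · have h0 : 0 < a ^ 2 + b ^ 2 := lt_of_le_of_ne (by positivity) (Ne.symm h)
    have hs : 0 < Real.sqrt (a ^ 2 + b ^ 2) := Real.sqrt_pos.2 h0
    have hq := Real.sq_sqrt h0.le
    refine ⟨b / Real.sqrt (a ^ 2 + b ^ 2), -a / Real.sqrt (a ^ 2 + b ^ 2), ?_, ?_⟩
    · rw [div_pow, div_pow, ← add_div, hq, div_eq_one_iff_eq h]
      ring
    · ring

/-- The core of the algebraic lemma, in an adapted orthonormal frame. -/
lemma canon {α p a m n b β : ℝ} (hβ : 0 ≤ β) (htr : α + a + b = 0) {g : V}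
    (h : ∀ x y z : ℝ, g 0 * x + g 1 * y + g 2 * z = 0 →
      (α * x + p * y) ^ 2 + (p * x + a * y + m * z) ^ 2 + (n * y + b * z) ^ 2
        ≤ β ^ 2 * (x ^ 2 + y ^ 2 + z ^ 2)) : |α| ≤ 2 * β := by
  obtain ⟨c, s, hcs, hg⟩ := exists_unit (g 0) (g 2)
  obtain ⟨c', s', hcs', hg'⟩ := exists_unit (g 0) (g 1)
  have h1 := h c 0 s (by linarith)
  have h2 := h c' s' 0 (by linarith)
  by_cases hα : |α| ≤ β
  · linarith
  push Not at hα
  have hα2 : β ^ 2 < α ^ 2 := by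
    rw [← sq_abs α]
    gcongr
  have hb : b ^ 2 ≤ β ^ 2 := by
    by_contra hcon
    push Not at hcon
    have e1 : (α * c + p * 0) ^ 2 + (p * c + a * 0 + m * s) ^ 2 + (n * 0 + b * s) ^ 2
        ≥ α ^ 2 * c ^ 2 + b ^ 2 * s ^ 2 := by nlinarith [sq_nonneg (p * c + m * s)]
    have e2 : β ^ 2 * (c ^ 2 + 0 ^ 2 + s ^ 2) = β ^ 2 * c ^ 2 + β ^ 2 * s ^ 2 := by ring
    have e3 : (α ^ 2 - β ^ 2) * c ^ 2 + (b ^ 2 - β ^ 2) * s ^ 2 ≤ 0 := by nlinarith
    have e4 : 0 ≤ (α ^ 2 - β ^ 2) * c ^ 2 := by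
      have : 0 ≤ α ^ 2 - β ^ 2 := by linarith
      positivity
    have e5 : 0 ≤ (b ^ 2 - β ^ 2) * s ^ 2 := by
      have : 0 ≤ b ^ 2 - β ^ 2 := by linarith
      positivity
    have e6 : (α ^ 2 - β ^ 2) * c ^ 2 = 0 := by linarith
    have e7 : (b ^ 2 - β ^ 2) * s ^ 2 = 0 := by linarith
    have e8 : c ^ 2 = 0 := by
      rcases mul_eq_zero.1 e6 with h | h
      · linarith
      · exact h
    have e9 : s ^ 2 = 0 := by
      rcases mul_eq_zero.1 e7 with h | h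
      · linarith
      · exact h
    linarith
  have hb' : |b| ≤ β := abs_le_of_sq_le_sq hb hβ
  set X := α * c' + p * s' with hX
  set Y := p * c' + a * s' with hY
  have hXY : X ^ 2 + Y ^ 2 ≤ β ^ 2 := by
    have e1 : (α * c' + p * s') ^ 2 + (p * c' + a * s' + m * 0) ^ 2 + (n * s' + b * 0) ^ 2
        = X ^ 2 + Y ^ 2 + (n * s') ^ 2 := by rw [hX, hY]; ring
    have e2 : β ^ 2 * (c' ^ 2 + s' ^ 2 + 0 ^ 2) = β ^ 2 := by
      have : c' ^ 2 + s' ^ 2 + 0 ^ 2 = 1 := by linarith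
      rw [this, mul_one]
    rw [e1, e2] at h2
    nlinarith [sq_nonneg (n * s')]
  have e1 : c' * X - s' * Y = α + b * s' ^ 2 := by
    have ha : a = -α - b := by linarith
    rw [hX, hY, ha]
    linear_combination α * hcs'
  have e2 : (c' * X - s' * Y) ^ 2 ≤ β ^ 2 := by
    have : (c' * X - s' * Y) ^ 2 + (s' * X + c' * Y) ^ 2 = (c' ^ 2 + s' ^ 2) * (X ^ 2 + Y ^ 2) := by
      ring
    rw [hcs', one_mul] at this
    nlinarith [sq_nonneg (s' * X + c' * Y)]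
  rw [e1] at e2
  have e3 := abs_le.1 (abs_le_of_sq_le_sq e2 hβ)
  have e4 : |b * s' ^ 2| ≤ β := by
    rw [abs_mul, abs_of_nonneg (sq_nonneg s')]
    have : s' ^ 2 ≤ 1 := by nlinarith [sq_nonneg c']
    calc |b| * s' ^ 2 ≤ |b| * 1 := by gcongr
      _ ≤ β := by linarith
  have e5 := abs_le.1 e4
  rw [abs_le]
  constructor <;> linarith [e3.1, e3.2, e5.1, e5.2]

/-- A unit vector orthogonal to two given vectors. -/
lemma exists_orth (y z : V) : ∃ v : V, v ⬝ᵥ v = 1 ∧ y ⬝ᵥ v = 0 ∧ z ⬝ᵥ v = 0 := by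
  have hdet : (Matrix.of ![y, z, 0] : Matrix (Fin 3) (Fin 3) ℝ).det = 0 := by
    apply Matrix.det_eq_zero_of_row_eq_zero 2
    intro j
    simp
  obtain ⟨v, hv, hv0⟩ := Matrix.exists_mulVec_eq_zero_iff.2 hdet
  have h0 := congrFun hv0 0
  have h1 := congrFun hv0 1
  simp only [Matrix.mulVec, Matrix.of_apply, Matrix.cons_val_zero, Matrix.cons_val_one,
    Pi.zero_apply] at h0 h1
  have hn := nrm_pos hv
  refine ⟨(nrm v)⁻¹ • v, ?_, ?_, ?_⟩
  · rw [smul_dotProduct, dotProduct_smul, ← nrm_sq, smul_eq_mul, smul_eq_mul]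
    field_simp
  · rw [dotProduct_smul, h0, smul_zero]
  · rw [dotProduct_smul, h1, smul_zero]

lemma curl_swap (M : Matrix (Fin 3) (Fin 3) ℝ) (v : V) :
    v ⬝ᵥ M.mulVec (cv M) = cv M ⬝ᵥ M.mulVec v := by
  simp [cv, Matrix.mulVec, dotProduct, Fin.sum_univ_three]
  ring

lemma MidLE.nonneg {M : Matrix (Fin 3) (Fin 3) ℝ} {β : ℝ} (h : MidLE M β) : 0 ≤ β := by
  obtain ⟨g, hg⟩ := h
  obtain ⟨v, hv1, hv2, -⟩ := exists_orth g g
  have h1 := hg v hv2
  have h2 : nrm v = 1 := by rw [nrm, hv1, Real.sqrt_one]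
  rw [h2, mul_one] at h1
  exact (nrm_nonneg _).trans h1

/-- The stretching rate is at most twice the second singular value. -/
theorem stretch_le {M : Matrix (Fin 3) (Fin 3) ℝ} (htr : M.trace = 0) {β : ℝ} (hM : MidLE M β) :
    |cv M ⬝ᵥ M.mulVec (cv M)| ≤ 2 * β * (cv M ⬝ᵥ cv M) := by
  have hβ := hM.nonneg
  obtain ⟨g, hg⟩ := hM
  by_cases hw : cv M = 0
  · rw [hw]; simp
  have hn := nrm_pos hw
  set w := cv M with hwdef
  set ξ : V := (nrm w)⁻¹ • w with hξ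
  have hξ1 : ξ ⬝ᵥ ξ = 1 := by
    rw [hξ, smul_dotProduct, dotProduct_smul, ← nrm_sq, smul_eq_mul, smul_eq_mul]
    field_simp
  obtain ⟨ζ, hζ1, hξζ, hMζ⟩ := exists_orth ξ (M.mulVec ξ)
  set η : V := ![ζ 1 * ξ 2 - ζ 2 * ξ 1, ζ 2 * ξ 0 - ζ 0 * ξ 2, ζ 0 * ξ 1 - ζ 1 * ξ 0] with hη
  have x1 : ξ 0 * ξ 0 + ξ 1 * ξ 1 + ξ 2 * ξ 2 = 1 := by
    simpa [dotProduct, Fin.sum_univ_three] using hξ1
  have x2 : ζ 0 * ζ 0 + ζ 1 * ζ 1 + ζ 2 * ζ 2 = 1 := by
    simpa [dotProduct, Fin.sum_univ_three] using hζ1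
  have x3 : ξ 0 * ζ 0 + ξ 1 * ζ 1 + ξ 2 * ζ 2 = 0 := by
    simpa [dotProduct, Fin.sum_univ_three] using hξζ
  have hη1 : η ⬝ᵥ η = 1 := by
    simp only [hη, dotProduct, Fin.sum_univ_three, Matrix.cons_val_zero, Matrix.cons_val_one,
      Matrix.cons_val]
    linear_combination x2 + (ζ 0 * ζ 0 + ζ 1 * ζ 1 + ζ 2 * ζ 2) * (x1 - 1)
      - (ξ 0 * ζ 0 + ξ 1 * ζ 1 + ξ 2 * ζ 2) * x3
  have hξη : ξ ⬝ᵥ η = 0 := by
    simp only [hη, dotProduct, Fin.sum_univ_three, Matrix.cons_val_zero, Matrix.cons_val_one,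
      Matrix.cons_val]
    ring
  have hζη : ζ ⬝ᵥ η = 0 := by
    simp only [hη, dotProduct, Fin.sum_univ_three, Matrix.cons_val_zero, Matrix.cons_val_one,
      Matrix.cons_val]
    ring
  -- the orthogonal matrix with rows `ξ, η, ζ`
  set Q : Matrix (Fin 3) (Fin 3) ℝ := Matrix.of ![ξ, η, ζ] with hQ
  have hQQ : Q * Q.transpose = 1 := by
    ext i j
    have e : (Q * Q.transpose) i j = Q i ⬝ᵥ Q j := rfl
    rw [e]
    have q0 : Q 0 = ξ := rfl
    have q1 : Q 1 = η := rfl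
    have q2 : Q 2 = ζ := rfl
    fin_cases i <;> fin_cases j <;>
      simp [q0, q1, q2, hξ1, hη1, hζ1, hξζ, hξη, hζη, dotProduct_comm η ξ, dotProduct_comm ζ ξ,
        dotProduct_comm η ζ]
  have hQQ' : Q.transpose * Q = 1 := mul_eq_one_comm.1 hQQ
  set N : Matrix (Fin 3) (Fin 3) ℝ := Q * M * Q.transpose with hN
  have hNtr : N.trace = 0 := by
    rw [hN, Matrix.trace_mul_comm, ← Matrix.mul_assoc, hQQ', one_mul, htr]
  have hNij : ∀ i j, N i j = Q i ⬝ᵥ M.mulVec (Q j) := by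
    intro i j
    simp only [hN, Matrix.mul_apply, Matrix.transpose_apply, Matrix.mulVec, dotProduct,
      Fin.sum_univ_three]
    ring
  have q0 : Q 0 = ξ := rfl
  have q1 : Q 1 = η := rfl
  have q2 : Q 2 = ζ := rfl
  have hswap : ∀ v : V, v ⬝ᵥ M.mulVec ξ = ξ ⬝ᵥ M.mulVec v := by
    intro v
    rw [hξ, Matrix.mulVec_smul, dotProduct_smul, smul_dotProduct, curl_swap]
  have n20 : N 2 0 = 0 := by
    rw [hNij, q2, q0, dotProduct_comm]
    exact hMζ
  have n02 : N 0 2 = 0 := by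
    rw [hNij, q2, q0, ← hswap, dotProduct_comm]
    exact hMζ
  have n01 : N 0 1 = N 1 0 := by
    rw [hNij, hNij, q1, q0, hswap]
  have hnorm : ∀ y : V, nrm (Q.transpose.mulVec y) = nrm y := by
    intro y
    unfold nrm
    congr 1
    rw [Matrix.dotProduct_mulVec, Matrix.vecMul_transpose, Matrix.mulVec_mulVec, hQQ,
      Matrix.one_mulVec]
  have hnorm' : ∀ y : V, nrm (Q.mulVec y) = nrm y := by
    intro y
    rw [← hnorm (Q.mulVec y), Matrix.mulVec_mulVec, hQQ', Matrix.one_mulVec]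
  have hα : |N 0 0| ≤ 2 * β := by
    refine canon (p := N 1 0) (a := N 1 1) (m := N 1 2) (n := N 2 1) (b := N 2 2) hβ ?_
      (g := Q.mulVec g) ?_
    · simpa [Matrix.trace, Fin.sum_univ_three] using hNtr
    · intro x y z hxyz
      have h1 : (Q.mulVec g) ⬝ᵥ ![x, y, z] = 0 := by
        simpa [dotProduct, Fin.sum_univ_three] using hxyz
      have h2 : g ⬝ᵥ (Q.transpose.mulVec ![x, y, z]) = 0 := by
        rw [Matrix.dotProduct_mulVec, Matrix.vecMul_transpose]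
        exact h1
      have h3 := hg _ h2
      rw [hnorm, ← hnorm' (M.mulVec _), Matrix.mulVec_mulVec, Matrix.mulVec_mulVec] at h3
      have h4 : Q * M * Q.transpose = N := rfl
      rw [h4] at h3
      have h5 : nrm (N.mulVec ![x, y, z]) ^ 2 ≤ (β * nrm ![x, y, z]) ^ 2 := by
        have := nrm_nonneg (N.mulVec ![x, y, z])
        gcongr
      rw [mul_pow, nrm_sq, nrm_sq] at h5
      simp only [Matrix.mulVec, dotProduct, Fin.sum_univ_three, Matrix.cons_val_zero,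
        Matrix.cons_val_one, Matrix.cons_val, n20, n02, n01] at h5
      nlinarith [h5]
  have hN00 : N 0 0 = ((nrm w) ^ 2)⁻¹ * (w ⬝ᵥ M.mulVec w) := by
    rw [hNij, q0, hξ, Matrix.mulVec_smul, dotProduct_smul, smul_dotProduct, smul_eq_mul,
      smul_eq_mul]
    field_simp
  rw [hN00, abs_mul, abs_of_pos (by positivity), inv_mul_le_iff₀ (by positivity), nrm_sq] at hα
  linarith

end Pool.Agent.W786.Sv
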