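import Pool.Agent.W786.Tb1
import Pool.Agent.W786.St6

/-!
# The differential inequality with a Hölder term
-/

open MeasureTheory Set Filter
open scoped ENNReal NNReal Topology

namespace Pool.Agent.W786.St

open Pool.Agent.H708R2.EulerSign Pool.Agent.H708R2.EulerTypeI Pool.Agent.W786.Dir
  Pool.Agent.W786.One Pool.Agent.W786.Max
open H459R3.NS (cube pd SP Per lap enstrophy energy palin third IsSol enstrophy_nonneg
  energy_nonneg palin_nonneg third_nonneg C4 C4_nonneg)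

/-- The bound of the rate in normalized form, with a Hölder term. -/
lemma rate_normh {v : V → V} (hv : ∀ i, SP (fun y => v y i)) (hdiv : ∀ x, divergence v x = 0)
    {ν E M : ℝ} (hν : 0 < ν) (hE : energy v ≤ E) {e x₀ : V} (he : nrm e = 1) {K g b α r : ℝ}
    (hK : 0 ≤ K) (hg : 0 ≤ g) (hb : 0 ≤ b) (hα : 0 < α) (hr : 0 < r) (hr1 : r ≤ 1)
    (htw : ∀ y, nrm y < r → twistE v e x₀ y
      ≤ nrm y ^ 2 * (g + K * nrm y * (1 - Real.log (nrm y)) * gr v (x₀ + y)
        + b * (nrm y / r) ^ α))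
    (hGM : enstrophy v ≤ M) (hνM : ν ^ 2 ≤ M) (hPM : palin v ≤ Cp * (M ^ 3 / ν ^ 4))
    {X y z q w R1 R2 : ℝ} (hX : X = 1 + (Real.log M / 2 - Real.log ν))
    (hy : y = enstrophy v / ν ^ 2)
    (hz : z = palin v / ν ^ 2 / (1 + y) ^ 2) (hq : q = palin v / ν ^ 2)
    (hw : w = third v / ν ^ 2 / (1 + q) ^ 2) (hR1 : 0 ≤ R1)
    (hRR : Real.sqrt E * r ^ (-(5 / 2) : ℝ) = R1 + R2) :
    rate v e x₀ ≤ X * ((9 + Cl) * Cs * (ν * K * (1 + y + z) + R1
      + g + ν * (1 + w))) + 6 * Cs * (b / α + R2) := by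
  have hG0 : 0 ≤ enstrophy v := enstrophy_nonneg v
  have hP0 : 0 ≤ palin v := palin_nonneg v
  have hW0 : 0 ≤ third v := third_nonneg v
  have hy0 : 0 ≤ y := by rw [hy]; positivity
  have hq0 : 0 ≤ q := by rw [hq]; positivity
  have hz0 : 0 ≤ z := by rw [hz]; positivity
  have hw0 : 0 ≤ w := by rw [hw]; positivity
  have hσ0 : 0 < 1 / (2 * (1 + y)) := by positivity
  have hσ1 : 1 / (2 * (1 + y)) ≤ 1 / 2 := by
    rw [div_le_div_iff₀ (by positivity) (by norm_num)]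
    linarith
  have hd0 : 0 < 1 / (2 * (1 + q)) := by positivity
  have hd1 : 1 / (2 * (1 + q)) ≤ 1 / 2 := by
    rw [div_le_div_iff₀ (by positivity) (by norm_num)]
    linarith
  have hδ0 : 0 < (1 / (2 * (1 + q))) ^ 2 := by positivity
  have hδ1 : (1 / (2 * (1 + q))) ^ 2 ≤ 1 / 2 := by
    have : (1 / (2 * (1 + q))) ^ 2 ≤ (1 / 2) ^ 2 := pow_le_pow_left₀ hd0.le hd1 2
    norm_num at this ⊢
    linarith
  have h1 := rate_leh (ρ := r / 2) (R := r) hv hdiv (int_gsq hv).le (int_hsq hv).le hK hg hb hr hα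
    (by linarith)
    (fun y hy => htw y (hy.trans (by linarith))) he (by positivity) (by linarith)
    ((int_vsq hv).le.trans hE) (int_tsq hv).le hσ0 hσ1 hδ0 hδ1
  obtain ⟨hX1, hl1, hl2⟩ := log_norm hν hνM hGM hPM hX hG0 hP0 hy hq
  have hs := sum_norm hν hG0 hP0 hy hz rfl
  have hsm := small_norm hν hP0 hW0 hq hw rfl
  have hen := energy_norm E hr
  have hs0 : 0 ≤ Real.sqrt (enstrophy v) * (1 / (2 * (1 + y)))
      + Real.sqrt (palin v) * Real.sqrt (1 / (2 * (1 + y)))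
      + Real.sqrt (enstrophy v) * (Real.sqrt (1 / (2 * (1 + y))))⁻¹ := by positivity
  have hX0 : 0 ≤ X := by linarith
  have hCs := Cs_nonneg
  rw [hRR] at hen
  have h2 := fin_norm (K := K) (N1 := ν * K * (1 + y + z)) (N2 := ν * (1 + w)) (R := R1) (g := g)
    (X := X) (L := K * (1 - Real.log (1 / (2 * (1 + y)))))
    (S := Real.sqrt (enstrophy v) * (1 / (2 * (1 + y)))
      + Real.sqrt (palin v) * Real.sqrt (1 / (2 * (1 + y)))
      + Real.sqrt (enstrophy v) * (Real.sqrt (1 / (2 * (1 + y))))⁻¹)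
    (Dl := -Real.log ((1 / (2 * (1 + q))) ^ 2)) (En := 6 * R1)
    (Sm := Real.sqrt (palin v) * (1 / (2 * (1 + q))) ^ 2
      + Real.sqrt (third v) * Real.sqrt ((1 / (2 * (1 + q))) ^ 2))
    hX1 (by positivity) (by positivity) hR1 hg ?_ le_rfl hl2 hsm hK
  · have h3 := mul_le_mul_of_nonneg_left hen hCs
    have h4 : 0 ≤ Cs * (b / α) := by positivity
    have e1 : 6 * Cs * (b / α + R2) = 6 * (Cs * (b / α)) + Cs * (6 * R2) := by ring
    have e2 : Cs * (6 * (R1 + R2)) = Cs * (6 * R1) + Cs * (6 * R2) := by ring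
    rw [e1]
    rw [e2] at h3
    refine h1.trans ?_
    simp only [mul_add] at h2 h3 ⊢
    linarith
  · calc K * (1 - Real.log (1 / (2 * (1 + y)))) * (Real.sqrt (enstrophy v) * (1 / (2 * (1 + y)))
      + Real.sqrt (palin v) * Real.sqrt (1 / (2 * (1 + y)))
      + Real.sqrt (enstrophy v) * (Real.sqrt (1 / (2 * (1 + y))))⁻¹)
      ≤ K * (3 * X) * (3 * (ν * (1 + y + z))) :=
        mul_le_mul (mul_le_mul_of_nonneg_left hl1 hK) hs hs0 (by positivity)
    _ = 9 * (X * (ν * K * (1 + y + z))) := by ring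

variable {ν T : ℝ} {u : ℝ → V → V} {p : ℝ → V → ℝ}

/-- The differential inequality. -/
lemma XX_derivh (h : IsSol ν T u p) (hν : 0 < ν) {A : ℝ} (hA : ν ≤ A)
    (hAE : energy (u 0) ≤ A ^ 2) (hAP : palin (u 0) ≤ A ^ 2) {K g b α r t R1 R2 : ℝ} (hK : 0 ≤ K)
    (hg : 0 ≤ g) (hb : 0 ≤ b) (hα : 0 < α) (hr : 0 < r) (hr1 : r ≤ 1) (ht : t ∈ Ioo 0 T) {x : V}
    (hx : IsMaxPt u t x)
    (hR1 : 0 ≤ R1) (hR2 : 0 ≤ R2)
    (hRR : Real.sqrt (energy (u 0)) * r ^ (-(5 / 2) : ℝ) = R1 + R2)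
    (htw : A < nrm (vort (u t) x) →
      (∀ s ∈ Ico 0 t, ∀ y, nrm (vort (u s) y) < nrm (vort (u t) x)) → ∀ y, nrm y < r →
      twistE (u t) (vort (u t) x) x y ≤ nrm y ^ 2 * nrm (vort (u t) x) ^ 2
        * (g + K * nrm y * (1 - Real.log (nrm y)) * gr (u t) (x + y) + b * (nrm y / r) ^ α))
    {d : ℝ} (hd : HasDerivAt (fun s => Real.log (XX ν A u s)) d t) :
    d ≤ (9 + Cl) * Cs * (ν * K * (1 + yy ν u t + zz ν u t) + R1 + g + ν * (1 + ww ν u t))
      + 6 * Cs * (b / α + R2) / XX ν A u t := by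
  set f := (9 + Cl) * Cs * (ν * K * (1 + yy ν u t + zz ν u t) + R1 + g + ν * (1 + ww ν u t)) with hf
  have hA0 : 0 < A := hν.trans_le hA
  have htI : t ∈ Ico 0 T := ⟨ht.1.le, ht.2⟩
  have hX1 := one_le_XX (u := u) hν hA
  have hXt : 0 < XX ν A u t := by linarith [hX1 t]
  have hCs := Cs_nonneg
  have hCl := Cl_nonneg
  have hf0 : 0 ≤ f := by
    have h1 := yy_nonneg (ν := ν) (u := u) t
    have h2 := zz_nonneg (ν := ν) (u := u) t
    have h4 := ww_nonneg (ν := ν) (u := u) t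
    positivity
  have h1 : HasDerivAt (fun s => XX ν A u s) (XX ν A u t * d) t := by
    have h2 := hd.exp
    rw [Real.exp_log hXt] at h2
    refine h2.congr_of_eventuallyEq (Eventually.of_forall fun s => ?_)
    exact (Real.exp_log (by linarith [hX1 s])).symm
  have h2 : HasDerivAt (fun s => Real.log (max (RM u s) (A ^ 2)) / 2) (XX ν A u t * d) t := by
    have h3 := (h1.sub_const 1).add_const (Real.log ν)
    refine h3.congr_of_eventuallyEq (Eventually.of_forall fun s => ?_)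
    unfold XX
    ring
  have h3 : XX ν A u t * d ≤ XX ν A u t * f + 6 * Cs * (b / α + R2) := by
    refine RM_deriv_le h hν.le hA0 ht hx (add_nonneg (mul_nonneg hXt.le hf0) (by positivity)) h2
      fun hAx hrec => ?_
    set w := vort (u t) x with hw
    have hn : 0 < nrm w := hA0.trans hAx
    have he : nrm ((nrm w)⁻¹ • w) = 1 := by
      rw [nrm_smul, abs_of_pos (inv_pos.2 hn), inv_mul_cancel₀ hn.ne']
    have hsp : ∀ i, SP (fun y => u t y i) := fun i => h.sp htI i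
    obtain ⟨b, hb1, hb2⟩ := exists_between ht.2
    obtain ⟨L, hL0, hL1, hL2⟩ := Wq_lip h hb2
    have hG : ∀ s ∈ Icc 0 t, enstrophy (u s) ≤ max (RM u t) (A ^ 2) := by
      intro s hs
      have hsI : s ∈ Ico 0 T := ⟨hs.1, hs.2.trans_lt ht.2⟩
      have hsb : s ∈ Icc 0 b := ⟨hs.1, hs.2.trans hb1.le⟩
      refine enstrophy_le (fun i => h.sp hsI i) (h.divfree s hsI) fun y => ?_
      rw [← Wq_eq]
      exact ((Wq_le_Mx hL1 hsb y).trans (Mx_le_RM hL1 ⟨hs.1, hs.2⟩ hb1.le)).trans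
        (le_max_left _ _)
    have hA2 : A ^ 2 ≤ max (RM u t) (A ^ 2) := le_max_right _ _
    have hM0 : 0 < max (RM u t) (A ^ 2) := lt_of_lt_of_le (by positivity) hA2
    have hM2 : Real.sqrt (max (RM u t) (A ^ 2)) ^ 2 = max (RM u t) (A ^ 2) :=
      Real.sq_sqrt hM0.le
    have hνM : ν ^ 2 ≤ max (RM u t) (A ^ 2) := le_trans (by gcongr) hA2
    have hP := palin_bound h hν htI (M := Real.sqrt (max (RM u t) (A ^ 2)))
      (fun s hs => by rw [hM2]; exact hG s hs) (by rw [hM2]; exact hAE.trans hA2)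
      (Real.le_sqrt_of_sq_le hνM) (by rw [hM2]; exact hAP.trans hA2)
    have e6 : Real.sqrt (max (RM u t) (A ^ 2)) ^ 6 = max (RM u t) (A ^ 2) ^ 3 := by
      rw [show (6 : ℕ) = 2 * 3 by norm_num, pow_mul, hM2]
    rw [e6] at hP
    refine rate_normh hsp (div_eq h htI) hν (h.energy_le hν htI) he hK hg hb hα hr hr1
      ?_ (hG t ⟨ht.1.le, le_rfl⟩) hνM hP rfl rfl rfl rfl rfl hR1 hRR
    intro y hy
    have h4 := htw hAx hrec y hy
    rw [twistE_smul]
    have h5 := mul_le_mul_of_nonneg_left h4 (show 0 ≤ (nrm w)⁻¹ ^ 2 by positivity)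
    refine h5.trans (le_of_eq ?_)
    field_simp
  have h4 : XX ν A u t * d
      ≤ XX ν A u t * (f + 6 * Cs * (b / α + R2) / XX ν A u t) := by
    refine h3.trans (le_of_eq ?_)
    field_simp
  exact le_of_mul_le_mul_left h4 hXt

end Pool.Agent.W786.St
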