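import Pool.Agent.W786.Tb2

/-!
# Growth of the maximum with a Type I term
-/

open MeasureTheory Set Filter
open scoped ENNReal NNReal Topology

namespace Pool.Agent.W786.St

open Pool.Agent.H708R2.EulerSign Pool.Agent.H708R2.EulerTypeI Pool.Agent.W786.Dir
  Pool.Agent.W786.One Pool.Agent.W786.Max
open H459R3.NS (cube pd SP Per lap enstrophy energy palin third IsSol enstrophy_nonneg
  energy_nonneg palin_nonneg third_nonneg C4 C4_nonneg)

variable {ν T : ℝ} {u : ℝ → V → V} {p : ℝ → V → ℝ}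

/-- Growth with an inhomogeneous term. -/
lemma growth_lin {X Θ θ f : ℝ → ℝ} {a b C : ℝ} (hab : a ≤ b) (hX : ∀ t ∈ Icc a b, 0 < X t)
    (hL : ∀ s ∈ Icc a b, ∀ t ∈ Icc a b, s ≤ t → Real.log (X t) - Real.log (X s) ≤ C * (t - s))
    (hΘ0 : Θ a = X a) (hΘ : ∀ t ∈ Icc a b, HasDerivAt Θ (θ t) t) (hθ : ∀ t ∈ Icc a b, 0 ≤ θ t)
    (hf : IntervalIntegrable f volume a b) (hf0 : ∀ᵐ t, t ∈ Ioo a b → 0 ≤ f t)
    (hd : ∀ᵐ t, t ∈ Ioo a b → ∀ d, HasDerivAt (fun s => Real.log (X s)) d t →
      d ≤ f t + θ t / X t) :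
    X b ≤ Θ b * Real.exp (∫ t in a..b, f t) := by
  have hmonoΘ : MonotoneOn Θ (Icc a b) := by
    refine monotoneOn_of_deriv_nonneg (convex_Icc _ _) (fun t ht => ?_) (fun t ht => ?_)
      (fun t ht => ?_)
    · exact (hΘ t ht).continuousAt.continuousWithinAt
    · exact (hΘ t (interior_subset ht)).differentiableAt.differentiableWithinAt
    · rw [(hΘ t (interior_subset ht)).deriv]
      exact hθ t (interior_subset ht)
  have haI : a ∈ Icc a b := ⟨le_rfl, hab⟩
  have hbI : b ∈ Icc a b := ⟨hab, le_rfl⟩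
  have hΘpos : ∀ t ∈ Icc a b, 0 < Θ t := fun t ht => by
    have := hmonoΘ haI ht ht.1
    rw [hΘ0] at this
    exact (hX a haI).trans_le this
  set G : ℝ → ℝ := fun t => Real.log (X t) - Real.log (Θ t) with hG
  have h1 := growth_of_ae (L := fun t => max (G t) 0) (C := |C|) (r := f) hab
    (by
      intro s hs t ht hst
      have e1 := hL s hs t ht hst
      have e2 := Real.log_le_log (hΘpos s hs) (hmonoΘ hs ht hst)
      have e3 : C * (t - s) ≤ |C| * (t - s) :=
        mul_le_mul_of_nonneg_right (le_abs_self C) (by linarith)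
      have e4 : 0 ≤ |C| * (t - s) := mul_nonneg (abs_nonneg _) (by linarith)
      have e5 : G t ≤ G s + |C| * (t - s) := by
        simp only [hG]
        linarith
      have e6 : max (G t) 0 ≤ max (G s) 0 + |C| * (t - s) := by
        refine max_le ?_ ?_
        · have := le_max_left (G s) 0
          linarith
        · have := le_max_right (G s) 0
          linarith
      linarith) hf (by
    filter_upwards [hf0, hd] with t ht1 ht2 htI d hd
    have htIc : t ∈ Icc a b := Ioo_subset_Icc_self htI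
    rcases lt_or_ge 0 (G t) with hGt | hGt
    · have hpos : ∀ᶠ s in 𝓝 t, 0 < max (G s) 0 := by
        refine hd.continuousAt.eventually (lt_mem_nhds ?_)
        exact lt_max_of_lt_left hGt
      have hG' : HasDerivAt G d t := by
        refine hd.congr_of_eventuallyEq ?_
        filter_upwards [hpos] with s hs
        rcases le_total (G s) 0 with h | h
        · rw [max_eq_right h] at hs
          exact absurd hs (lt_irrefl _)
        · exact (max_eq_left h).symm
      have h2 : HasDerivAt (fun s => Real.log (Θ s)) (θ t / Θ t) t :=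
        (hΘ t htIc).log (hΘpos t htIc).ne'
      have h3 : HasDerivAt (fun s => Real.log (X s)) (d + θ t / Θ t) t := by
        refine (hG'.add h2).congr_of_eventuallyEq (Eventually.of_forall fun s => ?_)
        simp [hG]
      have h4 := ht2 htI _ h3
      have h5 : Θ t ≤ X t := by
        have : Real.log (Θ t) < Real.log (X t) := by
          simp only [hG] at hGt
          linarith
        exact ((Real.log_lt_log_iff (hΘpos t htIc) (hX t htIc)).1 this).le
      have h6 : θ t / X t ≤ θ t / Θ t :=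
        div_le_div_of_nonneg_left (hθ t htIc) (hΘpos t htIc) h5
      linarith
    · have hmin : IsLocalMin (fun t => max (G t) 0) t := by
        refine Eventually.of_forall fun s => ?_
        simp only
        rw [max_eq_right hGt]
        exact le_max_right _ _
      rw [hmin.hasDerivAt_eq_zero hd]
      exact ht1 htI)
  have h2 : max (G a) 0 = 0 := by
    simp [hG, hΘ0]
  rw [h2, sub_zero] at h1
  have h3 : G b ≤ ∫ t in a..b, f t := (le_max_left _ _).trans h1
  have h4 : Real.log (X b) ≤ Real.log (Θ b) + ∫ t in a..b, f t := by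
    simp only [hG] at h3
    linarith
  calc X b = Real.exp (Real.log (X b)) := (Real.exp_log (hX b hbI)).symm
    _ ≤ Real.exp (Real.log (Θ b) + ∫ t in a..b, f t) := Real.exp_le_exp.2 h4
    _ = _ := by rw [Real.exp_add, Real.exp_log (hΘpos b hbI)]

/-- The growth of `XX`. -/
lemma growth_XX (h : IsSol ν T u p) {A : ℝ} (hν : 0 < ν) (hA : ν ≤ A) {a b κ : ℝ}
    (ha : 0 ≤ a) (hab : a ≤ b) (hb : b < T) (hκ : 0 ≤ κ) {f : ℝ → ℝ}
    (hf : IntervalIntegrable f volume a b) (hf0 : ∀ᵐ t, t ∈ Ioo a b → 0 ≤ f t)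
    (hd : ∀ᵐ t, t ∈ Ioo a b → ∀ d, HasDerivAt (fun s => Real.log (XX ν A u s)) d t →
      d ≤ f t + κ / (T - t) / XX ν A u t) :
    XX ν A u b ≤ (XX ν A u a + κ * Real.log ((T - a) / (T - b)))
      * Real.exp (∫ t in a..b, f t) := by
  have hX1 := one_le_XX (u := u) hν hA
  obtain ⟨C, hC⟩ := lip_log_XX h hν hA hb
  have hpos : ∀ t ∈ Icc a b, 0 < T - t := fun t ht => by linarith [ht.2]
  have hTa : 0 < T - a := by linarith
  refine growth_lin (X := XX ν A u) (Θ := fun s => XX ν A u a + κ * Real.log ((T - a) / (T - s)))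
    (θ := fun t => κ / (T - t)) (C := C) hab (fun t _ => by linarith [hX1 t])
    (fun s hs t ht hst => hC s ⟨ha.trans hs.1, hs.2⟩ t ⟨ha.trans ht.1, ht.2⟩ hst) ?_ ?_ ?_ hf hf0 hd
  · simp [div_self hTa.ne']
  · intro t ht
    have h1 : HasDerivAt (fun s : ℝ => T - s) (-1) t := by
      simpa using (hasDerivAt_id t).const_sub T
    have hp := hpos t ht
    have h2 : HasDerivAt (fun s : ℝ => (T - a) / (T - s)) ((T - a) / (T - t) ^ 2) t := by
      have h3 := (h1.inv hp.ne').const_mul (T - a)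
      refine (h3.congr_deriv ?_)
      ring
    have hq : 0 < (T - a) / (T - t) := div_pos hTa hp
    have h4 := ((h2.log hq.ne').const_mul κ).const_add (XX ν A u a)
    refine h4.congr_deriv ?_
    field_simp
  · intro t ht
    exact div_nonneg hκ (hpos t ht).le

/-- Monotonicity. -/
lemma XX_mono (h : IsSol ν T u p) {A : ℝ} (hA : 0 < A) {s t : ℝ} (hs : 0 ≤ s) (hst : s ≤ t)
    (ht : t < T) : XX ν A u s ≤ XX ν A u t := by
  obtain ⟨L, hL0, hL1, hL2⟩ := Wq_lip h ht
  have h1 := RM_mono hL1 hs hst le_rfl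
  unfold XX
  have h2 : max (RM u s) (A ^ 2) ≤ max (RM u t) (A ^ 2) := max_le_max_right _ h1
  have h3 := Real.log_le_log (lt_of_lt_of_le (by positivity) (le_max_right _ _)) h2
  linarith

/-- The vorticity in terms of `XX`. -/
lemma vort_le_XX (h : IsSol ν T u p) {A : ℝ} (hν : 0 < ν) (hA : ν ≤ A) {t : ℝ} (ht : t ∈ Ico 0 T)
    (x : V) : nrm (vort (u t) x) ≤ ν * Real.exp (XX ν A u t - 1) := by
  have hApos : 0 < A := hν.trans_le hA
  obtain ⟨b, hb1, hb2⟩ := exists_between ht.2
  obtain ⟨L, hL0, hL1, hL2⟩ := Wq_lip h hb2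
  have htb : t ∈ Icc 0 b := ⟨ht.1, hb1.le⟩
  have h1 : nrm (vort (u t) x) ^ 2 ≤ max (RM u t) (A ^ 2) := by
    rw [← Wq_eq]
    exact ((Wq_le_Mx hL1 htb x).trans (Mx_le_RM hL1 ⟨ht.1, le_rfl⟩ hb1.le)).trans
      (le_max_left _ _)
  have hpos : 0 < max (RM u t) (A ^ 2) := lt_of_lt_of_le (by positivity) (le_max_right _ _)
  have h2 : max (RM u t) (A ^ 2) = (ν * Real.exp (XX ν A u t - 1)) ^ 2 := by
    have e1 : XX ν A u t - 1 = Real.log (max (RM u t) (A ^ 2)) / 2 - Real.log ν := by
      unfold XX; ring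
    rw [e1, Real.exp_sub, Real.exp_log hν, mul_div_cancel₀ _ hν.ne', ← Real.exp_nat_mul]
    push_cast
    rw [mul_div_cancel₀ _ (two_ne_zero), Real.exp_log hpos]
  rw [h2] at h1
  exact (pow_le_pow_iff_left₀ (nrm_nonneg _) (by positivity) two_ne_zero).1 h1

/-- The initial value. -/
lemma XX_zero {A : ℝ} (hν : 0 < ν) (hA : ν ≤ A) (hA0 : ∀ x, nrm (vort (u 0) x) ≤ A) :
    XX ν A u 0 = 1 + Real.log (A / ν) := by
  have hApos : 0 < A := hν.trans_le hA
  unfold XX
  have h9 : max (RM u 0) (A ^ 2) = A ^ 2 := by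
    refine max_eq_right (RM_le le_rfl fun s hs => ?_)
    have : s = 0 := le_antisymm hs.2 hs.1
    rw [this]
    exact Mx_le hA0
  rw [h9, Real.log_pow, Real.log_div hApos.ne' hν.ne']
  push_cast
  ring

/-- The twist is at most the vorticity. -/
lemma twistE_le (v : V → V) (w x y : V) :
    twistE v w x y ≤ nrm y ^ 2 * nrm w ^ 2 * nrm (vort v (x + y)) := by
  unfold twistE
  have h1 := dot_le y w
  have h2 := dot_le (vort v (x + y)) (cross w y)
  have h3 := nrm_cross_le w y
  have h4 := nrm_nonneg (vort v (x + y))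
  have h5 := nrm_nonneg y
  have h6 := nrm_nonneg w
  calc (y ⬝ᵥ w) * (vort v (x + y) ⬝ᵥ cross w y)
      ≤ |(y ⬝ᵥ w) * (vort v (x + y) ⬝ᵥ cross w y)| := le_abs_self _
    _ = |y ⬝ᵥ w| * |vort v (x + y) ⬝ᵥ cross w y| := abs_mul _ _
    _ ≤ (nrm y * nrm w) * (nrm (vort v (x + y)) * (nrm w * nrm y)) := by
        refine mul_le_mul h1 (h2.trans ?_) (abs_nonneg _) (by positivity)
        gcongr
    _ = _ := by ring

/-- The integral of the homogeneous part of the rate. -/
lemma int_rate : ∃ C : ℝ, 0 ≤ C ∧ ∀ (ν T K S : ℝ) (u : ℝ → V → V) (p : ℝ → V → ℝ)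
    (g : ℝ → ℝ),
    0 < ν → 0 ≤ K → 0 < T → IsSol ν T u p →
    (∀ᵐ t, t ∈ Ioo 0 T → 0 ≤ g t) → IntegrableOn g (Ioo 0 T) →
    S = 1 + ν * T + energy (u 0) / ν ^ 2 + ∫ s in Ioo 0 T, g s → ∀ b ∈ Ico 0 T,
    IntervalIntegrable (fun t => (9 + Cl) * Cs * (ν * K * (1 + yy ν u t + zz ν u t)
        + Real.sqrt (energy (u 0)) * (1 + yy ν u t + g t / ν) + g t + ν * (1 + ww ν u t)))
        volume 0 b ∧
    ∫ t in (0 : ℝ)..b, (9 + Cl) * Cs * (ν * K * (1 + yy ν u t + zz ν u t)
        + Real.sqrt (energy (u 0)) * (1 + yy ν u t + g t / ν) + g t + ν * (1 + ww ν u t))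
      ≤ C * S * (K + S) := by
  obtain ⟨D, hD0, hD⟩ := cub_young
  have hCs := Cs_nonneg
  have hCl := Cl_nonneg
  have hC4 := C4_nonneg
  set c0 := (9 + Cl) * Cs with hc0
  have hc00 : 0 ≤ c0 := by positivity
  refine ⟨c0 * (23333 + D + 23328 * C4), by positivity,
    fun ν T K S u p g hν hK hT h hg hgi hS b hb => ?_⟩
  set E := energy (u 0) with hE
  have hE0 : 0 ≤ E := energy_nonneg _
  set Γ := ∫ s in Ioo 0 T, g s with hΓ
  have hΓ0 : 0 ≤ Γ := by
    refine integral_nonneg_of_ae ?_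
    rw [EventuallyLE, ae_restrict_iff' measurableSet_Ioo]
    filter_upwards [hg] with t ht1 ht2
    exact ht1 ht2
  have hνT : 0 ≤ ν * T := mul_nonneg hν.le hT.le
  have hEν : 0 ≤ E / ν ^ 2 := by positivity
  have hS1 : 1 ≤ S := by rw [hS]; linarith
  have hS0 : 0 ≤ S := by linarith
  have hsub : Icc 0 b ⊆ Ico 0 T := fun s hs => ⟨hs.1, hs.2.trans_lt hb.2⟩
  have iy : IntervalIntegrable (yy ν u) volume 0 b :=
    ((yy_cont h).mono hsub).intervalIntegrable_of_Icc hb.1
  have iz : IntervalIntegrable (zz ν u) volume 0 b :=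
    ((zz_cont h).mono hsub).intervalIntegrable_of_Icc hb.1
  have iw : IntervalIntegrable (ww ν u) volume 0 b :=
    ((ww_cont h).mono hsub).intervalIntegrable_of_Icc hb.1
  have ig : IntervalIntegrable g volume 0 b := by
    rw [intervalIntegrable_iff_integrableOn_Ioo_of_le hb.1]
    exact hgi.mono_set (Ioo_subset_Ioo_right hb.2.le)
  have i1 : IntervalIntegrable (fun t => 1 + yy ν u t) volume 0 b :=
    intervalIntegrable_const.add iy
  have i2 : IntervalIntegrable (fun t => 1 + yy ν u t + zz ν u t) volume 0 b := i1.add iz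
  have i3 : IntervalIntegrable (fun t => 1 + yy ν u t + g t / ν) volume 0 b :=
    i1.add (ig.div_const ν)
  have i4 : IntervalIntegrable (fun t => 1 + ww ν u t) volume 0 b :=
    intervalIntegrable_const.add iw
  have j1 : IntervalIntegrable (fun t => ν * K * (1 + yy ν u t + zz ν u t)) volume 0 b :=
    i2.const_mul _
  have j2 : IntervalIntegrable (fun t => Real.sqrt E * (1 + yy ν u t + g t / ν)) volume 0 b :=
    i3.const_mul _
  have j3 : IntervalIntegrable (fun t => ν * (1 + ww ν u t)) volume 0 b := i4.const_mul _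
  have j12 : IntervalIntegrable (fun t => ν * K * (1 + yy ν u t + zz ν u t)
      + Real.sqrt E * (1 + yy ν u t + g t / ν)) volume 0 b := j1.add j2
  have j123 : IntervalIntegrable (fun t => ν * K * (1 + yy ν u t + zz ν u t)
      + Real.sqrt E * (1 + yy ν u t + g t / ν) + g t) volume 0 b := j12.add ig
  have j1234 : IntervalIntegrable (fun t => ν * K * (1 + yy ν u t + zz ν u t)
      + Real.sqrt E * (1 + yy ν u t + g t / ν) + g t + ν * (1 + ww ν u t)) volume 0 b :=
    j123.add j3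
  refine ⟨j1234.const_mul _, ?_⟩
  have e1 : ∫ t in (0 : ℝ)..b, c0 * (ν * K * (1 + yy ν u t + zz ν u t)
      + Real.sqrt E * (1 + yy ν u t + g t / ν) + g t + ν * (1 + ww ν u t))
      = c0 * (K * (ν * b + ν * (∫ t in (0 : ℝ)..b, yy ν u t)
        + ν * ∫ t in (0 : ℝ)..b, zz ν u t)
        + Real.sqrt E * (b + (∫ t in (0 : ℝ)..b, yy ν u t) + (∫ t in (0 : ℝ)..b, g t) / ν)
        + (∫ t in (0 : ℝ)..b, g t) + (ν * b + ν * ∫ t in (0 : ℝ)..b, ww ν u t)) := by
    rw [intervalIntegral.integral_const_mul, intervalIntegral.integral_add j123 j3,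
      intervalIntegral.integral_add j12 ig, intervalIntegral.integral_add j1 j2,
      intervalIntegral.integral_const_mul, intervalIntegral.integral_const_mul,
      intervalIntegral.integral_const_mul,
      intervalIntegral.integral_add i1 iz, intervalIntegral.integral_add i1 (ig.div_const ν),
      intervalIntegral.integral_add intervalIntegrable_const iy,
      intervalIntegral.integral_add intervalIntegrable_const iw,
      intervalIntegral.integral_const, intervalIntegral.integral_div, smul_eq_mul]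
    ring
  have h2 := int_yy h hν hb
  have h3 := int_zz hD0 hD h hν hb
  have h4 := int_ww h hν hb
  have h5 : ∫ t in (0 : ℝ)..b, g t ≤ Γ := by
    rw [intervalIntegral.integral_of_le hb.1, integral_Ioc_eq_integral_Ioo]
    refine setIntegral_mono_set hgi ?_ (Ioo_subset_Ioo_right hb.2.le).eventuallyLE
    rw [EventuallyLE, ae_restrict_iff' measurableSet_Ioo]
    filter_upwards [hg] with t ht1 ht2
    exact ht1 ht2
  set Iy := ∫ t in (0 : ℝ)..b, yy ν u t with hIy
  set Iz := ∫ t in (0 : ℝ)..b, zz ν u t with hIz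
  set Iw := ∫ t in (0 : ℝ)..b, ww ν u t with hIw
  set Ig := ∫ t in (0 : ℝ)..b, g t with hIg
  have a1 : ν * b ≤ ν * T := mul_le_mul_of_nonneg_left hb.2.le hν.le
  have a2 : E / (2 * ν ^ 2) = E / ν ^ 2 / 2 := by
    rw [div_div, mul_comm (ν ^ 2) 2]
  rw [a2] at h2 h3
  have hνb : 0 ≤ ν * b := mul_nonneg hν.le hb.1
  have t1 : ν * b + ν * Iy + ν * Iz ≤ (1 + D) * S := by
    have b1 : 0 ≤ D * (ν * T) := mul_nonneg hD0 hνT
    have b2 : 0 ≤ D * (E / ν ^ 2) := mul_nonneg hD0 hEν
    have b3 : 0 ≤ D * Γ := mul_nonneg hD0 hΓ0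
    have b4 : (1 + D) * S = 1 + ν * T + E / ν ^ 2 + Γ + (D + D * (ν * T) + D * (E / ν ^ 2)
      + D * Γ) := by rw [hS]; ring
    have b5 : D * (E / ν ^ 2 / 2) = D * (E / ν ^ 2) / 2 := by ring
    rw [b4]
    rw [b5] at h3
    linarith
  have t2 : Real.sqrt E * (b + Iy + Ig / ν) ≤ S * S := by
    have b1 : b + Iy + Ig / ν = (ν * b + ν * Iy + Ig) / ν := by field_simp
    have b2 : ν * b + ν * Iy + Ig ≤ S := by rw [hS]; linarith
    have b3 : Real.sqrt E / ν ≤ S := by
      have b4 : Real.sqrt E / ν = Real.sqrt (E / ν ^ 2) := by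
        rw [Real.sqrt_div hE0, Real.sqrt_sq hν.le]
      rw [b4, Real.sqrt_le_left hS0]
      have b5 : E / ν ^ 2 ≤ S := by rw [hS]; linarith
      nlinarith
    rw [b1, mul_div_assoc', mul_comm, mul_div_assoc, mul_comm]
    rw [mul_comm (Real.sqrt E / ν)]
    exact mul_le_mul b2 b3 (by positivity) hS0
  have t3 : Ig ≤ S := by rw [hS]; linarith
  have t4 : ν * b + ν * Iw ≤ S + 23328 * (S * S) + 23328 * C4 * S := by
    have b1 : ν * T ≤ S := by rw [hS]; linarith
    have b2 : E / ν ^ 2 ≤ S := by rw [hS]; linarith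
    have b3 : 1 + ν * T ≤ S := by rw [hS]; linarith
    have b4 : 23328 * (ν * b) * (E / ν ^ 2 + C4) ≤ 23328 * S * (S + C4) := by
      have : ν * b ≤ S := a1.trans b1
      gcongr
    have b5 : 23328 * S * (S + C4) = 23328 * (S * S) + 23328 * C4 * S := by ring
    linarith
  have hSS : S ≤ S * S := le_mul_of_one_le_left hS0 hS1
  rw [e1]
  have h8 : c0 * (23333 + D + 23328 * C4) * S * (K + S)
      = c0 * ((23333 + D + 23328 * C4) * (S * K) + (23333 + D + 23328 * C4) * (S * S)) := by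
    ring
  rw [h8]
  refine mul_le_mul_of_nonneg_left ?_ hc00
  have b1 := mul_le_mul_of_nonneg_left t1 hK
  have b2 : K * ((1 + D) * S) = (1 + D) * (S * K) := by ring
  have b3 : 0 ≤ S * K := mul_nonneg hS0 hK
  have b4 : 0 ≤ D * (S * S) := mul_nonneg hD0 (mul_nonneg hS0 hS0)
  have b5 : 23328 * C4 * S ≤ 23328 * C4 * (S * S) := by gcongr
  have b6 : 0 ≤ C4 * (S * K) := mul_nonneg hC4 b3
  have b7 : (23333 + D + 23328 * C4) * (S * K)
      = 23333 * (S * K) + D * (S * K) + 23328 * (C4 * (S * K)) := by ring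
  have b8 : (23333 + D + 23328 * C4) * (S * S)
      = 23333 * (S * S) + D * (S * S) + 23328 * C4 * (S * S) := by ring
  have b9 : (1 + D) * (S * K) = S * K + D * (S * K) := by ring
  rw [b2, b9] at b1
  rw [b7, b8]
  linarith

end Pool.Agent.W786.St
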