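import Pool.Agent.W786.Tb3
import Pool.Agent.W786.St7

/-!
# One-point criterion with a Type I term
-/

open MeasureTheory Set Filter
open scoped ENNReal NNReal Topology

namespace Pool.Agent.W786.St

open Pool.Agent.H708R2.EulerSign Pool.Agent.H708R2.EulerTypeI Pool.Agent.W786.Dir
  Pool.Agent.W786.One Pool.Agent.W786.Max
open H459R3.NS (cube pd SP Per lap enstrophy energy palin third IsSol enstrophy_nonneg
  energy_nonneg palin_nonneg third_nonneg C4 C4_nonneg)

variable {ν T : ℝ} {u : ℝ → V → V} {p : ℝ → V → ℝ}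

/-- Integrability of a power of the distance to `T`. -/
lemma rpow_integrable (T B : ℝ) :
    IntegrableOn (fun t => B * (T - t) ^ (-(3 / 4) : ℝ)) (Ioo 0 T) := by
  rcases le_or_gt T 0 with hT | hT
  · rw [Ioo_eq_empty (not_lt.2 hT)]
    exact integrableOn_empty
  rw [← intervalIntegrable_iff_integrableOn_Ioo_of_le hT.le]
  have h1 : IntervalIntegrable (fun x : ℝ => x ^ (-(3 / 4) : ℝ)) volume 0 T :=
    intervalIntegral.intervalIntegrable_rpow' (by norm_num)
  have h2 := h1.comp_sub_left T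
  simp only [sub_zero, sub_self] at h2
  exact h2.symm.const_mul B

/-- The theorem. -/
theorem main'' : ∃ C : ℝ, 0 ≤ C ∧ ∀ (ν T K A S α κ : ℝ) (u : ℝ → V → V) (p : ℝ → V → ℝ)
    (g : ℝ → ℝ),
    0 < ν → 0 ≤ K → 0 < α → 0 ≤ κ → C * κ * (1 / α + Real.sqrt (energy (u 0)) / ν) ≤ 1 →
    ν ≤ A → energy (u 0) ≤ A ^ 2 → palin (u 0) ≤ A ^ 2 →
    (∀ x, nrm (vort (u 0) x) ≤ A) → IsSol ν T u p →
    (∀ᵐ t, t ∈ Ioo 0 T → 0 ≤ g t) → IntegrableOn g (Ioo 0 T) →
    S = 1 + ν * T + energy (u 0) / ν ^ 2 + ∫ s in Ioo 0 T, g s →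
    (∀ᵐ t, t ∈ Ioo 0 T → ∃ x, IsMaxPt u t x ∧ (A < nrm (vort (u t) x) →
      (∀ s ∈ Ico 0 t, ∀ y, nrm (vort (u s) y) < nrm (vort (u t) x)) → ∀ y,
      nrm y < (1 + enstrophy (u t) / ν ^ 2 + (g t + κ / (T - t)) / ν) ^ (-(2 / 5) : ℝ) →
      twistE (u t) (vort (u t) x) x y ≤ nrm y ^ 2 * nrm (vort (u t) x) ^ 2
        * (g t + K * nrm y * (1 - Real.log (nrm y)) * gr (u t) (x + y) + κ / (T - t)
          * (nrm y / (1 + enstrophy (u t) / ν ^ 2 + (g t + κ / (T - t)) / ν)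
            ^ (-(2 / 5) : ℝ)) ^ α))) →
    (∀ t ∈ Ico 0 T, ∀ x, nrm (vort (u t) x) ≤ ν * Real.exp ((1 + Real.log (A / ν)
      + C * κ * (1 / α + Real.sqrt (energy (u 0)) / ν) * Real.log (T / (T - t)))
      * Real.exp (C * S * (K + S)) - 1)) ∧
    ∃ B, ∀ t ∈ Ico 0 T, ∀ x i, |u t x i| ≤ B := by
  obtain ⟨C1, hC10, hC1⟩ := int_rate
  obtain ⟨C2, hC20, hC2⟩ := main'
  have hCs := Cs_nonneg
  have hCl := Cl_nonneg
  refine ⟨C1 + 12 * Cs, by positivity,
    fun ν T K A S α κ u p g hν hK hα hκ hsmall hA hAE hAP hA0 h hg hgi hS hmax => ?_⟩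
  rcases le_or_gt T 0 with hT | hT
  · have hem : ∀ t, t ∉ Ico 0 T := fun t ht => absurd (ht.1.trans_lt ht.2) (not_lt.2 hT)
    exact ⟨fun t ht => absurd ht (hem t), ⟨0, fun t ht => absurd ht (hem t)⟩⟩
  have hE0 : 0 ≤ energy (u 0) := energy_nonneg _
  have hrE := Real.sqrt_nonneg (energy (u 0))
  set E := energy (u 0) with hE
  set m := 1 / α + Real.sqrt E / ν with hm
  have hm0 : 0 ≤ m := by positivity
  have hApos : 0 < A := hν.trans_le hA
  have hX1 := one_le_XX (u := u) hν hA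
  have hS0 : 0 ≤ S := by
    have hΓ0 : 0 ≤ ∫ s in Ioo 0 T, g s := by
      refine integral_nonneg_of_ae ?_
      rw [EventuallyLE, ae_restrict_iff' measurableSet_Ioo]
      filter_upwards [hg] with t ht1 ht2
      exact ht1 ht2
    rw [hS]
    positivity
  set f : ℝ → ℝ := fun t => (9 + Cl) * Cs * (ν * K * (1 + yy ν u t + zz ν u t)
        + Real.sqrt E * (1 + yy ν u t + g t / ν) + g t + ν * (1 + ww ν u t)) with hf
  have hfi : ∀ b ∈ Ico 0 T, IntervalIntegrable f volume 0 b := fun b hb =>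
    (hC1 ν T K S u p g hν hK hT h hg hgi hS b hb).1
  have hfb : ∀ b ∈ Ico 0 T, ∫ t in (0 : ℝ)..b, f t ≤ C1 * S * (K + S) := fun b hb =>
    (hC1 ν T K S u p g hν hK hT h hg hgi hS b hb).2
  have hf0 : ∀ᵐ t, t ∈ Ioo 0 T → 0 ≤ f t := by
    filter_upwards [hg] with t ht htI
    have hgt := ht htI
    have h1 := yy_nonneg (ν := ν) (u := u) t
    have h2 := zz_nonneg (ν := ν) (u := u) t
    have h4 := ww_nonneg (ν := ν) (u := u) t
    simp only [hf]
    positivity
  have hder : ∀ᵐ t, t ∈ Ioo 0 T → ∀ d, HasDerivAt (fun s => Real.log (XX ν A u s)) d t →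
      d ≤ f t + 6 * Cs * κ * m / (T - t) / XX ν A u t := by
    filter_upwards [hg, hmax] with t ht1 ht2 htI d hd
    obtain ⟨x, hx, hxt⟩ := ht2 htI
    have hgt := ht1 htI
    have hTt : 0 < T - t := by linarith [htI.2]
    set b := κ / (T - t) with hb
    have hb0 : 0 ≤ b := div_nonneg hκ hTt.le
    have hy0 := yy_nonneg (ν := ν) (u := u) t
    set r : ℝ := (1 + enstrophy (u t) / ν ^ 2 + (g t + b) / ν) ^ (-(2 / 5) : ℝ) with hr
    have hone : 1 ≤ 1 + enstrophy (u t) / ν ^ 2 + (g t + b) / ν := by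
      have h2 : 0 ≤ (g t + b) / ν := by positivity
      have h3 : 0 ≤ enstrophy (u t) / ν ^ 2 := div_nonneg (enstrophy_nonneg _) (by positivity)
      linarith
    have hr0 : 0 < r := Real.rpow_pos_of_pos (by linarith) _
    have hr1 : r ≤ 1 := Real.rpow_le_one_of_one_le_of_nonpos hone (by norm_num)
    have hrr : r ^ (-(5 / 2) : ℝ) = 1 + enstrophy (u t) / ν ^ 2 + (g t + b) / ν := by
      rw [hr, ← Real.rpow_mul (by linarith), show (-(2 / 5) * -(5 / 2) : ℝ) = 1 by norm_num,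
        Real.rpow_one]
    have key := XX_derivh (R1 := Real.sqrt E * (1 + yy ν u t + g t / ν))
      (R2 := Real.sqrt E / ν * b) h hν hA hAE hAP hK hgt hb0 hα hr0 hr1 htI hx (by positivity)
      (by positivity) (by
        rw [hrr]
        have : yy ν u t = enstrophy (u t) / ν ^ 2 := rfl
        rw [this]
        field_simp
        ring) hxt hd
    have e1 : 6 * Cs * (b / α + Real.sqrt E / ν * b) / XX ν A u t
        = 6 * Cs * κ * m / (T - t) / XX ν A u t := by
      rw [hb, hm]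
      field_simp
    rw [e1] at key
    exact key
  have hκ2 : 0 ≤ 6 * Cs * κ * m := by positivity
  have hgrow : ∀ a b, 0 ≤ a → a ≤ b → b < T → XX ν A u b
      ≤ (XX ν A u a + 6 * Cs * κ * m * Real.log ((T - a) / (T - b)))
        * Real.exp (∫ t in a..b, f t) := by
    intro a b ha hab hb
    have hsub : Icc a b ⊆ Icc 0 b := Icc_subset_Icc_left ha
    refine growth_XX h hν hA ha hab hb hκ2 ?_ ?_ ?_
    · refine (hfi b ⟨ha.trans hab, hb⟩).mono_set ?_
      rw [uIcc_of_le hab, uIcc_of_le (ha.trans hab)]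
      exact hsub
    · filter_upwards [hf0] with t ht htI
      exact ht ⟨ha.trans_lt htI.1, htI.2.trans hb⟩
    · filter_upwards [hder] with t ht htI
      exact ht ⟨ha.trans_lt htI.1, htI.2.trans hb⟩
  have hlog0 : ∀ a b, a ≤ b → b < T → 0 ≤ Real.log ((T - a) / (T - b)) := by
    intro a b hab hb
    refine Real.log_nonneg ?_
    rw [le_div_iff₀ (by linarith)]
    linarith
  refine ⟨?_, ?_⟩
  · intro t ht x
    refine (vort_le_XX h hν hA ht x).trans
      (mul_le_mul_of_nonneg_left (Real.exp_le_exp.2 ?_) hν.le)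
    have h1 := hgrow 0 t le_rfl ht.1 ht.2
    rw [XX_zero hν hA hA0, sub_zero] at h1
    have h2 := hfb t ht
    have hl := hlog0 0 t ht.1 ht.2
    rw [sub_zero] at hl
    have hlA : 0 ≤ Real.log (A / ν) := Real.log_nonneg ((one_le_div hν).2 hA)
    have h3 : (1 + Real.log (A / ν) + 6 * Cs * κ * m * Real.log (T / (T - t)))
        * Real.exp (∫ t in (0 : ℝ)..t, f t)
        ≤ (1 + Real.log (A / ν) + (C1 + 12 * Cs) * κ * m * Real.log (T / (T - t)))
        * Real.exp ((C1 + 12 * Cs) * S * (K + S)) := by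
      have k1 : 6 * Cs * κ * m * Real.log (T / (T - t))
          ≤ (C1 + 12 * Cs) * κ * m * Real.log (T / (T - t)) := by
        refine mul_le_mul_of_nonneg_right ?_ hl
        refine mul_le_mul_of_nonneg_right ?_ hm0
        refine mul_le_mul_of_nonneg_right ?_ hκ
        linarith
      have k2 : C1 * S * (K + S) ≤ (C1 + 12 * Cs) * S * (K + S) := by
        refine mul_le_mul_of_nonneg_right ?_ (by positivity)
        refine mul_le_mul_of_nonneg_right ?_ hS0
        linarith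
      have k3 : 0 ≤ (C1 + 12 * Cs) * κ * m * Real.log (T / (T - t)) := by positivity
      refine mul_le_mul (by linarith) (Real.exp_le_exp.2 (h2.trans k2)) (Real.exp_pos _).le
        (by positivity)
    linarith
  · -- boundedness
    have h62 : 6 * Cs * κ * m ≤ 1 / 2 := by
      have : 12 * Cs * κ * m ≤ (C1 + 12 * Cs) * κ * m := by
        refine mul_le_mul_of_nonneg_right ?_ hm0
        refine mul_le_mul_of_nonneg_right ?_ hκ
        linarith
      linarith
    set F : ℝ → ℝ := fun b => ∫ t in (0 : ℝ)..b, f t with hF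
    have hbdd : BddAbove (F '' Ico 0 T) := ⟨C1 * S * (K + S), by
      rintro _ ⟨b, hb, rfl⟩
      exact hfb b hb⟩
    have hne : (F '' Ico 0 T).Nonempty := ⟨F 0, 0, ⟨le_rfl, hT⟩, rfl⟩
    have hε : 0 < Real.log (3 / 2) := Real.log_pos (by norm_num)
    obtain ⟨_, ⟨a, ha, rfl⟩, haF⟩ := exists_lt_of_lt_csSup hne
      (sub_lt_self (sSup (F '' Ico 0 T)) hε)
    have hab : ∀ b, a ≤ b → b < T → ∫ t in a..b, f t ≤ Real.log (3 / 2) := by
      intro b hb hbT
      have hbI : b ∈ Ico 0 T := ⟨ha.1.trans hb, hbT⟩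
      have h1 : F b ≤ sSup (F '' Ico 0 T) := le_csSup hbdd ⟨b, hbI, rfl⟩
      have h2 : ∫ t in a..b, f t = F b - F a :=
        (intervalIntegral.integral_interval_sub_left (hfi b hbI) (hfi a ha)).symm
      rw [h2]
      linarith
    set X0 := XX ν A u a with hX0
    have hX01 : 1 ≤ X0 := hX1 a
    set B := ν * Real.exp (3 / 2 * X0) * T ^ (3 / 4 : ℝ) with hB
    have hvb : ∀ t ∈ Ico 0 T, ∀ x, nrm (vort (u t) x) ≤ B * (T - t) ^ (-(3 / 4) : ℝ) := by
      intro t ht x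
      have hTt : 0 < T - t := by linarith [ht.2]
      have hq1 : 1 ≤ T / (T - t) := by
        rw [le_div_iff₀ hTt]
        linarith [ht.1]
      have hlq : 0 ≤ Real.log (T / (T - t)) := Real.log_nonneg hq1
      have h1 := vort_le_XX h hν hA ht x
      have h2 : XX ν A u t - 1 ≤ 3 / 2 * X0 + 3 / 4 * Real.log (T / (T - t)) := by
        rcases le_total t a with hta | hta
        · have := XX_mono (ν := ν) h hApos ht.1 hta ha.2
          linarith
        · have h3 := hgrow a t ha.1 hta ht.2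
          have h4 := hab t hta ht.2
          have h5 : Real.exp (∫ t in a..t, f t) ≤ 3 / 2 := by
            calc Real.exp (∫ t in a..t, f t) ≤ Real.exp (Real.log (3 / 2)) :=
                  Real.exp_le_exp.2 h4
              _ = 3 / 2 := Real.exp_log (by norm_num)
          have h6 : Real.log ((T - a) / (T - t)) ≤ Real.log (T / (T - t)) := by
            refine Real.log_le_log (div_pos (by linarith [ha.2]) hTt) ?_
            have : T - a ≤ T := by linarith [ha.1]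
            gcongr
          have h7 := hlog0 a t hta ht.2
          have h8 : 6 * Cs * κ * m * Real.log ((T - a) / (T - t))
              ≤ 1 / 2 * Real.log (T / (T - t)) := mul_le_mul h62 h6 h7 (by norm_num)
          have h9 : (X0 + 6 * Cs * κ * m * Real.log ((T - a) / (T - t)))
              * Real.exp (∫ t in a..t, f t)
              ≤ (X0 + 1 / 2 * Real.log (T / (T - t))) * (3 / 2) := by
            refine mul_le_mul (by linarith) h5 (Real.exp_pos _).le (by linarith)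
          linarith
      have h3 : B * (T - t) ^ (-(3 / 4) : ℝ)
          = ν * Real.exp (3 / 2 * X0 + 3 / 4 * Real.log (T / (T - t))) := by
        have e1 : Real.exp (3 / 4 * Real.log (T / (T - t))) = (T / (T - t)) ^ (3 / 4 : ℝ) := by
          rw [Real.rpow_def_of_pos (by positivity), mul_comm]
        rw [Real.exp_add, e1, Real.div_rpow hT.le hTt.le, Real.rpow_neg hTt.le, hB]
        field_simp
      rw [h3]
      exact h1.trans (mul_le_mul_of_nonneg_left (Real.exp_le_exp.2 h2) hν.le)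
    have hB0 : 0 ≤ B := by positivity
    refine (hC2 ν T 0 A _ u p (fun t => B * (T - t) ^ (-(3 / 4) : ℝ)) hν le_rfl hA hAE hAP hA0 h
      (Eventually.of_forall fun t ht => mul_nonneg hB0 (Real.rpow_nonneg (by linarith [ht.2]) _))
      (rpow_integrable T B) rfl ?_).2
    filter_upwards [hmax] with t ht htI
    obtain ⟨x, hx, -⟩ := ht htI
    refine ⟨x, hx, fun _ _ y _ => ?_⟩
    refine (twistE_le _ _ _ _).trans ?_
    have h1 := hvb t ⟨htI.1.le, htI.2⟩ (x + y)
    have h2 : nrm y ^ 2 * nrm (vort (u t) x) ^ 2 * nrm (vort (u t) (x + y))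
        ≤ nrm y ^ 2 * nrm (vort (u t) x) ^ 2 * (B * (T - t) ^ (-(3 / 4) : ℝ)) :=
      mul_le_mul_of_nonneg_left h1 (by positivity)
    simpa using h2

/-- With `w = curl v (x)`, for all `y` with `|y| < r`,
`(y · w) det (curl v (x + y), w, y)
  ≤ |y|² |w|² (g + K |y| (1 - log |y|) |∇v (x + y)| + h (|y| / r) ^ α)`. -/
def TwistLeH (v : V → V) (x : V) (K g h α r : ℝ) : Prop :=
  ∀ y, nrm y < r → (y ⬝ᵥ vort v x) * (vort v (x + y) ⬝ᵥ cross (vort v x) y)
    ≤ nrm y ^ 2 * nrm (vort v x) ^ 2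
      * (g + K * nrm y * (1 - Real.log (nrm y)) * gr v (x + y) + h * (nrm y / r) ^ α)

/-- The final form. -/
theorem final' : ∃ C : ℝ, 0 ≤ C ∧ ∀ (ν T K Λ α κ m : ℝ) (u : ℝ → V → V) (p : ℝ → V → ℝ)
    (g : ℝ → ℝ),
    0 < ν → 0 ≤ K → 0 < α → 0 ≤ κ → m = C * κ * (1 / α + Real.sqrt (energy (u 0)) / ν) →
    m ≤ 1 → IsSol ν T u p → (∀ᵐ t, t ∈ Ioo 0 T → 0 ≤ g t) → IntegrableOn g (Ioo 0 T) →
    (∀ᵐ t, t ∈ Ioo 0 T → ∃ x, IsMaxPt u t x ∧ (Λ < nrm (vort (u t) x) →
      (∀ s ∈ Ico 0 t, ∀ y, nrm (vort (u s) y) < nrm (vort (u t) x)) →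
      TwistLeH (u t) x K (g t) (κ / (T - t)) α
        ((1 + enstrophy (u t) / ν ^ 2 + (g t + κ / (T - t)) / ν) ^ (-(2 / 5) : ℝ)))) →
    (∃ B, ∀ t ∈ Ico 0 T, ∀ x i, |u t x i| ≤ B) ∧
    ∀ A S, ν ≤ A → Λ ≤ A → (∀ x, nrm (vort (u 0) x) ≤ A) → energy (u 0) ≤ A ^ 2 →
      palin (u 0) ≤ A ^ 2 → S = 1 + ν * T + energy (u 0) / ν ^ 2 + ∫ s in Ioo 0 T, g s →
      ∀ t ∈ Ico 0 T, ∀ x, nrm (vort (u t) x)
        ≤ ν * Real.exp ((1 + Real.log (A / ν) + m * Real.log (T / (T - t)))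
          * Real.exp (C * S * (K + S)) - 1) := by
  obtain ⟨C, hC0, hC⟩ := main''
  refine ⟨C, hC0, fun ν T K Λ α κ m u p g hν hK hα hκ hm hm1 h hg hgi hmax => ?_⟩
  have key := fun A S (hA : ν ≤ A) (hΛ : Λ ≤ A) (hA0 : ∀ x, nrm (vort (u 0) x) ≤ A)
    (hE : energy (u 0) ≤ A ^ 2) (hP : palin (u 0) ≤ A ^ 2)
    (hS : S = 1 + ν * T + energy (u 0) / ν ^ 2 + ∫ s in Ioo 0 T, g s) =>
    hC ν T K A S α κ u p g hν hK hα hκ (hm ▸ hm1) hA hE hP hA0 h hg hgi hS (by
      filter_upwards [hmax] with t ht htI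
      obtain ⟨x, hx, hxt⟩ := ht htI
      exact ⟨x, hx, fun hAx hrec => hxt (hΛ.trans_lt hAx) hrec⟩)
  refine ⟨?_, fun A S hA hΛ hA0 hE hP hS => by
    rw [hm]
    exact (key A S hA hΛ hA0 hE hP hS).1⟩
  rcases le_or_gt T 0 with hT | hT
  · exact ⟨0, fun t ht => absurd (ht.1.trans_lt ht.2) (not_lt.2 hT)⟩
  obtain ⟨b, hb1, hb2⟩ := exists_between hT
  obtain ⟨L, hL0, hL1, hL2⟩ := Wq_lip h hb2
  have h0 : ∀ x, nrm (vort (u 0) x) ≤ Real.sqrt L := by
    intro x
    refine Real.le_sqrt_of_sq_le ?_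
    rw [← Wq_eq]
    exact hL1 0 ⟨le_rfl, hb1.le⟩ x
  have hE0 := energy_nonneg (u 0)
  have hP0 := palin_nonneg (u 0)
  set A := ν + |Λ| + Real.sqrt L + Real.sqrt (energy (u 0)) + Real.sqrt (palin (u 0)) with hA
  have a1 := Real.sqrt_nonneg L
  have a2 := Real.sqrt_nonneg (energy (u 0))
  have a3 := Real.sqrt_nonneg (palin (u 0))
  have a4 := abs_nonneg Λ
  have a5 := le_abs_self Λ
  refine (key A _ (by rw [hA]; linarith) (by rw [hA]; linarith) (fun x => (h0 x).trans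
    (by rw [hA]; linarith)) ?_ ?_ rfl).2
  · calc energy (u 0) = Real.sqrt (energy (u 0)) ^ 2 := (Real.sq_sqrt hE0).symm
      _ ≤ A ^ 2 := pow_le_pow_left₀ a2 (by rw [hA]; linarith) 2
  · calc palin (u 0) = Real.sqrt (palin (u 0)) ^ 2 := (Real.sq_sqrt hP0).symm
      _ ≤ A ^ 2 := pow_le_pow_left₀ a3 (by rw [hA]; linarith) 2

end Pool.Agent.W786.St
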